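import Pool.Agent.H295R2.MK.Defs

set_option autoImplicit false

namespace H384MK

open Finset Filter Topology MeasureTheory Complex
open Pool.Agent.H306R2

noncomputable section

/-- coefficient of `V` -/
def vc (j n : ℕ) : ℝ := dv j n / Real.sqrt n

lemma vc_nonneg (j n : ℕ) : 0 ≤ vc j n :=
  div_nonneg (dv_nonneg (Nat.cast_nonneg j) n) (Real.sqrt_nonneg _)

lemma vc_le (j n : ℕ) (hn : 1 ≤ n) : vc j n ≤ (n : ℝ) ^ j := by
  unfold vc
  have h1 := PB_dA (Nat.cast_nonneg j) (le_refl (j : ℝ)) n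
  rw [dA_apply] at h1
  have h2 : dv j n ≤ (n : ℝ) ^ j := (le_abs_self _).trans h1
  have h3 : (1 : ℝ) ≤ Real.sqrt n := by
    rw [Real.one_le_sqrt]
    exact_mod_cast hn
  exact (div_le_self (dv_nonneg (Nat.cast_nonneg j) n) h3).trans h2

lemma fr_mul4 (a b c d : ℕ) (ha : 1 ≤ a) (hb : 1 ≤ b) (hc : 1 ≤ c) (hd : 1 ≤ d) (t : ℝ) :
    H295MK.fr 1 a t * H295MK.fr 1 b t *
      ((starRingEnd ℂ) (H295MK.fr 1 c t) * (starRingEnd ℂ) (H295MK.fr 1 d t)) =
      H295MK.fr (c * d) (a * b) t := by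
  unfold H295MK.fr
  rw [← Complex.exp_conj, ← Complex.exp_conj, ← Complex.exp_add, ← Complex.exp_add,
    ← Complex.exp_add]
  congr 1
  rw [map_mul, map_mul, Complex.conj_I, Complex.conj_ofReal, Complex.conj_ofReal]
  have ha' : (a : ℝ) ≠ 0 := by positivity
  have hb' : (b : ℝ) ≠ 0 := by positivity
  have hc' : (c : ℝ) ≠ 0 := by positivity
  have hd' : (d : ℝ) ≠ 0 := by positivity
  have e1 : Real.log ((a * b : ℕ) : ℝ) = Real.log a + Real.log b := by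
    push_cast
    exact Real.log_mul ha' hb'
  have e2 : Real.log ((c * d : ℕ) : ℝ) = Real.log c + Real.log d := by
    push_cast
    exact Real.log_mul hc' hd'
  rw [e1, e2, Nat.cast_one, Real.log_one]
  push_cast
  ring

/-- the fourth power of `V` -/
lemma VV_pow (j : ℕ) (X t : ℝ) : (((‖H295MK.VV j X t‖ ^ (2 * 2) : ℝ)) : ℂ) =
    ∑ a ∈ Icc 1 ⌊X⌋₊, ∑ b ∈ Icc 1 ⌊X⌋₊, ∑ c ∈ Icc 1 ⌊X⌋₊, ∑ d ∈ Icc 1 ⌊X⌋₊,
      ((vc j a * vc j b * (vc j c * vc j d) : ℝ) : ℂ) * H295MK.fr (c * d) (a * b) t := by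
  have h1 : (((‖H295MK.VV j X t‖ ^ (2 * 2) : ℝ)) : ℂ) =
      (H295MK.VV j X t * H295MK.VV j X t) *
      ((starRingEnd ℂ) (H295MK.VV j X t) * (starRingEnd ℂ) (H295MK.VV j X t)) := by
    have h2 : H295MK.VV j X t * (starRingEnd ℂ) (H295MK.VV j X t) =
        ((‖H295MK.VV j X t‖ ^ 2 : ℝ) : ℂ) := by
      rw [Complex.mul_conj, Complex.normSq_eq_norm_sq]
    calc (((‖H295MK.VV j X t‖ ^ (2 * 2) : ℝ)) : ℂ) = ((‖H295MK.VV j X t‖ ^ 2 : ℝ) : ℂ) ^ 2 := by
          push_cast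
          ring
      _ = (H295MK.VV j X t * (starRingEnd ℂ) (H295MK.VV j X t)) ^ 2 := by rw [h2]
      _ = _ := by ring
  rw [h1]
  have h3 : H295MK.VV j X t = ∑ n ∈ Icc 1 ⌊X⌋₊, ((vc j n : ℝ) : ℂ) * H295MK.fr 1 n t := rfl
  have h4 : (starRingEnd ℂ) (H295MK.VV j X t) =
      ∑ n ∈ Icc 1 ⌊X⌋₊, ((vc j n : ℝ) : ℂ) * (starRingEnd ℂ) (H295MK.fr 1 n t) := by
    rw [h3, map_sum]
    refine sum_congr rfl fun n _ => ?_
    rw [map_mul, Complex.conj_ofReal]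
  rw [h4, h3, Finset.sum_mul_sum, Finset.sum_mul_sum, Finset.sum_mul]
  refine sum_congr rfl fun a ha => ?_
  rw [Finset.sum_mul]
  refine sum_congr rfl fun b hb => ?_
  rw [Finset.mul_sum]
  refine sum_congr rfl fun c hc => ?_
  rw [Finset.mul_sum]
  refine sum_congr rfl fun d hd => ?_
  rw [mem_Icc] at ha hb hc hd
  rw [← fr_mul4 a b c d ha.1 hb.1 hc.1 hd.1 t]
  push_cast
  ring

lemma fr_cont (a b : ℕ) : Continuous (fun t : ℝ => H295MK.fr a b t) := by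
  unfold H295MK.fr
  fun_prop

lemma win_expand (j : ℕ) (X η δ T τ : ℝ) :
    ((H295MK.winR η δ T τ (fun t => ‖H295MK.VV j X t‖ ^ (2 * 2)) : ℝ) : ℂ) =
    ∑ a ∈ Icc 1 ⌊X⌋₊, ∑ b ∈ Icc 1 ⌊X⌋₊, ∑ c ∈ Icc 1 ⌊X⌋₊, ∑ d ∈ Icc 1 ⌊X⌋₊,
      ((vc j a * vc j b * (vc j c * vc j d) : ℝ) : ℂ) *
        H295MK.win η δ T τ (fun t => H295MK.fr (c * d) (a * b) t) := by
  unfold H295MK.winR H295MK.win
  rw [← intervalIntegral.integral_ofReal]
  have h1 : ∀ t : ℝ, ((‖H295MK.VV j X t‖ ^ (2 * 2) * gw τ (Ht η T) t : ℝ) : ℂ) =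
      ∑ a ∈ Icc 1 ⌊X⌋₊, ∑ b ∈ Icc 1 ⌊X⌋₊, ∑ c ∈ Icc 1 ⌊X⌋₊, ∑ d ∈ Icc 1 ⌊X⌋₊,
      ((vc j a * vc j b * (vc j c * vc j d) : ℝ) : ℂ) * (H295MK.fr (c * d) (a * b) t *
        (gw τ (Ht η T) t : ℂ)) := by
    intro t
    rw [Complex.ofReal_mul, VV_pow]
    simp only [Finset.sum_mul, mul_assoc]
  simp only [h1]
  have hc : ∀ a b c d : ℕ, Continuous fun t : ℝ =>
      ((vc j a * vc j b * (vc j c * vc j d) : ℝ) : ℂ) * (H295MK.fr (c * d) (a * b) t *
        (gw τ (Ht η T) t : ℂ)) := by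
    intro a b c d
    exact continuous_const.mul ((fr_cont _ _).mul
      (Complex.continuous_ofReal.comp (gw_continuous τ (Ht η T))))
  rw [intervalIntegral.integral_finset_sum fun a _ => by
    apply Continuous.intervalIntegrable
    exact continuous_finsetSum _ fun b _ => continuous_finsetSum _ fun c _ =>
      continuous_finsetSum _ fun d _ => hc a b c d]
  refine sum_congr rfl fun a _ => ?_
  rw [intervalIntegral.integral_finset_sum fun b _ => by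
    apply Continuous.intervalIntegrable
    exact continuous_finsetSum _ fun c _ => continuous_finsetSum _ fun d _ => hc a b c d]
  refine sum_congr rfl fun b _ => ?_
  rw [intervalIntegral.integral_finset_sum fun c _ => by
    apply Continuous.intervalIntegrable
    exact continuous_finsetSum _ fun d _ => hc a b c d]
  refine sum_congr rfl fun c _ => ?_
  rw [intervalIntegral.integral_finset_sum fun d _ => (hc a b c d).intervalIntegrable _ _]
  refine sum_congr rfl fun d _ => ?_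
  rw [intervalIntegral.integral_const_mul]

lemma N4_eq (j : ℕ) (X : ℝ) : H295MK.N4 j X =
    ∑ a ∈ Icc 1 ⌊X⌋₊, ∑ b ∈ Icc 1 ⌊X⌋₊, ∑ c ∈ Icc 1 ⌊X⌋₊, ∑ d ∈ Icc 1 ⌊X⌋₊,
      vc j a * vc j b * (vc j c * vc j d) * (if c * d = a * b then 1 else 0) := by
  unfold H295MK.N4
  refine sum_congr rfl fun a ha => sum_congr rfl fun b hb => sum_congr rfl fun c hc =>
    sum_congr rfl fun d hd => ?_
  by_cases h : a * b = c * d
  · rw [if_pos h, if_pos h.symm, mul_one]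
    unfold vc
    rw [mem_Icc] at ha hb
    have ha' : (0 : ℝ) < a := by exact_mod_cast ha.1
    have hb' : (0 : ℝ) < b := by exact_mod_cast hb.1
    have e : Real.sqrt a * Real.sqrt b * (Real.sqrt c * Real.sqrt d) = (a : ℝ) * b := by
      have hcd : (c : ℝ) * d = (a : ℝ) * b := by exact_mod_cast h.symm
      rw [← Real.sqrt_mul (Nat.cast_nonneg a), ← Real.sqrt_mul (Nat.cast_nonneg c), hcd,
        Real.mul_self_sqrt (by positivity)]
    rw [← e]
    rw [div_mul_div_comm, div_mul_div_comm, div_mul_div_comm]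
    congr 1
    ring
  · rw [if_neg h, if_neg (fun h' => h h'.symm), mul_zero]

/-- R5 -/
theorem T_WinV (h : H295MK.TwO) : H295MK.WinV := by
  intro j η δ hj hη hη2 hδ hδ1
  filter_upwards [h (2 * j + 2) η δ hη hη2 hδ hδ1, eventually_ge_atTop 1] with T hT hT1
  intro τ hτ1 hτ2
  have hT0 : 0 < T := by linarith
  have hY0 : 0 < Yt η T := Yt_pos hT0
  have hYT : Yt η T ≤ T := Yt_le hη hT1
  set X : ℝ := Yt η T ^ (1 / 2 : ℝ) with hX
  have hX0 : 0 ≤ X := Real.rpow_nonneg hY0.le _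
  have hX2 : X * X = Yt η T := by
    rw [hX, ← Real.rpow_add hY0]
    norm_num
  have hN : (⌊X⌋₊ : ℝ) ≤ X := Nat.floor_le hX0
  have hmem : ∀ n ∈ Icc 1 ⌊X⌋₊, (1 : ℕ) ≤ n ∧ (n : ℝ) ≤ X := by
    intro n hn
    rw [mem_Icc] at hn
    exact ⟨hn.1, (by exact_mod_cast hn.2 : (n : ℝ) ≤ ⌊X⌋₊).trans hN⟩
  have hab : ∀ a ∈ Icc 1 ⌊X⌋₊, ∀ b ∈ Icc 1 ⌊X⌋₊, (1 : ℕ) ≤ a * b ∧ ((a * b : ℕ) : ℝ) ≤ Yt η T := by
    intro a ha b hb
    obtain ⟨ha1, ha2⟩ := hmem a ha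
    obtain ⟨hb1, hb2⟩ := hmem b hb
    refine ⟨Nat.mul_pos ha1 hb1, ?_⟩
    push_cast
    rw [← hX2]
    exact mul_le_mul ha2 hb2 (Nat.cast_nonneg b) hX0
  have key : ‖((H295MK.winR η δ T τ (fun t => ‖H295MK.VV j X t‖ ^ (2 * 2)) -
      H295MK.N4 j X : ℝ) : ℂ)‖ ≤ 1 := by
    rw [Complex.ofReal_sub, win_expand, N4_eq]
    have e1 : ((∑ a ∈ Icc 1 ⌊X⌋₊, ∑ b ∈ Icc 1 ⌊X⌋₊, ∑ c ∈ Icc 1 ⌊X⌋₊, ∑ d ∈ Icc 1 ⌊X⌋₊,
        vc j a * vc j b * (vc j c * vc j d) * (if c * d = a * b then 1 else 0) : ℝ) : ℂ) =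
        ∑ a ∈ Icc 1 ⌊X⌋₊, ∑ b ∈ Icc 1 ⌊X⌋₊, ∑ c ∈ Icc 1 ⌊X⌋₊, ∑ d ∈ Icc 1 ⌊X⌋₊,
        ((vc j a * vc j b * (vc j c * vc j d) : ℝ) : ℂ) * (if c * d = a * b then 1 else 0) := by
      rw [Complex.ofReal_sum]
      refine sum_congr rfl fun a _ => ?_
      rw [Complex.ofReal_sum]
      refine sum_congr rfl fun b _ => ?_
      rw [Complex.ofReal_sum]
      refine sum_congr rfl fun c _ => ?_
      rw [Complex.ofReal_sum]
      refine sum_congr rfl fun d _ => ?_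
      rw [Complex.ofReal_mul]
      congr 1
      split_ifs <;> simp
    rw [e1, ← Finset.sum_sub_distrib]
    have hbd : ∀ a ∈ Icc 1 ⌊X⌋₊, ∀ b ∈ Icc 1 ⌊X⌋₊, ∀ c ∈ Icc 1 ⌊X⌋₊, ∀ d ∈ Icc 1 ⌊X⌋₊,
        ‖((vc j a * vc j b * (vc j c * vc j d) : ℝ) : ℂ) *
          H295MK.win η δ T τ (fun t => H295MK.fr (c * d) (a * b) t) -
          ((vc j a * vc j b * (vc j c * vc j d) : ℝ) : ℂ) * (if c * d = a * b then 1 else 0)‖ ≤
        1 / T ^ 2 := by
      intro a ha b hb c hc d hd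
      have h1 := hT τ hτ1 hτ2 (c * d) (a * b) (hab c hc d hd).1
        ((hab c hc d hd).2.trans hYT) (hab a ha b hb).1 (hab a ha b hb).2
      rw [← mul_sub, norm_mul]
      have h2 : ‖((vc j a * vc j b * (vc j c * vc j d) : ℝ) : ℂ)‖ ≤ T ^ (2 * j) := by
        rw [Complex.norm_real, Real.norm_of_nonneg (by
          have := vc_nonneg j
          have h1 := this a
          have h2 := this b
          have h3 := this c
          have h4 := this d
          positivity)]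
        have hab' : vc j a * vc j b ≤ T ^ j := by
          calc vc j a * vc j b ≤ (a : ℝ) ^ j * (b : ℝ) ^ j :=
                mul_le_mul (vc_le j a (hmem a ha).1) (vc_le j b (hmem b hb).1) (vc_nonneg j b)
                  (by positivity)
            _ = ((a * b : ℕ) : ℝ) ^ j := by push_cast; rw [mul_pow]
            _ ≤ T ^ j := pow_le_pow_left₀ (Nat.cast_nonneg _) ((hab a ha b hb).2.trans hYT) j
        have hcd' : vc j c * vc j d ≤ T ^ j := by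
          calc vc j c * vc j d ≤ (c : ℝ) ^ j * (d : ℝ) ^ j :=
                mul_le_mul (vc_le j c (hmem c hc).1) (vc_le j d (hmem d hd).1) (vc_nonneg j d)
                  (by positivity)
            _ = ((c * d : ℕ) : ℝ) ^ j := by push_cast; rw [mul_pow]
            _ ≤ T ^ j := pow_le_pow_left₀ (Nat.cast_nonneg _) ((hab c hc d hd).2.trans hYT) j
        calc vc j a * vc j b * (vc j c * vc j d) ≤ T ^ j * T ^ j :=
              mul_le_mul hab' hcd' (mul_nonneg (vc_nonneg j c) (vc_nonneg j d)) (by positivity)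
          _ = T ^ (2 * j) := by ring
      calc _ ≤ T ^ (2 * j) * (1 / T ^ (2 * j + 2)) :=
            mul_le_mul h2 h1 (norm_nonneg _) (by positivity)
        _ = 1 / T ^ 2 := by
            rw [pow_add]
            field_simp
    have hcard : ((Icc 1 ⌊X⌋₊).card : ℝ) ≤ X := by
      rw [Nat.card_Icc, Nat.add_sub_cancel]
      exact hN
    have hstep : ∀ (F : ℕ → ℂ) (M : ℝ), 0 ≤ M → (∀ a ∈ Icc 1 ⌊X⌋₊, ‖F a‖ ≤ M) →
        ‖∑ a ∈ Icc 1 ⌊X⌋₊, F a‖ ≤ X * M := by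
      intro F M hM hF
      calc ‖∑ a ∈ Icc 1 ⌊X⌋₊, F a‖ ≤ ∑ a ∈ Icc 1 ⌊X⌋₊, M := norm_sum_le_of_le _ hF
        _ = (Icc 1 ⌊X⌋₊).card * M := by rw [sum_const, nsmul_eq_mul]
        _ ≤ X * M := mul_le_mul_of_nonneg_right hcard hM
    have hfin : X * (X * (X * (X * (1 / T ^ 2)))) ≤ 1 := by
      have h1 : X * (X * (X * (X * (1 / T ^ 2)))) = (X * X) ^ 2 / T ^ 2 := by ring
      rw [h1, hX2, div_le_one (by positivity)]
      exact pow_le_pow_left₀ hY0.le hYT 2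
    refine le_trans ?_ hfin
    apply hstep _ _ (by positivity)
    intro a ha
    rw [← Finset.sum_sub_distrib]
    apply hstep _ _ (by positivity)
    intro b hb
    rw [← Finset.sum_sub_distrib]
    apply hstep _ _ (by positivity)
    intro c hc
    rw [← Finset.sum_sub_distrib]
    apply hstep _ _ (by positivity)
    intro d hd
    exact hbd a ha b hb c hc d hd
  rw [Complex.norm_real, Real.norm_eq_abs] at key
  have := (abs_le.1 key).2
  linarith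

end

end H384MK
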