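import Mathlib

/-!
Fatou sets of entire functions, basins of superattracting cycles, wandering components.
-/

set_option autoImplicit false

open Filter Topology Metric Set

namespace Pool.Agent.H384R2.Fatou

/-- The family `F 0, F 1, F 2, …` is normal on `U` (in the sense of Montel, with values in the
Riemann sphere): every sequence of members of the family has a subsequence that converges, uniformly
on compact subsets of `U`, to a finite function or to `∞`. -/
def NormalOn (F : ℕ → ℂ → ℂ) (U : Set ℂ) : Prop :=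
  ∀ φ : ℕ → ℕ, ∃ ψ : ℕ → ℕ, StrictMono ψ ∧
    ((∃ g : ℂ → ℂ, TendstoLocallyUniformlyOn (fun j => F (φ (ψ j))) g atTop U) ∨
      (∀ K : Set ℂ, K ⊆ U → IsCompact K → ∀ R : ℝ, ∀ᶠ j in atTop, ∀ z ∈ K, R ≤ ‖F (φ (ψ j)) z‖))

/-- The Fatou set of `f`: points with a neighbourhood (a disc) on which the iterates of `f` form a
normal family. -/
def FatouSet (f : ℂ → ℂ) : Set ℂ :=
  {z | ∃ r : ℝ, 0 < r ∧ NormalOn (fun k => f^[k]) (ball z r)}

/-- The Fatou component of `f` containing `z` (empty if `z` is not in the Fatou set). -/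
def FatouComponent (f : ℂ → ℂ) (z : ℂ) : Set ℂ := connectedComponentIn (FatouSet f) z

/-- `U` is a wandering domain of `f`: the Fatou components `U = U_0, U_1, U_2, …`, where `U_k` is the
Fatou component containing `f^k(U)`, are pairwise distinct. -/
def IsWanderingDomain (f : ℂ → ℂ) (U : Set ℂ) : Prop :=
  ∃ V : ℕ → Set ℂ, V 0 = U ∧
    (∀ k, ∃ z ∈ FatouSet f, V k = FatouComponent f z) ∧
    (∀ k, f^[k] '' U ⊆ V k) ∧
    (∀ j k, j ≠ k → V j ≠ V k)

/-- a sequence of naturals has a subsequence that is constant or tends to infinity with constant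
residue mod `p` -/
theorem exists_subseq (p : ℕ) (hp : 0 < p) (φ : ℕ → ℕ) :
    ∃ ψ : ℕ → ℕ, StrictMono ψ ∧
      ((∃ c, ∀ j, φ (ψ j) = c) ∨
        (∃ i, i < p ∧ ∃ m : ℕ → ℕ, Tendsto m atTop atTop ∧ ∀ j, φ (ψ j) = i + p * m j)) := by
  by_cases hb : ∃ B, ∃ᶠ j in atTop, φ j ≤ B
  · obtain ⟨B, hB⟩ := hb
    have : ∃ c, c ≤ B ∧ ∃ᶠ j in atTop, φ j = c := by
      by_contra hcon
      push Not at hcon
      apply hB
      have h1 : ∀ c ∈ Finset.range (B + 1), ∀ᶠ j in atTop, φ j ≠ c := by
        intro c hc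
        exact hcon c (by simpa [Nat.lt_succ_iff] using hc)
      have h2 := (Filter.eventually_all_finset (Finset.range (B + 1))).2 h1
      filter_upwards [h2] with j hj hle
      exact hj (φ j) (by simpa [Nat.lt_succ_iff] using hle) rfl
    obtain ⟨c, -, hc⟩ := this
    obtain ⟨ψ, hψ, h⟩ := Filter.extraction_of_frequently_atTop hc
    exact ⟨ψ, hψ, Or.inl ⟨c, h⟩⟩
  · push Not at hb
    have htend : Tendsto φ atTop atTop := by
      rw [Filter.tendsto_atTop]
      intro b
      have := hb b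
      filter_upwards [this] with j hj
      exact hj.le
    have : ∃ i, i < p ∧ ∃ᶠ j in atTop, φ j % p = i := by
      by_contra hcon
      push Not at hcon
      have h1 : ∀ c ∈ Finset.range p, ∀ᶠ j in atTop, φ j % p ≠ c := by
        intro c hc
        exact hcon c (by simpa using hc)
      have h2 := (Filter.eventually_all_finset (Finset.range p)).2 h1
      obtain ⟨j, hj⟩ := h2.exists
      exact hj (φ j % p) (by simpa using Nat.mod_lt _ hp) rfl
    obtain ⟨i, hi, hfreq⟩ := this
    obtain ⟨ψ, hψ, h⟩ := Filter.extraction_of_frequently_atTop hfreq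
    refine ⟨ψ, hψ, Or.inr ⟨i, hi, fun j => φ (ψ j) / p, ?_, ?_⟩⟩
    · have h3 : Tendsto (fun j => φ (ψ j)) atTop atTop := htend.comp hψ.tendsto_atTop
      exact (Nat.tendsto_div_const_atTop hp.ne').comp h3
    · intro j
      have := Nat.mod_add_div (φ (ψ j)) p
      rw [h j] at this
      exact this.symm

/-- superattracting periodic points attract geometrically -/
theorem contraction {g : ℂ → ℂ} {a : ℂ} (hg : HasDerivAt g 0 a) (ha : g a = a) :
    ∃ r : ℝ, 0 < r ∧ ∀ z ∈ ball a r, ∀ m : ℕ, ‖g^[m] z - a‖ ≤ (1 / 2) ^ m * ‖z - a‖ := by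
  have h1 := hg.isLittleO
  have h2 := h1.def (by norm_num : (0 : ℝ) < 1 / 2)
  obtain ⟨r, hr, h3⟩ := Metric.eventually_nhds_iff_ball.1 h2
  refine ⟨r, hr, fun z hz m => ?_⟩
  have key : ∀ m : ℕ, g^[m] z ∈ ball a r ∧ ‖g^[m] z - a‖ ≤ (1 / 2) ^ m * ‖z - a‖ := by
    intro m
    induction m with
    | zero => simpa using hz
    | succ m ih =>
      obtain ⟨hb, hle⟩ := ih
      have h4 := h3 _ hb
      simp only [ha, smul_zero, sub_zero] at h4
      rw [Function.iterate_succ_apply']
      refine ⟨?_, ?_⟩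
      · rw [mem_ball, dist_eq_norm] at hb ⊢
        have : (0:ℝ) ≤ ‖g^[m] z - a‖ := norm_nonneg _
        linarith
      · calc ‖g (g^[m] z) - a‖ ≤ 1 / 2 * ‖g^[m] z - a‖ := h4
          _ ≤ 1 / 2 * ((1 / 2) ^ m * ‖z - a‖) := by gcongr
          _ = (1 / 2) ^ (m + 1) * ‖z - a‖ := by ring
  exact (key m).2

section
variable {f : ℂ → ℂ} {a : ℂ} {p : ℕ}

/-- near a point whose orbit hits the superattracting cycle the iterates converge uniformly -/
theorem unif_of_hits (hf : Continuous f) (hp : 0 < p) (ha : f^[p] a = a)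
    (hd : HasDerivAt (f^[p]) 0 a) {n : ℂ} {k : ℕ} (hn : f^[k] n = a) :
    ∃ ρ : ℝ, 0 < ρ ∧ ∀ i : ℕ, TendstoUniformlyOn (fun m => f^[k + i + p * m]) (fun _ => f^[i] a)
      atTop (ball n ρ) := by
  obtain ⟨r, hr, hcon⟩ := contraction hd ha
  have hck : Continuous (f^[k]) := hf.iterate k
  have h1 : ∀ᶠ z in 𝓝 n, f^[k] z ∈ ball a r := by
    apply hck.continuousAt.eventually
    rw [hn]
    exact ball_mem_nhds a hr
  obtain ⟨ρ, hρ, hball⟩ := Metric.eventually_nhds_iff_ball.1 h1
  refine ⟨ρ, hρ, fun i => ?_⟩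
  rw [Metric.tendstoUniformlyOn_iff]
  intro ε hε
  have hci : ContinuousAt (f^[i]) a := (hf.iterate i).continuousAt
  obtain ⟨δ, hδ, hcont⟩ := Metric.continuousAt_iff.1 hci ε hε
  have h2 : Tendsto (fun m : ℕ => ((1:ℝ) / 2) ^ m * r) atTop (𝓝 0) := by
    have := (tendsto_pow_atTop_nhds_zero_of_lt_one (by norm_num : (0:ℝ) ≤ 1 / 2) (by norm_num)).mul_const r
    simpa using this
  filter_upwards [h2.eventually (gt_mem_nhds hδ)] with m hm z hz
  rw [dist_comm]
  have h3 : f^[k + i + p * m] z = f^[i] ((f^[p])^[m] (f^[k] z)) := by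
    rw [← Function.iterate_mul, ← Function.iterate_add_apply, ← Function.iterate_add_apply]
    exact congrArg (fun t => f^[t] z) (by ring)
  rw [h3]
  apply hcont
  rw [dist_eq_norm]
  have hzb := hball z hz
  calc ‖(f^[p])^[m] (f^[k] z) - a‖ ≤ (1 / 2) ^ m * ‖f^[k] z - a‖ := hcon _ hzb m
    _ ≤ (1 / 2) ^ m * r := by
        rw [mem_ball, dist_eq_norm] at hzb
        gcongr
    _ < δ := hm

/-- such points are in the Fatou set -/
theorem mem_fatou_of_hits (hf : Continuous f) (hp : 0 < p) (ha : f^[p] a = a)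
    (hd : HasDerivAt (f^[p]) 0 a) {n : ℂ} {k : ℕ} (hn : f^[k] n = a) :
    n ∈ FatouSet f := by
  obtain ⟨ρ, hρ, hunif⟩ := unif_of_hits hf hp ha hd hn
  refine ⟨ρ, hρ, fun φ => ?_⟩
  obtain ⟨ψ, hψ, h | h⟩ := exists_subseq p hp φ
  · obtain ⟨c, hc⟩ := h
    refine ⟨ψ, hψ, Or.inl ⟨f^[c], ?_⟩⟩
    have : (fun j => f^[φ (ψ j)]) = fun _ : ℕ => f^[c] := by
      funext j
      rw [hc j]
    show TendstoLocallyUniformlyOn (fun j => f^[φ (ψ j)]) (f^[c]) atTop (ball n ρ)
    rw [this]
    intro u hu x _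
    exact ⟨univ, Filter.univ_mem, Filter.Eventually.of_forall fun _ y _ => refl_mem_uniformity hu⟩
  · obtain ⟨i, hi, m, hm, hj⟩ := h
    -- write `i + p * m j = k + i' + p * (m j - l)` with `k + i' = i + p * l`
    obtain ⟨i', hi'⟩ : ∃ i', k + i' = i + p * k := by
      have : k ≤ i + p * k := by
        have : 1 * k ≤ p * k := Nat.mul_le_mul_right k hp
        omega
      exact ⟨i + p * k - k, by omega⟩
    refine ⟨ψ, hψ, Or.inl ⟨fun _ => f^[i'] a, ?_⟩⟩
    have h1 := hunif i'
    have h2 : Tendsto (fun j => m j - k) atTop atTop := tendsto_sub_atTop_nat k |>.comp hm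
    have h3 : TendstoUniformlyOn (fun j => f^[k + i' + p * (m j - k)]) (fun _ => f^[i'] a) atTop
        (ball n ρ) := by
      intro u hu
      exact h2.eventually (h1 u hu)
    apply TendstoUniformlyOn.tendstoLocallyUniformlyOn
    intro u hu
    have h4 := h3 u hu
    filter_upwards [h4, hm.eventually (eventually_ge_atTop k)] with j hj1 hj2 z hz
    have h5 := hj1 z hz
    have h6 : k + i' + p * (m j - k) = i + p * m j := by
      rw [hi', add_assoc, ← mul_add]
      congr 2
      omega
    rw [h6] at h5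
    show (f^[i'] a, f^[φ (ψ j)] z) ∈ u
    rw [hj j]
    exact h5

/-- a Fatou component containing a point with eventually periodic orbit is not wandering -/
theorem not_wandering_of_hits {n : ℂ} (hn : n ∈ FatouSet f) {k : ℕ} (hp : 0 < p)
    (h : f^[k + p] n = f^[k] n) : ¬ IsWanderingDomain f (FatouComponent f n) := by
  rintro ⟨V, h0, hV, him, hne⟩
  apply hne k (k + p) (by omega)
  have hn' : n ∈ FatouComponent f n := mem_connectedComponentIn hn
  have h1 : f^[k] n ∈ V k := him k ⟨n, hn', rfl⟩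
  have h2 : f^[k] n ∈ V (k + p) := by
    rw [← h]
    exact him (k + p) ⟨n, hn', rfl⟩
  obtain ⟨z1, -, e1⟩ := hV k
  obtain ⟨z2, -, e2⟩ := hV (k + p)
  rw [e1] at h1 ⊢
  rw [e2] at h2 ⊢
  have e3 := connectedComponentIn_eq h1
  have e4 := connectedComponentIn_eq h2
  unfold FatouComponent
  rw [e3, e4]

/-- on the whole Fatou component of such a point the iterates converge to the cycle -/
theorem basin_of_hits (hf : Differentiable ℂ f) (hp : 0 < p) (ha : f^[p] a = a)
    (hd : HasDerivAt (f^[p]) 0 a) {n : ℂ} {k : ℕ} (hn : f^[k] n = a) :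
    ∀ z ∈ FatouComponent f n, Tendsto (fun m : ℕ => f^[k + p * m] z) atTop (𝓝 a) := by
  have hfat := mem_fatou_of_hits hf.continuous hp ha hd hn
  -- the set of points with local uniform convergence
  set S : Set ℂ := {z | ∃ r : ℝ, 0 < r ∧
    TendstoUniformlyOn (fun m : ℕ => f^[k + p * m]) (fun _ => a) atTop (ball z r)} with hS
  have hnS : n ∈ S := by
    obtain ⟨ρ, hρ, hunif⟩ := unif_of_hits hf.continuous hp ha hd hn
    refine ⟨ρ, hρ, ?_⟩
    simpa using hunif 0
  have hSopen : IsOpen S := by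
    rw [Metric.isOpen_iff]
    rintro z ⟨r, hr, h⟩
    refine ⟨r / 2, by linarith, fun w hw => ⟨r / 2, by linarith, h.mono ?_⟩⟩
    apply ball_subset_ball'
    rw [mem_ball] at hw
    linarith
  -- closedness in the Fatou set
  have hclosed : ∀ z ∈ FatouSet f, z ∈ closure S → z ∈ S := by
    rintro z ⟨r, hr, hnorm⟩ hcl
    -- uniform convergence on `ball z (r/2)`
    refine ⟨r / 2, by linarith, ?_⟩
    by_contra hcon
    rw [Metric.tendstoUniformlyOn_iff] at hcon
    push Not at hcon
    obtain ⟨ε, hε, hfr⟩ := hcon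
    obtain ⟨φ, hφ, hbad⟩ := Filter.extraction_of_frequently_atTop hfr
    obtain ⟨ψ, hψ, hlim⟩ := hnorm (fun j => k + p * φ j)
    -- a point of S in the ball
    obtain ⟨w, hwS, hwz⟩ : ∃ w ∈ S, w ∈ ball z r := by
      rw [Metric.mem_closure_iff] at hcl
      obtain ⟨w, hw, hd'⟩ := hcl r hr
      exact ⟨w, hw, by rw [mem_ball, dist_comm]; exact hd'⟩
    obtain ⟨s, hs, hsu⟩ := hwS
    have hpsi : Tendsto (fun j => φ (ψ j)) atTop atTop := (hφ.comp hψ).tendsto_atTop
    have hpt : ∀ w' ∈ ball w s, Tendsto (fun j => f^[k + p * φ (ψ j)] w') atTop (𝓝 a) := by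
      intro w' hw'
      exact (hsu.tendsto_at hw').comp hpsi
    rcases hlim with ⟨g, hg⟩ | hinf
    · have hgd : DifferentiableOn ℂ g (ball z r) := by
        apply hg.differentiableOn _ isOpen_ball
        exact Filter.Eventually.of_forall fun j => (hf.iterate _).differentiableOn
      have hga : ∀ w' ∈ ball w s ∩ ball z r, g w' = a := by
        rintro w' ⟨h1, h2⟩
        exact tendsto_nhds_unique (hg.tendsto_at h2) (hpt w' h1)
      have heq : EqOn g (fun _ => a) (ball z r) := by
        apply (hgd.analyticOnNhd isOpen_ball).eqOn_of_preconnected_of_eventuallyEq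
          analyticOnNhd_const (convex_ball z r).isPreconnected hwz
        have : ball w s ∩ ball z r ∈ 𝓝 w :=
          Filter.inter_mem (ball_mem_nhds w hs) (isOpen_ball.mem_nhds hwz)
        filter_upwards [this] with w' hw' using hga w' hw'
      have hgu : TendstoUniformlyOn (fun j => f^[k + p * φ (ψ j)]) (fun _ => a) atTop
          (closedBall z (r / 2)) := by
        have h1 : TendstoLocallyUniformlyOn (fun j => f^[k + p * φ (ψ j)]) g atTop
            (closedBall z (r / 2)) :=
          hg.mono (closedBall_subset_ball (by linarith))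
        have h2 := (tendstoLocallyUniformlyOn_iff_tendstoUniformlyOn_of_compact
          (isCompact_closedBall z (r / 2))).1 h1
        apply h2.congr_right
        intro w' hw'
        exact heq (closedBall_subset_ball (by linarith) hw')
      rw [Metric.tendstoUniformlyOn_iff] at hgu
      obtain ⟨j, hj⟩ := (hgu ε hε).exists
      obtain ⟨w', hw', hw''⟩ := hbad (ψ j)
      exact absurd (hj w' (ball_subset_closedBall hw')) (not_lt.2 hw'')
    · have h1 := hinf {w} (by simpa using hwz) isCompact_singleton (‖a‖ + 1)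
      have h2 := (hpt w (mem_ball_self hs)).norm
      have h3 : ∀ᶠ j in atTop, ‖f^[k + p * φ (ψ j)] w‖ < ‖a‖ + 1 :=
        h2.eventually (gt_mem_nhds (by linarith))
      obtain ⟨j, hj1, hj2⟩ := (h1.and h3).exists
      exact absurd (hj1 w rfl) (not_le.2 hj2)
  have hsub : FatouComponent f n ⊆ S := by
    have hpre : IsPreconnected (FatouComponent f n) := isPreconnected_connectedComponentIn
    have hne : (FatouComponent f n ∩ S).Nonempty := ⟨n, mem_connectedComponentIn hfat, hnS⟩
    have := hpre.subset_of_closure_inter_subset hSopen hne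
    apply this
    rintro z ⟨hz1, hz2⟩
    exact hclosed z (connectedComponentIn_subset _ _ hz2) hz1
  intro z hz
  obtain ⟨r, hr, h⟩ := hsub hz
  exact h.tendsto_at (mem_ball_self hr)

end

end Pool.Agent.H384R2.Fatou
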