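import Mathlib

/-!
# Revealment of iterated three-bit majority: definitions

`Idx k` is the set of the `3 ^ k` bit positions (words of length `k` over `{0,1,2}`; the first
letter is the number of the block), `f k` is the iterated majority function (`true` is `+1`),
`Tree ι` is the type of deterministic query algorithms, `delta` is the revealment.
-/

set_option autoImplicit false

namespace Pool.Agent.H384R2.RM

/-- positions of the `3 ^ k` bits: `()` for `k = 0`, (number of the block, position in the block)
for `k + 1` -/
def Idx : ℕ → Type
  | 0 => Unit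
  | k + 1 => Fin 3 × Idx k

/-- position `j` in block `i` -/
def cons {k : ℕ} (i : Fin 3) (j : Idx k) : Idx (k + 1) := (i, j)

def Idx.decEq : ∀ k, DecidableEq (Idx k)
  | 0 => inferInstanceAs (DecidableEq Unit)
  | k + 1 => @instDecidableEqProd (Fin 3) (Idx k) _ (Idx.decEq k)

instance (k : ℕ) : DecidableEq (Idx k) := Idx.decEq k

def Idx.fin : ∀ k, Fintype (Idx k)
  | 0 => inferInstanceAs (Fintype Unit)
  | k + 1 => @instFintypeProd (Fin 3) (Idx k) _ (Idx.fin k)

instance (k : ℕ) : Fintype (Idx k) := Idx.fin k

/-- majority of three bits -/
def maj (a b c : Bool) : Bool := (a && b) || (b && c) || (a && c)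

/-- iterated majority -/
def f : (k : ℕ) → (Idx k → Bool) → Bool
  | 0, x => x ()
  | k + 1, x => maj (f k fun j => x (cons 0 j)) (f k fun j => x (cons 1 j))
      (f k fun j => x (cons 2 j))

/-- deterministic query algorithms: stop, or query bit `i` and continue with `t₀` if it is `false`
and with `t₁` if it is `true` -/
inductive Tree (ι : Type)
  | stop : Tree ι
  | ask (i : ι) (t₀ t₁ : Tree ι) : Tree ι

namespace Tree

variable {ι : Type} [DecidableEq ι]

/-- the set of queried bits on the input `x` -/
def J : Tree ι → (ι → Bool) → Finset ι
  | stop, _ => ∅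
  | ask i t₀ t₁, x => insert i (if x i = true then t₁.J x else t₀.J x)

/-- the algorithm stops only when the queried bits determine `g x` -/
def Computes (t : Tree ι) (g : (ι → Bool) → Bool) : Prop :=
  ∀ x y : ι → Bool, (∀ i ∈ t.J x, y i = x i) → g y = g x

/-- the probability that the bit `i` is queried when the input is uniform -/
noncomputable def prob [Fintype ι] (t : Tree ι) (i : ι) : ℝ :=
  ((Finset.univ.filter fun x : ι → Bool => i ∈ t.J x).card : ℝ) / Fintype.card (ι → Bool)

end Tree

/-- Revealment of `g`: infimum, over all randomized algorithms for `g` (a random seed `ω` with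
distribution `p`, and for every seed a deterministic algorithm `T ω` which computes `g`), of the
maximal probability that a bit is queried. -/
noncomputable def delta {ι : Type} [Fintype ι] [DecidableEq ι] (g : (ι → Bool) → Bool) : ℝ :=
  sInf {r : ℝ | ∃ (Ω : Type) (p : PMF Ω) (T : Ω → Tree ι), (∀ ω, p ω ≠ 0 → (T ω).Computes g) ∧
    r = ⨆ i : ι, ∑' ω, (p ω).toReal * (T ω).prob i}

end Pool.Agent.H384R2.RM
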