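import Pool.Agent.H384R2.RMState

/-!
# Expected number of queries and correctness in terms of partial assignments
-/

set_option autoImplicit false

namespace Pool.Agent.H384R2.RM

open Finset

section

variable {ι : Type} [Fintype ι] [DecidableEq ι]

open Classical in
/-- the inputs extending `σ` -/
noncomputable def N (σ : ι → Option Bool) : Finset (ι → Bool) := univ.filter fun x => Ext σ x

theorem mem_N {σ : ι → Option Bool} {x : ι → Bool} : x ∈ N σ ↔ Ext σ x := by
  classical
  simp [N]

theorem ext_upd {σ : ι → Option Bool} {i : ι} (h : σ i = none) (b : Bool) (x : ι → Bool) :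
    Ext (upd σ i b) x ↔ Ext σ x ∧ x i = b := by
  constructor
  · intro hx
    refine ⟨?_, ?_⟩
    · intro j c hj
      by_cases hji : j = i
      · subst hji
        rw [h] at hj
        cases hj
      · apply hx
        unfold upd
        rw [Function.update_of_ne hji]
        exact hj
    · apply hx
      unfold upd
      rw [Function.update_self]
  · rintro ⟨hx, hb⟩ j c hj
    unfold upd at hj
    by_cases hji : j = i
    · subst hji
      rw [Function.update_self] at hj
      cases hj
      exact hb
    · rw [Function.update_of_ne hji] at hj
      exact hx j c hj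

theorem N_split {σ : ι → Option Bool} {i : ι} (h : σ i = none) (g : (ι → Bool) → ℝ) :
    ∑ x ∈ N σ, g x = ∑ x ∈ N (upd σ i true), g x + ∑ x ∈ N (upd σ i false), g x := by
  classical
  rw [← Finset.sum_union]
  · apply Finset.sum_congr _ (fun _ _ => rfl)
    ext x
    rw [Finset.mem_union, mem_N, mem_N, mem_N, ext_upd h, ext_upd h]
    cases x i <;> simp
  · rw [Finset.disjoint_left]
    intro x hx hx'
    rw [mem_N, ext_upd h] at hx hx'
    rw [hx.2] at hx'
    exact absurd hx'.2 (by decide)

theorem N_card {σ : ι → Option Bool} {i : ι} (h : σ i = none) :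
    (N (upd σ i true)).card = (N (upd σ i false)).card := by
  classical
  apply Finset.card_bij (fun x _ => Function.update x i false)
  · intro x hx
    rw [mem_N, ext_upd h] at hx ⊢
    refine ⟨?_, by rw [Function.update_self]⟩
    intro j c hj
    by_cases hji : j = i
    · subst hji
      rw [h] at hj
      cases hj
    · rw [Function.update_of_ne hji]
      exact hx.1 j c hj
  · intro x hx y hy hxy
    rw [mem_N, ext_upd h] at hx hy
    funext j
    by_cases hji : j = i
    · subst hji
      rw [hx.2, hy.2]
    · have := congrFun hxy j
      rwa [Function.update_of_ne hji, Function.update_of_ne hji] at this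
  · intro y hy
    rw [mem_N, ext_upd h] at hy
    refine ⟨Function.update y i true, ?_, ?_⟩
    · rw [mem_N, ext_upd h]
      refine ⟨?_, by rw [Function.update_self]⟩
      intro j c hj
      by_cases hji : j = i
      · subst hji
        rw [h] at hj
        cases hj
      · rw [Function.update_of_ne hji]
        exact hy.1 j c hj
    · funext j
      by_cases hji : j = i
      · subst hji
        rw [Function.update_self, hy.2]
      · rw [Function.update_of_ne hji, Function.update_of_ne hji]

theorem card_filter_insert {σ : ι → Option Bool} {i : ι} (h : σ i = none) (b : Bool) (S : Finset ι) :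
    ((insert i S).filter fun j => σ j = none).card =
      1 + (S.filter fun j => upd σ i b j = none).card := by
  have e : (insert i S).filter (fun j => σ j = none) =
      insert i (S.filter fun j => upd σ i b j = none) := by
    ext j
    simp only [Finset.mem_filter, Finset.mem_insert]
    by_cases hji : j = i
    · subst hji
      simp [h]
    · have : upd σ i b j = σ j := by
        unfold upd
        rw [Function.update_of_ne hji]
      rw [this]
      simp [hji]
  rw [e, Finset.card_insert_of_notMem, add_comm]
  simp only [Finset.mem_filter, not_and]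
  intro _
  unfold upd
  rw [Function.update_self]
  simp

theorem sum_J : ∀ (t : Tree ι) (σ : ι → Option Bool),
    ∑ x ∈ N σ, (((t.J x).filter fun j => σ j = none).card : ℝ) = (N σ).card * ec t σ
  | .stop, σ => by
    simp [Tree.J, ec]
  | .ask i t₀ t₁, σ => by
    rcases hi : σ i with _ | (_ | _)
    · rw [ec_none hi, N_split hi]
      have h1 : ∑ x ∈ N (upd σ i true),
          ((((Tree.ask i t₀ t₁).J x).filter fun j => σ j = none).card : ℝ) =
          (N (upd σ i true)).card * (1 + ec t₁ (upd σ i true)) := by
        rw [mul_add, mul_one, ← sum_J t₁ (upd σ i true)]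
        have : ((N (upd σ i true)).card : ℝ) = ∑ x ∈ N (upd σ i true), (1 : ℝ) := by simp
        rw [this, ← Finset.sum_add_distrib]
        apply Finset.sum_congr rfl
        intro x hx
        rw [mem_N, ext_upd hi] at hx
        have e : (Tree.ask i t₀ t₁).J x = insert i (t₁.J x) := by
          simp [Tree.J, hx.2]
        rw [e, card_filter_insert hi true]
        push_cast
        ring
      have h0 : ∑ x ∈ N (upd σ i false),
          ((((Tree.ask i t₀ t₁).J x).filter fun j => σ j = none).card : ℝ) =
          (N (upd σ i false)).card * (1 + ec t₀ (upd σ i false)) := by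
        rw [mul_add, mul_one, ← sum_J t₀ (upd σ i false)]
        have : ((N (upd σ i false)).card : ℝ) = ∑ x ∈ N (upd σ i false), (1 : ℝ) := by simp
        rw [this, ← Finset.sum_add_distrib]
        apply Finset.sum_congr rfl
        intro x hx
        rw [mem_N, ext_upd hi] at hx
        have e : (Tree.ask i t₀ t₁).J x = insert i (t₀.J x) := by
          simp [Tree.J, hx.2]
        rw [e, card_filter_insert hi false]
        push_cast
        ring
      rw [h1, h0]
      have hc : ((N σ).card : ℝ) = 2 * (N (upd σ i false)).card := by
        have h2 := N_split hi (fun _ => (1 : ℝ))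
        simp only [Finset.sum_const, nsmul_eq_mul, mul_one] at h2
        rw [h2, N_card hi]
        ring
      rw [hc, N_card hi]
      ring
    · rw [ec_some_false hi, ← sum_J t₀ σ]
      apply Finset.sum_congr rfl
      intro x hx
      rw [mem_N] at hx
      have hxi := hx i false hi
      have e : (Tree.ask i t₀ t₁).J x = insert i (t₀.J x) := by
        simp [Tree.J, hxi]
      rw [e, Finset.filter_insert, if_neg (by rw [hi]; simp)]
    · rw [ec_some_true hi, ← sum_J t₁ σ]
      apply Finset.sum_congr rfl
      intro x hx
      rw [mem_N] at hx
      have hxi := hx i true hi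
      have e : (Tree.ask i t₀ t₁).J x = insert i (t₁.J x) := by
        simp [Tree.J, hxi]
      rw [e, Finset.filter_insert, if_neg (by rw [hi]; simp)]

/-- the expected number of queries -/
theorem sum_prob (t : Tree ι) : ∑ i, t.prob i = ec t (fun _ => none) := by
  classical
  have h := sum_J t (fun _ => none)
  have hN : N (fun _ : ι => (none : Option Bool)) = univ := by
    ext x
    rw [mem_N]
    simp [Ext]
  rw [hN] at h
  simp only [Finset.filter_true, Finset.card_univ] at h
  have hpos : (0 : ℝ) < Fintype.card (ι → Bool) := by
    exact_mod_cast Fintype.card_pos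
  unfold Tree.prob
  rw [← Finset.sum_div, div_eq_iff hpos.ne', mul_comm, ← h]
  have e1 : ∀ i : ι, (((univ.filter fun x : ι → Bool => i ∈ t.J x).card : ℕ) : ℝ) =
      ∑ x : ι → Bool, if i ∈ t.J x then (1 : ℝ) else 0 := by
    intro i
    rw [Finset.sum_boole]
  have e2 : ∀ x : ι → Bool, (((t.J x).card : ℕ) : ℝ) = ∑ i : ι, if i ∈ t.J x then (1 : ℝ) else 0 := by
    intro x
    rw [Finset.sum_boole, Finset.filter_mem_eq_inter, Finset.univ_inter]
  rw [Finset.sum_congr rfl fun i _ => e1 i, Finset.sum_comm]
  exact Finset.sum_congr rfl fun x _ => (e2 x).symm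

end

/-- correctness from a partial assignment, in terms of inputs -/
theorem good_of {k : ℕ} : ∀ (t : Tree (Idx k)) (σ : St k),
    (∀ x y, Ext σ x → Ext σ y → (∀ i ∈ t.J x, y i = x i) → f k y = f k x) → Good k t σ
  | .stop, σ, h => by
    by_contra hcon
    have hcon' : ¬ (v k σ = 1 ∨ v k σ = -1) := hcon
    push Not at hcon'
    obtain ⟨x, hx, hx'⟩ := exists_true k σ hcon'.2
    obtain ⟨y, hy, hy'⟩ := exists_false k σ hcon'.1
    have := h x y hx hy (by simp [Tree.J])
    rw [hx', hy'] at this
    exact absurd this (by decide)
  | .ask i t₀ t₁, σ, h => by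
    rcases hi : σ i with _ | (_ | _)
    · rw [good_none hi]
      constructor
      · apply good_of t₀
        intro x y hx hy hxy
        rw [ext_upd hi] at hx hy
        apply h x y hx.1 hy.1
        intro j hj
        have e : (Tree.ask i t₀ t₁).J x = insert i (t₀.J x) := by
          simp [Tree.J, hx.2]
        rw [e, Finset.mem_insert] at hj
        rcases hj with hj | hj
        · rw [hj, hx.2, hy.2]
        · exact hxy j hj
      · apply good_of t₁
        intro x y hx hy hxy
        rw [ext_upd hi] at hx hy
        apply h x y hx.1 hy.1
        intro j hj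
        have e : (Tree.ask i t₀ t₁).J x = insert i (t₁.J x) := by
          simp [Tree.J, hx.2]
        rw [e, Finset.mem_insert] at hj
        rcases hj with hj | hj
        · rw [hj, hx.2, hy.2]
        · exact hxy j hj
    · rw [good_some_false hi]
      apply good_of t₀
      intro x y hx hy hxy
      apply h x y hx hy
      intro j hj
      have e : (Tree.ask i t₀ t₁).J x = insert i (t₀.J x) := by
        simp [Tree.J, hx i false hi]
      rw [e, Finset.mem_insert] at hj
      rcases hj with hj | hj
      · rw [hj, hx i false hi, hy i false hi]
      · exact hxy j hj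
    · rw [good_some_true hi]
      apply good_of t₁
      intro x y hx hy hxy
      apply h x y hx hy
      intro j hj
      have e : (Tree.ask i t₀ t₁).J x = insert i (t₁.J x) := by
        simp [Tree.J, hx i true hi]
      rw [e, Finset.mem_insert] at hj
      rcases hj with hj | hj
      · rw [hj, hx i true hi, hy i true hi]
      · exact hxy j hj

theorem of_good {k : ℕ} : ∀ (t : Tree (Idx k)) (σ : St k), Good k t σ →
    (∀ x y, Ext σ x → Ext σ y → (∀ i ∈ t.J x, y i = x i) → f k y = f k x)
  | .stop, σ, h => by
    intro x y hx hy _
    have h' : v k σ = 1 ∨ v k σ = -1 := h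
    rcases h' with h' | h'
    · rw [f_of_v_one k σ h' x hx, f_of_v_one k σ h' y hy]
    · rw [f_of_v_neg_one k σ h' x hx, f_of_v_neg_one k σ h' y hy]
  | .ask i t₀ t₁, σ, h => by
    intro x y hx hy hxy
    rcases hi : σ i with _ | (_ | _)
    · rw [good_none hi] at h
      rcases hxi : x i with _ | _
      · have e : (Tree.ask i t₀ t₁).J x = insert i (t₀.J x) := by
          simp [Tree.J, hxi]
        rw [e] at hxy
        have hyi : y i = false := by
          rw [hxy i (Finset.mem_insert_self _ _), hxi]
        exact of_good t₀ _ h.1 x y ((ext_upd hi _ _).2 ⟨hx, hxi⟩) ((ext_upd hi _ _).2 ⟨hy, hyi⟩)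
          fun j hj => hxy j (Finset.mem_insert_of_mem hj)
      · have e : (Tree.ask i t₀ t₁).J x = insert i (t₁.J x) := by
          simp [Tree.J, hxi]
        rw [e] at hxy
        have hyi : y i = true := by
          rw [hxy i (Finset.mem_insert_self _ _), hxi]
        exact of_good t₁ _ h.2 x y ((ext_upd hi _ _).2 ⟨hx, hxi⟩) ((ext_upd hi _ _).2 ⟨hy, hyi⟩)
          fun j hj => hxy j (Finset.mem_insert_of_mem hj)
    · rw [good_some_false hi] at h
      have e : (Tree.ask i t₀ t₁).J x = insert i (t₀.J x) := by
        simp [Tree.J, hx i false hi]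
      rw [e] at hxy
      exact of_good t₀ σ h x y hx hy fun j hj => hxy j (Finset.mem_insert_of_mem hj)
    · rw [good_some_true hi] at h
      have e : (Tree.ask i t₀ t₁).J x = insert i (t₁.J x) := by
        simp [Tree.J, hx i true hi]
      rw [e] at hxy
      exact of_good t₁ σ h x y hx hy fun j hj => hxy j (Finset.mem_insert_of_mem hj)

theorem computes_iff {k : ℕ} (t : Tree (Idx k)) : t.Computes (f k) ↔ Good k t (emp k) := by
  have hE : ∀ x : Idx k → Bool, Ext (emp k) x := by
    intro x i b h
    cases h
  constructor
  · intro h
    exact good_of t (emp k) fun x y _ _ hxy => h x y hxy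
  · intro h x y hxy
    exact of_good t (emp k) h x y (hE x) (hE y) hxy

end Pool.Agent.H384R2.RM
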