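import Pool.Agent.H384R2.RMMacro

/-!
# Upper bound: strategies described by a finite table
-/

set_option autoImplicit false

namespace Pool.Agent.H384R2.RM

/-- patterns: `O`, `I` determined blocks (value `-1`, `1`), `F` an empty block,
`N a b c` three blocks -/
inductive Pat
  | O : Pat
  | I : Pat
  | F : Pat
  | N (a b c : Pat) : Pat

namespace Pat

def beq : Pat → Pat → Bool
  | O, O => true
  | I, I => true
  | F, F => true
  | N a b c, N a' b' c' => beq a a' && beq b b' && beq c c'
  | _, _ => false

theorem eq_of_beq : ∀ p q : Pat, beq p q = true → p = q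
  | O, q, h => by cases q <;> simp_all [beq]
  | I, q, h => by cases q <;> simp_all [beq]
  | F, q, h => by cases q <;> simp_all [beq]
  | N a b c, q, h => by
    cases q with
    | N a' b' c' =>
      simp only [beq, Bool.and_eq_true] at h
      rw [eq_of_beq a a' h.1.1, eq_of_beq b b' h.1.2, eq_of_beq c c' h.2]
    | O => simp [beq] at h
    | I => simp [beq] at h
    | F => simp [beq] at h

/-- conditional expectation -/
def val : Pat → ℚ
  | O => -1
  | I => 1
  | F => 0
  | N a b c => (val a + val b + val c - val a * val b * val c) / 2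

/-- join of three patterns -/
def mkN (a b c : Pat) : Pat :=
  match a, b, c with
  | I, I, _ => I
  | I, _, I => I
  | _, I, I => I
  | O, O, _ => O
  | O, _, O => O
  | _, O, O => O
  | a, b, c => N a b c

/-- the pattern at the path -/
def subL : List (Fin 3) → Pat → Pat
  | [], p => p
  | i :: L, N a b c => subL L (if i = 0 then a else if i = 1 then b else c)
  | _ :: L, F => subL L F
  | _ :: _, p => p

/-- the path exists -/
def okL : List (Fin 3) → Pat → Bool
  | [], _ => true
  | i :: L, N a b c => okL L (if i = 0 then a else if i = 1 then b else c)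
  | _ :: L, F => okL L F
  | _ :: _, _ => false

/-- determine the block at the path -/
def putL (d : Bool) : List (Fin 3) → Pat → Pat
  | [], _ => if d then I else O
  | i :: L, N a b c => mkN (if i = 0 then putL d L a else a) (if i = 1 then putL d L b else b)
      (if i = 2 then putL d L c else c)
  | i :: L, F => mkN (if i = 0 then putL d L F else F) (if i = 1 then putL d L F else F)
      (if i = 2 then putL d L F else F)
  | _ :: _, p => p

end Pat

/-- the partial assignment has the pattern -/
def Has : Pat → (k : ℕ) → St k → Prop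
  | .O, k, σ => v k σ = -1
  | .I, k, σ => v k σ = 1
  | .F, k, σ => σ = emp k
  | .N _ _ _, 0, _ => False
  | .N a b c, k + 1, σ => Has a k (sub σ 0) ∧ Has b k (sub σ 1) ∧ Has c k (sub σ 2)

theorem Has.v_eq : ∀ (p : Pat) (k : ℕ) (σ : St k), Has p k σ → v k σ = (p.val : ℝ)
  | .O, k, σ, h => by
    rw [show v k σ = -1 from h]; simp [Pat.val]
  | .I, k, σ, h => by
    rw [show v k σ = 1 from h]; simp [Pat.val]
  | .F, k, σ, h => by
    rw [show σ = emp k from h, v_emp]; simp [Pat.val]
  | .N a b c, 0, σ, h => absurd h id
  | .N a b c, k + 1, σ, h => by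
    obtain ⟨ha, hb, hc⟩ := h
    show A _ _ _ = _
    rw [Has.v_eq a k _ ha, Has.v_eq b k _ hb, Has.v_eq c k _ hc]
    unfold A
    simp only [Pat.val]
    push_cast
    ring

theorem Has.mkN {a b c : Pat} {k : ℕ} {σ : St (k + 1)} (h : Has (.N a b c) (k + 1) σ) :
    Has (Pat.mkN a b c) (k + 1) σ := by
  obtain ⟨ha, hb, hc⟩ := h
  unfold Pat.mkN
  split
  · exact A_of_two (Or.inl ⟨ha, hb⟩)
  · exact A_of_two (Or.inr (Or.inr ⟨ha, hc⟩))
  · exact A_of_two (Or.inr (Or.inl ⟨hb, hc⟩))
  · exact A_of_two_neg (Or.inl ⟨ha, hb⟩)
  · exact A_of_two_neg (Or.inr (Or.inr ⟨ha, hc⟩))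
  · exact A_of_two_neg (Or.inr (Or.inl ⟨hb, hc⟩))
  · exact ⟨ha, hb, hc⟩

/-- paths as positions -/
def toIdx : (L : List (Fin 3)) → Idx L.length
  | [] => ()
  | i :: L => cons i (toIdx L)

variable {l : ℕ}

theorem has_sub : ∀ (L : List (Fin 3)) (p : Pat) (σ : St (l + L.length)), Pat.okL L p = true →
    Has p (l + L.length) σ → Has (Pat.subL L p) l (subP L.length (toIdx L) σ)
  | [], _, _, _, h => h
  | i :: L, .F, σ, hok, h => by
    have h' : σ = emp (l + L.length + 1) := h
    have hs : Has .F (l + L.length) (sub (k := l + L.length) σ i) := by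
      rw [h']
      exact (rfl : emp (l + L.length) = emp (l + L.length))
    exact has_sub L .F (sub (k := l + L.length) σ i) hok hs
  | i :: L, .N a b c, σ, hok, h => by
    obtain ⟨ha, hb, hc⟩ : Has a (l + L.length) (sub (k := l + L.length) σ 0) ∧
      Has b (l + L.length) (sub (k := l + L.length) σ 1) ∧
      Has c (l + L.length) (sub (k := l + L.length) σ 2) := h
    rcases fin3 i with rfl | rfl | rfl
    · exact has_sub L a (sub (k := l + L.length) σ 0) hok ha
    · exact has_sub L b (sub (k := l + L.length) σ 1) hok hb
    · exact has_sub L c (sub (k := l + L.length) σ 2) hok hc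
  | _ :: _, .O, _, hok, _ => by simp [Pat.okL] at hok
  | _ :: _, .I, _, hok, _ => by simp [Pat.okL] at hok

theorem has_put (d : Bool) : ∀ (L : List (Fin 3)) (p : Pat) (σ σ' : St (l + L.length)),
    Pat.okL L p = true → Has p (l + L.length) σ → Agr L.length (toIdx L) σ σ' →
    v l (subP L.length (toIdx L) σ') = vb (some d) → Has (Pat.putL d L p) (l + L.length) σ'
  | [], p, σ, σ', _, _, _, hv => by
    cases d
    · exact hv
    · exact hv
  | i :: L, .F, σ, σ', hok, h, ha, hv => by
    have h' : σ = emp (l + L.length + 1) := h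
    have hs : ∀ i', Has .F (l + L.length) (sub (k := l + L.length) σ i') := by
      intro i'
      rw [h']
      exact (rfl : emp (l + L.length) = emp (l + L.length))
    obtain ⟨ha1, ha2⟩ : (∀ i', i' ≠ i → sub (k := l + L.length) σ' i' =
      sub (k := l + L.length) σ i') ∧ Agr L.length (toIdx L) (sub (k := l + L.length) σ i)
      (sub (k := l + L.length) σ' i) := ha
    have ih := has_put d L .F (sub (k := l + L.length) σ i) (sub (k := l + L.length) σ' i)
      hok (hs i) ha2 hv
    show Has (Pat.putL d (i :: L) .F) (l + L.length + 1) σ'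
    apply Has.mkN
    refine ⟨?_, ?_, ?_⟩
    · by_cases hi : i = 0
      · subst hi
        simpa using ih
      · rw [if_neg hi, ha1 0 (Ne.symm hi)]
        exact hs 0
    · by_cases hi : i = 1
      · subst hi
        simpa using ih
      · rw [if_neg hi, ha1 1 (Ne.symm hi)]
        exact hs 1
    · by_cases hi : i = 2
      · subst hi
        simpa using ih
      · rw [if_neg hi, ha1 2 (Ne.symm hi)]
        exact hs 2
  | i :: L, .N a b c, σ, σ', hok, h, hag, hv => by
    obtain ⟨ha, hb, hc⟩ : Has a (l + L.length) (sub (k := l + L.length) σ 0) ∧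
      Has b (l + L.length) (sub (k := l + L.length) σ 1) ∧
      Has c (l + L.length) (sub (k := l + L.length) σ 2) := h
    obtain ⟨ha1, ha2⟩ : (∀ i', i' ≠ i → sub (k := l + L.length) σ' i' =
      sub (k := l + L.length) σ i') ∧ Agr L.length (toIdx L) (sub (k := l + L.length) σ i)
      (sub (k := l + L.length) σ' i) := hag
    show Has (Pat.putL d (i :: L) (.N a b c)) (l + L.length + 1) σ'
    apply Has.mkN
    rcases fin3 i with rfl | rfl | rfl
    · have ih := has_put d L a _ _ hok ha ha2 hv
      refine ⟨by simpa using ih, ?_, ?_⟩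
      · rw [if_neg (by decide), ha1 1 (by decide)]
        exact hb
      · rw [if_neg (by decide), ha1 2 (by decide)]
        exact hc
    · have ih := has_put d L b _ _ hok hb ha2 hv
      refine ⟨?_, by simpa using ih, ?_⟩
      · rw [if_neg (by decide), ha1 0 (by decide)]
        exact ha
      · rw [if_neg (by decide), ha1 2 (by decide)]
        exact hc
    · have ih := has_put d L c _ _ hok hc ha2 hv
      refine ⟨?_, ?_, by simpa using ih⟩
      · rw [if_neg (by decide), ha1 0 (by decide)]
        exact ha
      · rw [if_neg (by decide), ha1 1 (by decide)]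
        exact hb
  | _ :: _, .O, _, _, hok, _, _, _ => by simp [Pat.okL] at hok
  | _ :: _, .I, _, _, hok, _, _, _ => by simp [Pat.okL] at hok

/-- every partial assignment can be completed by asking everything -/
theorem can_all {k : ℕ} : ∀ (n : ℕ) (σ : St k), (Finset.univ.filter fun i => σ i = none).card = n →
    Can k σ n := by
  intro n
  induction n with
  | zero =>
    intro σ h
    apply Can.det
    · by_contra hcon
      push Not at hcon
      obtain ⟨x, hx, hx'⟩ := exists_true k σ hcon.2
      obtain ⟨y, hy, hy'⟩ := exists_false k σ hcon.1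
      have hxy : x = y := by
        funext i
        have hi : σ i ≠ none := by
          intro hi
          have : i ∈ Finset.univ.filter fun i => σ i = none := by simp [hi]
          rw [Finset.card_eq_zero.1 h] at this
          exact absurd this (Finset.notMem_empty i)
        obtain ⟨b, hb⟩ := Option.ne_none_iff_exists'.1 hi
        rw [hx i b hb, hy i b hb]
      rw [hxy, hy'] at hx'
      exact absurd hx' (by decide)
    · simp
  | succ n ih =>
    intro σ h
    have hne : (Finset.univ.filter fun i => σ i = none).Nonempty := by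
      rw [← Finset.card_pos, h]; omega
    obtain ⟨i, hi⟩ := hne
    have hi' : σ i = none := (Finset.mem_filter.1 hi).2
    have hu : ∀ b, (Finset.univ.filter fun j => upd σ i b j = none).card = n := by
      intro b
      have e : (Finset.univ.filter fun j => upd σ i b j = none) =
          (Finset.univ.filter fun j => σ j = none).erase i := by
        ext j
        simp only [Finset.mem_filter, Finset.mem_univ, true_and, Finset.mem_erase]
        unfold upd
        by_cases hji : j = i
        · subst hji
          rw [Function.update_self]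
          simp
        · rw [Function.update_of_ne hji]
          simp [hji]
      rw [e, Finset.card_erase_of_mem hi, h]
      rfl
    refine (Can.ask hi' (ih _ (hu false)) (ih _ (hu true))).mono ?_
    push_cast
    linarith

theorem card_Idx : ∀ k : ℕ, Fintype.card (Idx k) = 3 ^ k
  | 0 => rfl
  | k + 1 => by
    have h : Fintype.card (Idx (k + 1)) = Fintype.card (Fin 3 × Idx k) := rfl
    rw [h, Fintype.card_prod, card_Idx k, Fintype.card_fin, pow_succ, mul_comm]

theorem can_pow {k : ℕ} (σ : St k) : Can k σ (3 ^ k) := by
  refine (can_all _ σ rfl).mono ?_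
  have h1 : (Finset.univ.filter fun i => σ i = none).card ≤ 3 ^ k := by
    rw [← card_Idx k]
    exact Finset.card_le_univ _
  exact_mod_cast h1

/-! ### Tables -/

/-- an entry: pattern, weight, path of the block to be evaluated, indices of the entries of this
block and of the two results -/
structure Ent where
  p : Pat
  w : ℕ
  L : List (Fin 3)
  s : ℕ
  i1 : ℕ
  i0 : ℕ

instance : Inhabited Ent := ⟨⟨.F, 0, [], 0, 0, 0⟩⟩

/-- weight of a pattern -/
def wOf (tab : List Ent) (b i : ℕ) (q : Pat) : Option ℕ :=
  match q with
  | .O => some 0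
  | .I => some 0
  | q => if (decide (i < b) && Pat.beq (tab.getD i default).p q) = true then
      some (tab.getD i default).w else none

/-- check of an entry -/
def entOk (tab : List Ent) (N T : ℕ) (lam : ℚ) (n : ℕ) (e : Ent) : Bool :=
  Pat.okL e.L e.p && decide (1 ≤ e.L.length) && decide (e.L.length ≤ T) && decide (1 ≤ e.w) &&
  match wOf tab N e.s (Pat.subL e.L e.p), wOf tab n e.i1 (Pat.putL true e.L e.p),
    wOf tab n e.i0 (Pat.putL false e.L e.p) with
  | some ws, some w1, some w0 =>
    decide ((ws : ℚ) + lam ^ e.L.length * ((1 + (Pat.subL e.L e.p).val) / 2 * w1 +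
      (1 - (Pat.subL e.L e.p).val) / 2 * w0) ≤ lam ^ e.L.length * e.w)
  | _, _, _ => false

/-- check of a table -/
def tabOk (tab : List Ent) (T : ℕ) (lam : ℚ) : Bool :=
  (List.range tab.length).all fun n => entOk tab tab.length T lam n (tab.getD n default)

theorem wOf_can {tab : List Ent} {b i : ℕ} {q : Pat} {w : ℕ} (h : wOf tab b i q = some w)
    {k : ℕ} {c : ℝ} (hc : 0 ≤ c)
    (hIH : ∀ j < b, ∀ σ : St k, Has (tab.getD j default).p k σ →
      Can k σ (c * (tab.getD j default).w)) (σ : St k) (hσ : Has q k σ) : Can k σ (c * w) := by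
  unfold wOf at h
  split at h
  · apply Can.det (Or.inr hσ)
    positivity
  · apply Can.det (Or.inl hσ)
    positivity
  · split_ifs at h with h1
    rw [Bool.and_eq_true, decide_eq_true_eq] at h1
    have h2 := Pat.eq_of_beq _ _ h1.2
    cases h
    apply hIH i h1.1
    rw [h2]
    exact hσ

theorem table_can (tab : List Ent) (T : ℕ) (lam : ℚ) (hlam : 1 ≤ lam)
    (hok : tabOk tab T lam = true) (k : ℕ) : ∀ n < tab.length, ∀ σ : St k,
    Has (tab.getD n default).p k σ → Can k σ (3 ^ T * (lam : ℝ) ^ k * (tab.getD n default).w) := by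
  have hlam' : (1 : ℝ) ≤ (lam : ℝ) := by exact_mod_cast hlam
  have hent : ∀ n < tab.length, entOk tab tab.length T lam n (tab.getD n default) = true := by
    intro n hn
    unfold tabOk at hok
    rw [List.all_eq_true] at hok
    exact hok n (List.mem_range.2 hn)
  induction k using Nat.strong_induction_on with
  | _ k ihk =>
    intro n
    induction n using Nat.strong_induction_on with
    | _ n ihn =>
      intro hn σ hσ
      have he := hent n hn
      set e := tab.getD n default with hedef
      unfold entOk at he
      rw [Bool.and_eq_true, Bool.and_eq_true, Bool.and_eq_true, Bool.and_eq_true,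
        decide_eq_true_eq, decide_eq_true_eq, decide_eq_true_eq] at he
      obtain ⟨⟨⟨⟨hokL, hL1⟩, hLT⟩, hw⟩, hmatch⟩ := he
      have hw' : (1 : ℝ) ≤ e.w := by exact_mod_cast hw
      by_cases hkT : k < T
      · refine (can_pow σ).mono ?_
        have h1 : (3 : ℝ) ^ k ≤ 3 ^ T := pow_le_pow_right₀ (by norm_num) hkT.le
        have h2 : (1 : ℝ) ≤ (lam : ℝ) ^ k := one_le_pow₀ hlam'
        have h3 : (0 : ℝ) < 3 ^ T := by positivity
        calc (3 : ℝ) ^ k ≤ 3 ^ T * 1 * 1 := by linarith
          _ ≤ 3 ^ T * (lam : ℝ) ^ k * e.w := by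
            apply mul_le_mul (mul_le_mul_of_nonneg_left h2 h3.le) hw' (by norm_num) (by positivity)
      · push Not at hkT
        obtain ⟨l, rfl⟩ : ∃ l, k = l + e.L.length := ⟨k - e.L.length, by omega⟩
        have hl : l < l + e.L.length := by omega
        split at hmatch
        · rename_i ws w1 w0 hws hw1 hw0
          rw [decide_eq_true_eq] at hmatch
          have hcl : (0 : ℝ) ≤ 3 ^ T * (lam : ℝ) ^ l := by positivity
          have hck : (0 : ℝ) ≤ 3 ^ T * (lam : ℝ) ^ (l + e.L.length) := by positivity
          have hsub := has_sub e.L e.p σ hokL hσ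
          have hd := wOf_can hws hcl (fun j hj σ' hσ' => ihk l hl j hj σ' hσ') _ hsub
          have hv := Has.v_eq _ _ _ hsub
          have hb := Can.block e.L.length (toIdx e.L)
            (3 ^ T * (lam : ℝ) ^ (l + e.L.length) * w1) (3 ^ T * (lam : ℝ) ^ (l + e.L.length) * w0)
            (3 ^ T * (lam : ℝ) ^ l * ws) σ hd
            (fun σ' ha hv' => wOf_can hw1 hck (fun j hj σ'' hσ'' =>
              ihn j hj (lt_trans hj hn) σ'' hσ'') σ' (has_put true e.L e.p σ σ' hokL hσ ha hv'))
            (fun σ' ha hv' => wOf_can hw0 hck (fun j hj σ'' hσ'' =>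
              ihn j hj (lt_trans hj hn) σ'' hσ'') σ' (has_put false e.L e.p σ σ' hokL hσ ha hv'))
          refine hb.mono ?_
          rw [hv]
          have hR : (ws : ℝ) + (lam : ℝ) ^ e.L.length *
              ((1 + ((Pat.subL e.L e.p).val : ℝ)) / 2 * w1 +
              (1 - ((Pat.subL e.L e.p).val : ℝ)) / 2 * w0) ≤ (lam : ℝ) ^ e.L.length * e.w := by
            exact_mod_cast hmatch
          have hfin := mul_le_mul_of_nonneg_left hR hcl
          rw [pow_add]
          linarith
        · exact absurd hmatch (by decide)

end Pool.Agent.H384R2.RM
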