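import Pool.Agent.H384R2.RMLower
import Pool.Agent.H384R2.RMLink
import Pool.Agent.H384R2.RMPat

/-!
# The revealment is the least expected number of queries divided by `3 ^ k`
-/

set_option autoImplicit false

namespace Pool.Agent.H384R2.RM

open Finset

/-! ### Translations -/

/-- componentwise addition -/
def tr : (k : ℕ) → Idx k → Idx k → Idx k
  | 0, _, _ => ()
  | k + 1, a, j => cons (a.1 + j.1) (tr k a.2 j.2)

/-- componentwise subtraction -/
def rt : (k : ℕ) → Idx k → Idx k → Idx k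
  | 0, _, _ => ()
  | k + 1, a, j => cons (j.1 - a.1) (rt k a.2 j.2)

theorem rt_tr : ∀ (k : ℕ) (a j : Idx k), rt k a (tr k a j) = j
  | 0, _, () => rfl
  | k + 1, (a₁, a₂), (j₁, j₂) => by
    show cons (a₁ + j₁ - a₁) (rt k a₂ (tr k a₂ j₂)) = (j₁, j₂)
    rw [rt_tr k, add_sub_cancel_left]
    rfl

theorem tr_rt : ∀ (k : ℕ) (a j : Idx k), tr k a (rt k a j) = j
  | 0, _, () => rfl
  | k + 1, (a₁, a₂), (j₁, j₂) => by
    show cons (a₁ + (j₁ - a₁)) (tr k a₂ (rt k a₂ j₂)) = (j₁, j₂)
    rw [tr_rt k, add_sub_cancel]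
    rfl

theorem rt_rt : ∀ (k : ℕ) (a j : Idx k), rt k (rt k a j) j = a
  | 0, (), () => rfl
  | k + 1, (a₁, a₂), (j₁, j₂) => by
    show cons (j₁ - (j₁ - a₁)) (rt k (rt k a₂ j₂) j₂) = (a₁, a₂)
    rw [rt_rt k, sub_sub_cancel]
    rfl

/-- the translation by `a` -/
def trE (k : ℕ) (a : Idx k) : Idx k ≃ Idx k where
  toFun := tr k a
  invFun := rt k a
  left_inv := rt_tr k a
  right_inv := tr_rt k a

theorem maj_rot (a b c : Bool) : maj b c a = maj a b c := by
  cases a <;> cases b <;> cases c <;> rfl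

/-- `f k` is invariant under translations -/
theorem f_tr : ∀ (k : ℕ) (a : Idx k) (x : Idx k → Bool), f k (fun j => x (tr k a j)) = f k x
  | 0, _, _ => rfl
  | k + 1, (a₁, a₂), x => by
    have h : ∀ i : Fin 3, (f k fun j => x (tr (k + 1) (a₁, a₂) (cons i j))) =
        f k fun j => x (cons (a₁ + i) j) := fun i =>
      f_tr k a₂ fun j => x (cons (a₁ + i) j)
    show maj (f k fun j => x (tr (k + 1) (a₁, a₂) (cons 0 j)))
      (f k fun j => x (tr (k + 1) (a₁, a₂) (cons 1 j)))
      (f k fun j => x (tr (k + 1) (a₁, a₂) (cons 2 j))) =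
      maj (f k fun j => x (cons 0 j)) (f k fun j => x (cons 1 j)) (f k fun j => x (cons 2 j))
    rw [h, h, h]
    rcases fin3 a₁ with rfl | rfl | rfl
    · rfl
    · exact maj_rot _ _ _
    · exact (maj_rot _ _ _).symm

/-! ### Renaming the bits of a tree -/

section

variable {ι : Type} [Fintype ι] [DecidableEq ι]

/-- renaming of the bits -/
def Tree.map (e : ι ≃ ι) : Tree ι → Tree ι
  | .stop => .stop
  | .ask i t₀ t₁ => .ask (e i) (t₀.map e) (t₁.map e)

theorem mem_J_map (e : ι ≃ ι) (i : ι) : ∀ (t : Tree ι) (x : ι → Bool),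
    e i ∈ (t.map e).J x ↔ i ∈ t.J (fun j => x (e j))
  | .stop, x => by simp [Tree.map, Tree.J]
  | .ask j t₀ t₁, x => by
    show e i ∈ insert (e j) (if x (e j) = true then (t₁.map e).J x else (t₀.map e).J x) ↔
      i ∈ insert j (if x (e j) = true then t₁.J (fun j => x (e j)) else t₀.J (fun j => x (e j)))
    rw [Finset.mem_insert, Finset.mem_insert, e.injective.eq_iff]
    split_ifs with h
    · rw [mem_J_map e i t₁ x]
    · rw [mem_J_map e i t₀ x]

theorem prob_map (e : ι ≃ ι) (t : Tree ι) (i : ι) : (t.map e).prob (e i) = t.prob i := by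
  unfold Tree.prob
  congr 2
  apply Finset.card_bij (fun (x : ι → Bool) _ => fun j => x (e j))
  · intro x hx
    rw [Finset.mem_filter] at hx ⊢
    exact ⟨Finset.mem_univ _, (mem_J_map e i t x).1 hx.2⟩
  · intro x _ y _ hxy
    funext j
    have := congrFun hxy (e.symm j)
    simpa using this
  · intro y hy
    rw [Finset.mem_filter] at hy
    refine ⟨fun j => y (e.symm j), ?_, ?_⟩
    · rw [Finset.mem_filter]
      refine ⟨Finset.mem_univ _, (mem_J_map e i t _).2 ?_⟩
      simpa using hy.2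
    · funext j
      simp

theorem computes_map (e : ι ≃ ι) (t : Tree ι) (g : (ι → Bool) → Bool)
    (hg : ∀ x, g (fun j => x (e j)) = g x) (h : t.Computes g) : (t.map e).Computes g := by
  intro x y hxy
  rw [← hg x, ← hg y]
  apply h
  intro i hi
  exact hxy (e i) ((mem_J_map e i t x).2 hi)

theorem prob_nonneg (t : Tree ι) (i : ι) : 0 ≤ t.prob i := by
  unfold Tree.prob
  positivity

theorem prob_le_one (t : Tree ι) (i : ι) : t.prob i ≤ 1 := by
  unfold Tree.prob
  have h0 : (0 : ℝ) < Fintype.card (ι → Bool) := by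
    exact_mod_cast Fintype.card_pos
  rw [div_le_one h0]
  exact_mod_cast Finset.card_le_univ _

end

/-! ### The least expected number of queries -/

/-- least expected number of queries -/
noncomputable def D (k : ℕ) : ℝ := sInf {c : ℝ | ∃ t, Good k t (emp k) ∧ ec t (emp k) = c}

theorem D_bdd (k : ℕ) : BddBelow {c : ℝ | ∃ t, Good k t (emp k) ∧ ec t (emp k) = c} := by
  refine ⟨0, ?_⟩
  rintro c ⟨t, -, rfl⟩
  exact ec_nonneg _ _

theorem D_nonempty (k : ℕ) : {c : ℝ | ∃ t, Good k t (emp k) ∧ ec t (emp k) = c}.Nonempty := by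
  obtain ⟨t, h, -⟩ := can_pow (emp k)
  exact ⟨_, t, h, rfl⟩

theorem D_le_of_can {k : ℕ} {c : ℝ} (h : Can k (emp k) c) : D k ≤ c := by
  obtain ⟨t, h1, h2⟩ := h
  exact (csInf_le (D_bdd k) ⟨t, h1, rfl⟩).trans h2

theorem D_le {k : ℕ} {t : Tree (Idx k)} (h : Good k t (emp k)) : D k ≤ ec t (emp k) :=
  csInf_le (D_bdd k) ⟨t, h, rfl⟩

theorem can_of_lt {k : ℕ} {c : ℝ} (h : D k < c) : Can k (emp k) c := by
  obtain ⟨_, ⟨t, h1, rfl⟩, h3⟩ := exists_lt_of_csInf_lt (D_nonempty k) h
  exact ⟨t, h1, h3.le⟩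

theorem le_D (k : ℕ) : (453 / 200 : ℝ) ^ k ≤ D k := by
  apply le_csInf (D_nonempty k)
  rintro c ⟨t, h, rfl⟩
  exact ec_emp_ge k t h

theorem D_pos (k : ℕ) : 0 < D k := lt_of_lt_of_le (by positivity) (le_D k)

theorem D_add_le (l k : ℕ) : D (l + k) ≤ D l * D k := by
  apply le_of_forall_gt_imp_ge_of_dense
  intro c hc
  have h1 : D l < c / D k := by
    rw [lt_div_iff₀ (D_pos k)]
    exact hc
  obtain ⟨a, ha1, ha2⟩ := exists_between h1
  have ha0 : 0 < a := (D_pos l).trans ha1
  have h2 : D k < c / a := by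
    rw [lt_div_iff₀ ha0]
    rw [lt_div_iff₀ (D_pos k)] at ha2
    linarith
  have h3 := Can.comp (can_of_lt ha1) ha0.le (can_of_lt h2)
  have h4 := D_le_of_can h3
  rwa [div_mul_cancel₀ _ ha0.ne'] at h4

/-! ### The revealment -/

theorem real_lower {k : ℕ} {Ω : Type} (p : PMF Ω) (T : Ω → Tree (Idx k))
    (hT : ∀ ω, p ω ≠ 0 → (T ω).Computes (f k)) :
    D k / 3 ^ k ≤ ⨆ i : Idx k, ∑' ω, (p ω).toReal * (T ω).prob i := by
  set h : Idx k → ℝ := fun i => ∑' ω, (p ω).toReal * (T ω).prob i with hh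
  have hs : Summable fun ω => (p ω).toReal := by
    apply ENNReal.summable_toReal
    rw [p.tsum_coe]
    exact ENNReal.one_ne_top
  have hsum1 : ∑' ω, (p ω).toReal = 1 := by
    rw [← ENNReal.tsum_toReal_eq, p.tsum_coe]
    · simp
    · intro ω
      exact p.apply_ne_top ω
  have hsi : ∀ i, Summable fun ω => (p ω).toReal * (T ω).prob i := by
    intro i
    apply Summable.of_nonneg_of_le _ _ hs
    · intro ω
      exact mul_nonneg ENNReal.toReal_nonneg (prob_nonneg _ _)
    · intro ω
      exact mul_le_of_le_one_right ENNReal.toReal_nonneg (prob_le_one _ _)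
  have hex : ∑ i, h i = ∑' ω, (p ω).toReal * ec (T ω) (emp k) := by
    rw [hh]
    simp only
    rw [← Summable.tsum_finsetSum (fun i _ => hsi i)]
    apply tsum_congr
    intro ω
    rw [← Finset.mul_sum, sum_prob]
    rfl
  have hge : D k ≤ ∑ i, h i := by
    rw [hex]
    have e : D k = ∑' ω, (p ω).toReal * D k := by
      rw [tsum_mul_right, hsum1, one_mul]
    rw [e]
    apply Summable.tsum_le_tsum _ (hs.mul_right _)
    · have : (fun ω => (p ω).toReal * ec (T ω) (emp k)) =
          fun ω => ∑ i, (p ω).toReal * (T ω).prob i := by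
        funext ω
        rw [← Finset.mul_sum, sum_prob]
        rfl
      rw [this]
      exact summable_sum fun i _ => hsi i
    · intro ω
      by_cases hω : p ω = 0
      · rw [hω]
        simp
      · apply mul_le_mul_of_nonneg_left _ ENNReal.toReal_nonneg
        exact D_le ((computes_iff _).1 (hT ω hω))
  have hle : ∑ i, h i ≤ 3 ^ k * ⨆ i, h i := by
    calc ∑ i, h i ≤ ∑ _i : Idx k, ⨆ i, h i :=
          Finset.sum_le_sum fun i _ => le_ciSup (Set.finite_range h).bddAbove i
      _ = 3 ^ k * ⨆ i, h i := by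
          rw [Finset.sum_const, nsmul_eq_mul, Finset.card_univ, card_Idx]
          push_cast
          rfl
  rw [div_le_iff₀ (by positivity)]
  linarith

def dIdx : (k : ℕ) → Idx k
  | 0 => ()
  | k + 1 => cons 0 (dIdx k)

instance (k : ℕ) : Nonempty (Idx k) := ⟨dIdx k⟩

theorem real_upper {k : ℕ} (t : Tree (Idx k)) (ht : Good k t (emp k)) :
    ∃ (Ω : Type) (p : PMF Ω) (T : Ω → Tree (Idx k)),
      (∀ ω, p ω ≠ 0 → (T ω).Computes (f k)) ∧
      ec t (emp k) / 3 ^ k = ⨆ i : Idx k, ∑' ω, (p ω).toReal * (T ω).prob i := by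
  refine ⟨Idx k, PMF.uniformOfFintype (Idx k), fun a => t.map (trE k a), ?_, ?_⟩
  · intro a _
    apply computes_map
    · intro x
      exact f_tr k a x
    · exact (computes_iff t).2 ht
  · have h : ∀ i : Idx k, ∑' a, ((PMF.uniformOfFintype (Idx k)) a).toReal *
        (t.map (trE k a)).prob i = ec t (emp k) / 3 ^ k := by
      intro i
      rw [tsum_fintype]
      have h1 : ∀ a, (t.map (trE k a)).prob i = t.prob (rt k a i) := by
        intro a
        have := prob_map (trE k a) t (rt k a i)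
        rw [← this]
        congr 1
        exact (tr_rt k a i).symm
      have h2 : ∀ a : Idx k, ((PMF.uniformOfFintype (Idx k)) a).toReal = 1 / 3 ^ k := by
        intro a
        rw [PMF.uniformOfFintype_apply, card_Idx]
        simp
      simp only [h1, h2]
      rw [← Finset.mul_sum]
      have h3 : ∑ a, t.prob (rt k a i) = ∑ j, t.prob j := by
        apply Finset.sum_bij (fun a _ => rt k a i)
        · intro a _
          exact Finset.mem_univ _
        · intro a _ b _ hab
          have := congrArg (fun j => rt k j i) hab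
          simpa [rt_rt] using this
        · intro j _
          exact ⟨rt k j i, Finset.mem_univ _, rt_rt k j i⟩
        · intro a _
          rfl
      rw [h3, sum_prob]
      show 1 / 3 ^ k * ec t (emp k) = _
      ring
    simp only [h]
    exact ciSup_const.symm

theorem delta_eq (k : ℕ) : delta (f k) = D k / 3 ^ k := by
  apply le_antisymm
  · rw [le_div_iff₀ (by positivity)]
    apply le_csInf (D_nonempty k)
    rintro c ⟨t, ht, rfl⟩
    rw [← le_div_iff₀ (by positivity)]
    apply csInf_le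
    · refine ⟨D k / 3 ^ k, ?_⟩
      rintro r ⟨Ω, p, T, hT, rfl⟩
      exact real_lower p T hT
    · obtain ⟨Ω, p, T, hT, hr⟩ := real_upper t ht
      exact ⟨Ω, p, T, hT, hr⟩
  · apply le_csInf
    · obtain ⟨t, ht, -⟩ := can_pow (emp k)
      obtain ⟨Ω, p, T, hT, hr⟩ := real_upper t ht
      exact ⟨_, Ω, p, T, hT, hr⟩
    · rintro r ⟨Ω, p, T, hT, rfl⟩
      exact real_lower p T hT

end Pool.Agent.H384R2.RM
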