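import Pool.Agent.H384R2.RMDelta

/-!
# The exponent of the revealment
-/

set_option autoImplicit false

namespace Pool.Agent.H384R2.RM

open Filter Topology

/-- the ratio of the problem -/
noncomputable def ratio (k : ℕ) : ℝ := -Real.log (delta (f k)) / Real.log (3 ^ k)

theorem log_three_pos : 0 < Real.log 3 := Real.log_pos (by norm_num)

theorem ratio_eq {k : ℕ} (hk : k ≠ 0) : ratio k = 1 - Real.log (D k) / k / Real.log 3 := by
  unfold ratio
  have h3 := log_three_pos
  have hk' : (k : ℝ) ≠ 0 := by exact_mod_cast hk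
  rw [delta_eq, Real.log_div (D_pos k).ne' (by positivity), Real.log_pow]
  field_simp
  ring

theorem subadd : Subadditive fun k => Real.log (D k) := by
  intro m n
  rw [← Real.log_mul (D_pos m).ne' (D_pos n).ne']
  exact Real.log_le_log (D_pos _) (D_add_le m n)

theorem logD_ge (k : ℕ) : k * Real.log (453 / 200) ≤ Real.log (D k) := by
  rw [← Real.log_pow]
  exact Real.log_le_log (by positivity) (le_D k)

theorem bdd : BddBelow (Set.range fun n : ℕ => Real.log (D n) / n) := by
  refine ⟨0, ?_⟩
  rintro c ⟨n, rfl⟩
  have h1 := logD_ge n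
  have h2 : 0 ≤ Real.log (453 / 200 : ℝ) := Real.log_nonneg (by norm_num)
  show 0 ≤ Real.log (D n) / n
  apply div_nonneg _ (Nat.cast_nonneg n)
  exact le_trans (mul_nonneg (Nat.cast_nonneg n) h2) h1

/-- the limit of the ratio -/
noncomputable def expo : ℝ := 1 - subadd.lim / Real.log 3

theorem tendsto_ratio : Tendsto ratio atTop (𝓝 expo) := by
  have h1 := subadd.tendsto_lim bdd
  have h2 : Tendsto (fun n : ℕ => 1 - Real.log (D n) / n / Real.log 3) atTop (𝓝 expo) :=
    (h1.div_const (Real.log 3)).const_sub 1
  refine h2.congr' ?_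
  filter_upwards [eventually_ne_atTop 0] with n hn
  exact (ratio_eq hn).symm

theorem ratio_le_expo {k : ℕ} (hk : k ≠ 0) : ratio k ≤ expo := by
  rw [ratio_eq hk]
  unfold expo
  have h1 := subadd.lim_le_div bdd hk
  have h2 : subadd.lim / Real.log 3 ≤ Real.log (D k) / k / Real.log 3 :=
    div_le_div_of_nonneg_right h1 log_three_pos.le
  linarith

theorem expo_le : expo ≤ Real.log (600 / 453) / Real.log 3 := by
  apply le_of_tendsto tendsto_ratio
  filter_upwards [eventually_ne_atTop 0] with n hn
  rw [ratio_eq hn, show (600 / 453 : ℝ) = 3 / (453 / 200) by norm_num,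
    Real.log_div (by norm_num) (by norm_num), sub_div, div_self log_three_pos.ne']
  have hn' : (0 : ℝ) < n := by positivity
  have h1 : Real.log (453 / 200) ≤ Real.log (D n) / n := by
    rw [le_div_iff₀ hn']
    linarith [logD_ge n]
  have h2 := div_le_div_of_nonneg_right h1 log_three_pos.le
  linarith

theorem delta_pos (k : ℕ) : 0 < delta (f k) := by
  rw [delta_eq]
  exact div_pos (D_pos k) (by positivity)

theorem delta_ge (k : ℕ) : (453 / 600 : ℝ) ^ k ≤ delta (f k) := by
  rw [delta_eq, le_div_iff₀ (by positivity), ← mul_pow]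
  refine le_trans (le_of_eq ?_) (le_D k)
  norm_num

/-- lower bound for the exponent from strategies -/
theorem le_expo {C lam : ℝ} (hC : 0 < C) (hlam : 0 < lam)
    (h : ∀ k, Can k (emp k) (C * lam ^ k)) : Real.log (3 / lam) / Real.log 3 ≤ expo := by
  have h1 : subadd.lim ≤ Real.log lam := by
    have h2 : Tendsto (fun n : ℕ => Real.log C / n + Real.log lam) atTop (𝓝 (0 + Real.log lam)) :=
      (tendsto_const_div_atTop_nhds_zero_nat _).add_const _
    rw [zero_add] at h2
    apply ge_of_tendsto h2
    filter_upwards [eventually_ne_atTop 0] with n hn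
    refine (subadd.lim_le_div bdd hn).trans ?_
    have hn' : (0 : ℝ) < n := by positivity
    have h3 : Real.log (D n) ≤ Real.log C + n * Real.log lam := by
      rw [← Real.log_pow, ← Real.log_mul hC.ne' (by positivity)]
      exact Real.log_le_log (D_pos n) (D_le_of_can (h n))
    show Real.log (D n) / n ≤ _
    rw [div_le_iff₀ hn']
    have e : (Real.log C / n + Real.log lam) * n = Real.log C + n * Real.log lam := by
      field_simp
    rw [e]
    exact h3
  rw [Real.log_div (by norm_num) hlam.ne', sub_div, div_self log_three_pos.ne']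
  unfold expo
  have h2 := div_le_div_of_nonneg_right h1 log_three_pos.le
  linarith

theorem delta_le {C lam : ℝ} (h : ∀ k, Can k (emp k) (C * lam ^ k)) (k : ℕ) :
    delta (f k) ≤ C * (lam / 3) ^ k := by
  rw [delta_eq, div_pow, ← mul_div_assoc]
  exact div_le_div_of_nonneg_right (D_le_of_can (h k)) (by positivity)

theorem liminf_eq : liminf ratio atTop = expo := tendsto_ratio.liminf_eq

theorem limsup_eq : limsup ratio atTop = expo := tendsto_ratio.limsup_eq

end Pool.Agent.H384R2.RM
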