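import Pool.Agent.H384R2.RMState

/-!
# The inequality behind the lower bound
-/

set_option autoImplicit false

namespace Pool.Agent.H384R2.RM

/-- the potential of a node -/
noncomputable def psi (s : ℝ) : ℝ := max (s ^ 2) (147 / 100 * |s| - 47 / 100)

theorem psi_sq (s : ℝ) : s ^ 2 ≤ psi s := le_max_left _ _

theorem psi_pos (s : ℝ) : 147 / 100 * s - 47 / 100 ≤ psi s :=
  le_trans (by linarith [le_abs_self s]) (le_max_right _ _)

theorem psi_neg' (s : ℝ) : -(147 / 100 * s) - 47 / 100 ≤ psi s :=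
  le_trans (by linarith [neg_le_abs s]) (le_max_right _ _)

theorem psi_neg (s : ℝ) : psi (-s) = psi s := by
  unfold psi
  rw [abs_neg, neg_sq]

/-- small conditional expectation, two nonnegative entries and one nonpositive -/
theorem ineq_small_aux {x y z : ℝ} (hx0 : 0 ≤ x) (hx1 : x ≤ 1) (hy0 : 0 ≤ y) (hy1 : y ≤ 1)
    (hz0 : z ≤ 0) (hz1 : -1 ≤ z) (hA : A x y z ≤ 1 / 2) :
    453 / 200 * A x y z ^ 2 ≤ x ^ 2 + y ^ 2 + z ^ 2 + 147 / 200 * (x * y + y * z + x * z) := by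
  unfold A at *
  obtain ⟨w, rfl⟩ : ∃ w, z = -w := ⟨-z, by ring⟩
  have hw0 : 0 ≤ w := by linarith
  have hw1 : w ≤ 1 := by linarith
  obtain ⟨p, hp⟩ : ∃ p, p = x * y := ⟨_, rfl⟩
  obtain ⟨s, hs⟩ : ∃ s, s = x + y := ⟨_, rfl⟩
  have hp0 : 0 ≤ p := by rw [hp]; positivity
  have hp1 : p ≤ 1 := by rw [hp]; nlinarith
  have hs0 : 0 ≤ s := by rw [hs]; linarith
  have hsp : 4 * p ≤ s ^ 2 := by rw [hp, hs]; nlinarith [sq_nonneg (x - y)]
  have hA' : s - w + p * w ≤ 1 := by rw [hs, hp]; nlinarith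
  have h1 : s + p ≤ 2 := by nlinarith [mul_nonneg (sub_nonneg.2 hw1) (sub_nonneg.2 hp1)]
  have hp2 : p ≤ 7 / 10 := by
    by_contra hcon
    push Not at hcon
    have : s < 13 / 10 := by linarith
    nlinarith
  have hws : 0 ≤ w * s := mul_nonneg hw0 hs0
  have hpws : p * (w * s) ≤ 7 / 10 * (w * s) := mul_le_mul_of_nonneg_right hp2 hws
  have hpw : 0 ≤ p * w ^ 2 := by positivity
  have hppw : p * (p * w ^ 2) ≤ 1 * (p * w ^ 2) := mul_le_mul_of_nonneg_right hp1 hpw
  have key : 453 / 800 * (s - w + p * w) ^ 2 ≤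
      s ^ 2 - 2 * p + w ^ 2 + 147 / 200 * (p - w * s) := by
    nlinarith [sq_nonneg (w - s / 2), sq_nonneg (s - w), mul_nonneg hp0 hws]
  have e1 : x ^ 2 + y ^ 2 = s ^ 2 - 2 * p := by rw [hs, hp]; ring
  have e2 : x * y + y * -w + x * -w = p - w * s := by rw [hs, hp]; ring
  have e3 : (x + y + -w - x * y * -w) / 2 = (s - w + p * w) / 2 := by rw [hs, hp]; ring
  rw [e1, e2, e3, neg_sq]
  calc 453 / 200 * ((s - w + p * w) / 2) ^ 2 = 453 / 800 * (s - w + p * w) ^ 2 := by ring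
    _ ≤ _ := key

theorem ineq_small_pos {x y z : ℝ} (hx0 : 0 ≤ x) (hx1 : x ≤ 1) (hy0 : 0 ≤ y) (hy1 : y ≤ 1)
    (hz0 : 0 ≤ z) (hz1 : z ≤ 1) :
    453 / 200 * A x y z ^ 2 ≤ x ^ 2 + y ^ 2 + z ^ 2 + 147 / 200 * (x * y + y * z + x * z) := by
  unfold A
  have h0 : x * y * z ≤ x := by
    have : x * (y * z) ≤ x * 1 := mul_le_mul_of_nonneg_left (by nlinarith) hx0
    linarith [mul_assoc x y z]
  have h1 : 0 ≤ x * y * z := by positivity
  have h2 : 0 ≤ x + y + z - x * y * z := by linarith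
  have h3 : (x + y + z - x * y * z) ^ 2 ≤ (x + y + z) ^ 2 := by
    apply pow_le_pow_left₀ h2; linarith
  nlinarith [sq_nonneg (x - y), sq_nonneg (y - z), sq_nonneg (x - z), sq_nonneg (x + y + z)]

theorem A_comm12 (x y z : ℝ) : A x y z = A y x z := by unfold A; ring
theorem A_comm23 (x y z : ℝ) : A x y z = A x z y := by unfold A; ring

theorem ineq_small {x y z : ℝ} (hx : |x| ≤ 1) (hy : |y| ≤ 1) (hz : |z| ≤ 1)
    (hA : |A x y z| ≤ 1 / 2) :
    453 / 200 * A x y z ^ 2 ≤ x ^ 2 + y ^ 2 + z ^ 2 + 147 / 200 * (x * y + y * z + x * z) := by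
  rw [abs_le] at hx hy hz hA
  have hneg : A (-x) (-y) (-z) = -A x y z := A_neg x y z
  rcases le_total 0 x with hx0 | hx0 <;> rcases le_total 0 y with hy0 | hy0 <;>
    rcases le_total 0 z with hz0 | hz0
  · exact ineq_small_pos hx0 hx.2 hy0 hy.2 hz0 hz.2
  · exact ineq_small_aux hx0 hx.2 hy0 hy.2 hz0 hz.1 hA.2
  · have h := ineq_small_aux hx0 hx.2 hz0 hz.2 hy0 hy.1 (by rw [← A_comm23]; exact hA.2)
    rw [← A_comm23] at h
    linarith
  · -- x ≥ 0, y, z ≤ 0
    have h := ineq_small_aux (x := -y) (y := -z) (z := -x) (by linarith) (by linarith)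
      (by linarith) (by linarith) (by linarith) (by linarith)
      (by rw [A_neg, ← A_comm23 y x z, ← A_comm12 x y z]; linarith)
    rw [A_neg, ← A_comm23 y x z, ← A_comm12 x y z] at h
    linarith
  · -- x ≤ 0, y, z ≥ 0
    have h := ineq_small_aux (x := y) (y := z) (z := x) (by linarith) (by linarith)
      (by linarith) (by linarith) (by linarith) (by linarith)
      (by rw [← A_comm23 y x z, ← A_comm12 x y z]; linarith)
    rw [← A_comm23 y x z, ← A_comm12 x y z] at h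
    linarith
  · have h := ineq_small_aux (x := -x) (y := -z) (z := -y) (by linarith) (by linarith)
      (by linarith) (by linarith) (by linarith) (by linarith)
      (by rw [A_neg, ← A_comm23]; linarith)
    rw [A_neg, ← A_comm23] at h
    linarith
  · have h := ineq_small_aux (x := -x) (y := -y) (z := -z) (by linarith) (by linarith)
      (by linarith) (by linarith) (by linarith) (by linarith)
      (by rw [A_neg]; linarith)
    rw [A_neg] at h
    linarith
  · have h := ineq_small_pos (x := -x) (y := -y) (z := -z) (by linarith) (by linarith)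
      (by linarith) (by linarith) (by linarith) (by linarith)
    rw [A_neg] at h
    linarith

/-- one entry is very negative -/
theorem ineq_edge {x y z : ℝ} (hx : |x| ≤ 1) (hy : |y| ≤ 1) (hz : |z| ≤ 1)
    (hz1 : z ≤ -(147 / 653)) :
    453 / 200 * (147 / 100 * A x y z - 47 / 100) ≤
      psi x + psi y + psi z + 147 / 200 * (x * y + y * z + x * z) := by
  rw [abs_le] at hx hy hz
  have h1 := psi_pos x
  have h2 := psi_pos y
  have h3 := psi_neg' z
  unfold A
  obtain ⟨a, rfl⟩ : ∃ a, x = 1 - a := ⟨1 - x, by ring⟩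
  obtain ⟨b, rfl⟩ : ∃ b, y = 1 - b := ⟨1 - y, by ring⟩
  have ha0 : 0 ≤ a := by linarith [hx.2]
  have ha2 : a ≤ 2 := by linarith [hx.1]
  have hb0 : 0 ≤ b := by linarith [hy.2]
  have hb2 : b ≤ 2 := by linarith [hy.1]
  have hab : a * b ≤ a + b := by nlinarith [mul_nonneg ha0 (sub_nonneg.2 hb2), mul_nonneg hb0 (sub_nonneg.2 ha2)]
  have hab0 : 0 ≤ a * b := mul_nonneg ha0 hb0
  obtain ⟨t, ht⟩ : ∃ t, t = -(147 / 200) - (653 / 200) * z := ⟨_, rfl⟩
  have ht0 : 0 ≤ t := by rw [ht]; linarith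
  have hg : -t ≤ 1 + 453 / 200 * z := by rw [ht]; linarith
  have h4 : 0 ≤ (a + b) * t + a * b * (1 + 453 / 200 * z) := by
    have h5 : a * b * t ≤ (a + b) * t := mul_le_mul_of_nonneg_right hab ht0
    have h6 : a * b * (-t) ≤ a * b * (1 + 453 / 200 * z) := mul_le_mul_of_nonneg_left hg hab0
    linarith
  rw [ht] at h4
  nlinarith

/-- the polynomial inequality away from the very negative entries -/
theorem ineq_mid_neg {x y z : ℝ} (hz1 : -(147 / 653) ≤ z) (hz0 : z ≤ 0) :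
    453 / 200 * (147 / 100 * A x y z - 47 / 100) ≤
      x ^ 2 + y ^ 2 + z ^ 2 + 147 / 200 * (x * y + y * z + x * z) := by
  unfold A
  obtain ⟨w, rfl⟩ : ∃ w, z = -w := ⟨-z, by ring⟩
  have hw0 : 0 ≤ w := by linarith
  have hw1 : w ≤ 147 / 653 := by linarith
  obtain ⟨p, hp⟩ : ∃ p, p = x * y := ⟨_, rfl⟩
  obtain ⟨s, hs⟩ : ∃ s, s = x + y := ⟨_, rfl⟩
  have hsp : 4 * p ≤ s ^ 2 := by rw [hp, hs]; nlinarith [sq_nonneg (x - y)]
  obtain ⟨c, hc⟩ : ∃ c : ℝ, c = 253 / 200 + 66591 / 40000 * w := ⟨_, rfl⟩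
  have hc0 : 0 ≤ c := by rw [hc]; linarith
  have h1 : c * (4 * p) ≤ c * s ^ 2 := mul_le_mul_of_nonneg_left hsp hc0
  -- the quadratic in `s`
  obtain ⟨C, hC⟩ : ∃ C : ℝ, C = 1 - c / 4 := ⟨_, rfl⟩
  obtain ⟨b, hb⟩ : ∃ b : ℝ, b = 66591 / 40000 + 147 / 200 * w := ⟨_, rfl⟩
  obtain ⟨e, he⟩ : ∃ e : ℝ, e = w ^ 2 + 66591 / 40000 * w + 42582 / 40000 := ⟨_, rfl⟩
  have hC0 : 0 < C := by rw [hC, hc]; linarith
  have hdisc : b ^ 2 ≤ 4 * C * e := by
    rw [hb, hC, he, hc]
    nlinarith [mul_nonneg hw0 (sub_nonneg.2 hw1), mul_nonneg (mul_nonneg hw0 hw0) (sub_nonneg.2 hw1)]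
  have h2 : 0 ≤ C * s ^ 2 - b * s + e := by
    have h3 : 0 ≤ 4 * C * (C * s ^ 2 - b * s + e) := by nlinarith [sq_nonneg (2 * C * s - b)]
    by_contra hcon
    push Not at hcon
    have : 4 * C * (C * s ^ 2 - b * s + e) < 0 := mul_neg_of_pos_of_neg (by linarith) hcon
    linarith
  have e1 : x ^ 2 + y ^ 2 = s ^ 2 - 2 * p := by rw [hs, hp]; ring
  have e2 : x * y + y * -w + x * -w = p - w * s := by rw [hs, hp]; ring
  have e3 : (x + y + -w - x * y * -w) / 2 = (s - w + p * w) / 2 := by rw [hs, hp]; ring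
  rw [e1, e2, e3, neg_sq]
  rw [hC, hb, he] at h2
  rw [hc] at h1 h2
  nlinarith

theorem ineq_mid_pos {x y z : ℝ} (hx : 0 ≤ x) (hy : 0 ≤ y) (hz : 0 ≤ z) :
    453 / 200 * (147 / 100 * A x y z - 47 / 100) ≤
      x ^ 2 + y ^ 2 + z ^ 2 + 147 / 200 * (x * y + y * z + x * z) := by
  unfold A
  obtain ⟨s, hs⟩ : ∃ s, s = x + y + z := ⟨_, rfl⟩
  obtain ⟨p, hp⟩ : ∃ p, p = x * y + y * z + x * z := ⟨_, rfl⟩
  obtain ⟨r, hr⟩ : ∃ r, r = x * y * z := ⟨_, rfl⟩
  obtain ⟨u, hu⟩ : ∃ u, u = s ^ 2 - 3 * p := ⟨_, rfl⟩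
  have hs0 : 0 ≤ s := by rw [hs]; positivity
  have hr0 : 0 ≤ r := by rw [hr]; positivity
  have hu0 : 0 ≤ u := by
    rw [hu, hs, hp]; nlinarith [sq_nonneg (x - y), sq_nonneg (y - z), sq_nonneg (x - z)]
  -- Schur
  have hschur : s * (s ^ 2 - 4 * u) ≤ 27 * r := by
    have h0 : 0 ≤ x * (x - y) * (x - z) + y * (y - x) * (y - z) + z * (z - x) * (z - y) := by
      rcases le_total x y with h1 | h1 <;> rcases le_total y z with h2 | h2 <;>
        rcases le_total x z with h3 | h3 <;>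
        nlinarith [mul_nonneg (sub_nonneg.2 h1) (sub_nonneg.2 h2),
          mul_nonneg (sub_nonneg.2 h1) (sub_nonneg.2 h3), mul_nonneg (sub_nonneg.2 h2)
          (sub_nonneg.2 h3), mul_nonneg hx (mul_nonneg (sub_nonneg.2 h1) (sub_nonneg.2 h3)),
          mul_nonneg hy (mul_nonneg (sub_nonneg.2 h1) (sub_nonneg.2 h2)),
          mul_nonneg hz (mul_nonneg (sub_nonneg.2 h2) (sub_nonneg.2 h3)),
          mul_nonneg hx (sq_nonneg (y - z)), mul_nonneg hy (sq_nonneg (x - z)),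
          mul_nonneg hz (sq_nonneg (x - y)), mul_nonneg (add_nonneg hx hz) (sq_nonneg (x - z)),
          mul_nonneg hx (sq_nonneg (x - y)), mul_nonneg hx (sq_nonneg (x - z)),
          mul_nonneg hy (sq_nonneg (y - z)), mul_nonneg hy (sq_nonneg (x - y)),
          mul_nonneg hz (sq_nonneg (y - z)), mul_nonneg hz (sq_nonneg (x - z))]
    have h1 : 27 * r - s * (s ^ 2 - 4 * u) = 3 * (x * (x - y) * (x - z) + y * (y - x) * (y - z) +
        z * (z - x) * (z - y)) := by
      rw [hu, hr, hs, hp]; ring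
    linarith
  have hp' : p = (s ^ 2 - u) / 3 := by rw [hu]; ring
  have hsq : x ^ 2 + y ^ 2 + z ^ 2 = (s ^ 2 + 2 * u) / 3 := by
    rw [hu, hs, hp]; ring
  have e1 : (x + y + z - x * y * z) / 2 = (s - r) / 2 := by rw [hs, hr]
  rw [e1, hsq, ← hp, hp']
  by_cases h17 : s ≤ 17 / 10
  · have h1 : 0 ≤ u * (17 / 10 - s) := mul_nonneg hu0 (by linarith)
    nlinarith [mul_nonneg hs0 (sq_nonneg (s - 12066 / 10000)), sq_nonneg (s - 12066 / 10000)]
  · push Not at h17
    have h1 : 17 / 10 * (s ^ 2 - 4 * u) ≤ 27 * r := by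
      by_cases hX : s ^ 2 - 4 * u ≤ 0
      · nlinarith
      · push Not at hX
        nlinarith
    nlinarith [sq_nonneg (s - 1218 / 1000)]

/-- the basic inequality -/
theorem key_ineq {x y z : ℝ} (hx : |x| ≤ 1) (hy : |y| ≤ 1) (hz : |z| ≤ 1) :
    453 / 200 * psi (A x y z) ≤ psi x + psi y + psi z + 147 / 200 * (x * y + y * z + x * z) := by
  -- the case `0 ≤ A`, linear part
  have hlin : ∀ x y z : ℝ, |x| ≤ 1 → |y| ≤ 1 → |z| ≤ 1 →
      453 / 200 * (147 / 100 * A x y z - 47 / 100) ≤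
        psi x + psi y + psi z + 147 / 200 * (x * y + y * z + x * z) := by
    intro x y z hx hy hz
    by_cases h1 : z ≤ -(147 / 653)
    · exact ineq_edge hx hy hz h1
    by_cases h2 : y ≤ -(147 / 653)
    · have h := ineq_edge hx hz hy h2
      rw [← A_comm23] at h
      linarith
    by_cases h3 : x ≤ -(147 / 653)
    · have h := ineq_edge hy hz hx h3
      rw [← A_comm23 y x z, ← A_comm12 x y z] at h
      linarith
    push Not at h1 h2 h3
    have hx' := psi_sq x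
    have hy' := psi_sq y
    have hz' := psi_sq z
    by_cases h4 : z ≤ 0
    · have h := ineq_mid_neg (x := x) (y := y) h1.le h4
      linarith
    by_cases h5 : y ≤ 0
    · have h := ineq_mid_neg (x := x) (y := z) h2.le h5
      rw [← A_comm23] at h
      linarith
    by_cases h6 : x ≤ 0
    · have h := ineq_mid_neg (x := y) (y := z) h3.le h6
      rw [← A_comm23 y x z, ← A_comm12 x y z] at h
      linarith
    push Not at h4 h5 h6
    have h := ineq_mid_pos h6.le h5.le h4.le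
    linarith
  have hA := A_le hx hy hz
  by_cases hs : |A x y z| ≤ 47 / 100
  · have h1 : psi (A x y z) = A x y z ^ 2 := by
      unfold psi
      apply max_eq_left
      have h2 : 0 ≤ (1 - |A x y z|) * (47 / 100 - |A x y z|) :=
        mul_nonneg (by linarith) (by linarith)
      rw [← sq_abs]
      nlinarith
    rw [h1]
    have h := ineq_small hx hy hz (by linarith)
    linarith [psi_sq x, psi_sq y, psi_sq z]
  · push Not at hs
    have h1 : psi (A x y z) = 147 / 100 * |A x y z| - 47 / 100 := by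
      unfold psi
      apply max_eq_right
      have h2 : 0 ≤ (1 - |A x y z|) * (|A x y z| - 47 / 100) :=
        mul_nonneg (by linarith) (by linarith)
      rw [← sq_abs]
      nlinarith
    rw [h1]
    rcases le_total 0 (A x y z) with h0 | h0
    · rw [abs_of_nonneg h0]
      exact hlin x y z hx hy hz
    · rw [abs_of_nonpos h0]
      have h := hlin (-x) (-y) (-z) (by rwa [abs_neg]) (by rwa [abs_neg]) (by rwa [abs_neg])
      rw [A_neg, psi_neg, psi_neg, psi_neg] at h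
      linarith

end Pool.Agent.H384R2.RM
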