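import Pool.Agent.H384R2.RMIneq

/-!
# The lower bound `(453/200)^k` for the expected number of queries
-/

set_option autoImplicit false

namespace Pool.Agent.H384R2.RM

/-- the potential -/
noncomputable def Phi : (k : ℕ) → St k → ℝ
  | 0, σ => if (σ ()).isSome then 1 else 0
  | k + 1, σ => Phi k (sub σ 0) + Phi k (sub σ 1) + Phi k (sub σ 2) +
      (453 / 200) ^ k * (147 / 200 * (v k (sub σ 0) * v k (sub σ 1) +
        v k (sub σ 1) * v k (sub σ 2) + v k (sub σ 0) * v k (sub σ 2)))

theorem Phi_emp : ∀ k : ℕ, Phi k (emp k) = 0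
  | 0 => by simp [Phi, emp]
  | k + 1 => by
    show Phi k (emp k) + Phi k (emp k) + Phi k (emp k) + (453 / 200) ^ k *
      (147 / 200 * (v k (emp k) * v k (emp k) + v k (emp k) * v k (emp k) +
        v k (emp k) * v k (emp k))) = 0
    rw [Phi_emp k, v_emp k]
    ring

theorem Phi_step : ∀ (k : ℕ) (σ : St k) (i : Idx k), σ i = none →
    Phi k (upd σ i true) + Phi k (upd σ i false) ≤ 2 * Phi k σ + 2
  | 0, σ, i, h => by
    cases i
    unfold Phi upd
    rw [Function.update_self, Function.update_self, h]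
    norm_num
  | k + 1, σ, (i, j), h => by
    have ih := Phi_step k (sub σ i) j h
    have hv := v_mart k (sub σ i) j h
    have e : ∀ b, upd σ ((i, j) : Idx (k + 1)) b = upd σ (cons i j) b := fun _ => rfl
    rw [e, e]
    rcases fin3 i with rfl | rfl | rfl
    · simp only [Phi, sub_upd_same, sub_upd_ne σ 0 1 (by decide), sub_upd_ne σ 0 2 (by decide)]
      have h2 : (453 / 200 : ℝ) ^ k * (147 / 200 * (v k (upd (sub σ 0) j true) * v k (sub σ 1) +
          v k (sub σ 1) * v k (sub σ 2) + v k (upd (sub σ 0) j true) * v k (sub σ 2))) +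
          (453 / 200) ^ k * (147 / 200 * (v k (upd (sub σ 0) j false) * v k (sub σ 1) +
          v k (sub σ 1) * v k (sub σ 2) + v k (upd (sub σ 0) j false) * v k (sub σ 2))) =
          2 * ((453 / 200) ^ k * (147 / 200 * (v k (sub σ 0) * v k (sub σ 1) +
          v k (sub σ 1) * v k (sub σ 2) + v k (sub σ 0) * v k (sub σ 2)))) := by
        linear_combination ((453 / 200 : ℝ) ^ k * (147 / 200) * (v k (sub σ 1) + v k (sub σ 2))) * hv
      linarith
    · simp only [Phi, sub_upd_same, sub_upd_ne σ 1 0 (by decide), sub_upd_ne σ 1 2 (by decide)]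
      have h2 : (453 / 200 : ℝ) ^ k * (147 / 200 * (v k (sub σ 0) * v k (upd (sub σ 1) j true) +
          v k (upd (sub σ 1) j true) * v k (sub σ 2) + v k (sub σ 0) * v k (sub σ 2))) +
          (453 / 200) ^ k * (147 / 200 * (v k (sub σ 0) * v k (upd (sub σ 1) j false) +
          v k (upd (sub σ 1) j false) * v k (sub σ 2) + v k (sub σ 0) * v k (sub σ 2))) =
          2 * ((453 / 200) ^ k * (147 / 200 * (v k (sub σ 0) * v k (sub σ 1) +
          v k (sub σ 1) * v k (sub σ 2) + v k (sub σ 0) * v k (sub σ 2)))) := by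
        linear_combination ((453 / 200 : ℝ) ^ k * (147 / 200) * (v k (sub σ 0) + v k (sub σ 2))) * hv
      linarith
    · simp only [Phi, sub_upd_same, sub_upd_ne σ 2 0 (by decide), sub_upd_ne σ 2 1 (by decide)]
      have h2 : (453 / 200 : ℝ) ^ k * (147 / 200 * (v k (sub σ 0) * v k (sub σ 1) +
          v k (sub σ 1) * v k (upd (sub σ 2) j true) +
          v k (sub σ 0) * v k (upd (sub σ 2) j true))) +
          (453 / 200) ^ k * (147 / 200 * (v k (sub σ 0) * v k (sub σ 1) +
          v k (sub σ 1) * v k (upd (sub σ 2) j false) +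
          v k (sub σ 0) * v k (upd (sub σ 2) j false))) =
          2 * ((453 / 200) ^ k * (147 / 200 * (v k (sub σ 0) * v k (sub σ 1) +
          v k (sub σ 1) * v k (sub σ 2) + v k (sub σ 0) * v k (sub σ 2)))) := by
        linear_combination ((453 / 200 : ℝ) ^ k * (147 / 200) * (v k (sub σ 1) + v k (sub σ 0))) * hv
      linarith

theorem psi_vb_le (o : Option Bool) : psi (vb o) ≤ if o.isSome then 1 else 0 := by
  unfold psi vb
  rcases o with _ | (_ | _)
  · norm_num
  · norm_num
  · norm_num

theorem Phi_ge : ∀ (k : ℕ) (σ : St k), (453 / 200) ^ k * psi (v k σ) ≤ Phi k σ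
  | 0, σ => by
    have := psi_vb_le (σ ())
    simpa [Phi, v] using this
  | k + 1, σ => by
    have h0 := Phi_ge k (sub σ 0)
    have h1 := Phi_ge k (sub σ 1)
    have h2 := Phi_ge k (sub σ 2)
    have hk := key_ineq (v_le k (sub σ 0)) (v_le k (sub σ 1)) (v_le k (sub σ 2))
    have hq : (0 : ℝ) ≤ (453 / 200) ^ k := by positivity
    have h3 := mul_le_mul_of_nonneg_left hk hq
    show (453 / 200) ^ (k + 1) * psi (A (v k (sub σ 0)) (v k (sub σ 1)) (v k (sub σ 2))) ≤ _
    simp only [Phi]
    rw [pow_succ]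
    linarith

theorem psi_one : psi 1 = 1 := by
  unfold psi; norm_num

theorem psi_neg_one : psi (-1) = 1 := by
  unfold psi; norm_num

/-- lower bound for the cost of a correct tree -/
theorem ec_ge (k : ℕ) : ∀ (t : Tree (Idx k)) (σ : St k), Good k t σ →
    (453 / 200) ^ k ≤ ec t σ + Phi k σ
  | .stop, σ, h => by
    have h1 := Phi_ge k σ
    have h2 : psi (v k σ) = 1 := by
      have h' : v k σ = 1 ∨ v k σ = -1 := h
      rcases h' with h' | h'
      · rw [h', psi_one]
      · rw [h', psi_neg_one]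
    rw [h2] at h1
    have : ec (Tree.stop : Tree (Idx k)) σ = 0 := rfl
    linarith
  | .ask i t₀ t₁, σ, h => by
    rcases hi : σ i with _ | (_ | _)
    · rw [good_none hi] at h
      rw [ec_none hi]
      have h0 := ec_ge k t₀ _ h.1
      have h1 := ec_ge k t₁ _ h.2
      have h2 := Phi_step k σ i hi
      linarith
    · rw [good_some_false hi] at h
      rw [ec_some_false hi]
      exact ec_ge k t₀ σ h
    · rw [good_some_true hi] at h
      rw [ec_some_true hi]
      exact ec_ge k t₁ σ h

theorem ec_emp_ge (k : ℕ) (t : Tree (Idx k)) (h : Good k t (emp k)) :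
    (453 / 200) ^ k ≤ ec t (emp k) := by
  have := ec_ge k t (emp k) h
  rwa [Phi_emp, add_zero] at this

end Pool.Agent.H384R2.RM
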