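import Pool.Agent.H384R2.RMState

/-!
# Evaluation of blocks as macro steps
-/

set_option autoImplicit false

namespace Pool.Agent.H384R2.RM

/-- `σ` can be completed with expected cost at most `c` -/
def Can (k : ℕ) (σ : St k) (c : ℝ) : Prop := ∃ t : Tree (Idx k), Good k t σ ∧ ec t σ ≤ c

theorem Can.mono {k : ℕ} {σ : St k} {c d : ℝ} (h : Can k σ c) (hcd : c ≤ d) : Can k σ d := by
  obtain ⟨t, h1, h2⟩ := h
  exact ⟨t, h1, h2.trans hcd⟩

theorem Can.det {k : ℕ} {σ : St k} {c : ℝ} (h : v k σ = 1 ∨ v k σ = -1) (hc : 0 ≤ c) :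
    Can k σ c := ⟨.stop, h, hc⟩

theorem Can.ask {k : ℕ} {σ : St k} {i : Idx k} (h : σ i = none) {c₀ c₁ : ℝ}
    (h0 : Can k (upd σ i false) c₀) (h1 : Can k (upd σ i true) c₁) :
    Can k σ (1 + (c₀ + c₁) / 2) := by
  obtain ⟨t₀, g0, e0⟩ := h0
  obtain ⟨t₁, g1, e1⟩ := h1
  refine ⟨.ask i t₀ t₁, (good_none h).2 ⟨g0, g1⟩, ?_⟩
  rw [ec_none h]
  linarith

variable {l : ℕ}

/-- position `j` in the block at `π` -/
def emb : (t : ℕ) → Idx t → Idx l → Idx (l + t)
  | 0, _, j => j
  | t + 1, π, j => cons π.1 (emb t π.2 j)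

/-- the block at `π` -/
def subP (t : ℕ) (π : Idx t) (σ : St (l + t)) : St l := fun j => σ (emb t π j)

/-- equality outside of the block at `π` -/
def Agr : (t : ℕ) → Idx t → St (l + t) → St (l + t) → Prop
  | 0, _, _, _ => True
  | t + 1, π, σ, σ' => (∀ i, i ≠ π.1 → sub (k := l + t) σ' i = sub (k := l + t) σ i) ∧
      Agr t π.2 (sub (k := l + t) σ π.1) (sub (k := l + t) σ' π.1)

theorem Agr.refl : ∀ (t : ℕ) (π : Idx t) (σ : St (l + t)), Agr t π σ σ
  | 0, _, _ => trivial
  | t + 1, π, σ => ⟨fun _ _ => rfl, Agr.refl t π.2 _⟩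

theorem Agr.trans : ∀ (t : ℕ) (π : Idx t) (σ σ' σ'' : St (l + t)), Agr t π σ σ' →
    Agr t π σ' σ'' → Agr t π σ σ''
  | 0, _, _, _, _, _, _ => trivial
  | t + 1, π, _, _, _, h, h' => ⟨fun i hi => (h'.1 i hi).trans (h.1 i hi),
      Agr.trans t π.2 _ _ _ h.2 h'.2⟩

theorem subP_succ (t : ℕ) (π : Idx (t + 1)) (σ : St (l + (t + 1))) :
    subP (t + 1) π σ = subP t π.2 (sub (k := l + t) σ π.1) := rfl

theorem Agr.upd : ∀ (t : ℕ) (π : Idx t) (σ : St (l + t)) (j : Idx l) (b : Bool),
    Agr t π σ (upd σ (emb t π j) b)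
  | 0, _, _, _, _ => trivial
  | t + 1, (i, π), σ, j, b => by
    refine ⟨?_, ?_⟩
    · intro i' hi'
      exact sub_upd_ne (k := l + t) σ i i' hi' (emb t π j) b
    · have h := Agr.upd t π (sub (k := l + t) σ i) j b
      have e : sub (k := l + t) (RM.upd (ι := Idx (l + (t + 1))) σ (emb (t + 1) (i, π) j) b) i =
          RM.upd (sub (k := l + t) σ i) (emb t π j) b :=
        sub_upd_same (k := l + t) σ i (emb t π j) b
      show Agr t π (sub (k := l + t) σ i) (sub (k := l + t)
        (RM.upd (ι := Idx (l + (t + 1))) σ (emb (t + 1) (i, π) j) b) i)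
      rw [e]
      exact h

theorem subP_upd : ∀ (t : ℕ) (π : Idx t) (σ : St (l + t)) (j : Idx l) (b : Bool),
    subP t π (upd σ (emb t π j) b) = upd (subP t π σ) j b
  | 0, _, _, _, _ => rfl
  | t + 1, (i, π), σ, j, b => by
    have h := subP_upd t π (sub (k := l + t) σ i) j b
    have e : sub (k := l + t) (RM.upd (ι := Idx (l + (t + 1))) σ (emb (t + 1) (i, π) j) b) i =
        RM.upd (sub (k := l + t) σ i) (emb t π j) b :=
      sub_upd_same (k := l + t) σ i (emb t π j) b
    show subP t π (sub (k := l + t) (RM.upd (ι := Idx (l + (t + 1))) σ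
      (emb (t + 1) (i, π) j) b) i) = upd (subP t π (sub (k := l + t) σ i)) j b
    rw [e]
    exact h

/-- macro step: evaluate the block at `π` with the tree `u`, then continue -/
theorem macro_step (t : ℕ) (π : Idx t) (c₁ c₀ : ℝ) : ∀ (u : Tree (Idx l)) (σ : St (l + t)),
    Good l u (subP t π σ) →
    (∀ σ', Agr t π σ σ' → v l (subP t π σ') = 1 → Can (l + t) σ' c₁) →
    (∀ σ', Agr t π σ σ' → v l (subP t π σ') = -1 → Can (l + t) σ' c₀) →
    Can (l + t) σ (ec u (subP t π σ) + (1 + v l (subP t π σ)) / 2 * c₁ +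
      (1 - v l (subP t π σ)) / 2 * c₀)
  | .stop, σ, hu, h1, h0 => by
    have hu' : v l (subP t π σ) = 1 ∨ v l (subP t π σ) = -1 := hu
    have he : ec (Tree.stop : Tree (Idx l)) (subP t π σ) = 0 := rfl
    rcases hu' with h | h
    · refine (h1 σ (Agr.refl t π σ) h).mono ?_
      rw [h, he]
      linarith
    · refine (h0 σ (Agr.refl t π σ) h).mono ?_
      rw [h, he]
      linarith
  | .ask j u₀ u₁, σ, hu, h1, h0 => by
    rcases hj : subP t π σ j with _ | (_ | _)
    · rw [good_none hj] at hu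
      rw [ec_none hj]
      have hm := v_mart l (subP t π σ) j hj
      have hσ : σ (emb t π j) = none := hj
      have a0 := macro_step t π c₁ c₀ u₀ (upd σ (emb t π j) false)
        (by rw [subP_upd]; exact hu.1)
        (fun σ' ha hv => h1 σ' (Agr.trans t π _ _ _ (Agr.upd t π σ j false) ha) hv)
        (fun σ' ha hv => h0 σ' (Agr.trans t π _ _ _ (Agr.upd t π σ j false) ha) hv)
      have a1 := macro_step t π c₁ c₀ u₁ (upd σ (emb t π j) true)
        (by rw [subP_upd]; exact hu.2)
        (fun σ' ha hv => h1 σ' (Agr.trans t π _ _ _ (Agr.upd t π σ j true) ha) hv)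
        (fun σ' ha hv => h0 σ' (Agr.trans t π _ _ _ (Agr.upd t π σ j true) ha) hv)
      refine (Can.ask hσ a0 a1).mono ?_
      rw [subP_upd, subP_upd]
      have e : v l (upd (subP t π σ) j true) = 2 * v l (subP t π σ) -
          v l (upd (subP t π σ) j false) := by linarith
      rw [e]
      linarith
    · rw [good_some_false hj] at hu
      rw [ec_some_false hj]
      exact macro_step t π c₁ c₀ u₀ σ hu h1 h0
    · rw [good_some_true hj] at hu
      rw [ec_some_true hj]
      exact macro_step t π c₁ c₀ u₁ σ hu h1 h0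

theorem Can.block (t : ℕ) (π : Idx t) (c₁ c₀ d : ℝ) (σ : St (l + t))
    (hd : Can l (subP t π σ) d)
    (h1 : ∀ σ', Agr t π σ σ' → v l (subP t π σ') = 1 → Can (l + t) σ' c₁)
    (h0 : ∀ σ', Agr t π σ σ' → v l (subP t π σ') = -1 → Can (l + t) σ' c₀) :
    Can (l + t) σ (d + (1 + v l (subP t π σ)) / 2 * c₁ + (1 - v l (subP t π σ)) / 2 * c₀) := by
  obtain ⟨u, g, e⟩ := hd
  refine (macro_step t π c₁ c₀ u σ g h1 h0).mono ?_
  linarith

/-! ### Composition -/

/-- `σ` is a refinement of `τ`: every block of level `l` is empty or determined -/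
def Rel : (k : ℕ) → St k → St (l + k) → Prop
  | 0, τ, σ => (τ () = none → σ = emp l) ∧ (τ () = some true → v l σ = 1) ∧
      (τ () = some false → v l σ = -1)
  | k + 1, τ, σ => ∀ i, Rel k (sub τ i) (sub (k := l + k) σ i)

theorem Rel.v_eq : ∀ (k : ℕ) (τ : St k) (σ : St (l + k)), Rel k τ σ → v (l + k) σ = v k τ
  | 0, τ, σ, h => by
    obtain ⟨h0, h1, h2⟩ := h
    show v l σ = vb (τ ())
    rcases hτ : τ () with _ | (_ | _)
    · have := h0 hτ
      rw [this]
      exact v_emp l
    · exact h2 hτ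
    · exact h1 hτ
  | k + 1, τ, σ, h => by
    show A (v (l + k) (sub (k := l + k) σ 0)) (v (l + k) (sub (k := l + k) σ 1))
      (v (l + k) (sub (k := l + k) σ 2)) = A _ _ _
    rw [Rel.v_eq k _ _ (h 0), Rel.v_eq k _ _ (h 1), Rel.v_eq k _ _ (h 2)]

theorem Rel.empty : ∀ (k : ℕ) (τ : St k) (σ : St (l + k)) (π : Idx k), Rel k τ σ → τ π = none →
    subP k π σ = emp l
  | 0, τ, σ, π, h, hπ => by
    cases π
    exact h.1 hπ
  | k + 1, τ, σ, (i, π), h, hπ => Rel.empty k (sub τ i) (sub (k := l + k) σ i) π (h i) hπ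

theorem Rel.upd : ∀ (k : ℕ) (τ : St k) (σ σ' : St (l + k)) (π : Idx k) (b : Bool), Rel k τ σ →
    Agr k π σ σ' → v l (subP k π σ') = vb (some b) → Rel k (upd τ π b) σ'
  | 0, τ, σ, σ', π, b, _, _, hv => by
    cases π
    refine ⟨?_, ?_, ?_⟩
    · intro h
      unfold RM.upd at h
      rw [Function.update_self] at h
      cases h
    · intro h
      unfold RM.upd at h
      rw [Function.update_self] at h
      cases h
      exact hv
    · intro h
      unfold RM.upd at h
      rw [Function.update_self] at h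
      cases h
      exact hv
  | k + 1, τ, σ, σ', (i, π), b, h, ha, hv => by
    intro i'
    by_cases hi : i' = i
    · subst hi
      have e : sub (RM.upd τ ((i', π) : Idx (k + 1)) b) i' = RM.upd (sub τ i') π b :=
        sub_upd_same τ i' π b
      rw [e]
      exact Rel.upd k (sub τ i') (sub (k := l + k) σ i') (sub (k := l + k) σ' i') π b (h i') ha.2 hv
    · have e : sub (RM.upd τ ((i, π) : Idx (k + 1)) b) i' = sub τ i' := sub_upd_ne τ i i' hi π b
      have e' : sub (k := l + k) σ' i' = sub (k := l + k) σ i' := ha.1 i' hi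
      rw [e, e']
      exact h i'

theorem Rel.emp : ∀ k : ℕ, Rel (l := l) k (emp k) (RM.emp (l + k))
  | 0 => by
    refine ⟨fun _ => rfl, ?_, ?_⟩
    · intro h
      exact absurd (show (none : Option Bool) = some true from h) (by decide)
    · intro h
      exact absurd (show (none : Option Bool) = some false from h) (by decide)
  | k + 1 => fun _ => Rel.emp k

/-- composition of trees -/
theorem comp (c : ℝ) (hc : Can l (emp l) c) (k : ℕ) : ∀ (u : Tree (Idx k)) (τ : St k)
    (σ : St (l + k)), Good k u τ → Rel k τ σ → Can (l + k) σ (ec u τ * c)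
  | .stop, τ, σ, hu, hr => by
    have hu' : v k τ = 1 ∨ v k τ = -1 := hu
    apply Can.det
    · rw [Rel.v_eq k τ σ hr]
      exact hu'
    · have : ec (Tree.stop : Tree (Idx k)) τ = 0 := rfl
      rw [this, zero_mul]
  | .ask π u₀ u₁, τ, σ, hu, hr => by
    rcases hπ : τ π with _ | (_ | _)
    · rw [good_none hπ] at hu
      rw [ec_none hπ]
      have hemp := Rel.empty k τ σ π hr hπ
      have hb := Can.block k π (ec u₁ (upd τ π true) * c) (ec u₀ (upd τ π false) * c) c σ
        (by rw [hemp]; exact hc)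
        (fun σ' ha hv => comp c hc k u₁ (upd τ π true) σ' hu.2 (Rel.upd k τ σ σ' π true hr ha hv))
        (fun σ' ha hv => comp c hc k u₀ (upd τ π false) σ' hu.1 (Rel.upd k τ σ σ' π false hr ha hv))
      refine hb.mono ?_
      rw [hemp, v_emp]
      linarith
    · rw [good_some_false hπ] at hu
      rw [ec_some_false hπ]
      exact comp c hc k u₀ τ σ hu hr
    · rw [good_some_true hπ] at hu
      rw [ec_some_true hπ]
      exact comp c hc k u₁ τ σ hu hr

theorem Can.comp {k : ℕ} {c d : ℝ} (hc : Can l (emp l) c) (hc0 : 0 ≤ c) (hd : Can k (emp k) d) :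
    Can (l + k) (emp (l + k)) (d * c) := by
  obtain ⟨u, g, e⟩ := hd
  exact (RM.comp c hc k u (emp k) (RM.emp (l + k)) g (Rel.emp k)).mono
    (mul_le_mul_of_nonneg_right e hc0)

end Pool.Agent.H384R2.RM
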