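import Pool.Agent.H384R2.RMDefs

/-!
# Partial assignments and the martingale of conditional expectations
-/

set_option autoImplicit false

namespace Pool.Agent.H384R2.RM

/-- partial assignments -/
abbrev St (k : ℕ) := Idx k → Option Bool

/-- the assignment of a block -/
def sub {k : ℕ} (σ : St (k + 1)) (i : Fin 3) : St k := fun j => σ (cons i j)

/-- conditional expectation of a majority -/
noncomputable def A (a b c : ℝ) : ℝ := (a + b + c - a * b * c) / 2

/-- value of a bit -/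
def vb : Option Bool → ℝ
  | none => 0
  | some true => 1
  | some false => -1

/-- conditional expectation of `f k` (with values `±1`) -/
noncomputable def v : (k : ℕ) → St k → ℝ
  | 0, σ => vb (σ ())
  | k + 1, σ => A (v k (sub σ 0)) (v k (sub σ 1)) (v k (sub σ 2))

theorem A_le {a b c : ℝ} (ha : |a| ≤ 1) (hb : |b| ≤ 1) (hc : |c| ≤ 1) : |A a b c| ≤ 1 := by
  rw [abs_le] at *
  unfold A
  have h1 : 0 ≤ (1 - a) * (1 - b) := mul_nonneg (by linarith [ha.2]) (by linarith [hb.2])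
  have h2 : 0 ≤ (1 - a) * (1 + b) := mul_nonneg (by linarith [ha.2]) (by linarith [hb.1])
  have h3 : 0 ≤ (1 + a) * (1 - b) := mul_nonneg (by linarith [ha.1]) (by linarith [hb.2])
  have h4 : 0 ≤ (1 + a) * (1 + b) := mul_nonneg (by linarith [ha.1]) (by linarith [hb.1])
  have h5 : 0 ≤ 1 - a * b := by nlinarith
  have h6 : 0 ≤ (1 - c) * (1 - a * b) := mul_nonneg (by linarith [hc.2]) h5
  have h7 : 0 ≤ (1 + c) * (1 - a * b) := mul_nonneg (by linarith [hc.1]) h5
  constructor <;> nlinarith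

theorem v_le : ∀ (k : ℕ) (σ : St k), |v k σ| ≤ 1
  | 0, σ => by
    unfold v vb
    split <;> simp
  | k + 1, σ => A_le (v_le k _) (v_le k _) (v_le k _)

theorem A_eq_one {a b c : ℝ} (ha : |a| ≤ 1) (hb : |b| ≤ 1) (hc : |c| ≤ 1) (h : A a b c = 1) :
    (a = 1 ∧ b = 1) ∨ (b = 1 ∧ c = 1) ∨ (a = 1 ∧ c = 1) := by
  rw [abs_le] at *
  unfold A at h
  have h1 : 0 ≤ (1 - a) * (1 - b) := mul_nonneg (by linarith [ha.2]) (by linarith [hb.2])
  have h2 : 0 ≤ (1 - a) * (1 + b) := mul_nonneg (by linarith [ha.2]) (by linarith [hb.1])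
  have h3 : 0 ≤ (1 + a) * (1 - b) := mul_nonneg (by linarith [ha.1]) (by linarith [hb.2])
  have h4 : 0 ≤ (1 + a) * (1 + b) := mul_nonneg (by linarith [ha.1]) (by linarith [hb.1])
  have h5 : 0 ≤ 1 - a * b := by nlinarith
  have h6 : 0 ≤ (1 - c) * (1 - a * b) := mul_nonneg (by linarith [hc.2]) h5
  have e1 : (1 - a) * (1 - b) = 0 := by nlinarith
  have e2 : (1 - c) * (1 - a * b) = 0 := by nlinarith
  rcases mul_eq_zero.1 e1 with h7 | h7
  · have ha1 : a = 1 := by linarith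
    rcases mul_eq_zero.1 e2 with h8 | h8
    · exact Or.inr (Or.inr ⟨ha1, by linarith⟩)
    · rw [ha1] at h8
      exact Or.inl ⟨ha1, by linarith⟩
  · have hb1 : b = 1 := by linarith
    rcases mul_eq_zero.1 e2 with h8 | h8
    · exact Or.inr (Or.inl ⟨hb1, by linarith⟩)
    · rw [hb1] at h8
      exact Or.inl ⟨by linarith, hb1⟩

theorem A_neg (a b c : ℝ) : A (-a) (-b) (-c) = -A a b c := by
  unfold A; ring

theorem A_eq_neg_one {a b c : ℝ} (ha : |a| ≤ 1) (hb : |b| ≤ 1) (hc : |c| ≤ 1) (h : A a b c = -1) :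
    (a = -1 ∧ b = -1) ∨ (b = -1 ∧ c = -1) ∨ (a = -1 ∧ c = -1) := by
  have h' : A (-a) (-b) (-c) = 1 := by rw [A_neg, h]; ring
  rcases A_eq_one (by rwa [abs_neg]) (by rwa [abs_neg]) (by rwa [abs_neg]) h' with h1 | h1 | h1
  · exact Or.inl ⟨by linarith [h1.1], by linarith [h1.2]⟩
  · exact Or.inr (Or.inl ⟨by linarith [h1.1], by linarith [h1.2]⟩)
  · exact Or.inr (Or.inr ⟨by linarith [h1.1], by linarith [h1.2]⟩)

/-- `x` extends `σ` -/
def Ext {ι : Type} (σ : ι → Option Bool) (x : ι → Bool) : Prop := ∀ i b, σ i = some b → x i = b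

theorem Ext.sub {k : ℕ} {σ : St (k + 1)} {x : Idx (k + 1) → Bool} (h : Ext σ x) (i : Fin 3) :
    Ext (sub σ i) (fun j => x (cons i j)) := fun j b hb => h (cons i j) b hb

/-- combining three inputs -/
def glue {k : ℕ} (x₀ x₁ x₂ : Idx k → Bool) : Idx (k + 1) → Bool := fun p =>
  if p.1 = 0 then x₀ p.2 else if p.1 = 1 then x₁ p.2 else x₂ p.2

theorem f_glue {k : ℕ} (x₀ x₁ x₂ : Idx k → Bool) :
    f (k + 1) (glue x₀ x₁ x₂) = maj (f k x₀) (f k x₁) (f k x₂) := by
  have h0 : (fun j => glue x₀ x₁ x₂ (cons 0 j)) = x₀ := by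
    funext j; simp [glue, cons]
  have h1 : (fun j => glue x₀ x₁ x₂ (cons 1 j)) = x₁ := by
    funext j; simp [glue, cons]
  have h2 : (fun j => glue x₀ x₁ x₂ (cons 2 j)) = x₂ := by
    funext j; simp [glue, cons]
  show maj _ _ _ = _
  rw [h0, h1, h2]

theorem fin3 (i : Fin 3) : i = 0 ∨ i = 1 ∨ i = 2 := by
  fin_cases i <;> simp

theorem Ext.glue {k : ℕ} {σ : St (k + 1)} {x₀ x₁ x₂ : Idx k → Bool} (h0 : Ext (RM.sub σ 0) x₀)
    (h1 : Ext (RM.sub σ 1) x₁) (h2 : Ext (RM.sub σ 2) x₂) : Ext σ (glue x₀ x₁ x₂) := by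
  rintro ⟨i, j⟩ b hb
  rcases fin3 i with rfl | rfl | rfl
  · have := h0 j b hb
    simpa [RM.glue] using this
  · have := h1 j b hb
    simpa [RM.glue] using this
  · have := h2 j b hb
    simpa [RM.glue] using this

/-- determined values -/
theorem f_of_v_one : ∀ (k : ℕ) (σ : St k), v k σ = 1 → ∀ x, Ext σ x → f k x = true
  | 0, σ, h, x, hx => by
    unfold v vb at h
    split at h
    · norm_num at h
    · rename_i h'
      exact hx () true h'
    · norm_num at h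
  | k + 1, σ, h, x, hx => by
    show maj _ _ _ = true
    rcases A_eq_one (v_le k _) (v_le k _) (v_le k _) h with h1 | h1 | h1
    · rw [f_of_v_one k _ h1.1 _ (hx.sub 0), f_of_v_one k _ h1.2 _ (hx.sub 1)]
      simp [maj]
    · rw [f_of_v_one k _ h1.1 _ (hx.sub 1), f_of_v_one k _ h1.2 _ (hx.sub 2)]
      simp [maj]
    · rw [f_of_v_one k _ h1.1 _ (hx.sub 0), f_of_v_one k _ h1.2 _ (hx.sub 2)]
      simp [maj]

theorem f_of_v_neg_one : ∀ (k : ℕ) (σ : St k), v k σ = -1 → ∀ x, Ext σ x → f k x = false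
  | 0, σ, h, x, hx => by
    unfold v vb at h
    split at h
    · norm_num at h
    · norm_num at h
    · rename_i h'
      exact hx () false h'
  | k + 1, σ, h, x, hx => by
    show maj _ _ _ = false
    rcases A_eq_neg_one (v_le k _) (v_le k _) (v_le k _) h with h1 | h1 | h1
    · rw [f_of_v_neg_one k _ h1.1 _ (hx.sub 0), f_of_v_neg_one k _ h1.2 _ (hx.sub 1)]
      simp [maj]
    · rw [f_of_v_neg_one k _ h1.1 _ (hx.sub 1), f_of_v_neg_one k _ h1.2 _ (hx.sub 2)]
      simp [maj]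
    · rw [f_of_v_neg_one k _ h1.1 _ (hx.sub 0), f_of_v_neg_one k _ h1.2 _ (hx.sub 2)]
      simp [maj]

theorem A_of_two {a b c : ℝ} (h : (a = 1 ∧ b = 1) ∨ (b = 1 ∧ c = 1) ∨ (a = 1 ∧ c = 1)) :
    A a b c = 1 := by
  unfold A
  rcases h with ⟨rfl, rfl⟩ | ⟨rfl, rfl⟩ | ⟨rfl, rfl⟩ <;> ring

theorem A_of_two_neg {a b c : ℝ} (h : (a = -1 ∧ b = -1) ∨ (b = -1 ∧ c = -1) ∨ (a = -1 ∧ c = -1)) :
    A a b c = -1 := by
  unfold A
  rcases h with ⟨rfl, rfl⟩ | ⟨rfl, rfl⟩ | ⟨rfl, rfl⟩ <;> ring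

/-- undetermined values -/
theorem exists_true : ∀ (k : ℕ) (σ : St k), v k σ ≠ -1 → ∃ x, Ext σ x ∧ f k x = true
  | 0, σ, h => by
    refine ⟨fun _ => true, ?_, rfl⟩
    intro i b hb
    cases b
    · exfalso
      apply h
      unfold v
      have : σ () = some false := hb
      rw [this]
      rfl
    · rfl
  | k + 1, σ, h => by
    -- any input of each block
    have hany : ∀ τ : St k, ∃ x, Ext τ x := fun τ =>
      ⟨fun i => (τ i).getD true, fun i b hb => by simp [hb]⟩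
    by_cases h0 : v k (RM.sub σ 0) = -1
    · have h1 : v k (RM.sub σ 1) ≠ -1 := fun h1 => h (A_of_two_neg (Or.inl ⟨h0, h1⟩))
      have h2 : v k (RM.sub σ 2) ≠ -1 := fun h2 => h (A_of_two_neg (Or.inr (Or.inr ⟨h0, h2⟩)))
      obtain ⟨x₀, hx₀⟩ := hany (RM.sub σ 0)
      obtain ⟨x₁, hx₁, e₁⟩ := exists_true k _ h1
      obtain ⟨x₂, hx₂, e₂⟩ := exists_true k _ h2
      exact ⟨_, Ext.glue hx₀ hx₁ hx₂, by rw [f_glue, e₁, e₂]; simp [maj]⟩
    · obtain ⟨x₀, hx₀, e₀⟩ := exists_true k _ h0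
      by_cases h1 : v k (RM.sub σ 1) = -1
      · have h2 : v k (RM.sub σ 2) ≠ -1 := fun h2 => h (A_of_two_neg (Or.inr (Or.inl ⟨h1, h2⟩)))
        obtain ⟨x₁, hx₁⟩ := hany (RM.sub σ 1)
        obtain ⟨x₂, hx₂, e₂⟩ := exists_true k _ h2
        exact ⟨_, Ext.glue hx₀ hx₁ hx₂, by rw [f_glue, e₀, e₂]; simp [maj]⟩
      · obtain ⟨x₁, hx₁, e₁⟩ := exists_true k _ h1
        obtain ⟨x₂, hx₂⟩ := hany (RM.sub σ 2)
        exact ⟨_, Ext.glue hx₀ hx₁ hx₂, by rw [f_glue, e₀, e₁]; simp [maj]⟩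

theorem exists_false : ∀ (k : ℕ) (σ : St k), v k σ ≠ 1 → ∃ x, Ext σ x ∧ f k x = false
  | 0, σ, h => by
    refine ⟨fun _ => false, ?_, rfl⟩
    intro i b hb
    cases b
    · rfl
    · exfalso
      apply h
      unfold v
      have : σ () = some true := hb
      rw [this]
      rfl
  | k + 1, σ, h => by
    have hany : ∀ τ : St k, ∃ x, Ext τ x := fun τ =>
      ⟨fun i => (τ i).getD true, fun i b hb => by simp [hb]⟩
    by_cases h0 : v k (RM.sub σ 0) = 1
    · have h1 : v k (RM.sub σ 1) ≠ 1 := fun h1 => h (A_of_two (Or.inl ⟨h0, h1⟩))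
      have h2 : v k (RM.sub σ 2) ≠ 1 := fun h2 => h (A_of_two (Or.inr (Or.inr ⟨h0, h2⟩)))
      obtain ⟨x₀, hx₀⟩ := hany (RM.sub σ 0)
      obtain ⟨x₁, hx₁, e₁⟩ := exists_false k _ h1
      obtain ⟨x₂, hx₂, e₂⟩ := exists_false k _ h2
      exact ⟨_, Ext.glue hx₀ hx₁ hx₂, by rw [f_glue, e₁, e₂]; simp [maj]⟩
    · obtain ⟨x₀, hx₀, e₀⟩ := exists_false k _ h0
      by_cases h1 : v k (RM.sub σ 1) = 1
      · have h2 : v k (RM.sub σ 2) ≠ 1 := fun h2 => h (A_of_two (Or.inr (Or.inl ⟨h1, h2⟩)))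
        obtain ⟨x₁, hx₁⟩ := hany (RM.sub σ 1)
        obtain ⟨x₂, hx₂, e₂⟩ := exists_false k _ h2
        exact ⟨_, Ext.glue hx₀ hx₁ hx₂, by rw [f_glue, e₀, e₂]; simp [maj]⟩
      · obtain ⟨x₁, hx₁, e₁⟩ := exists_false k _ h1
        obtain ⟨x₂, hx₂⟩ := hany (RM.sub σ 2)
        exact ⟨_, Ext.glue hx₀ hx₁ hx₂, by rw [f_glue, e₀, e₁]; simp [maj]⟩

/-- setting one bit -/
def upd {ι : Type} [DecidableEq ι] (σ : ι → Option Bool) (i : ι) (b : Bool) : ι → Option Bool :=
  Function.update σ i (some b)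

theorem sub_upd_same {k : ℕ} (σ : St (k + 1)) (i : Fin 3) (j : Idx k) (b : Bool) :
    RM.sub (upd σ (cons i j) b) i = upd (RM.sub σ i) j b := by
  funext j'
  unfold RM.sub upd
  by_cases h : j' = j
  · subst h
    rw [Function.update_self, Function.update_self]
  · rw [Function.update_of_ne h, Function.update_of_ne]
    · intro h'
      exact h (congrArg Prod.snd h')

theorem sub_upd_ne {k : ℕ} (σ : St (k + 1)) (i i' : Fin 3) (hi : i' ≠ i) (j : Idx k) (b : Bool) :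
    RM.sub (upd σ (cons i j) b) i' = RM.sub σ i' := by
  funext j'
  unfold RM.sub upd
  rw [Function.update_of_ne]
  intro h'
  exact hi (congrArg Prod.fst h')

/-- the martingale property -/
theorem v_mart : ∀ (k : ℕ) (σ : St k) (i : Idx k), σ i = none →
    v k (upd σ i true) + v k (upd σ i false) = 2 * v k σ
  | 0, σ, i, h => by
    cases i
    unfold v upd
    rw [Function.update_self, Function.update_self, h]
    simp [vb]
  | k + 1, σ, (i, j), h => by
    have ih := v_mart k (RM.sub σ i) j h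
    have e : ∀ b, upd σ ((i, j) : Idx (k + 1)) b = upd σ (cons i j) b := fun _ => rfl
    rw [e, e]
    rcases fin3 i with rfl | rfl | rfl
    · simp only [v, sub_upd_same, sub_upd_ne σ 0 1 (by decide), sub_upd_ne σ 0 2 (by decide)]
      unfold A
      linear_combination (1 / 2 - v k (RM.sub σ 1) * v k (RM.sub σ 2) / 2) * ih
    · simp only [v, sub_upd_same, sub_upd_ne σ 1 0 (by decide), sub_upd_ne σ 1 2 (by decide)]
      unfold A
      linear_combination (1 / 2 - v k (RM.sub σ 0) * v k (RM.sub σ 2) / 2) * ih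
    · simp only [v, sub_upd_same, sub_upd_ne σ 2 0 (by decide), sub_upd_ne σ 2 1 (by decide)]
      unfold A
      linear_combination (1 / 2 - v k (RM.sub σ 0) * v k (RM.sub σ 1) / 2) * ih

/-- the empty assignment -/
def emp (k : ℕ) : St k := fun _ => none

theorem sub_emp (k : ℕ) (i : Fin 3) : RM.sub (emp (k + 1)) i = emp k := rfl

theorem v_emp : ∀ k : ℕ, v k (emp k) = 0
  | 0 => rfl
  | k + 1 => by
    show A (v k (emp k)) (v k (emp k)) (v k (emp k)) = 0
    rw [v_emp k]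
    unfold A
    ring

/-- cost of a tree from a partial assignment -/
noncomputable def ec {ι : Type} [DecidableEq ι] : Tree ι → (ι → Option Bool) → ℝ
  | .stop, _ => 0
  | .ask i t₀ t₁, σ => match σ i with
    | some true => ec t₁ σ
    | some false => ec t₀ σ
    | none => 1 + (ec t₀ (upd σ i false) + ec t₁ (upd σ i true)) / 2

/-- correctness of a tree from a partial assignment -/
def Good (k : ℕ) : Tree (Idx k) → St k → Prop
  | .stop, σ => v k σ = 1 ∨ v k σ = -1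
  | .ask i t₀ t₁, σ => match σ i with
    | some true => Good k t₁ σ
    | some false => Good k t₀ σ
    | none => Good k t₀ (upd σ i false) ∧ Good k t₁ (upd σ i true)

theorem ec_some_true {ι : Type} [DecidableEq ι] {i : ι} {t₀ t₁ : Tree ι} {σ : ι → Option Bool}
    (h : σ i = some true) : ec (.ask i t₀ t₁) σ = ec t₁ σ := by
  simp [ec, h]

theorem ec_some_false {ι : Type} [DecidableEq ι] {i : ι} {t₀ t₁ : Tree ι} {σ : ι → Option Bool}
    (h : σ i = some false) : ec (.ask i t₀ t₁) σ = ec t₀ σ := by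
  simp [ec, h]

theorem ec_none {ι : Type} [DecidableEq ι] {i : ι} {t₀ t₁ : Tree ι} {σ : ι → Option Bool}
    (h : σ i = none) : ec (.ask i t₀ t₁) σ =
      1 + (ec t₀ (upd σ i false) + ec t₁ (upd σ i true)) / 2 := by
  simp [ec, h]

theorem good_some_true {k : ℕ} {i : Idx k} {t₀ t₁ : Tree (Idx k)} {σ : St k}
    (h : σ i = some true) : Good k (.ask i t₀ t₁) σ ↔ Good k t₁ σ := by
  simp [Good, h]

theorem good_some_false {k : ℕ} {i : Idx k} {t₀ t₁ : Tree (Idx k)} {σ : St k}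
    (h : σ i = some false) : Good k (.ask i t₀ t₁) σ ↔ Good k t₀ σ := by
  simp [Good, h]

theorem good_none {k : ℕ} {i : Idx k} {t₀ t₁ : Tree (Idx k)} {σ : St k}
    (h : σ i = none) : Good k (.ask i t₀ t₁) σ ↔
      (Good k t₀ (upd σ i false) ∧ Good k t₁ (upd σ i true)) := by
  simp [Good, h]

theorem ec_nonneg {ι : Type} [DecidableEq ι] : ∀ (t : Tree ι) (σ : ι → Option Bool), 0 ≤ ec t σ
  | .stop, _ => le_refl _
  | .ask i t₀ t₁, σ => by
    rcases h : σ i with _ | (_ | _)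
    · rw [ec_none h]
      have h0 := ec_nonneg t₀ (upd σ i false)
      have h1 := ec_nonneg t₁ (upd σ i true)
      linarith
    · rw [ec_some_false h]
      exact ec_nonneg t₀ σ
    · rw [ec_some_true h]
      exact ec_nonneg t₁ σ

end Pool.Agent.H384R2.RM
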