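import Pool.Agent.H384R2.RMPat

/-!
# The table of the strategy of cost exponent `log_3 24577/10000`
-/

set_option autoImplicit false
set_option maxRecDepth 100000

namespace Pool.Agent.H384R2.RM

/-- table of a strategy -/
def tabB : List Ent := [
  ⟨(.N .O .I .F), 4068849, [2], 934, 0, 0⟩,
  ⟨(.N (.N .I (.N (.N .I .F .F) .F .F) .F) .I .F), 2757344, [0], 1025, 0, 0⟩,
  ⟨(.N .I .O (.N (.N .I (.N .I .F .F) .F) .I .F)), 778694, [2], 1139, 0, 0⟩,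
  ⟨(.N (.N .I (.N .I .F .F) .F) .O (.N (.N .I (.N .I .F .F) .F) .I .F)), 2086547, [0], 26, 2, 0⟩,
  ⟨(.N (.N .I (.N .I .F .F) .F) .O .I), 1405188, [0], 26, 0, 0⟩,
  ⟨(.N (.N .I (.N .I .F .F) .F) .O (.N (.N .I (.N .I .F .F) .F) .O .F)), 2556199, [2], 1140, 4, 0⟩,
  ⟨(.N (.N .I (.N .I .F .F) .F) .O (.N (.N .I (.N .I .F .F) .F) (.N .I .F .F) .F)), 3195261, [2, 1], 1054, 3, 5⟩,
  ⟨(.N .I .O (.N (.N .I (.N .I .F .F) .F) (.N .I .F .F) .F)), 2060679, [2], 1141, 0, 0⟩,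
  ⟨(.N (.N .I (.N .O .F .F) .F) .O (.N (.N .I (.N .I .F .F) .F) (.N .I .F .F) .F)), 3436712, [0], 907, 7, 0⟩,
  ⟨(.N (.N .I (.N (.N .I .F .F) .F .F) .F) .O (.N (.N .I (.N .I .F .F) .F) (.N .I .F .F) .F)), 3658971, [0, 1, 0], 1054, 6, 8⟩,
  ⟨(.N .I .O (.N .I (.N .I .F .F) .F)), 1405188, [2], 26, 0, 0⟩,
  ⟨(.N (.N .I (.N (.N .I .F .F) .F .F) .F) .O (.N .I (.N .I .F .F) .F)), 3136151, [0], 1025, 10, 0⟩,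
  ⟨(.N (.N .I (.N (.N .I .F .F) .F .F) .F) .O .I), 1994434, [0], 1025, 0, 0⟩,
  ⟨(.N (.N .I (.N (.N .I .F .F) .F .F) .F) .O (.N .O (.N .I .F .F) .F)), 2896701, [2], 52, 12, 0⟩,
  ⟨(.N (.N .I (.N (.N .I .F .F) .F .F) .F) .O (.N (.N .I (.N .O .F .F) .F) (.N .I .F .F) .F)), 3920668, [2, 0], 907, 11, 13⟩,
  ⟨(.N (.N .I (.N (.N .I .F .F) .F .F) .F) .O (.N (.N .I .F .F) (.N .I .F .F) .F)), 4063908, [2, 0, 1, 0], 934, 9, 14⟩,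
  ⟨(.N (.N .I (.N (.N .I .F .F) .F .F) .F) .O (.N (.N .I .F .F) (.N .O .F .F) .F)), 3888567, [2], 888, 12, 0⟩,
  ⟨(.N (.N .I (.N (.N .I .F .F) .F .F) .F) .O (.N (.N .I .F .F) (.N (.N .I .F .F) .F .F) .F)), 4423421, [2, 1, 0], 1054, 15, 16⟩,
  ⟨(.N (.N .I (.N (.N .I .F .F) .F .F) .F) .O (.N (.N .O .F .F) (.N (.N .I .F .F) .F .F) .F)), 4065650, [2], 1127, 12, 0⟩,
  ⟨(.N (.N .I (.N (.N .I .F .F) .F .F) .F) .O (.N (.N (.N .I .F .F) .F .F) (.N (.N .I .F .F) .F .F) .F)), 4737326, [2, 0, 0], 1054, 17, 18⟩,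
  ⟨(.N (.N .I (.N (.N .I .F .F) .F .F) .F) .O (.N (.N (.N .I .F .F) .F .F) (.N (.N .O .F .F) .F .F) .F)), 4543560, [2], 1177, 12, 0⟩,
  ⟨(.N (.N .I (.N (.N .I .F .F) .F .F) .F) .O (.N (.N (.N .I .F .F) .F .F) .F .F)), 4914533, [2, 1, 0, 0], 934, 19, 20⟩,
  ⟨(.N (.N .I (.N (.N .I .F .F) .F .F) .F) .O (.N (.N (.N .O .F .F) .F .F) .F .F)), 4667228, [2], 966, 12, 0⟩,
  ⟨(.N (.N .I (.N (.N .I .F .F) .F .F) .F) .O .F), 5064970, [2, 0, 0, 0], 934, 21, 22⟩,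
  ⟨(.N (.N .I (.N (.N .I .F .F) .F .F) .F) (.N .I .F .F) .F), 5770569, [1], 1054, 1, 23⟩,
  ⟨(.N .I .O .F), 4068849, [2], 934, 0, 0⟩,
  ⟨(.N .I (.N .I .F .F) .F), 3453528, [1], 1054, 0, 25⟩,
  ⟨(.N .O .I (.N (.N .I (.N .I .F .F) .F) .I .F)), 778694, [2], 1139, 0, 0⟩,
  ⟨(.N .O (.N .I (.N .I .F .F) .F) (.N (.N .I (.N .I .F .F) .F) .I .F)), 2086547, [1], 26, 27, 0⟩,
  ⟨(.N .O (.N .I (.N .I .F .F) .F) .I), 1405188, [1], 26, 0, 0⟩,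
  ⟨(.N .O (.N .I (.N .I .F .F) .F) (.N (.N .I (.N .I .F .F) .F) .O .F)), 2556199, [2], 1140, 29, 0⟩,
  ⟨(.N .O (.N .I (.N .I .F .F) .F) (.N (.N .I (.N .I .F .F) .F) (.N .I .F .F) .F)), 3195261, [2, 1], 1054, 28, 30⟩,
  ⟨(.N .O .I (.N (.N .I (.N .I .F .F) .F) (.N .I .F .F) .F)), 2060679, [2], 1141, 0, 0⟩,
  ⟨(.N .O (.N .I (.N .O .F .F) .F) (.N (.N .I (.N .I .F .F) .F) (.N .I .F .F) .F)), 3436712, [1], 907, 32, 0⟩,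
  ⟨(.N .O (.N .I (.N (.N .I .F .F) .F .F) .F) (.N (.N .I (.N .I .F .F) .F) (.N .I .F .F) .F)), 3658971, [1, 1, 0], 1054, 31, 33⟩,
  ⟨(.N .O .I (.N .I (.N .I .F .F) .F)), 1405188, [2], 26, 0, 0⟩,
  ⟨(.N .O (.N .I (.N (.N .I .F .F) .F .F) .F) (.N .I (.N .I .F .F) .F)), 3136151, [1], 1025, 35, 0⟩,
  ⟨(.N .O (.N .I (.N (.N .I .F .F) .F .F) .F) .I), 1994434, [1], 1025, 0, 0⟩,
  ⟨(.N .O (.N .I (.N (.N .I .F .F) .F .F) .F) (.N .O (.N .I .F .F) .F)), 2896701, [2], 52, 37, 0⟩,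
  ⟨(.N .O (.N .I (.N (.N .I .F .F) .F .F) .F) (.N (.N .I (.N .O .F .F) .F) (.N .I .F .F) .F)), 3920668, [2, 0], 907, 36, 38⟩,
  ⟨(.N .O (.N .I (.N (.N .I .F .F) .F .F) .F) (.N (.N .I .F .F) (.N .I .F .F) .F)), 4063908, [2, 0, 1, 0], 934, 34, 39⟩,
  ⟨(.N .O .I (.N (.N .I .F .F) (.N .I .F .F) .F)), 2579572, [2], 54, 0, 0⟩,
  ⟨(.N .O (.N .I (.N (.N .O .F .F) .F .F) .F) (.N (.N .I .F .F) (.N .I .F .F) .F)), 4109682, [1], 1036, 41, 0⟩,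
  ⟨(.N .O (.N .I .F .F) (.N (.N .I .F .F) (.N .I .F .F) .F)), 4360884, [1, 1, 0, 0], 934, 40, 42⟩,
  ⟨(.N .O (.N .I .F .F) .I), 2436315, [1], 1054, 0, 0⟩,
  ⟨(.N .O (.N .I .F .F) (.N (.N .I .F .F) (.N .O .F .F) .F)), 4109507, [2], 888, 44, 0⟩,
  ⟨(.N .O (.N .I .F .F) (.N (.N .I .F .F) (.N (.N .I .F .F) .F .F) .F)), 4701388, [2, 1, 0], 1054, 43, 45⟩,
  ⟨(.N .O (.N .I .F .F) (.N (.N .O .F .F) (.N (.N .I .F .F) .F .F) .F)), 4258973, [2], 1127, 44, 0⟩,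
  ⟨(.N .O (.N .I .F .F) (.N (.N (.N .I .F .F) .F .F) (.N (.N .I .F .F) .F .F) .F)), 4994133, [2, 0, 0], 1054, 46, 47⟩,
  ⟨(.N .O (.N .I .F .F) (.N (.N (.N .I .F .F) .F .F) (.N (.N .O .F .F) .F .F) .F)), 4764501, [2], 1177, 44, 0⟩,
  ⟨(.N .O (.N .I .F .F) (.N (.N (.N .I .F .F) .F .F) .F .F)), 5153406, [2, 1, 0, 0], 934, 48, 49⟩,
  ⟨(.N .O (.N .I .F .F) (.N (.N (.N .O .F .F) .F .F) .F .F)), 4860551, [2], 966, 44, 0⟩,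
  ⟨(.N .O (.N .I .F .F) .F), 5281069, [2, 0, 0, 0], 934, 50, 51⟩,
  ⟨(.N (.N .I (.N (.N .O .F .F) .F .F) .F) (.N .I .F .F) .F), 6360863, [0], 1036, 26, 52⟩,
  ⟨(.N (.N .I .F .F) (.N .I .F .F) .F), 6339807, [0, 1, 0, 0], 934, 24, 53⟩,
  ⟨(.N (.N .O .F .F) .I .O), 2436315, [0], 965, 0, 0⟩,
  ⟨(.N (.N .O .F .F) .I (.N (.N .I (.N .I .F .F) .F) .I .F)), 930964, [2], 1139, 0, 55⟩,
  ⟨(.N (.N .O .F .F) .O (.N (.N .I (.N .I .F .F) .F) .I .F)), 2630989, [0], 965, 2, 0⟩,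
  ⟨(.N (.N .O .F .F) (.N .I (.N .I .F .F) .F) (.N (.N .I (.N .I .F .F) .F) .I .F)), 2548657, [1], 26, 56, 57⟩,
  ⟨(.N (.N .O .F .F) .O .I), 2436315, [0], 965, 0, 0⟩,
  ⟨(.N (.N .O .F .F) (.N .I (.N .I .F .F) .F) .I), 1709728, [1], 26, 0, 59⟩,
  ⟨(.N .I (.N .I (.N .I .F .F) .F) .O), 1405188, [1], 26, 0, 0⟩,
  ⟨(.N (.N .O .F .F) (.N .I (.N .I .F .F) .F) .O), 2787612, [0], 965, 61, 0⟩,
  ⟨(.N (.N .O .F .F) (.N .I (.N .I .F .F) .F) (.N (.N .I (.N .I .F .F) .F) .O .F)), 4257469, [2], 1140, 60, 62⟩,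
  ⟨(.N (.N .O .F .F) (.N .I (.N .I .F .F) .F) (.N (.N .I (.N .I .F .F) .F) (.N .I .F .F) .F)), 3967161, [2, 1], 1054, 58, 63⟩,
  ⟨(.N (.N .O .F .F) .I (.N (.N .I (.N .I .F .F) .F) (.N .I .F .F) .F)), 2517488, [2], 1141, 0, 55⟩,
  ⟨(.N (.N .O .F .F) .O (.N (.N .I (.N .I .F .F) .F) (.N .I .F .F) .F)), 2951485, [0], 965, 7, 0⟩,
  ⟨(.N (.N .O .F .F) (.N .I (.N .O .F .F) .F) (.N (.N .I (.N .I .F .F) .F) (.N .I .F .F) .F)), 4829027, [1], 907, 65, 66⟩,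
  ⟨(.N (.N .O .F .F) (.N .I (.N (.N .I .F .F) .F .F) .F) (.N (.N .I (.N .I .F .F) .F) (.N .I .F .F) .F)), 4585976, [1, 1, 0], 1054, 64, 67⟩,
  ⟨(.N (.N .O .F .F) .I (.N .I (.N .I .F .F) .F)), 1709728, [2], 26, 0, 55⟩,
  ⟨(.N (.N .O .F .F) .O (.N .I (.N .I .F .F) .F)), 2787612, [0], 965, 10, 0⟩,
  ⟨(.N (.N .O .F .F) (.N .I (.N (.N .I .F .F) .F .F) .F) (.N .I (.N .I .F .F) .F)), 3906267, [1], 1025, 69, 70⟩,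
  ⟨(.N (.N .O .F .F) (.N .I (.N (.N .I .F .F) .F .F) .F) .I), 2451244, [1], 1025, 0, 59⟩,
  ⟨(.N .I (.N .I (.N (.N .I .F .F) .F .F) .F) .O), 1994434, [1], 1025, 0, 0⟩,
  ⟨(.N (.N .O .F .F) (.N .I (.N (.N .I .F .F) .F .F) .F) .O), 2934924, [0], 965, 73, 0⟩,
  ⟨(.N (.N .O .F .F) (.N .I (.N (.N .I .F .F) .F .F) .F) (.N .O (.N .I .F .F) .F)), 4902334, [2], 52, 72, 74⟩,
  ⟨(.N (.N .O .F .F) (.N .I (.N (.N .I .F .F) .F .F) .F) (.N (.N .I (.N .O .F .F) .F) (.N .I .F .F) .F)), 5154105, [2, 0], 907, 71, 75⟩,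
  ⟨(.N (.N .O .F .F) (.N .I (.N (.N .I .F .F) .F .F) .F) (.N (.N .I .F .F) (.N .I .F .F) .F)), 5144130, [2, 0, 1, 0], 934, 68, 76⟩,
  ⟨(.N (.N .O .F .F) .I (.N (.N .I .F .F) (.N .I .F .F) .F)), 3188651, [2], 54, 0, 55⟩,
  ⟨(.N .I .O (.N (.N .I .F .F) (.N .I .F .F) .F)), 2579572, [2], 54, 0, 0⟩,
  ⟨(.N (.N .O .F .F) .O (.N (.N .I .F .F) (.N .I .F .F) .F)), 3081208, [0], 965, 79, 0⟩,
  ⟨(.N (.N .O .F .F) (.N .I (.N (.N .O .F .F) .F .F) .F) (.N (.N .I .F .F) (.N .I .F .F) .F)), 5491303, [1], 1036, 78, 80⟩,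
  ⟨(.N (.N .O .F .F) (.N .I .F .F) (.N (.N .I .F .F) (.N .I .F .F) .F)), 5591807, [1, 1, 0, 0], 934, 77, 81⟩,
  ⟨(.N (.N .O .F .F) (.N .I .F .F) .I), 3045394, [1], 1054, 0, 59⟩,
  ⟨(.N .I (.N .I .F .F) .O), 2436315, [1], 1054, 0, 0⟩,
  ⟨(.N (.N .O .F .F) (.N .I .F .F) .O), 3045394, [0], 965, 84, 0⟩,
  ⟨(.N (.N .O .F .F) (.N .I .F .F) (.N (.N .I .F .F) (.N .O .F .F) .F)), 5936746, [2], 888, 83, 85⟩,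
  ⟨(.N (.N .O .F .F) (.N .I .F .F) (.N (.N .I .F .F) (.N (.N .I .F .F) .F .F) .F)), 6081391, [2, 1, 0], 1054, 82, 86⟩,
  ⟨(.N (.N .O .F .F) (.N .I .F .F) (.N (.N .O .F .F) (.N (.N .I .F .F) .F .F) .F)), 6238481, [2], 1127, 83, 85⟩,
  ⟨(.N (.N .O .F .F) (.N .I .F .F) (.N (.N (.N .I .F .F) .F .F) (.N (.N .I .F .F) .F .F) .F)), 6524014, [2, 0, 0], 1054, 87, 88⟩,
  ⟨(.N (.N .O .F .F) (.N .I .F .F) (.N (.N (.N .I .F .F) .F .F) (.N (.N .O .F .F) .F .F) (.N (.N .I .F .F) .F .F))), 6317651, [2], 1168, 83, 85⟩,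
  ⟨(.N (.N .O .F .F) (.N .I .F .F) (.N (.N (.N .I .F .F) .F .F) (.N (.N .O .F .F) .F .F) (.N (.N .O .F .F) .F .F))), 6317651, [2], 1176, 83, 85⟩,
  ⟨(.N (.N .O .F .F) (.N .I .F .F) (.N (.N (.N .I .F .F) .F .F) (.N (.N .O .F .F) .F .F) .F)), 6591742, [2, 2, 0, 0], 934, 90, 91⟩,
  ⟨(.N (.N .O .F .F) (.N .I .F .F) (.N (.N (.N .I .F .F) .F .F) .F .F)), 6831969, [2, 1, 0, 0], 934, 89, 92⟩,
  ⟨(.N (.N .O .F .F) (.N .I .F .F) (.N (.N (.N .O .F .F) .F .F) (.N (.N .I .F .F) .F .F) (.N (.N .I .F .F) .F .F))), 6317651, [2], 1185, 83, 85⟩,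
  ⟨(.N (.N .O .F .F) (.N .I .F .F) (.N (.N (.N .O .F .F) .F .F) (.N (.N .I .F .F) .F .F) (.N (.N .O .F .F) .F .F))), 6317651, [2], 1090, 83, 85⟩,
  ⟨(.N (.N .O .F .F) (.N .I .F .F) (.N (.N (.N .O .F .F) .F .F) (.N (.N .I .F .F) .F .F) .F)), 6591742, [2, 2, 0, 0], 934, 94, 95⟩,
  ⟨(.N (.N .O .F .F) (.N .I .F .F) (.N (.N .I .F .F) (.N (.N .O .F .F) .F .F) .F)), 6238481, [2], 1013, 83, 85⟩,
  ⟨(.N (.N .O .F .F) (.N .I .F .F) (.N (.N .O .F .F) (.N .I .F .F) .F)), 5936746, [2], 131, 83, 85⟩,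
  ⟨(.N .I .O (.N (.N .O .F .F) (.N .O .F .F) .F)), 2579572, [2], 929, 0, 0⟩,
  ⟨(.N .I (.N .I .F .F) (.N (.N .O .F .F) (.N .O .F .F) .F)), 3081208, [1], 1054, 0, 99⟩,
  ⟨(.N .O (.N .I .F .F) (.N (.N .O .F .F) (.N .O .F .F) .F)), 3188651, [2], 929, 44, 0⟩,
  ⟨(.N (.N .O (.N (.N .I .F .F) .F .F) .F) (.N .I .F .F) (.N (.N .O .F .F) (.N .O .F .F) .F)), 5491303, [0], 962, 100, 101⟩,
  ⟨(.N (.N .O (.N (.N .O .F .F) .F .F) .F) .O .I), 1994434, [0], 963, 0, 0⟩,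
  ⟨(.N (.N .O (.N (.N .O .F .F) .F .F) .F) (.N .I .F .F) .I), 2934924, [1], 1054, 0, 103⟩,
  ⟨(.N (.N .O (.N (.N .O .F .F) .F .F) .F) (.N .I .F .F) .O), 2451244, [0], 963, 84, 0⟩,
  ⟨(.N (.N .O (.N (.N .O .F .F) .F .F) .F) (.N .I .F .F) (.N .I (.N .O .F .F) .F)), 4902334, [2], 907, 104, 105⟩,
  ⟨(.N .I .O (.N .O (.N .O .F .F) .F)), 1405188, [2], 908, 0, 0⟩,
  ⟨(.N .I (.N .I .F .F) (.N .O (.N .O .F .F) .F)), 2787612, [1], 1054, 0, 107⟩,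
  ⟨(.N .O (.N .I .F .F) (.N .O (.N .O .F .F) .F)), 1709728, [2], 908, 44, 0⟩,
  ⟨(.N (.N .O (.N (.N .O .F .F) .F .F) .F) (.N .I .F .F) (.N .O (.N .O .F .F) .F)), 3906267, [0], 963, 108, 109⟩,
  ⟨(.N (.N .O (.N (.N .O .F .F) .F .F) .F) (.N .I .F .F) (.N (.N .O (.N .I .F .F) .F) (.N .O .F .F) .F)), 5154105, [2, 0], 52, 106, 110⟩,
  ⟨(.N .I .O (.N (.N .O (.N .O .F .F) .F) (.N .O .F .F) .F)), 2060679, [2], 1056, 0, 0⟩,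
  ⟨(.N .I (.N .I .F .F) (.N (.N .O (.N .O .F .F) .F) (.N .O .F .F) .F)), 2951485, [1], 1054, 0, 112⟩,
  ⟨(.N .O (.N .I .F .F) (.N (.N .O (.N .O .F .F) .F) (.N .O .F .F) .F)), 2517488, [2], 1056, 44, 0⟩,
  ⟨(.N (.N .O (.N .I .F .F) .F) (.N .I .F .F) (.N (.N .O (.N .O .F .F) .F) (.N .O .F .F) .F)), 4829027, [0], 52, 113, 114⟩,
  ⟨(.N (.N .O (.N .O .F .F) .F) .O .I), 1405188, [0], 908, 0, 0⟩,
  ⟨(.N (.N .O (.N .O .F .F) .F) (.N .I .F .F) .I), 2787612, [1], 1054, 0, 116⟩,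
  ⟨(.N (.N .O (.N .O .F .F) .F) (.N .I .F .F) .O), 1709728, [0], 908, 84, 0⟩,
  ⟨(.N (.N .O (.N .O .F .F) .F) (.N .I .F .F) (.N (.N .O (.N .O .F .F) .F) .I .F)), 4257469, [2], 1055, 117, 118⟩,
  ⟨(.N .I .O (.N (.N .O (.N .O .F .F) .F) .O .F)), 778694, [2], 967, 0, 0⟩,
  ⟨(.N .I (.N .I .F .F) (.N (.N .O (.N .O .F .F) .F) .O .F)), 2630989, [1], 1054, 0, 120⟩,
  ⟨(.N .O (.N .I .F .F) (.N (.N .O (.N .O .F .F) .F) .O .F)), 930964, [2], 967, 44, 0⟩,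
  ⟨(.N (.N .O (.N .O .F .F) .F) (.N .I .F .F) (.N (.N .O (.N .O .F .F) .F) .O .F)), 2548657, [0], 908, 121, 122⟩,
  ⟨(.N (.N .O (.N .O .F .F) .F) (.N .I .F .F) (.N (.N .O (.N .O .F .F) .F) (.N .O .F .F) .F)), 3967161, [2, 1], 965, 119, 123⟩,
  ⟨(.N (.N .O (.N (.N .O .F .F) .F .F) .F) (.N .I .F .F) (.N (.N .O (.N .O .F .F) .F) (.N .O .F .F) .F)), 4585976, [0, 1, 0], 965, 115, 124⟩,
  ⟨(.N (.N .O (.N (.N .O .F .F) .F .F) .F) (.N .I .F .F) (.N (.N .O .F .F) (.N .O .F .F) .F)), 5144130, [2, 0, 1, 0], 934, 111, 125⟩,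
  ⟨(.N (.N .O .F .F) (.N .I .F .F) (.N (.N .O .F .F) (.N .O .F .F) .F)), 5591807, [0, 1, 0, 0], 934, 102, 126⟩,
  ⟨(.N (.N .O .F .F) (.N .I .F .F) (.N (.N .O .F .F) (.N (.N .O .F .F) .F .F) .F)), 6081391, [2, 1, 0], 965, 98, 127⟩,
  ⟨(.N (.N .O .F .F) (.N .I .F .F) (.N (.N (.N .O .F .F) .F .F) (.N (.N .O .F .F) .F .F) .F)), 6524014, [2, 0, 0], 965, 97, 128⟩,
  ⟨(.N (.N .O .F .F) (.N .I .F .F) (.N (.N (.N .O .F .F) .F .F) .F .F)), 6831969, [2, 1, 0, 0], 934, 96, 129⟩,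
  ⟨(.N (.N .O .F .F) (.N .I .F .F) .F), 7106061, [2, 0, 0, 0], 934, 93, 130⟩,
  ⟨(.N (.N (.N .I .F .F) .F .F) (.N .I .F .F) .F), 7522676, [0, 0], 1054, 54, 131⟩,
  ⟨(.N .O (.N .O .F .F) .I), 2436315, [1], 965, 0, 0⟩,
  ⟨(.N (.N (.N .I (.N .I .F .F) .F) .I .F) (.N .O .F .F) .I), 930964, [0], 1139, 0, 133⟩,
  ⟨(.N (.N (.N .I (.N .I .F .F) .F) .I .F) .I .O), 778694, [0], 1139, 0, 0⟩,
  ⟨(.N (.N (.N .I (.N .I .F .F) .F) .I .F) (.N .O .F .F) .O), 2630989, [1], 965, 135, 0⟩,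
  ⟨(.N (.N (.N .I (.N .I .F .F) .F) .I .F) (.N .O .F .F) (.N .I (.N .I .F .F) .F)), 2548657, [2], 26, 134, 136⟩,
  ⟨(.N .I (.N .O .F .F) .O), 2436315, [1], 965, 0, 0⟩,
  ⟨(.N .I (.N .O .F .F) (.N .I (.N .I .F .F) .F)), 1709728, [2], 26, 0, 138⟩,
  ⟨(.N .O (.N .O .F .F) (.N .I (.N .I .F .F) .F)), 2787612, [1], 965, 35, 0⟩,
  ⟨(.N (.N (.N .I (.N .I .F .F) .F) .O .F) (.N .O .F .F) (.N .I (.N .I .F .F) .F)), 4257469, [0], 1140, 139, 140⟩,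
  ⟨(.N (.N (.N .I (.N .I .F .F) .F) (.N .I .F .F) .F) (.N .O .F .F) (.N .I (.N .I .F .F) .F)), 3967161, [0, 1], 1054, 137, 141⟩,
  ⟨(.N (.N (.N .I (.N .I .F .F) .F) (.N .I .F .F) .F) (.N .O .F .F) .I), 2517488, [0], 1141, 0, 133⟩,
  ⟨(.N (.N (.N .I (.N .I .F .F) .F) (.N .I .F .F) .F) .I .O), 2060679, [0], 1141, 0, 0⟩,
  ⟨(.N (.N (.N .I (.N .I .F .F) .F) (.N .I .F .F) .F) (.N .O .F .F) .O), 2951485, [1], 965, 144, 0⟩,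
  ⟨(.N (.N (.N .I (.N .I .F .F) .F) (.N .I .F .F) .F) (.N .O .F .F) (.N .O (.N .I .F .F) .F)), 4937526, [2], 52, 143, 145⟩,
  ⟨(.N (.N (.N .I (.N .I .F .F) .F) (.N .I .F .F) .F) (.N .O .F .F) (.N (.N .I .F .F) (.N .I .F .F) .F)), 5201056, [2, 0], 1054, 142, 146⟩,
  ⟨(.N (.N .I (.N .I .F .F) .F) (.N .O .F .F) .I), 1709728, [0], 26, 0, 133⟩,
  ⟨(.N (.N .I (.N .I .F .F) .F) .I .O), 1405188, [0], 26, 0, 0⟩,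
  ⟨(.N (.N .I (.N .I .F .F) .F) (.N .O .F .F) .O), 2787612, [1], 965, 149, 0⟩,
  ⟨(.N (.N .I (.N .I .F .F) .F) (.N .O .F .F) (.N (.N .I .F .F) (.N .I .F .F) .F)), 4558773, [2], 54, 148, 150⟩,
  ⟨(.N .I (.N .O .F .F) (.N (.N .I .F .F) (.N .I .F .F) .F)), 3188651, [2], 54, 0, 138⟩,
  ⟨(.N .O (.N .O .F .F) (.N (.N .I .F .F) (.N .I .F .F) .F)), 3081208, [1], 965, 41, 0⟩,
  ⟨(.N (.N .O (.N .I .F .F) .F) (.N .O .F .F) (.N (.N .I .F .F) (.N .I .F .F) .F)), 5270290, [0], 52, 152, 153⟩,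
  ⟨(.N (.N (.N .I (.N .O .F .F) .F) (.N .I .F .F) .F) (.N .O .F .F) (.N (.N .I .F .F) (.N .I .F .F) .F)), 5699904, [0, 0], 907, 151, 154⟩,
  ⟨(.N (.N (.N .I .F .F) (.N .I .F .F) .F) (.N .O .F .F) (.N (.N .I .F .F) (.N .I .F .F) .F)), 5724570, [0, 0, 1, 0], 934, 147, 155⟩,
  ⟨(.N (.N (.N .I .F .F) (.N .I .F .F) .F) (.N .O .F .F) .I), 3188651, [0], 54, 0, 133⟩,
  ⟨(.N (.N (.N .I .F .F) (.N .I .F .F) .F) .I .O), 2579572, [0], 54, 0, 0⟩,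
  ⟨(.N (.N (.N .I .F .F) (.N .I .F .F) .F) (.N .O .F .F) .O), 3081208, [1], 965, 158, 0⟩,
  ⟨(.N (.N (.N .I .F .F) (.N .I .F .F) .F) (.N .O .F .F) (.N (.N .O .F .F) (.N .I .F .F) .F)), 6026282, [2], 131, 157, 159⟩,
  ⟨(.N (.N (.N .I .F .F) (.N .I .F .F) .F) (.N .O .F .F) (.N (.N (.N .I .F .F) .F .F) (.N .I .F .F) .F)), 6203348, [2, 0, 0], 1054, 156, 160⟩,
  ⟨(.N .I (.N .O .F .F) (.N (.N (.N .I .F .F) .F .F) (.N .I .F .F) .F)), 3822212, [2], 132, 0, 138⟩,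
  ⟨(.N .O .I (.N (.N (.N .I .F .F) .F .F) (.N .I .F .F) .F)), 3060863, [2], 132, 0, 0⟩,
  ⟨(.N .O (.N .O .F .F) (.N (.N (.N .I .F .F) .F .F) (.N .I .F .F) .F)), 3201531, [1], 965, 163, 0⟩,
  ⟨(.N (.N (.N .I .F .F) (.N .O .F .F) .F) (.N .O .F .F) (.N (.N (.N .I .F .F) .F .F) (.N .I .F .F) .F)), 6403224, [0], 888, 162, 164⟩,
  ⟨(.N (.N (.N .I .F .F) (.N (.N .I .F .F) .F .F) .F) (.N .O .F .F) (.N (.N (.N .I .F .F) .F .F) (.N .I .F .F) .F)), 6656667, [0, 1, 0], 1054, 161, 165⟩,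
  ⟨(.N (.N (.N .I .F .F) (.N (.N .O .F .F) .F .F) .F) (.N .O .F .F) (.N (.N (.N .I .F .F) .F .F) (.N .I .F .F) .F)), 6743752, [0], 1013, 162, 164⟩,
  ⟨(.N (.N (.N .I .F .F) .F .F) (.N .O .F .F) (.N (.N (.N .I .F .F) .F .F) (.N .I .F .F) .F)), 6974301, [0, 1, 0, 0], 934, 166, 167⟩,
  ⟨(.N (.N (.N .I .F .F) .F .F) (.N .O .F .F) .I), 4312489, [0], 1024, 0, 133⟩,
  ⟨(.N (.N (.N .I .F .F) .F .F) .I .O), 3398870, [0], 1024, 0, 0⟩,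
  ⟨(.N (.N (.N .I .F .F) .F .F) (.N .O .F .F) .O), 3286033, [1], 965, 170, 0⟩,
  ⟨(.N (.N (.N .I .F .F) .F .F) (.N .O .F .F) (.N (.N (.N .I .F .F) .F .F) (.N .O .F .F) .F)), 6928195, [2], 226, 169, 171⟩,
  ⟨(.N (.N (.N .I .F .F) .F .F) (.N .O .F .F) (.N (.N (.N .I .F .F) .F .F) .F .F)), 7624873, [2, 1, 0], 934, 168, 172⟩,
  ⟨(.N (.N (.N .I .F .F) (.N .I .F .F) .F) (.N .O .F .F) (.N (.N .I .F .F) (.N .O .F .F) .F)), 6026282, [2], 888, 157, 159⟩,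
  ⟨(.N (.N (.N .I .F .F) (.N .I .F .F) .F) (.N .O .F .F) (.N (.N .I .F .F) (.N (.N .I .F .F) .F .F) .F)), 6203348, [2, 1, 0], 1054, 156, 174⟩,
  ⟨(.N .I (.N .O .F .F) (.N (.N .I .F .F) (.N (.N .I .F .F) .F .F) .F)), 3822212, [2], 969, 0, 138⟩,
  ⟨(.N .O .I (.N (.N .I .F .F) (.N (.N .I .F .F) .F .F) .F)), 3060863, [2], 969, 0, 0⟩,
  ⟨(.N .O (.N .O .F .F) (.N (.N .I .F .F) (.N (.N .I .F .F) .F .F) .F)), 3201531, [1], 965, 177, 0⟩,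
  ⟨(.N (.N (.N .I .F .F) (.N .O .F .F) .F) (.N .O .F .F) (.N (.N .I .F .F) (.N (.N .I .F .F) .F .F) .F)), 6403224, [0], 888, 176, 178⟩,
  ⟨(.N (.N (.N .I .F .F) (.N (.N .I .F .F) .F .F) .F) (.N .O .F .F) (.N (.N .I .F .F) (.N (.N .I .F .F) .F .F) .F)), 6656667, [0, 1, 0], 1054, 175, 179⟩,
  ⟨(.N (.N (.N .I .F .F) (.N (.N .I .F .F) .F .F) .F) (.N .O .F .F) .I), 3822212, [0], 969, 0, 133⟩,
  ⟨(.N (.N (.N .I .F .F) (.N (.N .I .F .F) .F .F) .F) .I .O), 3060863, [0], 969, 0, 0⟩,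
  ⟨(.N (.N (.N .I .F .F) (.N (.N .I .F .F) .F .F) .F) (.N .O .F .F) .O), 3201531, [1], 965, 182, 0⟩,
  ⟨(.N (.N (.N .I .F .F) (.N (.N .I .F .F) .F .F) .F) (.N .O .F .F) (.N (.N .I .F .F) (.N (.N .O .F .F) .F .F) .F)), 6743752, [2], 1013, 181, 183⟩,
  ⟨(.N (.N (.N .I .F .F) (.N (.N .I .F .F) .F .F) .F) (.N .O .F .F) (.N (.N .I .F .F) .F .F)), 6974301, [2, 1, 0, 0], 934, 180, 184⟩,
  ⟨(.N .I (.N .O .F .F) (.N (.N .I .F .F) .F .F)), 4312489, [2], 1024, 0, 138⟩,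
  ⟨(.N .O .I (.N (.N .I .F .F) .F .F)), 3398870, [2], 1024, 0, 0⟩,
  ⟨(.N .O (.N .O .F .F) (.N (.N .I .F .F) .F .F)), 3286033, [1], 965, 187, 0⟩,
  ⟨(.N (.N (.N .I .F .F) (.N (.N .O .F .F) .F .F) .F) (.N .O .F .F) (.N (.N .I .F .F) .F .F)), 7056502, [0], 1013, 186, 188⟩,
  ⟨(.N (.N (.N .I .F .F) .F .F) (.N .O .F .F) (.N (.N .I .F .F) .F .F)), 7289493, [0, 1, 0, 0], 934, 185, 189⟩,
  ⟨(.N (.N (.N .I .F .F) .F .F) (.N .O .F .F) (.N (.N .O .F .F) (.N (.N .I .F .F) .F .F) .F)), 6928195, [2], 1127, 169, 171⟩,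
  ⟨(.N (.N (.N .I .F .F) .F .F) (.N .O .F .F) (.N (.N .O .F .F) (.N .I .F .F) .F)), 6690614, [2], 131, 169, 171⟩,
  ⟨(.N .O .I (.N (.N .O .F .F) (.N .O .F .F) .F)), 2579572, [2], 929, 0, 0⟩,
  ⟨(.N (.N (.N .I .F .F) .F .F) .I (.N (.N .O .F .F) (.N .O .F .F) .F)), 4366210, [0], 1024, 0, 193⟩,
  ⟨(.N (.N (.N .I .F .F) .F .F) .O .I), 3398870, [0], 1024, 0, 0⟩,
  ⟨(.N (.N (.N .I .F .F) .F .F) .O (.N (.N .O .F .F) (.N .O .F .F) .F)), 3429290, [2], 929, 195, 0⟩,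
  ⟨(.N (.N (.N .I .F .F) .F .F) (.N .O (.N (.N .I .F .F) .F .F) .F) (.N (.N .O .F .F) (.N .O .F .F) .F)), 6058306, [1], 962, 194, 196⟩,
  ⟨(.N .O (.N .O (.N (.N .O .F .F) .F .F) .F) .I), 1994434, [1], 963, 0, 0⟩,
  ⟨(.N (.N (.N .I .F .F) .F .F) (.N .O (.N (.N .O .F .F) .F .F) .F) .I), 4146783, [0], 1024, 0, 198⟩,
  ⟨(.N (.N (.N .I .F .F) .F .F) (.N .O (.N (.N .O .F .F) .F .F) .F) .O), 2631723, [1], 963, 170, 0⟩,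
  ⟨(.N (.N (.N .I .F .F) .F .F) (.N .O (.N (.N .O .F .F) .F .F) .F) (.N .I (.N .O .F .F) .F)), 5727426, [2], 907, 199, 200⟩,
  ⟨(.N .O .I (.N .O (.N .O .F .F) .F)), 1405188, [2], 908, 0, 0⟩,
  ⟨(.N (.N (.N .I .F .F) .F .F) .I (.N .O (.N .O .F .F) .F)), 3925816, [0], 1024, 0, 202⟩,
  ⟨(.N (.N (.N .I .F .F) .F .F) .O (.N .O (.N .O .F .F) .F)), 1830048, [2], 908, 195, 0⟩,
  ⟨(.N (.N (.N .I .F .F) .F .F) (.N .O (.N (.N .O .F .F) .F .F) .F) (.N .O (.N .O .F .F) .F)), 4217440, [1], 963, 203, 204⟩,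
  ⟨(.N (.N (.N .I .F .F) .F .F) (.N .O (.N (.N .O .F .F) .F .F) .F) (.N (.N .O (.N .I .F .F) .F) (.N .O .F .F) .F)), 5657998, [2, 0], 52, 201, 205⟩,
  ⟨(.N .O .I (.N (.N .O (.N .O .F .F) .F) (.N .O .F .F) .F)), 2060679, [2], 1056, 0, 0⟩,
  ⟨(.N (.N (.N .I .F .F) .F .F) .I (.N (.N .O (.N .O .F .F) .F) (.N .O .F .F) .F)), 4171625, [0], 1024, 0, 207⟩,
  ⟨(.N (.N (.N .I .F .F) .F .F) .O (.N (.N .O (.N .O .F .F) .F) (.N .O .F .F) .F)), 2697967, [2], 1056, 195, 0⟩,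
  ⟨(.N (.N (.N .I .F .F) .F .F) (.N .O (.N .I .F .F) .F) (.N (.N .O (.N .O .F .F) .F) (.N .O .F .F) .F)), 5399379, [1], 52, 208, 209⟩,
  ⟨(.N .O (.N .O (.N .O .F .F) .F) .I), 1405188, [1], 908, 0, 0⟩,
  ⟨(.N (.N (.N .I .F .F) .F .F) (.N .O (.N .O .F .F) .F) .I), 3925816, [0], 1024, 0, 211⟩,
  ⟨(.N (.N (.N .I .F .F) .F .F) (.N .O (.N .O .F .F) .F) .O), 1830048, [1], 908, 170, 0⟩,
  ⟨(.N (.N (.N .I .F .F) .F .F) (.N .O (.N .O .F .F) .F) (.N (.N .O (.N .O .F .F) .F) .I .F)), 4950349, [2], 1055, 212, 213⟩,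
  ⟨(.N .O .I (.N (.N .O (.N .O .F .F) .F) .O .F)), 778694, [2], 967, 0, 0⟩,
  ⟨(.N (.N (.N .I .F .F) .F .F) .I (.N (.N .O (.N .O .F .F) .F) .O .F)), 3690880, [0], 1024, 0, 215⟩,
  ⟨(.N (.N (.N .I .F .F) .F .F) .O (.N (.N .O (.N .O .F .F) .F) .O .F)), 991124, [2], 967, 195, 0⟩,
  ⟨(.N (.N (.N .I .F .F) .F .F) (.N .O (.N .O .F .F) .F) (.N (.N .O (.N .O .F .F) .F) .O .F)), 2733783, [1], 908, 216, 217⟩,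
  ⟨(.N (.N (.N .I .F .F) .F .F) (.N .O (.N .O .F .F) .F) (.N (.N .O (.N .O .F .F) .F) (.N .O .F .F) .F)), 4279227, [2, 1], 965, 214, 218⟩,
  ⟨(.N (.N (.N .I .F .F) .F .F) (.N .O (.N (.N .O .F .F) .F .F) .F) (.N (.N .O (.N .O .F .F) .F) (.N .O .F .F) .F)), 4962613, [1, 1, 0], 965, 210, 219⟩,
  ⟨(.N (.N (.N .I .F .F) .F .F) (.N .O (.N (.N .O .F .F) .F .F) .F) (.N (.N .O .F .F) (.N .O .F .F) .F)), 5584396, [2, 0, 1, 0], 934, 206, 220⟩,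
  ⟨(.N (.N (.N .I .F .F) .F .F) (.N .O .F .F) (.N (.N .O .F .F) (.N .O .F .F) .F)), 6095441, [1, 1, 0, 0], 934, 197, 221⟩,
  ⟨(.N (.N (.N .I .F .F) .F .F) (.N .O .F .F) (.N (.N .O .F .F) (.N (.N .O .F .F) .F .F) .F)), 6647585, [2, 1, 0], 965, 192, 222⟩,
  ⟨(.N (.N (.N .I .F .F) .F .F) (.N .O .F .F) (.N (.N .O .F .F) .F .F)), 7061981, [2, 1, 0, 0], 934, 191, 223⟩,
  ⟨(.N (.N (.N .I .F .F) .F .F) (.N .O .F .F) (.N (.N (.N .O .F .F) .F .F) .F .F)), 7522211, [2, 0, 0], 965, 190, 224⟩,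
  ⟨(.N (.N (.N .I .F .F) .F .F) (.N .O .F .F) .F), 7847634, [2, 0, 0, 0], 934, 173, 225⟩,
  ⟨(.N (.N (.N .I .F .F) .F .F) (.N (.N (.N .I .F .F) .F .F) .F .F) .F), 9027490, [1, 0], 1024, 132, 226⟩,
  ⟨(.N (.N (.N .O .F .F) .F .F) .O .I), 3398870, [0], 1138, 0, 0⟩,
  ⟨(.N (.N (.N .O .F .F) .F .F) (.N (.N .I (.N .I .F .F) .F) .I .F) .I), 991124, [1], 1139, 0, 228⟩,
  ⟨(.N .I (.N (.N .I (.N .I .F .F) .F) .I .F) .O), 778694, [1], 1139, 0, 0⟩,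
  ⟨(.N (.N (.N .O .F .F) .F .F) (.N (.N .I (.N .I .F .F) .F) .I .F) .O), 3690880, [0], 1138, 230, 0⟩,
  ⟨(.N (.N (.N .O .F .F) .F .F) (.N (.N .I (.N .I .F .F) .F) .I .F) (.N .I (.N .I .F .F) .F)), 2733783, [2], 26, 229, 231⟩,
  ⟨(.N (.N (.N .O .F .F) .F .F) .I .O), 3398870, [0], 1138, 0, 0⟩,
  ⟨(.N (.N (.N .O .F .F) .F .F) .I (.N .I (.N .I .F .F) .F)), 1830048, [2], 26, 0, 233⟩,
  ⟨(.N (.N (.N .O .F .F) .F .F) .O (.N .I (.N .I .F .F) .F)), 3925816, [0], 1138, 10, 0⟩,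
  ⟨(.N (.N (.N .O .F .F) .F .F) (.N (.N .I (.N .I .F .F) .F) .O .F) (.N .I (.N .I .F .F) .F)), 4950349, [1], 1140, 234, 235⟩,
  ⟨(.N (.N (.N .O .F .F) .F .F) (.N (.N .I (.N .I .F .F) .F) (.N .I .F .F) .F) (.N .I (.N .I .F .F) .F)), 4279227, [1, 1], 1054, 232, 236⟩,
  ⟨(.N (.N (.N .O .F .F) .F .F) (.N (.N .I (.N .I .F .F) .F) (.N .I .F .F) .F) .I), 2697967, [1], 1141, 0, 228⟩,
  ⟨(.N .I (.N (.N .I (.N .I .F .F) .F) (.N .I .F .F) .F) .O), 2060679, [1], 1141, 0, 0⟩,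
  ⟨(.N (.N (.N .O .F .F) .F .F) (.N (.N .I (.N .I .F .F) .F) (.N .I .F .F) .F) .O), 4171625, [0], 1138, 239, 0⟩,
  ⟨(.N (.N (.N .O .F .F) .F .F) (.N (.N .I (.N .I .F .F) .F) (.N .I .F .F) .F) (.N .O (.N .I .F .F) .F)), 5767794, [2], 52, 238, 240⟩,
  ⟨(.N (.N (.N .O .F .F) .F .F) (.N (.N .I (.N .I .F .F) .F) (.N .I .F .F) .F) (.N (.N .I .F .F) (.N .I .F .F) .F)), 5642672, [2, 0], 1054, 237, 241⟩,
  ⟨(.N (.N (.N .O .F .F) .F .F) (.N .I (.N .I .F .F) .F) .I), 1830048, [1], 26, 0, 228⟩,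
  ⟨(.N (.N (.N .O .F .F) .F .F) (.N .I (.N .I .F .F) .F) .O), 3925816, [0], 1138, 61, 0⟩,
  ⟨(.N (.N (.N .O .F .F) .F .F) (.N .I (.N .I .F .F) .F) (.N (.N .I .F .F) (.N .I .F .F) .F)), 4933564, [2], 54, 243, 244⟩,
  ⟨(.N (.N (.N .O .F .F) .F .F) .I (.N (.N .I .F .F) (.N .I .F .F) .F)), 3429290, [2], 54, 0, 233⟩,
  ⟨(.N (.N (.N .O .F .F) .F .F) .O (.N (.N .I .F .F) (.N .I .F .F) .F)), 4366210, [0], 1138, 79, 0⟩,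
  ⟨(.N (.N (.N .O .F .F) .F .F) (.N .O (.N .I .F .F) .F) (.N (.N .I .F .F) (.N .I .F .F) .F)), 6163656, [1], 52, 246, 247⟩,
  ⟨(.N (.N (.N .O .F .F) .F .F) (.N (.N .I (.N .O .F .F) .F) (.N .I .F .F) .F) (.N (.N .I .F .F) (.N .I .F .F) .F)), 6269162, [1, 0], 907, 245, 248⟩,
  ⟨(.N (.N (.N .O .F .F) .F .F) (.N (.N .I .F .F) (.N .I .F .F) .F) (.N (.N .I .F .F) (.N .I .F .F) .F)), 6230008, [1, 0, 1, 0], 934, 242, 249⟩,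
  ⟨(.N (.N (.N .O .F .F) .F .F) (.N (.N .I .F .F) (.N .I .F .F) .F) .I), 3429290, [1], 54, 0, 228⟩,
  ⟨(.N .I (.N (.N .I .F .F) (.N .I .F .F) .F) .O), 2579572, [1], 54, 0, 0⟩,
  ⟨(.N (.N (.N .O .F .F) .F .F) (.N (.N .I .F .F) (.N .I .F .F) .F) .O), 4366210, [0], 1138, 252, 0⟩,
  ⟨(.N (.N (.N .O .F .F) .F .F) (.N (.N .I .F .F) (.N .I .F .F) .F) (.N (.N .I .F .F) (.N .O .F .F) .F)), 6789103, [2], 888, 251, 253⟩,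
  ⟨(.N (.N (.N .O .F .F) .F .F) (.N (.N .I .F .F) (.N .I .F .F) .F) (.N (.N .I .F .F) (.N (.N .I .F .F) .F .F) .F)), 6773132, [2, 1, 0], 1054, 250, 254⟩,
  ⟨(.N (.N (.N .O .F .F) .F .F) .I (.N (.N .I .F .F) (.N (.N .I .F .F) .F .F) .F)), 4123011, [2], 969, 0, 233⟩,
  ⟨(.N .I .O (.N (.N .I .F .F) (.N (.N .I .F .F) .F .F) .F)), 3060863, [2], 969, 0, 0⟩,
  ⟨(.N (.N (.N .O .F .F) .F .F) .O (.N (.N .I .F .F) (.N (.N .I .F .F) .F .F) .F)), 4546694, [0], 1138, 257, 0⟩,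
  ⟨(.N (.N (.N .O .F .F) .F .F) (.N (.N .O .F .F) (.N .I .F .F) .F) (.N (.N .I .F .F) (.N (.N .I .F .F) .F .F) .F)), 7226206, [1], 131, 256, 258⟩,
  ⟨(.N (.N (.N .O .F .F) .F .F) (.N (.N (.N .I .F .F) .F .F) (.N .I .F .F) .F) (.N (.N .I .F .F) (.N (.N .I .F .F) .F .F) .F)), 7289751, [1, 0, 0], 1054, 255, 259⟩,
  ⟨(.N (.N (.N .O .F .F) .F .F) (.N (.N (.N .I .F .F) .F .F) (.N .I .F .F) .F) .I), 4123011, [1], 132, 0, 228⟩,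
  ⟨(.N .I (.N (.N (.N .I .F .F) .F .F) (.N .I .F .F) .F) .O), 3060863, [1], 132, 0, 0⟩,
  ⟨(.N (.N (.N .O .F .F) .F .F) (.N (.N (.N .I .F .F) .F .F) (.N .I .F .F) .F) .O), 4546694, [0], 1138, 262, 0⟩,
  ⟨(.N (.N (.N .O .F .F) .F .F) (.N (.N (.N .I .F .F) .F .F) (.N .I .F .F) .F) (.N (.N .I .F .F) (.N (.N .O .F .F) .F .F) .F)), 7501461, [2], 1013, 261, 263⟩,
  ⟨(.N (.N (.N .O .F .F) .F .F) (.N (.N (.N .I .F .F) .F .F) (.N .I .F .F) .F) (.N (.N .I .F .F) .F .F)), 7669698, [2, 1, 0, 0], 934, 260, 264⟩,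
  ⟨(.N (.N (.N .O .F .F) .F .F) .I (.N (.N .I .F .F) .F .F)), 4673447, [2], 1024, 0, 233⟩,
  ⟨(.N .I .O (.N (.N .I .F .F) .F .F)), 3398870, [2], 1024, 0, 0⟩,
  ⟨(.N (.N (.N .O .F .F) .F .F) .O (.N (.N .I .F .F) .F .F)), 4673447, [0], 1138, 267, 0⟩,
  ⟨(.N (.N (.N .O .F .F) .F .F) (.N (.N (.N .I .F .F) .F .F) (.N .O .F .F) .F) (.N (.N .I .F .F) .F .F)), 7866536, [1], 226, 266, 268⟩,
  ⟨(.N (.N (.N .O .F .F) .F .F) (.N (.N (.N .I .F .F) .F .F) .F .F) (.N (.N .I .F .F) .F .F)), 8441743, [1, 1, 0], 934, 265, 269⟩,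
  ⟨(.N .I .O (.N (.N .O .F .F) .F .F)), 3398870, [2], 1138, 0, 0⟩,
  ⟨(.N .I (.N (.N .I .F .F) .F .F) (.N (.N .O .F .F) .F .F)), 4673447, [1], 1024, 0, 271⟩,
  ⟨(.N .I (.N (.N .O .F .F) (.N .I .F .F) .F) (.N (.N .O .F .F) .F .F)), 4590785, [1], 131, 0, 271⟩,
  ⟨(.N .I (.N (.N .O .F .F) (.N .O .F .F) .F) .O), 2579572, [1], 929, 0, 0⟩,
  ⟨(.N .I (.N (.N .O .F .F) (.N .O .F .F) .F) (.N (.N .O .F .F) (.N (.N .I .F .F) .F .F) .F)), 4644094, [2], 1127, 0, 274⟩,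
  ⟨(.N .I (.N (.N .O .F .F) (.N .O .F .F) .F) (.N (.N .O .F .F) (.N .I .F .F) .F)), 4181136, [2], 131, 0, 274⟩,
  ⟨(.N .I (.N .I (.N .O .F .F) .F) (.N (.N .O .F .F) (.N .O .F .F) .F)), 3116127, [1], 907, 0, 99⟩,
  ⟨(.N .I (.N .O (.N .O .F .F) .F) .O), 1405188, [1], 908, 0, 0⟩,
  ⟨(.N .I (.N .O (.N .O .F .F) .F) (.N (.N .O .F .F) (.N .O .F .F) .F)), 3633464, [2], 929, 0, 278⟩,
  ⟨(.N .I (.N (.N .O (.N .I .F .F) .F) (.N .O .F .F) .F) (.N (.N .O .F .F) (.N .O .F .F) .F)), 4313774, [1, 0], 52, 277, 279⟩,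
  ⟨(.N .I (.N (.N .O (.N .O .F .F) .F) (.N .O .F .F) .F) .O), 2060679, [1], 1056, 0, 0⟩,
  ⟨(.N .I (.N (.N .O (.N .O .F .F) .F) (.N .O .F .F) .F) (.N .I (.N .O .F .F) .F)), 2921542, [2], 907, 0, 281⟩,
  ⟨(.N .I (.N (.N .O (.N .O .F .F) .F) .I .F) (.N .O (.N .O .F .F) .F)), 2556199, [1], 1055, 0, 107⟩,
  ⟨(.N .I (.N (.N .O (.N .O .F .F) .F) .O .F) .O), 778694, [1], 967, 0, 0⟩,
  ⟨(.N .I (.N (.N .O (.N .O .F .F) .F) .O .F) (.N .O (.N .O .F .F) .F)), 2086547, [2], 908, 0, 284⟩,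
  ⟨(.N .I (.N (.N .O (.N .O .F .F) .F) (.N .O .F .F) .F) (.N .O (.N .O .F .F) .F)), 3195261, [1, 1], 965, 283, 285⟩,
  ⟨(.N .I (.N (.N .O (.N .O .F .F) .F) (.N .O .F .F) .F) (.N (.N .O .F .F) (.N .O .F .F) .F)), 4118133, [2, 0], 965, 282, 286⟩,
  ⟨(.N .I (.N (.N .O .F .F) (.N .O .F .F) .F) (.N (.N .O .F .F) (.N .O .F .F) .F)), 4490043, [1, 0, 1, 0], 934, 280, 287⟩,
  ⟨(.N .I (.N (.N .O .F .F) (.N .O .F .F) .F) (.N (.N .O .F .F) (.N (.N .O .F .F) .F .F) .F)), 4816164, [2, 1, 0], 965, 276, 288⟩,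
  ⟨(.N .I (.N (.N .O .F .F) (.N .O .F .F) .F) (.N (.N .O .F .F) .F .F)), 5004219, [2, 1, 0, 0], 934, 275, 289⟩,
  ⟨(.N .I (.N (.N .O .F .F) (.N (.N .I .F .F) .F .F) .F) (.N (.N .O .F .F) .F .F)), 5097493, [1, 1, 0], 1054, 273, 290⟩,
  ⟨(.N .I (.N (.N .O .F .F) (.N (.N .O .F .F) .F .F) .F) .O), 3060863, [1], 1091, 0, 0⟩,
  ⟨(.N .I (.N (.N .O .F .F) (.N (.N .O .F .F) .F .F) .F) (.N (.N .O .F .F) (.N (.N .I .F .F) .F .F) .F)), 4914821, [2], 1127, 0, 292⟩,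
  ⟨(.N .I .O (.N (.N .O .F .F) (.N (.N .O .F .F) .F .F) .F)), 3060863, [2], 1091, 0, 0⟩,
  ⟨(.N .I (.N (.N .O .F .F) (.N .I .F .F) .F) (.N (.N .O .F .F) (.N (.N .O .F .F) .F .F) .F)), 4421782, [1], 131, 0, 294⟩,
  ⟨(.N .I (.N (.N .O .F .F) (.N (.N .O .F .F) .F .F) .F) (.N (.N .O .F .F) (.N (.N .O .F .F) .F .F) .F)), 5120918, [1, 1, 0], 965, 295, 289⟩,
  ⟨(.N .I (.N (.N .O .F .F) (.N (.N .O .F .F) .F .F) .F) (.N (.N .O .F .F) .F .F)), 5291959, [2, 1, 0, 0], 934, 293, 296⟩,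
  ⟨(.N .I (.N (.N .O .F .F) .F .F) (.N (.N .O .F .F) .F .F)), 5468816, [1, 1, 0, 0], 934, 291, 297⟩,
  ⟨(.N .I (.N (.N (.N .I .F .F) .F .F) .F .F) (.N (.N .O .F .F) .F .F)), 5275638, [1, 0, 0], 1054, 272, 298⟩,
  ⟨(.N .O (.N (.N .I (.N .I .F .F) .F) .I .F) .I), 778694, [1], 1139, 0, 0⟩,
  ⟨(.N .O (.N (.N .I (.N .I .F .F) .F) .I .F) (.N .I (.N .I .F .F) .F)), 2086547, [2], 26, 300, 0⟩,
  ⟨(.N .O (.N (.N .I (.N .I .F .F) .F) .O .F) (.N .I (.N .I .F .F) .F)), 2556199, [1], 1140, 35, 0⟩,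
  ⟨(.N .O (.N (.N .I (.N .I .F .F) .F) (.N .I .F .F) .F) (.N .I (.N .I .F .F) .F)), 3195261, [1, 1], 1054, 301, 302⟩,
  ⟨(.N .O (.N (.N .I (.N .I .F .F) .F) (.N .I .F .F) .F) .I), 2060679, [1], 1141, 0, 0⟩,
  ⟨(.N .O (.N (.N .I (.N .I .F .F) .F) (.N .I .F .F) .F) (.N .I (.N .O .F .F) .F)), 3436712, [2], 907, 304, 0⟩,
  ⟨(.N .O (.N (.N .I (.N .I .F .F) .F) (.N .I .F .F) .F) (.N .I (.N (.N .I .F .F) .F .F) .F)), 3658971, [2, 1, 0], 1054, 303, 305⟩,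
  ⟨(.N .O (.N .I (.N .I .F .F) .F) (.N .I (.N (.N .I .F .F) .F .F) .F)), 3136151, [2], 1025, 29, 0⟩,
  ⟨(.N .O .I (.N .I (.N (.N .I .F .F) .F .F) .F)), 1994434, [2], 1025, 0, 0⟩,
  ⟨(.N .O (.N .O (.N .I .F .F) .F) (.N .I (.N (.N .I .F .F) .F .F) .F)), 2896701, [1], 52, 308, 0⟩,
  ⟨(.N .O (.N (.N .I (.N .O .F .F) .F) (.N .I .F .F) .F) (.N .I (.N (.N .I .F .F) .F .F) .F)), 3920668, [1, 0], 907, 307, 309⟩,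
  ⟨(.N .O (.N (.N .I .F .F) (.N .I .F .F) .F) (.N .I (.N (.N .I .F .F) .F .F) .F)), 4063908, [1, 0, 1, 0], 934, 306, 310⟩,
  ⟨(.N .O (.N (.N .I .F .F) (.N .I .F .F) .F) .I), 2579572, [1], 54, 0, 0⟩,
  ⟨(.N .O (.N (.N .I .F .F) (.N .I .F .F) .F) (.N .I (.N (.N .O .F .F) .F .F) .F)), 4109682, [2], 1036, 312, 0⟩,
  ⟨(.N .O (.N (.N .I .F .F) (.N .I .F .F) .F) (.N .I .F .F)), 4360884, [2, 1, 0, 0], 934, 311, 313⟩,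
  ⟨(.N .O .I (.N .I .F .F)), 2436315, [2], 1054, 0, 0⟩,
  ⟨(.N .O (.N (.N .I .F .F) (.N .O .F .F) .F) (.N .I .F .F)), 4109507, [1], 888, 315, 0⟩,
  ⟨(.N .O (.N (.N .I .F .F) (.N (.N .I .F .F) .F .F) .F) (.N .I .F .F)), 4701388, [1, 1, 0], 1054, 314, 316⟩,
  ⟨(.N .O (.N (.N .O .F .F) (.N (.N .I .F .F) .F .F) .F) (.N .I .F .F)), 4258973, [1], 1127, 315, 0⟩,
  ⟨(.N .O (.N (.N (.N .I .F .F) .F .F) (.N (.N .I .F .F) .F .F) .F) (.N .I .F .F)), 4994133, [1, 0, 0], 1054, 317, 318⟩,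
  ⟨(.N .O (.N (.N (.N .I .F .F) .F .F) (.N (.N .O .F .F) .F .F) .F) (.N .I .F .F)), 4764501, [1], 1177, 315, 0⟩,
  ⟨(.N .O (.N (.N (.N .I .F .F) .F .F) .F .F) (.N .I .F .F)), 5153406, [1, 1, 0, 0], 934, 319, 320⟩,
  ⟨(.N .O (.N (.N (.N .I .F .F) .F .F) .F .F) .I), 3794662, [1], 968, 0, 0⟩,
  ⟨(.N .O (.N (.N (.N .I .F .F) .F .F) .F .F) (.N .O .F .F)), 3384981, [2], 965, 322, 0⟩,
  ⟨(.N .O (.N (.N (.N .I .F .F) .F .F) .F .F) (.N (.N .O .F .F) .F .F)), 4818390, [2, 0], 965, 321, 323⟩,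
  ⟨(.N (.N (.N .O .F .F) (.N (.N .I .F .F) .F .F) .F) (.N (.N (.N .I .F .F) .F .F) .F .F) (.N (.N .O .F .F) .F .F)), 8211525, [0], 1127, 299, 324⟩,
  ⟨(.N (.N (.N .O .F .F) (.N (.N .O .F .F) .F .F) .F) .O .I), 3060863, [0], 1091, 0, 0⟩,
  ⟨(.N (.N (.N .O .F .F) (.N (.N .O .F .F) .F .F) .F) (.N (.N (.N .I .F .F) .F .F) .F .F) .I), 5133791, [1], 968, 0, 326⟩,
  ⟨(.N .I (.N (.N (.N .I .F .F) .F .F) .F .F) .O), 3794662, [1], 968, 0, 0⟩,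
  ⟨(.N (.N (.N .O .F .F) (.N (.N .O .F .F) .F .F) .F) (.N (.N (.N .I .F .F) .F .F) .F .F) .O), 4246696, [0], 1091, 328, 0⟩,
  ⟨(.N (.N (.N .O .F .F) (.N (.N .O .F .F) .F .F) .F) (.N (.N (.N .I .F .F) .F .F) .F .F) (.N (.N .O .F .F) (.N (.N .I .F .F) .F .F) .F)), 7827889, [2], 1127, 327, 329⟩,
  ⟨(.N .I (.N (.N (.N .I .F .F) .F .F) .F .F) (.N (.N .O .F .F) (.N (.N .O .F .F) .F .F) .F)), 5133791, [1], 968, 0, 294⟩,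
  ⟨(.N .O (.N (.N (.N .I .F .F) .F .F) .F .F) (.N (.N .O .F .F) (.N (.N .O .F .F) .F .F) .F)), 4246696, [2], 1091, 322, 0⟩,
  ⟨(.N (.N (.N .O .F .F) (.N .I .F .F) .F) (.N (.N (.N .I .F .F) .F .F) .F .F) (.N (.N .O .F .F) (.N (.N .O .F .F) .F .F) .F)), 7581597, [0], 131, 331, 332⟩,
  ⟨(.N (.N (.N .O .F .F) (.N .O .F .F) .F) .O .I), 2579572, [0], 929, 0, 0⟩,
  ⟨(.N (.N (.N .O .F .F) (.N .O .F .F) .F) (.N (.N (.N .I .F .F) .F .F) .F .F) .I), 4923226, [1], 968, 0, 334⟩,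
  ⟨(.N (.N (.N .O .F .F) (.N .O .F .F) .F) (.N (.N (.N .I .F .F) .F .F) .F .F) .O), 3528238, [0], 929, 328, 0⟩,
  ⟨(.N (.N (.N .O .F .F) (.N .O .F .F) .F) (.N (.N (.N .I .F .F) .F .F) .F .F) (.N (.N .O .F .F) (.N .I .F .F) .F)), 7117085, [2], 131, 335, 336⟩,
  ⟨(.N .I (.N (.N (.N .I .F .F) .F .F) .F .F) (.N (.N .O .F .F) (.N .O .F .F) .F)), 4923226, [1], 968, 0, 99⟩,
  ⟨(.N .O (.N (.N (.N .I .F .F) .F .F) .F .F) (.N (.N .O .F .F) (.N .O .F .F) .F)), 3528238, [2], 929, 322, 0⟩,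
  ⟨(.N (.N .I (.N .O .F .F) .F) (.N (.N (.N .I .F .F) .F .F) .F .F) (.N (.N .O .F .F) (.N .O .F .F) .F)), 6548897, [0], 907, 338, 339⟩,
  ⟨(.N (.N .O (.N .O .F .F) .F) (.N (.N (.N .I .F .F) .F .F) .F .F) .I), 4409433, [1], 968, 0, 116⟩,
  ⟨(.N (.N .O (.N .O .F .F) .F) (.N (.N (.N .I .F .F) .F .F) .F .F) .O), 1879522, [0], 908, 328, 0⟩,
  ⟨(.N (.N .O (.N .O .F .F) .F) (.N (.N (.N .I .F .F) .F .F) .F .F) (.N (.N .O .F .F) (.N .O .F .F) .F)), 5091574, [2], 929, 341, 342⟩,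
  ⟨(.N (.N (.N .O (.N .I .F .F) .F) (.N .O .F .F) .F) (.N (.N (.N .I .F .F) .F .F) .F .F) (.N (.N .O .F .F) (.N .O .F .F) .F)), 6512384, [0, 0], 52, 340, 343⟩,
  ⟨(.N (.N (.N .O (.N .O .F .F) .F) (.N .O .F .F) .F) .O .I), 2060679, [0], 1056, 0, 0⟩,
  ⟨(.N (.N (.N .O (.N .O .F .F) .F) (.N .O .F .F) .F) (.N (.N (.N .I .F .F) .F .F) .F .F) .I), 4696210, [1], 968, 0, 345⟩,
  ⟨(.N (.N (.N .O (.N .O .F .F) .F) (.N .O .F .F) .F) (.N (.N (.N .I .F .F) .F .F) .F .F) .O), 2772179, [0], 1056, 328, 0⟩,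
  ⟨(.N (.N (.N .O (.N .O .F .F) .F) (.N .O .F .F) .F) (.N (.N (.N .I .F .F) .F .F) .F .F) (.N .I (.N .O .F .F) .F)), 6123489, [2], 907, 346, 347⟩,
  ⟨(.N .I (.N (.N (.N .I .F .F) .F .F) .F .F) (.N .O (.N .O .F .F) .F)), 4409433, [1], 968, 0, 107⟩,
  ⟨(.N .O (.N (.N (.N .I .F .F) .F .F) .F .F) (.N .O (.N .O .F .F) .F)), 1879522, [2], 908, 322, 0⟩,
  ⟨(.N (.N (.N .O (.N .O .F .F) .F) .I .F) (.N (.N (.N .I .F .F) .F .F) .F .F) (.N .O (.N .O .F .F) .F)), 5244028, [0], 1055, 349, 350⟩,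
  ⟨(.N (.N (.N .O (.N .O .F .F) .F) .O .F) .O .I), 778694, [0], 967, 0, 0⟩,
  ⟨(.N (.N (.N .O (.N .O .F .F) .F) .O .F) (.N (.N (.N .I .F .F) .F .F) .F .F) .I), 4135341, [1], 968, 0, 352⟩,
  ⟨(.N (.N (.N .O (.N .O .F .F) .F) .O .F) (.N (.N (.N .I .F .F) .F .F) .F .F) .O), 1015861, [0], 967, 328, 0⟩,
  ⟨(.N (.N (.N .O (.N .O .F .F) .F) .O .F) (.N (.N (.N .I .F .F) .F .F) .F .F) (.N .O (.N .O .F .F) .F)), 2810986, [2], 908, 353, 354⟩,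
  ⟨(.N (.N (.N .O (.N .O .F .F) .F) (.N .O .F .F) .F) (.N (.N (.N .I .F .F) .F .F) .F .F) (.N .O (.N .O .F .F) .F)), 4410549, [0, 1], 965, 351, 355⟩,
  ⟨(.N (.N (.N .O (.N .O .F .F) .F) (.N .O .F .F) .F) (.N (.N (.N .I .F .F) .F .F) .F .F) (.N (.N .O .F .F) (.N .O .F .F) .F)), 5830087, [2, 0], 965, 348, 356⟩,
  ⟨(.N (.N (.N .O .F .F) (.N .O .F .F) .F) (.N (.N (.N .I .F .F) .F .F) .F .F) (.N (.N .O .F .F) (.N .O .F .F) .F)), 6445326, [0, 0, 1, 0], 934, 344, 357⟩,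
  ⟨(.N (.N (.N .O .F .F) (.N .O .F .F) .F) (.N (.N (.N .I .F .F) .F .F) .F .F) (.N (.N .O .F .F) (.N (.N .O .F .F) .F .F) .F)), 7016617, [2, 1, 0], 965, 337, 358⟩,
  ⟨(.N (.N (.N .O .F .F) (.N (.N .O .F .F) .F .F) .F) (.N (.N (.N .I .F .F) .F .F) .F .F) (.N (.N .O .F .F) (.N (.N .O .F .F) .F .F) .F)), 7561213, [0, 1, 0], 965, 333, 359⟩,
  ⟨(.N (.N (.N .O .F .F) (.N (.N .O .F .F) .F .F) .F) (.N (.N (.N .I .F .F) .F .F) .F .F) (.N (.N .O .F .F) .F .F)), 7968643, [2, 1, 0, 0], 934, 330, 360⟩,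
  ⟨(.N (.N (.N .O .F .F) .F .F) (.N (.N (.N .I .F .F) .F .F) .F .F) (.N (.N .O .F .F) .F .F)), 8364177, [0, 1, 0, 0], 934, 325, 361⟩,
  ⟨(.N (.N (.N .O .F .F) .F .F) (.N (.N (.N .I .F .F) .F .F) .F .F) .F), 9076587, [2, 0, 0], 934, 270, 362⟩,
  ⟨(.N (.N (.N (.N .I .F .F) .F .F) .F .F) (.N (.N (.N .I .F .F) .F .F) .F .F) .F), 9443117, [0, 0, 0], 1054, 227, 363⟩,
  ⟨(.N .I (.N (.N (.N .O .F .F) .F .F) .F .F) .O), 3794662, [1], 966, 0, 0⟩,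
  ⟨(.N .I (.N (.N (.N .O .F .F) .F .F) .F .F) (.N (.N .I (.N .I .F .F) .F) .I .F)), 1015861, [2], 1139, 0, 365⟩,
  ⟨(.N .O (.N (.N (.N .O .F .F) .F .F) .F .F) (.N (.N .I (.N .I .F .F) .F) .I .F)), 4135341, [1], 966, 27, 0⟩,
  ⟨(.N (.N .I (.N .I .F .F) .F) (.N (.N (.N .O .F .F) .F .F) .F .F) (.N (.N .I (.N .I .F .F) .F) .I .F)), 2810986, [0], 26, 366, 367⟩,
  ⟨(.N .O (.N (.N (.N .O .F .F) .F .F) .F .F) .I), 3794662, [1], 966, 0, 0⟩,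
  ⟨(.N (.N .I (.N .I .F .F) .F) (.N (.N (.N .O .F .F) .F .F) .F .F) .I), 1879522, [0], 26, 0, 369⟩,
  ⟨(.N (.N .I (.N .I .F .F) .F) (.N (.N (.N .O .F .F) .F .F) .F .F) .O), 4409433, [1], 966, 149, 0⟩,
  ⟨(.N (.N .I (.N .I .F .F) .F) (.N (.N (.N .O .F .F) .F .F) .F .F) (.N (.N .I (.N .I .F .F) .F) .O .F)), 5244028, [2], 1140, 370, 371⟩,
  ⟨(.N (.N .I (.N .I .F .F) .F) (.N (.N (.N .O .F .F) .F .F) .F .F) (.N (.N .I (.N .I .F .F) .F) (.N .I .F .F) .F)), 4410549, [2, 1], 1054, 368, 372⟩,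
  ⟨(.N .I (.N (.N (.N .O .F .F) .F .F) .F .F) (.N (.N .I (.N .I .F .F) .F) (.N .I .F .F) .F)), 2772179, [2], 1141, 0, 365⟩,
  ⟨(.N .O (.N (.N (.N .O .F .F) .F .F) .F .F) (.N (.N .I (.N .I .F .F) .F) (.N .I .F .F) .F)), 4696210, [1], 966, 32, 0⟩,
  ⟨(.N (.N .I (.N .O .F .F) .F) (.N (.N (.N .O .F .F) .F .F) .F .F) (.N (.N .I (.N .I .F .F) .F) (.N .I .F .F) .F)), 5642481, [0], 907, 374, 375⟩,
  ⟨(.N (.N .I (.N (.N .I .F .F) .F .F) .F) (.N (.N (.N .O .F .F) .F .F) .F .F) (.N (.N .I (.N .I .F .F) .F) (.N .I .F .F) .F)), 5121880, [0, 1, 0], 1054, 373, 376⟩,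
  ⟨(.N .I (.N (.N (.N .O .F .F) .F .F) .F .F) (.N .I (.N .I .F .F) .F)), 1879522, [2], 26, 0, 365⟩,
  ⟨(.N .O (.N (.N (.N .O .F .F) .F .F) .F .F) (.N .I (.N .I .F .F) .F)), 4409433, [1], 966, 35, 0⟩,
  ⟨(.N (.N .I (.N (.N .I .F .F) .F .F) .F) (.N (.N (.N .O .F .F) .F .F) .F .F) (.N .I (.N .I .F .F) .F)), 4348317, [0], 1025, 378, 379⟩,
  ⟨(.N (.N .I (.N (.N .I .F .F) .F .F) .F) (.N (.N (.N .O .F .F) .F .F) .F .F) .I), 2705934, [0], 1025, 0, 369⟩,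
  ⟨(.N (.N .I (.N (.N .I .F .F) .F .F) .F) .I .O), 1994434, [0], 1025, 0, 0⟩,
  ⟨(.N (.N .I (.N (.N .I .F .F) .F .F) .F) (.N (.N (.N .O .F .F) .F .F) .F .F) .O), 4667228, [1], 966, 382, 0⟩,
  ⟨(.N (.N .I (.N (.N .I .F .F) .F .F) .F) (.N (.N (.N .O .F .F) .F .F) .F .F) (.N .O (.N .I .F .F) .F)), 6080534, [2], 52, 381, 383⟩,
  ⟨(.N (.N .I (.N (.N .I .F .F) .F .F) .F) (.N (.N (.N .O .F .F) .F .F) .F .F) (.N (.N .I (.N .O .F .F) .F) (.N .I .F .F) .F)), 5872211, [2, 0], 907, 380, 384⟩,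
  ⟨(.N (.N .I (.N (.N .I .F .F) .F .F) .F) (.N (.N (.N .O .F .F) .F .F) .F .F) (.N (.N .I .F .F) (.N .I .F .F) .F)), 5771136, [2, 0, 1, 0], 934, 377, 385⟩,
  ⟨(.N .I (.N (.N (.N .O .F .F) .F .F) .F .F) (.N (.N .I .F .F) (.N .I .F .F) .F)), 3528238, [2], 54, 0, 365⟩,
  ⟨(.N .O (.N (.N (.N .O .F .F) .F .F) .F .F) (.N (.N .I .F .F) (.N .I .F .F) .F)), 4923226, [1], 966, 41, 0⟩,
  ⟨(.N (.N .I (.N (.N .O .F .F) .F .F) .F) (.N (.N (.N .O .F .F) .F .F) .F .F) (.N (.N .I .F .F) (.N .I .F .F) .F)), 6300400, [0], 1036, 387, 388⟩,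
  ⟨(.N (.N .I .F .F) (.N (.N (.N .O .F .F) .F .F) .F .F) (.N (.N .I .F .F) (.N .I .F .F) .F)), 6309859, [0, 1, 0, 0], 934, 386, 389⟩,
  ⟨(.N (.N .I .F .F) (.N (.N (.N .O .F .F) .F .F) .F .F) .I), 3384981, [0], 1054, 0, 369⟩,
  ⟨(.N (.N .I .F .F) .I .O), 2436315, [0], 1054, 0, 0⟩,
  ⟨(.N (.N .I .F .F) (.N (.N (.N .O .F .F) .F .F) .F .F) .O), 4860551, [1], 966, 392, 0⟩,
  ⟨(.N (.N .I .F .F) (.N (.N (.N .O .F .F) .F .F) .F .F) (.N (.N .I .F .F) (.N .O .F .F) .F)), 7014119, [2], 888, 391, 393⟩,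
  ⟨(.N (.N .I .F .F) (.N (.N (.N .O .F .F) .F .F) .F .F) (.N (.N .I .F .F) (.N (.N .I .F .F) .F .F) .F)), 6889275, [2, 1, 0], 1054, 390, 394⟩,
  ⟨(.N (.N .I .F .F) (.N (.N (.N .O .F .F) .F .F) .F .F) (.N (.N .I .F .F) (.N (.N .O .F .F) .F .F) .F)), 7223631, [2], 1013, 391, 393⟩,
  ⟨(.N (.N .I .F .F) (.N (.N (.N .O .F .F) .F .F) .F .F) (.N (.N .I .F .F) .F .F)), 7330545, [2, 1, 0, 0], 934, 395, 396⟩,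
  ⟨(.N (.N .O .F .F) (.N (.N .I (.N .I .F .F) .F) .I .F) .I), 930964, [1], 1139, 0, 59⟩,
  ⟨(.N (.N .O .F .F) (.N (.N .I (.N .I .F .F) .F) .I .F) .O), 2630989, [0], 965, 230, 0⟩,
  ⟨(.N (.N .O .F .F) (.N (.N .I (.N .I .F .F) .F) .I .F) (.N .I (.N .I .F .F) .F)), 2548657, [2], 26, 398, 399⟩,
  ⟨(.N (.N .O .F .F) (.N (.N .I (.N .I .F .F) .F) .O .F) (.N .I (.N .I .F .F) .F)), 4257469, [1], 1140, 69, 70⟩,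
  ⟨(.N (.N .O .F .F) (.N (.N .I (.N .I .F .F) .F) (.N .I .F .F) .F) (.N .I (.N .I .F .F) .F)), 3967161, [1, 1], 1054, 400, 401⟩,
  ⟨(.N (.N .O .F .F) (.N (.N .I (.N .I .F .F) .F) (.N .I .F .F) .F) .I), 2517488, [1], 1141, 0, 59⟩,
  ⟨(.N (.N .O .F .F) (.N (.N .I (.N .I .F .F) .F) (.N .I .F .F) .F) .O), 2951485, [0], 965, 239, 0⟩,
  ⟨(.N (.N .O .F .F) (.N (.N .I (.N .I .F .F) .F) (.N .I .F .F) .F) (.N .O (.N .I .F .F) .F)), 4937526, [2], 52, 403, 404⟩,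
  ⟨(.N (.N .O .F .F) (.N (.N .I (.N .I .F .F) .F) (.N .I .F .F) .F) (.N (.N .I .F .F) (.N .I .F .F) .F)), 5201056, [2, 0], 1054, 402, 405⟩,
  ⟨(.N (.N .O .F .F) (.N .I (.N .I .F .F) .F) (.N (.N .I .F .F) (.N .I .F .F) .F)), 4558773, [2], 54, 60, 62⟩,
  ⟨(.N (.N .O .F .F) (.N .O (.N .I .F .F) .F) (.N (.N .I .F .F) (.N .I .F .F) .F)), 5270290, [1], 52, 78, 80⟩,
  ⟨(.N (.N .O .F .F) (.N (.N .I (.N .O .F .F) .F) (.N .I .F .F) .F) (.N (.N .I .F .F) (.N .I .F .F) .F)), 5699904, [1, 0], 907, 407, 408⟩,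
  ⟨(.N (.N .O .F .F) (.N (.N .I .F .F) (.N .I .F .F) .F) (.N (.N .I .F .F) (.N .I .F .F) .F)), 5724570, [1, 0, 1, 0], 934, 406, 409⟩,
  ⟨(.N (.N .O .F .F) (.N (.N .I .F .F) (.N .I .F .F) .F) .I), 3188651, [1], 54, 0, 59⟩,
  ⟨(.N (.N .O .F .F) (.N (.N .I .F .F) (.N .I .F .F) .F) .O), 3081208, [0], 965, 252, 0⟩,
  ⟨(.N (.N .O .F .F) (.N (.N .I .F .F) (.N .I .F .F) .F) (.N (.N .I .F .F) (.N .O .F .F) .F)), 6026282, [2], 888, 411, 412⟩,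
  ⟨(.N (.N .O .F .F) (.N (.N .I .F .F) (.N .I .F .F) .F) (.N (.N .I .F .F) (.N (.N .I .F .F) .F .F) .F)), 6203348, [2, 1, 0], 1054, 410, 413⟩,
  ⟨(.N (.N .O .F .F) .I (.N (.N .I .F .F) (.N (.N .I .F .F) .F .F) .F)), 3822212, [2], 969, 0, 55⟩,
  ⟨(.N (.N .O .F .F) .O (.N (.N .I .F .F) (.N (.N .I .F .F) .F .F) .F)), 3201531, [0], 965, 257, 0⟩,
  ⟨(.N (.N .O .F .F) (.N (.N .I .F .F) (.N .O .F .F) .F) (.N (.N .I .F .F) (.N (.N .I .F .F) .F .F) .F)), 6403224, [1], 888, 415, 416⟩,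
  ⟨(.N (.N .O .F .F) (.N (.N .I .F .F) (.N (.N .I .F .F) .F .F) .F) (.N (.N .I .F .F) (.N (.N .I .F .F) .F .F) .F)), 6656667, [1, 1, 0], 1054, 414, 417⟩,
  ⟨(.N (.N .O .F .F) (.N (.N .I .F .F) (.N (.N .I .F .F) .F .F) .F) .I), 3822212, [1], 969, 0, 59⟩,
  ⟨(.N .I (.N (.N .I .F .F) (.N (.N .I .F .F) .F .F) .F) .O), 3060863, [1], 969, 0, 0⟩,
  ⟨(.N (.N .O .F .F) (.N (.N .I .F .F) (.N (.N .I .F .F) .F .F) .F) .O), 3201531, [0], 965, 420, 0⟩,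
  ⟨(.N (.N .O .F .F) (.N (.N .I .F .F) (.N (.N .I .F .F) .F .F) .F) (.N (.N .I .F .F) (.N (.N .O .F .F) .F .F) .F)), 6743752, [2], 1013, 419, 421⟩,
  ⟨(.N (.N .O .F .F) (.N (.N .I .F .F) (.N (.N .I .F .F) .F .F) .F) (.N (.N .I .F .F) .F .F)), 6974301, [2, 1, 0, 0], 934, 418, 422⟩,
  ⟨(.N (.N .O .F .F) .I (.N (.N .I .F .F) .F .F)), 4312489, [2], 1024, 0, 55⟩,
  ⟨(.N (.N .O .F .F) .O (.N (.N .I .F .F) .F .F)), 3286033, [0], 965, 267, 0⟩,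
  ⟨(.N (.N .O .F .F) (.N (.N .I .F .F) (.N (.N .O .F .F) .F .F) .F) (.N (.N .I .F .F) .F .F)), 7056502, [1], 1013, 424, 425⟩,
  ⟨(.N (.N .O .F .F) (.N (.N .I .F .F) .F .F) (.N (.N .I .F .F) .F .F)), 7289493, [1, 1, 0, 0], 934, 423, 426⟩,
  ⟨(.N (.N .O .F .F) (.N (.N .O .F .F) (.N (.N .I .F .F) .F .F) .F) (.N (.N .I .F .F) .F .F)), 6928195, [1], 1127, 424, 425⟩,
  ⟨(.N (.N .O .F .F) (.N (.N .O .F .F) (.N .I .F .F) .F) (.N (.N .I .F .F) .F .F)), 6690614, [1], 131, 424, 425⟩,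
  ⟨(.N .I (.N (.N .O .F .F) (.N .O .F .F) .F) (.N (.N .I .F .F) .F .F)), 4366210, [2], 1024, 0, 274⟩,
  ⟨(.N .O (.N (.N .O .F .F) (.N .O .F .F) .F) (.N (.N .I .F .F) .F .F)), 3429290, [1], 929, 187, 0⟩,
  ⟨(.N (.N .O (.N (.N .I .F .F) .F .F) .F) (.N (.N .O .F .F) (.N .O .F .F) .F) (.N (.N .I .F .F) .F .F)), 6058306, [0], 962, 430, 431⟩,
  ⟨(.N (.N .O (.N (.N .O .F .F) .F .F) .F) .I .O), 1994434, [0], 963, 0, 0⟩,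
  ⟨(.N (.N .O (.N (.N .O .F .F) .F .F) .F) .I (.N (.N .I .F .F) .F .F)), 4146783, [2], 1024, 0, 433⟩,
  ⟨(.N (.N .O (.N (.N .O .F .F) .F .F) .F) .O (.N (.N .I .F .F) .F .F)), 2631723, [0], 963, 267, 0⟩,
  ⟨(.N (.N .O (.N (.N .O .F .F) .F .F) .F) (.N .I (.N .O .F .F) .F) (.N (.N .I .F .F) .F .F)), 5727426, [1], 907, 434, 435⟩,
  ⟨(.N .I (.N .O (.N .O .F .F) .F) (.N (.N .I .F .F) .F .F)), 3925816, [2], 1024, 0, 278⟩,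
  ⟨(.N .O (.N .O (.N .O .F .F) .F) (.N (.N .I .F .F) .F .F)), 1830048, [1], 908, 187, 0⟩,
  ⟨(.N (.N .O (.N (.N .O .F .F) .F .F) .F) (.N .O (.N .O .F .F) .F) (.N (.N .I .F .F) .F .F)), 4217440, [0], 963, 437, 438⟩,
  ⟨(.N (.N .O (.N (.N .O .F .F) .F .F) .F) (.N (.N .O (.N .I .F .F) .F) (.N .O .F .F) .F) (.N (.N .I .F .F) .F .F)), 5657998, [1, 0], 52, 436, 439⟩,
  ⟨(.N .I (.N (.N .O (.N .O .F .F) .F) (.N .O .F .F) .F) (.N (.N .I .F .F) .F .F)), 4171625, [2], 1024, 0, 281⟩,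
  ⟨(.N .O (.N (.N .O (.N .O .F .F) .F) (.N .O .F .F) .F) (.N (.N .I .F .F) .F .F)), 2697967, [1], 1056, 187, 0⟩,
  ⟨(.N (.N .O (.N .I .F .F) .F) (.N (.N .O (.N .O .F .F) .F) (.N .O .F .F) .F) (.N (.N .I .F .F) .F .F)), 5399379, [0], 52, 441, 442⟩,
  ⟨(.N (.N .O (.N .O .F .F) .F) .I .O), 1405188, [0], 908, 0, 0⟩,
  ⟨(.N (.N .O (.N .O .F .F) .F) .I (.N (.N .I .F .F) .F .F)), 3925816, [2], 1024, 0, 444⟩,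
  ⟨(.N (.N .O (.N .O .F .F) .F) .O (.N (.N .I .F .F) .F .F)), 1830048, [0], 908, 267, 0⟩,
  ⟨(.N (.N .O (.N .O .F .F) .F) (.N (.N .O (.N .O .F .F) .F) .I .F) (.N (.N .I .F .F) .F .F)), 4950349, [1], 1055, 445, 446⟩,
  ⟨(.N .I (.N (.N .O (.N .O .F .F) .F) .O .F) (.N (.N .I .F .F) .F .F)), 3690880, [2], 1024, 0, 284⟩,
  ⟨(.N .O (.N (.N .O (.N .O .F .F) .F) .O .F) (.N (.N .I .F .F) .F .F)), 991124, [1], 967, 187, 0⟩,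
  ⟨(.N (.N .O (.N .O .F .F) .F) (.N (.N .O (.N .O .F .F) .F) .O .F) (.N (.N .I .F .F) .F .F)), 2733783, [0], 908, 448, 449⟩,
  ⟨(.N (.N .O (.N .O .F .F) .F) (.N (.N .O (.N .O .F .F) .F) (.N .O .F .F) .F) (.N (.N .I .F .F) .F .F)), 4279227, [1, 1], 965, 447, 450⟩,
  ⟨(.N (.N .O (.N (.N .O .F .F) .F .F) .F) (.N (.N .O (.N .O .F .F) .F) (.N .O .F .F) .F) (.N (.N .I .F .F) .F .F)), 4962613, [0, 1, 0], 965, 443, 451⟩,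
  ⟨(.N (.N .O (.N (.N .O .F .F) .F .F) .F) (.N (.N .O .F .F) (.N .O .F .F) .F) (.N (.N .I .F .F) .F .F)), 5584396, [1, 0, 1, 0], 934, 440, 452⟩,
  ⟨(.N (.N .O .F .F) (.N (.N .O .F .F) (.N .O .F .F) .F) (.N (.N .I .F .F) .F .F)), 6095441, [0, 1, 0, 0], 934, 432, 453⟩,
  ⟨(.N (.N .O .F .F) (.N (.N .O .F .F) (.N (.N .O .F .F) .F .F) .F) (.N (.N .I .F .F) .F .F)), 6647585, [1, 1, 0], 965, 429, 454⟩,
  ⟨(.N (.N .O .F .F) (.N (.N .O .F .F) .F .F) (.N (.N .I .F .F) .F .F)), 7061981, [1, 1, 0, 0], 934, 428, 455⟩,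
  ⟨(.N (.N .O .F .F) (.N (.N (.N .O .F .F) .F .F) .F .F) (.N (.N .I .F .F) .F .F)), 7522211, [1, 0, 0], 965, 427, 456⟩,
  ⟨(.N (.N (.N (.N .I .F .F) .F .F) .F .F) (.N (.N (.N .O .F .F) .F .F) .F .F) (.N (.N .I .F .F) .F .F)), 8785374, [0, 0], 1024, 397, 457⟩,
  ⟨(.N .O .I (.N (.N .O .F .F) .F .F)), 3398870, [2], 1138, 0, 0⟩,
  ⟨(.N (.N (.N .I (.N .I .F .F) .F) .I .F) .I (.N (.N .O .F .F) .F .F)), 991124, [0], 1139, 0, 459⟩,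
  ⟨(.N (.N (.N .I (.N .I .F .F) .F) .I .F) .O .I), 778694, [0], 1139, 0, 0⟩,
  ⟨(.N (.N (.N .I (.N .I .F .F) .F) .I .F) .O (.N (.N .O .F .F) .F .F)), 3690880, [2], 1138, 461, 0⟩,
  ⟨(.N (.N (.N .I (.N .I .F .F) .F) .I .F) (.N .I (.N .I .F .F) .F) (.N (.N .O .F .F) .F .F)), 2733783, [1], 26, 460, 462⟩,
  ⟨(.N .I (.N .I (.N .I .F .F) .F) (.N (.N .O .F .F) .F .F)), 1830048, [1], 26, 0, 271⟩,
  ⟨(.N .O (.N .I (.N .I .F .F) .F) (.N (.N .O .F .F) .F .F)), 3925816, [2], 1138, 29, 0⟩,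
  ⟨(.N (.N (.N .I (.N .I .F .F) .F) .O .F) (.N .I (.N .I .F .F) .F) (.N (.N .O .F .F) .F .F)), 4950349, [0], 1140, 464, 465⟩,
  ⟨(.N (.N (.N .I (.N .I .F .F) .F) (.N .I .F .F) .F) (.N .I (.N .I .F .F) .F) (.N (.N .O .F .F) .F .F)), 4279227, [0, 1], 1054, 463, 466⟩,
  ⟨(.N (.N (.N .I (.N .I .F .F) .F) (.N .I .F .F) .F) .I (.N (.N .O .F .F) .F .F)), 2697967, [0], 1141, 0, 459⟩,
  ⟨(.N (.N (.N .I (.N .I .F .F) .F) (.N .I .F .F) .F) .O .I), 2060679, [0], 1141, 0, 0⟩,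
  ⟨(.N (.N (.N .I (.N .I .F .F) .F) (.N .I .F .F) .F) .O (.N (.N .O .F .F) .F .F)), 4171625, [2], 1138, 469, 0⟩,
  ⟨(.N (.N (.N .I (.N .I .F .F) .F) (.N .I .F .F) .F) (.N .I (.N .O .F .F) .F) (.N (.N .O .F .F) .F .F)), 5399379, [1], 907, 468, 470⟩,
  ⟨(.N (.N (.N .I (.N .I .F .F) .F) (.N .I .F .F) .F) (.N .I (.N (.N .I .F .F) .F .F) .F) (.N (.N .O .F .F) .F .F)), 4962613, [1, 1, 0], 1054, 467, 471⟩,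
  ⟨(.N (.N .I (.N .I .F .F) .F) .I (.N (.N .O .F .F) .F .F)), 1830048, [0], 26, 0, 459⟩,
  ⟨(.N (.N .I (.N .I .F .F) .F) .O (.N (.N .O .F .F) .F .F)), 3925816, [2], 1138, 4, 0⟩,
  ⟨(.N (.N .I (.N .I .F .F) .F) (.N .I (.N (.N .I .F .F) .F .F) .F) (.N (.N .O .F .F) .F .F)), 4217440, [1], 1025, 473, 474⟩,
  ⟨(.N .I (.N .I (.N (.N .I .F .F) .F .F) .F) (.N (.N .O .F .F) .F .F)), 2631723, [1], 1025, 0, 271⟩,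
  ⟨(.N .O (.N .I (.N (.N .I .F .F) .F .F) .F) (.N (.N .O .F .F) .F .F)), 4146783, [2], 1138, 37, 0⟩,
  ⟨(.N (.N .O (.N .I .F .F) .F) (.N .I (.N (.N .I .F .F) .F .F) .F) (.N (.N .O .F .F) .F .F)), 5727426, [0], 52, 476, 477⟩,
  ⟨(.N (.N (.N .I (.N .O .F .F) .F) (.N .I .F .F) .F) (.N .I (.N (.N .I .F .F) .F .F) .F) (.N (.N .O .F .F) .F .F)), 5657998, [0, 0], 907, 475, 478⟩,
  ⟨(.N (.N (.N .I .F .F) (.N .I .F .F) .F) (.N .I (.N (.N .I .F .F) .F .F) .F) (.N (.N .O .F .F) .F .F)), 5584396, [0, 0, 1, 0], 934, 472, 479⟩,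
  ⟨(.N (.N (.N .I .F .F) (.N .I .F .F) .F) .I (.N (.N .O .F .F) .F .F)), 3429290, [0], 54, 0, 459⟩,
  ⟨(.N (.N (.N .I .F .F) (.N .I .F .F) .F) .O .I), 2579572, [0], 54, 0, 0⟩,
  ⟨(.N (.N (.N .I .F .F) (.N .I .F .F) .F) .O (.N (.N .O .F .F) .F .F)), 4366210, [2], 1138, 482, 0⟩,
  ⟨(.N (.N (.N .I .F .F) (.N .I .F .F) .F) (.N .I (.N (.N .O .F .F) .F .F) .F) (.N (.N .O .F .F) .F .F)), 6058306, [1], 1036, 481, 483⟩,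
  ⟨(.N (.N (.N .I .F .F) (.N .I .F .F) .F) (.N .I .F .F) (.N (.N .O .F .F) .F .F)), 6095441, [1, 1, 0, 0], 934, 480, 484⟩,
  ⟨(.N .I (.N .I .F .F) (.N (.N .O .F .F) .F .F)), 3286033, [1], 1054, 0, 271⟩,
  ⟨(.N .O (.N .I .F .F) (.N (.N .O .F .F) .F .F)), 4312489, [2], 1138, 44, 0⟩,
  ⟨(.N (.N (.N .I .F .F) (.N .O .F .F) .F) (.N .I .F .F) (.N (.N .O .F .F) .F .F)), 6690614, [0], 888, 486, 487⟩,
  ⟨(.N (.N (.N .I .F .F) (.N (.N .I .F .F) .F .F) .F) (.N .I .F .F) (.N (.N .O .F .F) .F .F)), 6647585, [0, 1, 0], 1054, 485, 488⟩,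
  ⟨(.N (.N (.N .I .F .F) (.N (.N .O .F .F) .F .F) .F) (.N .I .F .F) (.N (.N .O .F .F) .F .F)), 6928195, [0], 1013, 486, 487⟩,
  ⟨(.N (.N (.N .I .F .F) .F .F) (.N .I .F .F) (.N (.N .O .F .F) .F .F)), 7061981, [0, 1, 0, 0], 934, 489, 490⟩,
  ⟨(.N (.N (.N .O .F .F) (.N (.N .I .F .F) .F .F) .F) (.N .I .F .F) (.N (.N .O .F .F) .F .F)), 7056502, [0], 1127, 486, 487⟩,
  ⟨(.N (.N (.N .O .F .F) (.N (.N .O .F .F) .F .F) .F) (.N .I .F .F) .I), 3201531, [1], 1054, 0, 326⟩,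
  ⟨(.N (.N (.N .O .F .F) (.N (.N .O .F .F) .F .F) .F) (.N .I .F .F) .O), 3822212, [0], 1091, 84, 0⟩,
  ⟨(.N (.N (.N .O .F .F) (.N (.N .O .F .F) .F .F) .F) (.N .I .F .F) (.N (.N .O .F .F) (.N (.N .I .F .F) .F .F) .F)), 6743752, [2], 1127, 493, 494⟩,
  ⟨(.N .I (.N .I .F .F) (.N (.N .O .F .F) (.N (.N .O .F .F) .F .F) .F)), 3201531, [1], 1054, 0, 294⟩,
  ⟨(.N .O (.N .I .F .F) (.N (.N .O .F .F) (.N (.N .O .F .F) .F .F) .F)), 3822212, [2], 1091, 44, 0⟩,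
  ⟨(.N (.N (.N .O .F .F) (.N .I .F .F) .F) (.N .I .F .F) (.N (.N .O .F .F) (.N (.N .O .F .F) .F .F) .F)), 6403224, [0], 131, 496, 497⟩,
  ⟨(.N (.N (.N .O .F .F) (.N .O .F .F) .F) (.N .I .F .F) .I), 3081208, [1], 1054, 0, 334⟩,
  ⟨(.N (.N (.N .O .F .F) (.N .O .F .F) .F) (.N .I .F .F) .O), 3188651, [0], 929, 84, 0⟩,
  ⟨(.N (.N (.N .O .F .F) (.N .O .F .F) .F) (.N .I .F .F) (.N (.N .O .F .F) (.N .I .F .F) .F)), 6026282, [2], 131, 499, 500⟩,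
  ⟨(.N (.N .I (.N .O .F .F) .F) (.N .I .F .F) (.N (.N .O .F .F) (.N .O .F .F) .F)), 5270290, [0], 907, 100, 101⟩,
  ⟨(.N (.N .O (.N .O .F .F) .F) (.N .I .F .F) (.N (.N .O .F .F) (.N .O .F .F) .F)), 4558773, [2], 929, 117, 118⟩,
  ⟨(.N (.N (.N .O (.N .I .F .F) .F) (.N .O .F .F) .F) (.N .I .F .F) (.N (.N .O .F .F) (.N .O .F .F) .F)), 5699904, [0, 0], 52, 502, 503⟩,
  ⟨(.N (.N (.N .O (.N .O .F .F) .F) (.N .O .F .F) .F) (.N .I .F .F) .I), 2951485, [1], 1054, 0, 345⟩,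
  ⟨(.N (.N (.N .O (.N .O .F .F) .F) (.N .O .F .F) .F) (.N .I .F .F) .O), 2517488, [0], 1056, 84, 0⟩,
  ⟨(.N (.N (.N .O (.N .O .F .F) .F) (.N .O .F .F) .F) (.N .I .F .F) (.N .I (.N .O .F .F) .F)), 4937526, [2], 907, 505, 506⟩,
  ⟨(.N (.N (.N .O (.N .O .F .F) .F) .I .F) (.N .I .F .F) (.N .O (.N .O .F .F) .F)), 4257469, [0], 1055, 108, 109⟩,
  ⟨(.N (.N (.N .O (.N .O .F .F) .F) .O .F) (.N .I .F .F) .I), 2630989, [1], 1054, 0, 352⟩,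
  ⟨(.N (.N (.N .O (.N .O .F .F) .F) .O .F) (.N .I .F .F) .O), 930964, [0], 967, 84, 0⟩,
  ⟨(.N (.N (.N .O (.N .O .F .F) .F) .O .F) (.N .I .F .F) (.N .O (.N .O .F .F) .F)), 2548657, [2], 908, 509, 510⟩,
  ⟨(.N (.N (.N .O (.N .O .F .F) .F) (.N .O .F .F) .F) (.N .I .F .F) (.N .O (.N .O .F .F) .F)), 3967161, [0, 1], 965, 508, 511⟩,
  ⟨(.N (.N (.N .O (.N .O .F .F) .F) (.N .O .F .F) .F) (.N .I .F .F) (.N (.N .O .F .F) (.N .O .F .F) .F)), 5201056, [2, 0], 965, 507, 512⟩,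
  ⟨(.N (.N (.N .O .F .F) (.N .O .F .F) .F) (.N .I .F .F) (.N (.N .O .F .F) (.N .O .F .F) .F)), 5724570, [0, 0, 1, 0], 934, 504, 513⟩,
  ⟨(.N (.N (.N .O .F .F) (.N .O .F .F) .F) (.N .I .F .F) (.N (.N .O .F .F) (.N (.N .O .F .F) .F .F) .F)), 6203348, [2, 1, 0], 965, 501, 514⟩,
  ⟨(.N (.N (.N .O .F .F) (.N (.N .O .F .F) .F .F) .F) (.N .I .F .F) (.N (.N .O .F .F) (.N (.N .O .F .F) .F .F) .F)), 6656667, [0, 1, 0], 965, 498, 515⟩,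
  ⟨(.N (.N (.N .O .F .F) (.N (.N .O .F .F) .F .F) .F) (.N .I .F .F) (.N (.N .O .F .F) .F .F)), 6974301, [2, 1, 0, 0], 934, 495, 516⟩,
  ⟨(.N (.N (.N .O .F .F) .F .F) (.N .I .F .F) (.N (.N .O .F .F) .F .F)), 7289493, [0, 1, 0, 0], 934, 492, 517⟩,
  ⟨(.N (.N (.N (.N .I .F .F) .F .F) .F .F) (.N .I .F .F) (.N (.N .O .F .F) .F .F)), 7522211, [0, 0, 0], 1054, 491, 518⟩,
  ⟨(.N (.N (.N (.N .I .F .F) .F .F) .F .F) (.N .O .F .F) .I), 4860551, [0], 968, 0, 133⟩,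
  ⟨(.N (.N (.N (.N .I .F .F) .F .F) .F .F) .I .O), 3794662, [0], 968, 0, 0⟩,
  ⟨(.N (.N (.N (.N .I .F .F) .F .F) .F .F) (.N .O .F .F) .O), 3384981, [1], 965, 521, 0⟩,
  ⟨(.N (.N (.N (.N .I .F .F) .F .F) .F .F) (.N .O .F .F) (.N (.N .O .F .F) (.N (.N .I .F .F) .F .F) .F)), 7223631, [2], 1127, 520, 522⟩,
  ⟨(.N (.N (.N (.N .I .F .F) .F .F) .F .F) (.N .O .F .F) (.N (.N .O .F .F) (.N .I .F .F) .F)), 7014119, [2], 131, 520, 522⟩,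
  ⟨(.N (.N (.N (.N .I .F .F) .F .F) .F .F) .I (.N (.N .O .F .F) (.N .O .F .F) .F)), 4923226, [0], 968, 0, 193⟩,
  ⟨(.N (.N (.N (.N .I .F .F) .F .F) .F .F) .O .I), 3794662, [0], 968, 0, 0⟩,
  ⟨(.N (.N (.N (.N .I .F .F) .F .F) .F .F) .O (.N (.N .O .F .F) (.N .O .F .F) .F)), 3528238, [2], 929, 526, 0⟩,
  ⟨(.N (.N (.N (.N .I .F .F) .F .F) .F .F) (.N .O (.N (.N .I .F .F) .F .F) .F) (.N (.N .O .F .F) (.N .O .F .F) .F)), 6300400, [1], 962, 525, 527⟩,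
  ⟨(.N (.N (.N (.N .I .F .F) .F .F) .F .F) (.N .O (.N (.N .O .F .F) .F .F) .F) .I), 4667228, [0], 968, 0, 198⟩,
  ⟨(.N (.N (.N (.N .I .F .F) .F .F) .F .F) (.N .O (.N (.N .O .F .F) .F .F) .F) .O), 2705934, [1], 963, 521, 0⟩,
  ⟨(.N (.N (.N (.N .I .F .F) .F .F) .F .F) (.N .O (.N (.N .O .F .F) .F .F) .F) (.N .I (.N .O .F .F) .F)), 6080534, [2], 907, 529, 530⟩,
  ⟨(.N (.N (.N (.N .I .F .F) .F .F) .F .F) .I (.N .O (.N .O .F .F) .F)), 4409433, [0], 968, 0, 202⟩,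
  ⟨(.N (.N (.N (.N .I .F .F) .F .F) .F .F) .O (.N .O (.N .O .F .F) .F)), 1879522, [2], 908, 526, 0⟩,
  ⟨(.N (.N (.N (.N .I .F .F) .F .F) .F .F) (.N .O (.N (.N .O .F .F) .F .F) .F) (.N .O (.N .O .F .F) .F)), 4348317, [1], 963, 532, 533⟩,
  ⟨(.N (.N (.N (.N .I .F .F) .F .F) .F .F) (.N .O (.N (.N .O .F .F) .F .F) .F) (.N (.N .O (.N .I .F .F) .F) (.N .O .F .F) .F)), 5872211, [2, 0], 52, 531, 534⟩,
  ⟨(.N (.N (.N (.N .I .F .F) .F .F) .F .F) .I (.N (.N .O (.N .O .F .F) .F) (.N .O .F .F) .F)), 4696210, [0], 968, 0, 207⟩,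
  ⟨(.N (.N (.N (.N .I .F .F) .F .F) .F .F) .O (.N (.N .O (.N .O .F .F) .F) (.N .O .F .F) .F)), 2772179, [2], 1056, 526, 0⟩,
  ⟨(.N (.N (.N (.N .I .F .F) .F .F) .F .F) (.N .O (.N .I .F .F) .F) (.N (.N .O (.N .O .F .F) .F) (.N .O .F .F) .F)), 5642481, [1], 52, 536, 537⟩,
  ⟨(.N (.N (.N (.N .I .F .F) .F .F) .F .F) (.N .O (.N .O .F .F) .F) .I), 4409433, [0], 968, 0, 211⟩,
  ⟨(.N (.N (.N (.N .I .F .F) .F .F) .F .F) (.N .O (.N .O .F .F) .F) .O), 1879522, [1], 908, 521, 0⟩,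
  ⟨(.N (.N (.N (.N .I .F .F) .F .F) .F .F) (.N .O (.N .O .F .F) .F) (.N (.N .O (.N .O .F .F) .F) .I .F)), 5244028, [2], 1055, 539, 540⟩,
  ⟨(.N (.N (.N (.N .I .F .F) .F .F) .F .F) .I (.N (.N .O (.N .O .F .F) .F) .O .F)), 4135341, [0], 968, 0, 215⟩,
  ⟨(.N (.N (.N (.N .I .F .F) .F .F) .F .F) .O (.N (.N .O (.N .O .F .F) .F) .O .F)), 1015861, [2], 967, 526, 0⟩,
  ⟨(.N (.N (.N (.N .I .F .F) .F .F) .F .F) (.N .O (.N .O .F .F) .F) (.N (.N .O (.N .O .F .F) .F) .O .F)), 2810986, [1], 908, 542, 543⟩,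
  ⟨(.N (.N (.N (.N .I .F .F) .F .F) .F .F) (.N .O (.N .O .F .F) .F) (.N (.N .O (.N .O .F .F) .F) (.N .O .F .F) .F)), 4410549, [2, 1], 965, 541, 544⟩,
  ⟨(.N (.N (.N (.N .I .F .F) .F .F) .F .F) (.N .O (.N (.N .O .F .F) .F .F) .F) (.N (.N .O (.N .O .F .F) .F) (.N .O .F .F) .F)), 5121880, [1, 1, 0], 965, 538, 545⟩,
  ⟨(.N (.N (.N (.N .I .F .F) .F .F) .F .F) (.N .O (.N (.N .O .F .F) .F .F) .F) (.N (.N .O .F .F) (.N .O .F .F) .F)), 5771136, [2, 0, 1, 0], 934, 535, 546⟩,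
  ⟨(.N (.N (.N (.N .I .F .F) .F .F) .F .F) (.N .O .F .F) (.N (.N .O .F .F) (.N .O .F .F) .F)), 6309859, [1, 1, 0, 0], 934, 528, 547⟩,
  ⟨(.N (.N (.N (.N .I .F .F) .F .F) .F .F) (.N .O .F .F) (.N (.N .O .F .F) (.N (.N .O .F .F) .F .F) .F)), 6889275, [2, 1, 0], 965, 524, 548⟩,
  ⟨(.N (.N (.N (.N .I .F .F) .F .F) .F .F) (.N .O .F .F) (.N (.N .O .F .F) .F .F)), 7330545, [2, 1, 0, 0], 934, 523, 549⟩,
  ⟨(.N (.N (.N (.N .I .F .F) .F .F) .F .F) (.N (.N (.N .O .F .F) .F .F) .F .F) (.N (.N .O .F .F) .F .F)), 8785374, [1, 0], 1138, 519, 550⟩,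
  ⟨(.N (.N (.N (.N .I .F .F) .F .F) .F .F) (.N (.N (.N .O .F .F) .F .F) .F .F) .F), 9459001, [2, 0, 0], 934, 458, 551⟩,
  ⟨(.N (.N (.N (.N .I .F .F) .F .F) .F .F) .F .F), 9725154, [1, 0, 0, 0], 934, 364, 552⟩,
  ⟨(.N (.N (.N (.N .O .F .F) .F .F) .F .F) .I .O), 3794662, [0], 966, 0, 0⟩,
  ⟨(.N (.N (.N (.N .O .F .F) .F .F) .F .F) .I (.N (.N .I (.N .I .F .F) .F) .I .F)), 1015861, [2], 1139, 0, 554⟩,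
  ⟨(.N (.N (.N (.N .O .F .F) .F .F) .F .F) .O (.N (.N .I (.N .I .F .F) .F) .I .F)), 4135341, [0], 966, 2, 0⟩,
  ⟨(.N (.N (.N (.N .O .F .F) .F .F) .F .F) (.N .I (.N .I .F .F) .F) (.N (.N .I (.N .I .F .F) .F) .I .F)), 2810986, [1], 26, 555, 556⟩,
  ⟨(.N (.N (.N (.N .O .F .F) .F .F) .F .F) .O .I), 3794662, [0], 966, 0, 0⟩,
  ⟨(.N (.N (.N (.N .O .F .F) .F .F) .F .F) (.N .I (.N .I .F .F) .F) .I), 1879522, [1], 26, 0, 558⟩,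
  ⟨(.N (.N (.N (.N .O .F .F) .F .F) .F .F) (.N .I (.N .I .F .F) .F) .O), 4409433, [0], 966, 61, 0⟩,
  ⟨(.N (.N (.N (.N .O .F .F) .F .F) .F .F) (.N .I (.N .I .F .F) .F) (.N (.N .I (.N .I .F .F) .F) .O .F)), 5244028, [2], 1140, 559, 560⟩,
  ⟨(.N (.N (.N (.N .O .F .F) .F .F) .F .F) (.N .I (.N .I .F .F) .F) (.N (.N .I (.N .I .F .F) .F) (.N .I .F .F) .F)), 4410549, [2, 1], 1054, 557, 561⟩,
  ⟨(.N (.N (.N (.N .O .F .F) .F .F) .F .F) .I (.N (.N .I (.N .I .F .F) .F) (.N .I .F .F) .F)), 2772179, [2], 1141, 0, 554⟩,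
  ⟨(.N (.N (.N (.N .O .F .F) .F .F) .F .F) .O (.N (.N .I (.N .I .F .F) .F) (.N .I .F .F) .F)), 4696210, [0], 966, 7, 0⟩,
  ⟨(.N (.N (.N (.N .O .F .F) .F .F) .F .F) (.N .I (.N .O .F .F) .F) (.N (.N .I (.N .I .F .F) .F) (.N .I .F .F) .F)), 5642481, [1], 907, 563, 564⟩,
  ⟨(.N (.N (.N (.N .O .F .F) .F .F) .F .F) (.N .I (.N (.N .I .F .F) .F .F) .F) (.N (.N .I (.N .I .F .F) .F) (.N .I .F .F) .F)), 5121880, [1, 1, 0], 1054, 562, 565⟩,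
  ⟨(.N (.N (.N (.N .O .F .F) .F .F) .F .F) .I (.N .I (.N .I .F .F) .F)), 1879522, [2], 26, 0, 554⟩,
  ⟨(.N (.N (.N (.N .O .F .F) .F .F) .F .F) .O (.N .I (.N .I .F .F) .F)), 4409433, [0], 966, 10, 0⟩,
  ⟨(.N (.N (.N (.N .O .F .F) .F .F) .F .F) (.N .I (.N (.N .I .F .F) .F .F) .F) (.N .I (.N .I .F .F) .F)), 4348317, [1], 1025, 567, 568⟩,
  ⟨(.N (.N (.N (.N .O .F .F) .F .F) .F .F) (.N .I (.N (.N .I .F .F) .F .F) .F) .I), 2705934, [1], 1025, 0, 558⟩,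
  ⟨(.N (.N (.N (.N .O .F .F) .F .F) .F .F) (.N .I (.N (.N .I .F .F) .F .F) .F) .O), 4667228, [0], 966, 73, 0⟩,
  ⟨(.N (.N (.N (.N .O .F .F) .F .F) .F .F) (.N .I (.N (.N .I .F .F) .F .F) .F) (.N .O (.N .I .F .F) .F)), 6080534, [2], 52, 570, 571⟩,
  ⟨(.N (.N (.N (.N .O .F .F) .F .F) .F .F) (.N .I (.N (.N .I .F .F) .F .F) .F) (.N (.N .I (.N .O .F .F) .F) (.N .I .F .F) .F)), 5872211, [2, 0], 907, 569, 572⟩,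
  ⟨(.N (.N (.N (.N .O .F .F) .F .F) .F .F) (.N .I (.N (.N .I .F .F) .F .F) .F) (.N (.N .I .F .F) (.N .I .F .F) .F)), 5771136, [2, 0, 1, 0], 934, 566, 573⟩,
  ⟨(.N (.N (.N (.N .O .F .F) .F .F) .F .F) .I (.N (.N .I .F .F) (.N .I .F .F) .F)), 3528238, [2], 54, 0, 554⟩,
  ⟨(.N (.N (.N (.N .O .F .F) .F .F) .F .F) .O (.N (.N .I .F .F) (.N .I .F .F) .F)), 4923226, [0], 966, 79, 0⟩,
  ⟨(.N (.N (.N (.N .O .F .F) .F .F) .F .F) (.N .I (.N (.N .O .F .F) .F .F) .F) (.N (.N .I .F .F) (.N .I .F .F) .F)), 6300400, [1], 1036, 575, 576⟩,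
  ⟨(.N (.N (.N (.N .O .F .F) .F .F) .F .F) (.N .I .F .F) (.N (.N .I .F .F) (.N .I .F .F) .F)), 6309859, [1, 1, 0, 0], 934, 574, 577⟩,
  ⟨(.N (.N (.N (.N .O .F .F) .F .F) .F .F) (.N .I .F .F) .I), 3384981, [1], 1054, 0, 558⟩,
  ⟨(.N (.N (.N (.N .O .F .F) .F .F) .F .F) (.N .I .F .F) .O), 4860551, [0], 966, 84, 0⟩,
  ⟨(.N (.N (.N (.N .O .F .F) .F .F) .F .F) (.N .I .F .F) (.N (.N .I .F .F) (.N .O .F .F) .F)), 7014119, [2], 888, 579, 580⟩,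
  ⟨(.N (.N (.N (.N .O .F .F) .F .F) .F .F) (.N .I .F .F) (.N (.N .I .F .F) (.N (.N .I .F .F) .F .F) .F)), 6889275, [2, 1, 0], 1054, 578, 581⟩,
  ⟨(.N (.N (.N (.N .O .F .F) .F .F) .F .F) (.N .I .F .F) (.N (.N .I .F .F) (.N (.N .O .F .F) .F .F) .F)), 7223631, [2], 1013, 579, 580⟩,
  ⟨(.N (.N (.N (.N .O .F .F) .F .F) .F .F) (.N .I .F .F) (.N (.N .I .F .F) .F .F)), 7330545, [2, 1, 0, 0], 934, 582, 583⟩,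
  ⟨(.N (.N (.N .O .F .F) (.N (.N .I .F .F) .F .F) .F) (.N .O .F .F) (.N (.N .I .F .F) .F .F)), 6928195, [0], 1127, 186, 188⟩,
  ⟨(.N (.N (.N .O .F .F) (.N .I .F .F) .F) (.N .O .F .F) (.N (.N .I .F .F) .F .F)), 6690614, [0], 131, 186, 188⟩,
  ⟨(.N (.N (.N .O .F .F) (.N .O .F .F) .F) .I .O), 2579572, [0], 929, 0, 0⟩,
  ⟨(.N (.N (.N .O .F .F) (.N .O .F .F) .F) .I (.N (.N .I .F .F) .F .F)), 4366210, [2], 1024, 0, 587⟩,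
  ⟨(.N (.N (.N .O .F .F) (.N .O .F .F) .F) .O (.N (.N .I .F .F) .F .F)), 3429290, [0], 929, 267, 0⟩,
  ⟨(.N (.N (.N .O .F .F) (.N .O .F .F) .F) (.N .O (.N (.N .I .F .F) .F .F) .F) (.N (.N .I .F .F) .F .F)), 6058306, [1], 962, 588, 589⟩,
  ⟨(.N .I (.N .O (.N (.N .O .F .F) .F .F) .F) .O), 1994434, [1], 963, 0, 0⟩,
  ⟨(.N .I (.N .O (.N (.N .O .F .F) .F .F) .F) (.N (.N .I .F .F) .F .F)), 4146783, [2], 1024, 0, 591⟩,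
  ⟨(.N .O (.N .O (.N (.N .O .F .F) .F .F) .F) (.N (.N .I .F .F) .F .F)), 2631723, [1], 963, 187, 0⟩,
  ⟨(.N (.N .I (.N .O .F .F) .F) (.N .O (.N (.N .O .F .F) .F .F) .F) (.N (.N .I .F .F) .F .F)), 5727426, [0], 907, 592, 593⟩,
  ⟨(.N (.N .O (.N .O .F .F) .F) (.N .O (.N (.N .O .F .F) .F .F) .F) (.N (.N .I .F .F) .F .F)), 4217440, [1], 963, 445, 446⟩,
  ⟨(.N (.N (.N .O (.N .I .F .F) .F) (.N .O .F .F) .F) (.N .O (.N (.N .O .F .F) .F .F) .F) (.N (.N .I .F .F) .F .F)), 5657998, [0, 0], 52, 594, 595⟩,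
  ⟨(.N (.N (.N .O (.N .O .F .F) .F) (.N .O .F .F) .F) .I .O), 2060679, [0], 1056, 0, 0⟩,
  ⟨(.N (.N (.N .O (.N .O .F .F) .F) (.N .O .F .F) .F) .I (.N (.N .I .F .F) .F .F)), 4171625, [2], 1024, 0, 597⟩,
  ⟨(.N (.N (.N .O (.N .O .F .F) .F) (.N .O .F .F) .F) .O (.N (.N .I .F .F) .F .F)), 2697967, [0], 1056, 267, 0⟩,
  ⟨(.N (.N (.N .O (.N .O .F .F) .F) (.N .O .F .F) .F) (.N .O (.N .I .F .F) .F) (.N (.N .I .F .F) .F .F)), 5399379, [1], 52, 598, 599⟩,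
  ⟨(.N (.N (.N .O (.N .O .F .F) .F) .I .F) (.N .O (.N .O .F .F) .F) (.N (.N .I .F .F) .F .F)), 4950349, [0], 1055, 437, 438⟩,
  ⟨(.N (.N (.N .O (.N .O .F .F) .F) .O .F) .I .O), 778694, [0], 967, 0, 0⟩,
  ⟨(.N (.N (.N .O (.N .O .F .F) .F) .O .F) .I (.N (.N .I .F .F) .F .F)), 3690880, [2], 1024, 0, 602⟩,
  ⟨(.N (.N (.N .O (.N .O .F .F) .F) .O .F) .O (.N (.N .I .F .F) .F .F)), 991124, [0], 967, 267, 0⟩,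
  ⟨(.N (.N (.N .O (.N .O .F .F) .F) .O .F) (.N .O (.N .O .F .F) .F) (.N (.N .I .F .F) .F .F)), 2733783, [1], 908, 603, 604⟩,
  ⟨(.N (.N (.N .O (.N .O .F .F) .F) (.N .O .F .F) .F) (.N .O (.N .O .F .F) .F) (.N (.N .I .F .F) .F .F)), 4279227, [0, 1], 965, 601, 605⟩,
  ⟨(.N (.N (.N .O (.N .O .F .F) .F) (.N .O .F .F) .F) (.N .O (.N (.N .O .F .F) .F .F) .F) (.N (.N .I .F .F) .F .F)), 4962613, [1, 1, 0], 965, 600, 606⟩,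
  ⟨(.N (.N (.N .O .F .F) (.N .O .F .F) .F) (.N .O (.N (.N .O .F .F) .F .F) .F) (.N (.N .I .F .F) .F .F)), 5584396, [0, 0, 1, 0], 934, 596, 607⟩,
  ⟨(.N (.N (.N .O .F .F) (.N .O .F .F) .F) (.N .O .F .F) (.N (.N .I .F .F) .F .F)), 6095441, [1, 1, 0, 0], 934, 590, 608⟩,
  ⟨(.N (.N (.N .O .F .F) (.N (.N .O .F .F) .F .F) .F) (.N .O .F .F) (.N (.N .I .F .F) .F .F)), 6647585, [0, 1, 0], 965, 586, 609⟩,
  ⟨(.N (.N (.N .O .F .F) .F .F) (.N .O .F .F) (.N (.N .I .F .F) .F .F)), 7061981, [0, 1, 0, 0], 934, 585, 610⟩,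
  ⟨(.N (.N (.N (.N .O .F .F) .F .F) .F .F) (.N .O .F .F) (.N (.N .I .F .F) .F .F)), 7522211, [0, 0, 0], 965, 190, 611⟩,
  ⟨(.N (.N (.N (.N .O .F .F) .F .F) .F .F) (.N (.N (.N .I .F .F) .F .F) .F .F) (.N (.N .I .F .F) .F .F)), 8785374, [1, 0], 1024, 584, 612⟩,
  ⟨(.N .I (.N (.N .I (.N .I .F .F) .F) .I .F) (.N (.N .O .F .F) .F .F)), 991124, [1], 1139, 0, 271⟩,
  ⟨(.N .O (.N (.N .I (.N .I .F .F) .F) .I .F) (.N (.N .O .F .F) .F .F)), 3690880, [2], 1138, 300, 0⟩,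
  ⟨(.N (.N .I (.N .I .F .F) .F) (.N (.N .I (.N .I .F .F) .F) .I .F) (.N (.N .O .F .F) .F .F)), 2733783, [0], 26, 614, 615⟩,
  ⟨(.N (.N .I (.N .I .F .F) .F) (.N (.N .I (.N .I .F .F) .F) .O .F) (.N (.N .O .F .F) .F .F)), 4950349, [1], 1140, 473, 474⟩,
  ⟨(.N (.N .I (.N .I .F .F) .F) (.N (.N .I (.N .I .F .F) .F) (.N .I .F .F) .F) (.N (.N .O .F .F) .F .F)), 4279227, [1, 1], 1054, 616, 617⟩,
  ⟨(.N .I (.N (.N .I (.N .I .F .F) .F) (.N .I .F .F) .F) (.N (.N .O .F .F) .F .F)), 2697967, [1], 1141, 0, 271⟩,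
  ⟨(.N .O (.N (.N .I (.N .I .F .F) .F) (.N .I .F .F) .F) (.N (.N .O .F .F) .F .F)), 4171625, [2], 1138, 304, 0⟩,
  ⟨(.N (.N .I (.N .O .F .F) .F) (.N (.N .I (.N .I .F .F) .F) (.N .I .F .F) .F) (.N (.N .O .F .F) .F .F)), 5399379, [0], 907, 619, 620⟩,
  ⟨(.N (.N .I (.N (.N .I .F .F) .F .F) .F) (.N (.N .I (.N .I .F .F) .F) (.N .I .F .F) .F) (.N (.N .O .F .F) .F .F)), 4962613, [0, 1, 0], 1054, 618, 621⟩,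
  ⟨(.N (.N .I (.N (.N .I .F .F) .F .F) .F) (.N .I (.N .I .F .F) .F) (.N (.N .O .F .F) .F .F)), 4217440, [0], 1025, 464, 465⟩,
  ⟨(.N (.N .I (.N (.N .I .F .F) .F .F) .F) .I (.N (.N .O .F .F) .F .F)), 2631723, [0], 1025, 0, 459⟩,
  ⟨(.N (.N .I (.N (.N .I .F .F) .F .F) .F) .O (.N (.N .O .F .F) .F .F)), 4146783, [2], 1138, 12, 0⟩,
  ⟨(.N (.N .I (.N (.N .I .F .F) .F .F) .F) (.N .O (.N .I .F .F) .F) (.N (.N .O .F .F) .F .F)), 5727426, [1], 52, 624, 625⟩,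
  ⟨(.N (.N .I (.N (.N .I .F .F) .F .F) .F) (.N (.N .I (.N .O .F .F) .F) (.N .I .F .F) .F) (.N (.N .O .F .F) .F .F)), 5657998, [1, 0], 907, 623, 626⟩,
  ⟨(.N (.N .I (.N (.N .I .F .F) .F .F) .F) (.N (.N .I .F .F) (.N .I .F .F) .F) (.N (.N .O .F .F) .F .F)), 5584396, [1, 0, 1, 0], 934, 622, 627⟩,
  ⟨(.N .I (.N (.N .I .F .F) (.N .I .F .F) .F) (.N (.N .O .F .F) .F .F)), 3429290, [1], 54, 0, 271⟩,
  ⟨(.N .O (.N (.N .I .F .F) (.N .I .F .F) .F) (.N (.N .O .F .F) .F .F)), 4366210, [2], 1138, 312, 0⟩,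
  ⟨(.N (.N .I (.N (.N .O .F .F) .F .F) .F) (.N (.N .I .F .F) (.N .I .F .F) .F) (.N (.N .O .F .F) .F .F)), 6058306, [0], 1036, 629, 630⟩,
  ⟨(.N (.N .I .F .F) (.N (.N .I .F .F) (.N .I .F .F) .F) (.N (.N .O .F .F) .F .F)), 6095441, [0, 1, 0, 0], 934, 628, 631⟩,
  ⟨(.N (.N .I .F .F) .I (.N (.N .O .F .F) .F .F)), 3286033, [0], 1054, 0, 459⟩,
  ⟨(.N (.N .I .F .F) .O .I), 2436315, [0], 1054, 0, 0⟩,
  ⟨(.N (.N .I .F .F) .O (.N (.N .O .F .F) .F .F)), 4312489, [2], 1138, 634, 0⟩,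
  ⟨(.N (.N .I .F .F) (.N (.N .I .F .F) (.N .O .F .F) .F) (.N (.N .O .F .F) .F .F)), 6690614, [1], 888, 633, 635⟩,
  ⟨(.N (.N .I .F .F) (.N (.N .I .F .F) (.N (.N .I .F .F) .F .F) .F) (.N (.N .O .F .F) .F .F)), 6647585, [1, 1, 0], 1054, 632, 636⟩,
  ⟨(.N (.N .I .F .F) (.N (.N .I .F .F) (.N (.N .O .F .F) .F .F) .F) (.N (.N .O .F .F) .F .F)), 6928195, [1], 1013, 633, 635⟩,
  ⟨(.N (.N .I .F .F) (.N (.N .I .F .F) .F .F) (.N (.N .O .F .F) .F .F)), 7061981, [1, 1, 0, 0], 934, 637, 638⟩,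
  ⟨(.N (.N .I .F .F) (.N (.N .O .F .F) (.N (.N .I .F .F) .F .F) .F) (.N (.N .O .F .F) .F .F)), 7056502, [1], 1127, 633, 635⟩,
  ⟨(.N .O (.N (.N .O .F .F) (.N (.N .O .F .F) .F .F) .F) .I), 3060863, [1], 1091, 0, 0⟩,
  ⟨(.N (.N .I .F .F) (.N (.N .O .F .F) (.N (.N .O .F .F) .F .F) .F) .I), 3201531, [0], 1054, 0, 641⟩,
  ⟨(.N (.N .I .F .F) (.N (.N .O .F .F) (.N (.N .O .F .F) .F .F) .F) .O), 3822212, [1], 1091, 392, 0⟩,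
  ⟨(.N (.N .I .F .F) (.N (.N .O .F .F) (.N (.N .O .F .F) .F .F) .F) (.N (.N .O .F .F) (.N (.N .I .F .F) .F .F) .F)), 6743752, [2], 1127, 642, 643⟩,
  ⟨(.N .O .I (.N (.N .O .F .F) (.N (.N .O .F .F) .F .F) .F)), 3060863, [2], 1091, 0, 0⟩,
  ⟨(.N (.N .I .F .F) .I (.N (.N .O .F .F) (.N (.N .O .F .F) .F .F) .F)), 3201531, [0], 1054, 0, 645⟩,
  ⟨(.N (.N .I .F .F) .O (.N (.N .O .F .F) (.N (.N .O .F .F) .F .F) .F)), 3822212, [2], 1091, 634, 0⟩,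
  ⟨(.N (.N .I .F .F) (.N (.N .O .F .F) (.N .I .F .F) .F) (.N (.N .O .F .F) (.N (.N .O .F .F) .F .F) .F)), 6403224, [1], 131, 646, 647⟩,
  ⟨(.N .O (.N (.N .O .F .F) (.N .O .F .F) .F) .I), 2579572, [1], 929, 0, 0⟩,
  ⟨(.N (.N .I .F .F) (.N (.N .O .F .F) (.N .O .F .F) .F) .I), 3081208, [0], 1054, 0, 649⟩,
  ⟨(.N (.N .I .F .F) (.N (.N .O .F .F) (.N .O .F .F) .F) .O), 3188651, [1], 929, 392, 0⟩,
  ⟨(.N (.N .I .F .F) (.N (.N .O .F .F) (.N .O .F .F) .F) (.N (.N .O .F .F) (.N .I .F .F) .F)), 6026282, [2], 131, 650, 651⟩,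
  ⟨(.N (.N .I .F .F) .I (.N (.N .O .F .F) (.N .O .F .F) .F)), 3081208, [0], 1054, 0, 193⟩,
  ⟨(.N (.N .I .F .F) .O (.N (.N .O .F .F) (.N .O .F .F) .F)), 3188651, [2], 929, 634, 0⟩,
  ⟨(.N (.N .I .F .F) (.N .I (.N .O .F .F) .F) (.N (.N .O .F .F) (.N .O .F .F) .F)), 5270290, [1], 907, 653, 654⟩,
  ⟨(.N (.N .I .F .F) (.N .O (.N .O .F .F) .F) .I), 2787612, [0], 1054, 0, 211⟩,
  ⟨(.N (.N .I .F .F) (.N .O (.N .O .F .F) .F) .O), 1709728, [1], 908, 392, 0⟩,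
  ⟨(.N (.N .I .F .F) (.N .O (.N .O .F .F) .F) (.N (.N .O .F .F) (.N .O .F .F) .F)), 4558773, [2], 929, 656, 657⟩,
  ⟨(.N (.N .I .F .F) (.N (.N .O (.N .I .F .F) .F) (.N .O .F .F) .F) (.N (.N .O .F .F) (.N .O .F .F) .F)), 5699904, [1, 0], 52, 655, 658⟩,
  ⟨(.N .O (.N (.N .O (.N .O .F .F) .F) (.N .O .F .F) .F) .I), 2060679, [1], 1056, 0, 0⟩,
  ⟨(.N (.N .I .F .F) (.N (.N .O (.N .O .F .F) .F) (.N .O .F .F) .F) .I), 2951485, [0], 1054, 0, 660⟩,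
  ⟨(.N (.N .I .F .F) (.N (.N .O (.N .O .F .F) .F) (.N .O .F .F) .F) .O), 2517488, [1], 1056, 392, 0⟩,
  ⟨(.N (.N .I .F .F) (.N (.N .O (.N .O .F .F) .F) (.N .O .F .F) .F) (.N .I (.N .O .F .F) .F)), 4937526, [2], 907, 661, 662⟩,
  ⟨(.N (.N .I .F .F) .I (.N .O (.N .O .F .F) .F)), 2787612, [0], 1054, 0, 202⟩,
  ⟨(.N (.N .I .F .F) .O (.N .O (.N .O .F .F) .F)), 1709728, [2], 908, 634, 0⟩,
  ⟨(.N (.N .I .F .F) (.N (.N .O (.N .O .F .F) .F) .I .F) (.N .O (.N .O .F .F) .F)), 4257469, [1], 1055, 664, 665⟩,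
  ⟨(.N .O (.N (.N .O (.N .O .F .F) .F) .O .F) .I), 778694, [1], 967, 0, 0⟩,
  ⟨(.N (.N .I .F .F) (.N (.N .O (.N .O .F .F) .F) .O .F) .I), 2630989, [0], 1054, 0, 667⟩,
  ⟨(.N (.N .I .F .F) (.N (.N .O (.N .O .F .F) .F) .O .F) .O), 930964, [1], 967, 392, 0⟩,
  ⟨(.N (.N .I .F .F) (.N (.N .O (.N .O .F .F) .F) .O .F) (.N .O (.N .O .F .F) .F)), 2548657, [2], 908, 668, 669⟩,
  ⟨(.N (.N .I .F .F) (.N (.N .O (.N .O .F .F) .F) (.N .O .F .F) .F) (.N .O (.N .O .F .F) .F)), 3967161, [1, 1], 965, 666, 670⟩,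
  ⟨(.N (.N .I .F .F) (.N (.N .O (.N .O .F .F) .F) (.N .O .F .F) .F) (.N (.N .O .F .F) (.N .O .F .F) .F)), 5201056, [2, 0], 965, 663, 671⟩,
  ⟨(.N (.N .I .F .F) (.N (.N .O .F .F) (.N .O .F .F) .F) (.N (.N .O .F .F) (.N .O .F .F) .F)), 5724570, [1, 0, 1, 0], 934, 659, 672⟩,
  ⟨(.N (.N .I .F .F) (.N (.N .O .F .F) (.N .O .F .F) .F) (.N (.N .O .F .F) (.N (.N .O .F .F) .F .F) .F)), 6203348, [2, 1, 0], 965, 652, 673⟩,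
  ⟨(.N (.N .I .F .F) (.N (.N .O .F .F) (.N (.N .O .F .F) .F .F) .F) (.N (.N .O .F .F) (.N (.N .O .F .F) .F .F) .F)), 6656667, [1, 1, 0], 965, 648, 674⟩,
  ⟨(.N (.N .I .F .F) (.N (.N .O .F .F) (.N (.N .O .F .F) .F .F) .F) (.N (.N .O .F .F) .F .F)), 6974301, [2, 1, 0, 0], 934, 644, 675⟩,
  ⟨(.N (.N .I .F .F) (.N (.N .O .F .F) .F .F) (.N (.N .O .F .F) .F .F)), 7289493, [1, 1, 0, 0], 934, 640, 676⟩,
  ⟨(.N (.N .I .F .F) (.N (.N (.N .I .F .F) .F .F) .F .F) (.N (.N .O .F .F) .F .F)), 7522211, [1, 0, 0], 1054, 639, 677⟩,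
  ⟨(.N (.N .O .F .F) (.N (.N (.N .I .F .F) .F .F) .F .F) .I), 4860551, [1], 968, 0, 59⟩,
  ⟨(.N (.N .O .F .F) (.N (.N (.N .I .F .F) .F .F) .F .F) .O), 3384981, [0], 965, 328, 0⟩,
  ⟨(.N (.N .O .F .F) (.N (.N (.N .I .F .F) .F .F) .F .F) (.N (.N .O .F .F) (.N (.N .I .F .F) .F .F) .F)), 7223631, [2], 1127, 679, 680⟩,
  ⟨(.N (.N .O .F .F) (.N (.N (.N .I .F .F) .F .F) .F .F) (.N (.N .O .F .F) (.N .I .F .F) .F)), 7014119, [2], 131, 679, 680⟩,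
  ⟨(.N (.N .O (.N (.N .I .F .F) .F .F) .F) (.N (.N (.N .I .F .F) .F .F) .F .F) (.N (.N .O .F .F) (.N .O .F .F) .F)), 6300400, [0], 962, 338, 339⟩,
  ⟨(.N (.N .O (.N (.N .O .F .F) .F .F) .F) (.N (.N (.N .I .F .F) .F .F) .F .F) .I), 4667228, [1], 968, 0, 103⟩,
  ⟨(.N (.N .O (.N (.N .O .F .F) .F .F) .F) (.N (.N (.N .I .F .F) .F .F) .F .F) .O), 2705934, [0], 963, 328, 0⟩,
  ⟨(.N (.N .O (.N (.N .O .F .F) .F .F) .F) (.N (.N (.N .I .F .F) .F .F) .F .F) (.N .I (.N .O .F .F) .F)), 6080534, [2], 907, 684, 685⟩,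
  ⟨(.N (.N .O (.N (.N .O .F .F) .F .F) .F) (.N (.N (.N .I .F .F) .F .F) .F .F) (.N .O (.N .O .F .F) .F)), 4348317, [0], 963, 349, 350⟩,
  ⟨(.N (.N .O (.N (.N .O .F .F) .F .F) .F) (.N (.N (.N .I .F .F) .F .F) .F .F) (.N (.N .O (.N .I .F .F) .F) (.N .O .F .F) .F)), 5872211, [2, 0], 52, 686, 687⟩,
  ⟨(.N .I (.N (.N (.N .I .F .F) .F .F) .F .F) (.N (.N .O (.N .O .F .F) .F) (.N .O .F .F) .F)), 4696210, [1], 968, 0, 112⟩,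
  ⟨(.N .O (.N (.N (.N .I .F .F) .F .F) .F .F) (.N (.N .O (.N .O .F .F) .F) (.N .O .F .F) .F)), 2772179, [2], 1056, 322, 0⟩,
  ⟨(.N (.N .O (.N .I .F .F) .F) (.N (.N (.N .I .F .F) .F .F) .F .F) (.N (.N .O (.N .O .F .F) .F) (.N .O .F .F) .F)), 5642481, [0], 52, 689, 690⟩,
  ⟨(.N (.N .O (.N .O .F .F) .F) (.N (.N (.N .I .F .F) .F .F) .F .F) (.N (.N .O (.N .O .F .F) .F) .I .F)), 5244028, [2], 1055, 341, 342⟩,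
  ⟨(.N .I (.N (.N (.N .I .F .F) .F .F) .F .F) (.N (.N .O (.N .O .F .F) .F) .O .F)), 4135341, [1], 968, 0, 120⟩,
  ⟨(.N .O (.N (.N (.N .I .F .F) .F .F) .F .F) (.N (.N .O (.N .O .F .F) .F) .O .F)), 1015861, [2], 967, 322, 0⟩,
  ⟨(.N (.N .O (.N .O .F .F) .F) (.N (.N (.N .I .F .F) .F .F) .F .F) (.N (.N .O (.N .O .F .F) .F) .O .F)), 2810986, [0], 908, 693, 694⟩,
  ⟨(.N (.N .O (.N .O .F .F) .F) (.N (.N (.N .I .F .F) .F .F) .F .F) (.N (.N .O (.N .O .F .F) .F) (.N .O .F .F) .F)), 4410549, [2, 1], 965, 692, 695⟩,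
  ⟨(.N (.N .O (.N (.N .O .F .F) .F .F) .F) (.N (.N (.N .I .F .F) .F .F) .F .F) (.N (.N .O (.N .O .F .F) .F) (.N .O .F .F) .F)), 5121880, [0, 1, 0], 965, 691, 696⟩,
  ⟨(.N (.N .O (.N (.N .O .F .F) .F .F) .F) (.N (.N (.N .I .F .F) .F .F) .F .F) (.N (.N .O .F .F) (.N .O .F .F) .F)), 5771136, [2, 0, 1, 0], 934, 688, 697⟩,
  ⟨(.N (.N .O .F .F) (.N (.N (.N .I .F .F) .F .F) .F .F) (.N (.N .O .F .F) (.N .O .F .F) .F)), 6309859, [0, 1, 0, 0], 934, 683, 698⟩,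
  ⟨(.N (.N .O .F .F) (.N (.N (.N .I .F .F) .F .F) .F .F) (.N (.N .O .F .F) (.N (.N .O .F .F) .F .F) .F)), 6889275, [2, 1, 0], 965, 682, 699⟩,
  ⟨(.N (.N .O .F .F) (.N (.N (.N .I .F .F) .F .F) .F .F) (.N (.N .O .F .F) .F .F)), 7330545, [2, 1, 0, 0], 934, 681, 700⟩,
  ⟨(.N (.N (.N (.N .O .F .F) .F .F) .F .F) (.N (.N (.N .I .F .F) .F .F) .F .F) (.N (.N .O .F .F) .F .F)), 8785374, [0, 0], 1138, 678, 701⟩,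
  ⟨(.N (.N (.N (.N .O .F .F) .F .F) .F .F) (.N (.N (.N .I .F .F) .F .F) .F .F) .F), 9459001, [2, 0, 0], 934, 613, 702⟩,
  ⟨(.N (.N (.N .I (.N .I .F .F) .F) .I .F) (.N (.N (.N .O .F .F) .F .F) .F .F) .I), 1015861, [0], 1139, 0, 369⟩,
  ⟨(.N (.N (.N .I (.N .I .F .F) .F) .I .F) (.N (.N (.N .O .F .F) .F .F) .F .F) .O), 4135341, [1], 966, 135, 0⟩,
  ⟨(.N (.N (.N .I (.N .I .F .F) .F) .I .F) (.N (.N (.N .O .F .F) .F .F) .F .F) (.N .I (.N .I .F .F) .F)), 2810986, [2], 26, 704, 705⟩,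
  ⟨(.N (.N (.N .I (.N .I .F .F) .F) .O .F) (.N (.N (.N .O .F .F) .F .F) .F .F) (.N .I (.N .I .F .F) .F)), 5244028, [0], 1140, 378, 379⟩,
  ⟨(.N (.N (.N .I (.N .I .F .F) .F) (.N .I .F .F) .F) (.N (.N (.N .O .F .F) .F .F) .F .F) (.N .I (.N .I .F .F) .F)), 4410549, [0, 1], 1054, 706, 707⟩,
  ⟨(.N (.N (.N .I (.N .I .F .F) .F) (.N .I .F .F) .F) (.N (.N (.N .O .F .F) .F .F) .F .F) .I), 2772179, [0], 1141, 0, 369⟩,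
  ⟨(.N (.N (.N .I (.N .I .F .F) .F) (.N .I .F .F) .F) (.N (.N (.N .O .F .F) .F .F) .F .F) .O), 4696210, [1], 966, 144, 0⟩,
  ⟨(.N (.N (.N .I (.N .I .F .F) .F) (.N .I .F .F) .F) (.N (.N (.N .O .F .F) .F .F) .F .F) (.N .O (.N .I .F .F) .F)), 6123489, [2], 52, 709, 710⟩,
  ⟨(.N (.N (.N .I (.N .I .F .F) .F) (.N .I .F .F) .F) (.N (.N (.N .O .F .F) .F .F) .F .F) (.N (.N .I .F .F) (.N .I .F .F) .F)), 5830087, [2, 0], 1054, 708, 711⟩,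
  ⟨(.N (.N .I (.N .I .F .F) .F) (.N (.N (.N .O .F .F) .F .F) .F .F) (.N (.N .I .F .F) (.N .I .F .F) .F)), 5091574, [2], 54, 370, 371⟩,
  ⟨(.N (.N .O (.N .I .F .F) .F) (.N (.N (.N .O .F .F) .F .F) .F .F) (.N (.N .I .F .F) (.N .I .F .F) .F)), 6548897, [0], 52, 387, 388⟩,
  ⟨(.N (.N (.N .I (.N .O .F .F) .F) (.N .I .F .F) .F) (.N (.N (.N .O .F .F) .F .F) .F .F) (.N (.N .I .F .F) (.N .I .F .F) .F)), 6512384, [0, 0], 907, 713, 714⟩,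
  ⟨(.N (.N (.N .I .F .F) (.N .I .F .F) .F) (.N (.N (.N .O .F .F) .F .F) .F .F) (.N (.N .I .F .F) (.N .I .F .F) .F)), 6445326, [0, 0, 1, 0], 934, 712, 715⟩,
  ⟨(.N (.N (.N .I .F .F) (.N .I .F .F) .F) (.N (.N (.N .O .F .F) .F .F) .F .F) .I), 3528238, [0], 54, 0, 369⟩,
  ⟨(.N (.N (.N .I .F .F) (.N .I .F .F) .F) (.N (.N (.N .O .F .F) .F .F) .F .F) .O), 4923226, [1], 966, 158, 0⟩,
  ⟨(.N (.N (.N .I .F .F) (.N .I .F .F) .F) (.N (.N (.N .O .F .F) .F .F) .F .F) (.N (.N .I .F .F) (.N .O .F .F) .F)), 7117085, [2], 888, 717, 718⟩,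
  ⟨(.N (.N (.N .I .F .F) (.N .I .F .F) .F) (.N (.N (.N .O .F .F) .F .F) .F .F) (.N (.N .I .F .F) (.N (.N .I .F .F) .F .F) .F)), 7016617, [2, 1, 0], 1054, 716, 719⟩,
  ⟨(.N .I (.N (.N (.N .O .F .F) .F .F) .F .F) (.N (.N .I .F .F) (.N (.N .I .F .F) .F .F) .F)), 4246696, [2], 969, 0, 365⟩,
  ⟨(.N .O (.N (.N (.N .O .F .F) .F .F) .F .F) (.N (.N .I .F .F) (.N (.N .I .F .F) .F .F) .F)), 5133791, [1], 966, 177, 0⟩,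
  ⟨(.N (.N (.N .I .F .F) (.N .O .F .F) .F) (.N (.N (.N .O .F .F) .F .F) .F .F) (.N (.N .I .F .F) (.N (.N .I .F .F) .F .F) .F)), 7581597, [0], 888, 721, 722⟩,
  ⟨(.N (.N (.N .I .F .F) (.N (.N .I .F .F) .F .F) .F) (.N (.N (.N .O .F .F) .F .F) .F .F) (.N (.N .I .F .F) (.N (.N .I .F .F) .F .F) .F)), 7561213, [0, 1, 0], 1054, 720, 723⟩,
  ⟨(.N (.N (.N .I .F .F) (.N (.N .I .F .F) .F .F) .F) (.N (.N (.N .O .F .F) .F .F) .F .F) .I), 4246696, [0], 969, 0, 369⟩,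
  ⟨(.N (.N (.N .I .F .F) (.N (.N .I .F .F) .F .F) .F) (.N (.N (.N .O .F .F) .F .F) .F .F) .O), 5133791, [1], 966, 182, 0⟩,
  ⟨(.N (.N (.N .I .F .F) (.N (.N .I .F .F) .F .F) .F) (.N (.N (.N .O .F .F) .F .F) .F .F) (.N (.N .I .F .F) (.N (.N .O .F .F) .F .F) .F)), 7827889, [2], 1013, 725, 726⟩,
  ⟨(.N (.N (.N .I .F .F) (.N (.N .I .F .F) .F .F) .F) (.N (.N (.N .O .F .F) .F .F) .F .F) (.N (.N .I .F .F) .F .F)), 7968643, [2, 1, 0, 0], 934, 724, 727⟩,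
  ⟨(.N .I (.N (.N (.N .O .F .F) .F .F) .F .F) (.N .I .F .F)), 3384981, [2], 1054, 0, 365⟩,
  ⟨(.N .I .O (.N .O .F .F)), 2436315, [2], 965, 0, 0⟩,
  ⟨(.N .I (.N (.N (.N .O .F .F) .F .F) (.N (.N .I .F .F) .F .F) .F) (.N .O .F .F)), 4764501, [1], 1186, 0, 730⟩,
  ⟨(.N .I (.N (.N .I .F .F) (.N (.N .O .F .F) .F .F) .F) (.N .O .F .F)), 4258973, [1], 1013, 0, 730⟩,
  ⟨(.N .I (.N (.N .O .F .F) (.N .I .F .F) .F) (.N .O .F .F)), 4109507, [1], 131, 0, 730⟩,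
  ⟨(.N .I (.N (.N .O .F .F) (.N .O .F .F) .F) (.N .O (.N (.N .I .F .F) .F .F) .F)), 4109682, [2], 962, 0, 274⟩,
  ⟨(.N .I .O (.N .O (.N (.N .O .F .F) .F .F) .F)), 1994434, [2], 963, 0, 0⟩,
  ⟨(.N .I (.N .I (.N .O .F .F) .F) (.N .O (.N (.N .O .F .F) .F .F) .F)), 2896701, [1], 907, 0, 735⟩,
  ⟨(.N .I (.N .O (.N .O .F .F) .F) (.N .O (.N (.N .O .F .F) .F .F) .F)), 3136151, [2], 963, 0, 278⟩,
  ⟨(.N .I (.N (.N .O (.N .I .F .F) .F) (.N .O .F .F) .F) (.N .O (.N (.N .O .F .F) .F .F) .F)), 3920668, [1, 0], 52, 736, 737⟩,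
  ⟨(.N .I (.N (.N .O (.N .O .F .F) .F) (.N .O .F .F) .F) (.N .O (.N .I .F .F) .F)), 3436712, [2], 52, 0, 281⟩,
  ⟨(.N .I (.N (.N .O (.N .O .F .F) .F) (.N .O .F .F) .F) (.N .O (.N (.N .O .F .F) .F .F) .F)), 3658971, [2, 1, 0], 965, 739, 286⟩,
  ⟨(.N .I (.N (.N .O .F .F) (.N .O .F .F) .F) (.N .O (.N (.N .O .F .F) .F .F) .F)), 4063908, [1, 0, 1, 0], 934, 738, 740⟩,
  ⟨(.N .I (.N (.N .O .F .F) (.N .O .F .F) .F) (.N .O .F .F)), 4360884, [2, 1, 0, 0], 934, 734, 741⟩,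
  ⟨(.N .I (.N (.N .O .F .F) (.N (.N .O .F .F) .F .F) .F) (.N .O .F .F)), 4701388, [1, 1, 0], 965, 733, 742⟩,
  ⟨(.N .I (.N (.N (.N .O .F .F) .F .F) (.N (.N .O .F .F) .F .F) .F) (.N .O .F .F)), 4994133, [1, 0, 0], 965, 732, 743⟩,
  ⟨(.N .I (.N (.N (.N .O .F .F) .F .F) .F .F) (.N .O .F .F)), 5153406, [1, 1, 0, 0], 934, 731, 744⟩,
  ⟨(.N .I (.N (.N (.N .O .F .F) .F .F) .F .F) (.N (.N .I .F .F) .F .F)), 4818390, [2, 0], 1054, 729, 745⟩,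
  ⟨(.N .O (.N (.N .I (.N .I .F .F) .F) (.N .I .F .F) .F) (.N .O (.N .I .F .F) .F)), 2921542, [2], 52, 304, 0⟩,
  ⟨(.N .O (.N (.N .I (.N .I .F .F) .F) (.N .I .F .F) .F) (.N (.N .I .F .F) (.N .I .F .F) .F)), 4118133, [2, 0], 1054, 303, 747⟩,
  ⟨(.N .O (.N .I (.N .I .F .F) .F) (.N (.N .I .F .F) (.N .I .F .F) .F)), 3633464, [2], 54, 29, 0⟩,
  ⟨(.N .O (.N .O (.N .I .F .F) .F) (.N (.N .I .F .F) (.N .I .F .F) .F)), 3116127, [1], 52, 41, 0⟩,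
  ⟨(.N .O (.N (.N .I (.N .O .F .F) .F) (.N .I .F .F) .F) (.N (.N .I .F .F) (.N .I .F .F) .F)), 4313774, [1, 0], 907, 749, 750⟩,
  ⟨(.N .O (.N (.N .I .F .F) (.N .I .F .F) .F) (.N (.N .I .F .F) (.N .I .F .F) .F)), 4490043, [1, 0, 1, 0], 934, 748, 751⟩,
  ⟨(.N .O (.N (.N .I .F .F) (.N .I .F .F) .F) (.N (.N .I .F .F) (.N .O .F .F) .F)), 4181136, [2], 888, 312, 0⟩,
  ⟨(.N .O (.N (.N .I .F .F) (.N .I .F .F) .F) (.N (.N .I .F .F) (.N (.N .I .F .F) .F .F) .F)), 4816164, [2, 1, 0], 1054, 752, 753⟩,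
  ⟨(.N .O (.N (.N .I .F .F) (.N .O .F .F) .F) (.N (.N .I .F .F) (.N (.N .I .F .F) .F .F) .F)), 4421782, [1], 888, 177, 0⟩,
  ⟨(.N .O (.N (.N .I .F .F) (.N (.N .I .F .F) .F .F) .F) (.N (.N .I .F .F) (.N (.N .I .F .F) .F .F) .F)), 5120918, [1, 1, 0], 1054, 754, 755⟩,
  ⟨(.N .O (.N (.N .I .F .F) (.N (.N .I .F .F) .F .F) .F) .I), 3060863, [1], 969, 0, 0⟩,
  ⟨(.N .O (.N (.N .I .F .F) (.N (.N .I .F .F) .F .F) .F) (.N (.N .I .F .F) (.N (.N .O .F .F) .F .F) .F)), 4914821, [2], 1013, 757, 0⟩,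
  ⟨(.N .O (.N (.N .I .F .F) (.N (.N .I .F .F) .F .F) .F) (.N (.N .I .F .F) .F .F)), 5291959, [2, 1, 0, 0], 934, 756, 758⟩,
  ⟨(.N .O (.N (.N .I .F .F) (.N .I .F .F) .F) (.N (.N .I .F .F) (.N (.N .O .F .F) .F .F) .F)), 4644094, [2], 1013, 312, 0⟩,
  ⟨(.N .O (.N (.N .I .F .F) (.N .I .F .F) .F) (.N (.N .I .F .F) .F .F)), 5004219, [2, 1, 0, 0], 934, 754, 760⟩,
  ⟨(.N .O (.N (.N .I .F .F) (.N .O .F .F) .F) (.N (.N .I .F .F) .F .F)), 4590785, [1], 888, 187, 0⟩,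
  ⟨(.N .O (.N (.N .I .F .F) (.N (.N .O .F .F) .F .F) .F) (.N (.N .I .F .F) .F .F)), 5097493, [1, 1, 0], 965, 761, 762⟩,
  ⟨(.N .O (.N (.N .I .F .F) .F .F) (.N (.N .I .F .F) .F .F)), 5468816, [1, 1, 0, 0], 934, 759, 763⟩,
  ⟨(.N .O (.N (.N .O .F .F) .F .F) (.N (.N .I .F .F) .F .F)), 4673447, [1], 1138, 187, 0⟩,
  ⟨(.N .O (.N (.N (.N .O .F .F) .F .F) .F .F) (.N (.N .I .F .F) .F .F)), 5275638, [1, 0, 0], 965, 764, 765⟩,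
  ⟨(.N (.N (.N .I .F .F) (.N (.N .O .F .F) .F .F) .F) (.N (.N (.N .O .F .F) .F .F) .F .F) (.N (.N .I .F .F) .F .F)), 8211525, [0], 1013, 746, 766⟩,
  ⟨(.N (.N (.N .I .F .F) .F .F) (.N (.N (.N .O .F .F) .F .F) .F .F) (.N (.N .I .F .F) .F .F)), 8364177, [0, 1, 0, 0], 934, 728, 767⟩,
  ⟨(.N (.N (.N .I .F .F) .F .F) .I (.N (.N .O .F .F) .F .F)), 4673447, [0], 1024, 0, 459⟩,
  ⟨(.N (.N (.N .I .F .F) .F .F) .O (.N (.N .O .F .F) .F .F)), 4673447, [2], 1138, 195, 0⟩,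
  ⟨(.N (.N (.N .I .F .F) .F .F) (.N (.N (.N .O .F .F) .F .F) (.N .I .F .F) .F) (.N (.N .O .F .F) .F .F)), 7866536, [1], 835, 769, 770⟩,
  ⟨(.N .O (.N (.N (.N .O .F .F) .F .F) (.N .O .F .F) .F) .I), 3060863, [1], 930, 0, 0⟩,
  ⟨(.N (.N (.N .I .F .F) .F .F) (.N (.N (.N .O .F .F) .F .F) (.N .O .F .F) .F) .I), 4546694, [0], 1024, 0, 772⟩,
  ⟨(.N (.N (.N .I .F .F) .F .F) (.N (.N (.N .O .F .F) .F .F) (.N .O .F .F) .F) .O), 4123011, [1], 930, 170, 0⟩,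
  ⟨(.N (.N (.N .I .F .F) .F .F) (.N (.N (.N .O .F .F) .F .F) (.N .O .F .F) .F) (.N (.N .O .F .F) (.N (.N .I .F .F) .F .F) .F)), 7501461, [2], 1127, 773, 774⟩,
  ⟨(.N (.N (.N .I .F .F) .F .F) .I (.N (.N .O .F .F) (.N (.N .O .F .F) .F .F) .F)), 4546694, [0], 1024, 0, 645⟩,
  ⟨(.N (.N (.N .I .F .F) .F .F) .O (.N (.N .O .F .F) (.N (.N .O .F .F) .F .F) .F)), 4123011, [2], 1091, 195, 0⟩,
  ⟨(.N (.N (.N .I .F .F) .F .F) (.N (.N .I .F .F) (.N .O .F .F) .F) (.N (.N .O .F .F) (.N (.N .O .F .F) .F .F) .F)), 7226206, [1], 888, 776, 777⟩,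
  ⟨(.N (.N (.N .I .F .F) .F .F) (.N (.N .O .F .F) (.N .O .F .F) .F) .I), 4366210, [0], 1024, 0, 649⟩,
  ⟨(.N (.N (.N .I .F .F) .F .F) (.N (.N .O .F .F) (.N .O .F .F) .F) .O), 3429290, [1], 929, 170, 0⟩,
  ⟨(.N (.N (.N .I .F .F) .F .F) (.N (.N .O .F .F) (.N .O .F .F) .F) (.N (.N .O .F .F) (.N .I .F .F) .F)), 6789103, [2], 131, 779, 780⟩,
  ⟨(.N (.N (.N .I .F .F) .F .F) (.N .I (.N .O .F .F) .F) (.N (.N .O .F .F) (.N .O .F .F) .F)), 6163656, [1], 907, 194, 196⟩,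
  ⟨(.N (.N (.N .I .F .F) .F .F) (.N .O (.N .O .F .F) .F) (.N (.N .O .F .F) (.N .O .F .F) .F)), 4933564, [2], 929, 212, 213⟩,
  ⟨(.N (.N (.N .I .F .F) .F .F) (.N (.N .O (.N .I .F .F) .F) (.N .O .F .F) .F) (.N (.N .O .F .F) (.N .O .F .F) .F)), 6269162, [1, 0], 52, 782, 783⟩,
  ⟨(.N (.N (.N .I .F .F) .F .F) (.N (.N .O (.N .O .F .F) .F) (.N .O .F .F) .F) .I), 4171625, [0], 1024, 0, 660⟩,
  ⟨(.N (.N (.N .I .F .F) .F .F) (.N (.N .O (.N .O .F .F) .F) (.N .O .F .F) .F) .O), 2697967, [1], 1056, 170, 0⟩,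
  ⟨(.N (.N (.N .I .F .F) .F .F) (.N (.N .O (.N .O .F .F) .F) (.N .O .F .F) .F) (.N .I (.N .O .F .F) .F)), 5767794, [2], 907, 785, 786⟩,
  ⟨(.N (.N (.N .I .F .F) .F .F) (.N (.N .O (.N .O .F .F) .F) .I .F) (.N .O (.N .O .F .F) .F)), 4950349, [1], 1055, 203, 204⟩,
  ⟨(.N (.N (.N .I .F .F) .F .F) (.N (.N .O (.N .O .F .F) .F) .O .F) .I), 3690880, [0], 1024, 0, 667⟩,
  ⟨(.N (.N (.N .I .F .F) .F .F) (.N (.N .O (.N .O .F .F) .F) .O .F) .O), 991124, [1], 967, 170, 0⟩,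
  ⟨(.N (.N (.N .I .F .F) .F .F) (.N (.N .O (.N .O .F .F) .F) .O .F) (.N .O (.N .O .F .F) .F)), 2733783, [2], 908, 789, 790⟩,
  ⟨(.N (.N (.N .I .F .F) .F .F) (.N (.N .O (.N .O .F .F) .F) (.N .O .F .F) .F) (.N .O (.N .O .F .F) .F)), 4279227, [1, 1], 965, 788, 791⟩,
  ⟨(.N (.N (.N .I .F .F) .F .F) (.N (.N .O (.N .O .F .F) .F) (.N .O .F .F) .F) (.N (.N .O .F .F) (.N .O .F .F) .F)), 5642672, [2, 0], 965, 787, 792⟩,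
  ⟨(.N (.N (.N .I .F .F) .F .F) (.N (.N .O .F .F) (.N .O .F .F) .F) (.N (.N .O .F .F) (.N .O .F .F) .F)), 6230008, [1, 0, 1, 0], 934, 784, 793⟩,
  ⟨(.N (.N (.N .I .F .F) .F .F) (.N (.N .O .F .F) (.N .O .F .F) .F) (.N (.N .O .F .F) (.N (.N .O .F .F) .F .F) .F)), 6773132, [2, 1, 0], 965, 781, 794⟩,
  ⟨(.N (.N (.N .I .F .F) .F .F) (.N (.N (.N .O .F .F) .F .F) (.N .O .F .F) .F) (.N (.N .O .F .F) (.N (.N .O .F .F) .F .F) .F)), 7289751, [1, 0, 0], 965, 778, 795⟩,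
  ⟨(.N (.N (.N .I .F .F) .F .F) (.N (.N (.N .O .F .F) .F .F) (.N .O .F .F) .F) (.N (.N .O .F .F) .F .F)), 7669698, [2, 1, 0, 0], 934, 775, 796⟩,
  ⟨(.N (.N (.N .I .F .F) .F .F) (.N (.N (.N .O .F .F) .F .F) .F .F) (.N (.N .O .F .F) .F .F)), 8441743, [1, 1, 0], 934, 771, 797⟩,
  ⟨(.N (.N (.N .I .F .F) .F .F) (.N (.N (.N .O .F .F) .F .F) .F .F) .F), 9076587, [2, 0, 0], 934, 768, 798⟩,
  ⟨(.N (.N (.N .O .F .F) .F .F) .I (.N (.N .I (.N .I .F .F) .F) .I .F)), 991124, [2], 1139, 0, 233⟩,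
  ⟨(.N (.N (.N .O .F .F) .F .F) .O (.N (.N .I (.N .I .F .F) .F) .I .F)), 3690880, [0], 1138, 2, 0⟩,
  ⟨(.N (.N (.N .O .F .F) .F .F) (.N .I (.N .I .F .F) .F) (.N (.N .I (.N .I .F .F) .F) .I .F)), 2733783, [1], 26, 800, 801⟩,
  ⟨(.N (.N (.N .O .F .F) .F .F) (.N .I (.N .I .F .F) .F) (.N (.N .I (.N .I .F .F) .F) .O .F)), 4950349, [2], 1140, 243, 244⟩,
  ⟨(.N (.N (.N .O .F .F) .F .F) (.N .I (.N .I .F .F) .F) (.N (.N .I (.N .I .F .F) .F) (.N .I .F .F) .F)), 4279227, [2, 1], 1054, 802, 803⟩,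
  ⟨(.N (.N (.N .O .F .F) .F .F) .I (.N (.N .I (.N .I .F .F) .F) (.N .I .F .F) .F)), 2697967, [2], 1141, 0, 233⟩,
  ⟨(.N (.N (.N .O .F .F) .F .F) .O (.N (.N .I (.N .I .F .F) .F) (.N .I .F .F) .F)), 4171625, [0], 1138, 7, 0⟩,
  ⟨(.N (.N (.N .O .F .F) .F .F) (.N .I (.N .O .F .F) .F) (.N (.N .I (.N .I .F .F) .F) (.N .I .F .F) .F)), 5399379, [1], 907, 805, 806⟩,
  ⟨(.N (.N (.N .O .F .F) .F .F) (.N .I (.N (.N .I .F .F) .F .F) .F) (.N (.N .I (.N .I .F .F) .F) (.N .I .F .F) .F)), 4962613, [1, 1, 0], 1054, 804, 807⟩,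
  ⟨(.N (.N (.N .O .F .F) .F .F) (.N .I (.N (.N .I .F .F) .F .F) .F) (.N .I (.N .I .F .F) .F)), 4217440, [1], 1025, 234, 235⟩,
  ⟨(.N (.N (.N .O .F .F) .F .F) (.N .I (.N (.N .I .F .F) .F .F) .F) .I), 2631723, [1], 1025, 0, 228⟩,
  ⟨(.N (.N (.N .O .F .F) .F .F) (.N .I (.N (.N .I .F .F) .F .F) .F) .O), 4146783, [0], 1138, 73, 0⟩,
  ⟨(.N (.N (.N .O .F .F) .F .F) (.N .I (.N (.N .I .F .F) .F .F) .F) (.N .O (.N .I .F .F) .F)), 5727426, [2], 52, 810, 811⟩,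
  ⟨(.N (.N (.N .O .F .F) .F .F) (.N .I (.N (.N .I .F .F) .F .F) .F) (.N (.N .I (.N .O .F .F) .F) (.N .I .F .F) .F)), 5657998, [2, 0], 907, 809, 812⟩,
  ⟨(.N (.N (.N .O .F .F) .F .F) (.N .I (.N (.N .I .F .F) .F .F) .F) (.N (.N .I .F .F) (.N .I .F .F) .F)), 5584396, [2, 0, 1, 0], 934, 808, 813⟩,
  ⟨(.N (.N (.N .O .F .F) .F .F) (.N .I (.N (.N .O .F .F) .F .F) .F) (.N (.N .I .F .F) (.N .I .F .F) .F)), 6058306, [1], 1036, 246, 247⟩,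
  ⟨(.N (.N (.N .O .F .F) .F .F) (.N .I .F .F) (.N (.N .I .F .F) (.N .I .F .F) .F)), 6095441, [1, 1, 0, 0], 934, 814, 815⟩,
  ⟨(.N (.N (.N .O .F .F) .F .F) (.N .I .F .F) .I), 3286033, [1], 1054, 0, 228⟩,
  ⟨(.N (.N (.N .O .F .F) .F .F) (.N .I .F .F) .O), 4312489, [0], 1138, 84, 0⟩,
  ⟨(.N (.N (.N .O .F .F) .F .F) (.N .I .F .F) (.N (.N .I .F .F) (.N .O .F .F) .F)), 6690614, [2], 888, 817, 818⟩,
  ⟨(.N (.N (.N .O .F .F) .F .F) (.N .I .F .F) (.N (.N .I .F .F) (.N (.N .I .F .F) .F .F) .F)), 6647585, [2, 1, 0], 1054, 816, 819⟩,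
  ⟨(.N (.N (.N .O .F .F) .F .F) (.N .I .F .F) (.N (.N .I .F .F) (.N (.N .O .F .F) .F .F) .F)), 6928195, [2], 1013, 817, 818⟩,
  ⟨(.N (.N (.N .O .F .F) .F .F) (.N .I .F .F) (.N (.N .I .F .F) .F .F)), 7061981, [2, 1, 0, 0], 934, 820, 821⟩,
  ⟨(.N (.N (.N .O .F .F) .F .F) (.N .I .F .F) (.N (.N (.N .I .F .F) .F .F) .F .F)), 7522211, [2, 0, 0], 1054, 822, 518⟩,
  ⟨(.N (.N (.N .O .F .F) .F .F) (.N .I .F .F) (.N (.N (.N .O .F .F) .F .F) (.N .I .F .F) .F)), 6928195, [2], 835, 817, 818⟩,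
  ⟨(.N .I .O (.N (.N (.N .O .F .F) .F .F) (.N .O .F .F) .F)), 3060863, [2], 930, 0, 0⟩,
  ⟨(.N .I (.N .I .F .F) (.N (.N (.N .O .F .F) .F .F) (.N .O .F .F) .F)), 3201531, [1], 1054, 0, 825⟩,
  ⟨(.N .O (.N .I .F .F) (.N (.N (.N .O .F .F) .F .F) (.N .O .F .F) .F)), 3822212, [2], 930, 44, 0⟩,
  ⟨(.N (.N (.N .O .F .F) (.N (.N .I .F .F) .F .F) .F) (.N .I .F .F) (.N (.N (.N .O .F .F) .F .F) (.N .O .F .F) .F)), 6743752, [0], 1127, 826, 827⟩,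
  ⟨(.N (.N (.N .O .F .F) (.N .I .F .F) .F) (.N .I .F .F) (.N (.N (.N .O .F .F) .F .F) (.N .O .F .F) .F)), 6403224, [0], 131, 826, 827⟩,
  ⟨(.N (.N (.N .O .F .F) (.N .O .F .F) .F) (.N .I .F .F) (.N (.N .I .F .F) (.N .O .F .F) .F)), 6026282, [2], 888, 499, 500⟩,
  ⟨(.N (.N (.N .O .F .F) (.N .O .F .F) .F) (.N .I .F .F) (.N (.N (.N .O .F .F) .F .F) (.N .O .F .F) .F)), 6203348, [2, 0, 0], 965, 830, 514⟩,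
  ⟨(.N (.N (.N .O .F .F) (.N (.N .O .F .F) .F .F) .F) (.N .I .F .F) (.N (.N (.N .O .F .F) .F .F) (.N .O .F .F) .F)), 6656667, [0, 1, 0], 965, 829, 831⟩,
  ⟨(.N (.N (.N .O .F .F) .F .F) (.N .I .F .F) (.N (.N (.N .O .F .F) .F .F) (.N .O .F .F) .F)), 6974301, [0, 1, 0, 0], 934, 828, 832⟩,
  ⟨(.N (.N (.N .O .F .F) .F .F) (.N .I .F .F) (.N (.N (.N .O .F .F) .F .F) .F .F)), 7624873, [2, 1, 0], 934, 824, 833⟩,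
  ⟨(.N (.N (.N .O .F .F) .F .F) (.N .I .F .F) .F), 7847634, [2, 0, 0, 0], 934, 823, 834⟩,
  ⟨(.N .I (.N .O .F .F) (.N (.N .I (.N .I .F .F) .F) .I .F)), 930964, [2], 1139, 0, 138⟩,
  ⟨(.N .O (.N .O .F .F) (.N (.N .I (.N .I .F .F) .F) .I .F)), 2630989, [1], 965, 27, 0⟩,
  ⟨(.N (.N .I (.N .I .F .F) .F) (.N .O .F .F) (.N (.N .I (.N .I .F .F) .F) .I .F)), 2548657, [0], 26, 836, 837⟩,
  ⟨(.N (.N .I (.N .I .F .F) .F) (.N .O .F .F) (.N (.N .I (.N .I .F .F) .F) .O .F)), 4257469, [2], 1140, 148, 150⟩,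
  ⟨(.N (.N .I (.N .I .F .F) .F) (.N .O .F .F) (.N (.N .I (.N .I .F .F) .F) (.N .I .F .F) .F)), 3967161, [2, 1], 1054, 838, 839⟩,
  ⟨(.N .I (.N .O .F .F) (.N (.N .I (.N .I .F .F) .F) (.N .I .F .F) .F)), 2517488, [2], 1141, 0, 138⟩,
  ⟨(.N .O (.N .O .F .F) (.N (.N .I (.N .I .F .F) .F) (.N .I .F .F) .F)), 2951485, [1], 965, 32, 0⟩,
  ⟨(.N (.N .I (.N .O .F .F) .F) (.N .O .F .F) (.N (.N .I (.N .I .F .F) .F) (.N .I .F .F) .F)), 4829027, [0], 907, 841, 842⟩,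
  ⟨(.N (.N .I (.N (.N .I .F .F) .F .F) .F) (.N .O .F .F) (.N (.N .I (.N .I .F .F) .F) (.N .I .F .F) .F)), 4585976, [0, 1, 0], 1054, 840, 843⟩,
  ⟨(.N (.N .I (.N (.N .I .F .F) .F .F) .F) (.N .O .F .F) (.N .I (.N .I .F .F) .F)), 3906267, [0], 1025, 139, 140⟩,
  ⟨(.N (.N .I (.N (.N .I .F .F) .F .F) .F) (.N .O .F .F) .I), 2451244, [0], 1025, 0, 133⟩,
  ⟨(.N (.N .I (.N (.N .I .F .F) .F .F) .F) (.N .O .F .F) .O), 2934924, [1], 965, 382, 0⟩,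
  ⟨(.N (.N .I (.N (.N .I .F .F) .F .F) .F) (.N .O .F .F) (.N .O (.N .I .F .F) .F)), 4902334, [2], 52, 846, 847⟩,
  ⟨(.N (.N .I (.N (.N .I .F .F) .F .F) .F) (.N .O .F .F) (.N (.N .I (.N .O .F .F) .F) (.N .I .F .F) .F)), 5154105, [2, 0], 907, 845, 848⟩,
  ⟨(.N (.N .I (.N (.N .I .F .F) .F .F) .F) (.N .O .F .F) (.N (.N .I .F .F) (.N .I .F .F) .F)), 5144130, [2, 0, 1, 0], 934, 844, 849⟩,
  ⟨(.N (.N .I (.N (.N .O .F .F) .F .F) .F) (.N .O .F .F) (.N (.N .I .F .F) (.N .I .F .F) .F)), 5491303, [0], 1036, 152, 153⟩,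
  ⟨(.N (.N .I .F .F) (.N .O .F .F) (.N (.N .I .F .F) (.N .I .F .F) .F)), 5591807, [0, 1, 0, 0], 934, 850, 851⟩,
  ⟨(.N (.N .I .F .F) (.N .O .F .F) .I), 3045394, [0], 1054, 0, 133⟩,
  ⟨(.N (.N .I .F .F) (.N .O .F .F) .O), 3045394, [1], 965, 392, 0⟩,
  ⟨(.N (.N .I .F .F) (.N .O .F .F) (.N (.N .I .F .F) (.N .O .F .F) .F)), 5936746, [2], 888, 853, 854⟩,
  ⟨(.N (.N .I .F .F) (.N .O .F .F) (.N (.N .I .F .F) (.N (.N .I .F .F) .F .F) .F)), 6081391, [2, 1, 0], 1054, 852, 855⟩,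
  ⟨(.N (.N .I .F .F) (.N .O .F .F) (.N (.N .O .F .F) (.N (.N .I .F .F) .F .F) .F)), 6238481, [2], 1127, 853, 854⟩,
  ⟨(.N (.N .I .F .F) (.N .O .F .F) (.N (.N (.N .I .F .F) .F .F) (.N (.N .I .F .F) .F .F) .F)), 6524014, [2, 0, 0], 1054, 856, 857⟩,
  ⟨(.N (.N .I .F .F) (.N .O .F .F) (.N (.N (.N .I .F .F) .F .F) (.N (.N .O .F .F) .F .F) (.N (.N .I .F .F) .F .F))), 6317651, [2], 1168, 853, 854⟩,
  ⟨(.N (.N .I .F .F) (.N .O .F .F) (.N (.N (.N .I .F .F) .F .F) (.N (.N .O .F .F) .F .F) (.N (.N .O .F .F) .F .F))), 6317651, [2], 1176, 853, 854⟩,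
  ⟨(.N (.N .I .F .F) (.N .O .F .F) (.N (.N (.N .I .F .F) .F .F) (.N (.N .O .F .F) .F .F) .F)), 6591742, [2, 2, 0, 0], 934, 859, 860⟩,
  ⟨(.N (.N .I .F .F) (.N .O .F .F) (.N (.N (.N .I .F .F) .F .F) .F .F)), 6831969, [2, 1, 0, 0], 934, 858, 861⟩,
  ⟨(.N (.N .I .F .F) (.N .O .F .F) (.N (.N (.N .O .F .F) .F .F) (.N (.N .I .F .F) .F .F) (.N (.N .I .F .F) .F .F))), 6317651, [2], 1185, 853, 854⟩,
  ⟨(.N (.N .I .F .F) (.N .O .F .F) (.N (.N (.N .O .F .F) .F .F) (.N (.N .I .F .F) .F .F) (.N (.N .O .F .F) .F .F))), 6317651, [2], 1090, 853, 854⟩,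
  ⟨(.N (.N .I .F .F) (.N .O .F .F) (.N (.N (.N .O .F .F) .F .F) (.N (.N .I .F .F) .F .F) .F)), 6591742, [2, 2, 0, 0], 934, 863, 864⟩,
  ⟨(.N (.N .I .F .F) (.N .O .F .F) (.N (.N .I .F .F) (.N (.N .O .F .F) .F .F) .F)), 6238481, [2], 1013, 853, 854⟩,
  ⟨(.N (.N .I .F .F) (.N .O .F .F) (.N (.N .O .F .F) (.N .I .F .F) .F)), 5936746, [2], 131, 853, 854⟩,
  ⟨(.N (.N .I .F .F) (.N .O (.N (.N .I .F .F) .F .F) .F) (.N (.N .O .F .F) (.N .O .F .F) .F)), 5491303, [1], 962, 653, 654⟩,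
  ⟨(.N (.N .I .F .F) (.N .O (.N (.N .O .F .F) .F .F) .F) .I), 2934924, [0], 1054, 0, 198⟩,
  ⟨(.N (.N .I .F .F) (.N .O (.N (.N .O .F .F) .F .F) .F) .O), 2451244, [1], 963, 392, 0⟩,
  ⟨(.N (.N .I .F .F) (.N .O (.N (.N .O .F .F) .F .F) .F) (.N .I (.N .O .F .F) .F)), 4902334, [2], 907, 869, 870⟩,
  ⟨(.N (.N .I .F .F) (.N .O (.N (.N .O .F .F) .F .F) .F) (.N .O (.N .O .F .F) .F)), 3906267, [1], 963, 664, 665⟩,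
  ⟨(.N (.N .I .F .F) (.N .O (.N (.N .O .F .F) .F .F) .F) (.N (.N .O (.N .I .F .F) .F) (.N .O .F .F) .F)), 5154105, [2, 0], 52, 871, 872⟩,
  ⟨(.N (.N .I .F .F) .I (.N (.N .O (.N .O .F .F) .F) (.N .O .F .F) .F)), 2951485, [0], 1054, 0, 207⟩,
  ⟨(.N (.N .I .F .F) .O (.N (.N .O (.N .O .F .F) .F) (.N .O .F .F) .F)), 2517488, [2], 1056, 634, 0⟩,
  ⟨(.N (.N .I .F .F) (.N .O (.N .I .F .F) .F) (.N (.N .O (.N .O .F .F) .F) (.N .O .F .F) .F)), 4829027, [1], 52, 874, 875⟩,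
  ⟨(.N (.N .I .F .F) (.N .O (.N .O .F .F) .F) (.N (.N .O (.N .O .F .F) .F) .I .F)), 4257469, [2], 1055, 656, 657⟩,
  ⟨(.N (.N .I .F .F) .I (.N (.N .O (.N .O .F .F) .F) .O .F)), 2630989, [0], 1054, 0, 215⟩,
  ⟨(.N (.N .I .F .F) .O (.N (.N .O (.N .O .F .F) .F) .O .F)), 930964, [2], 967, 634, 0⟩,
  ⟨(.N (.N .I .F .F) (.N .O (.N .O .F .F) .F) (.N (.N .O (.N .O .F .F) .F) .O .F)), 2548657, [1], 908, 878, 879⟩,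
  ⟨(.N (.N .I .F .F) (.N .O (.N .O .F .F) .F) (.N (.N .O (.N .O .F .F) .F) (.N .O .F .F) .F)), 3967161, [2, 1], 965, 877, 880⟩,
  ⟨(.N (.N .I .F .F) (.N .O (.N (.N .O .F .F) .F .F) .F) (.N (.N .O (.N .O .F .F) .F) (.N .O .F .F) .F)), 4585976, [1, 1, 0], 965, 876, 881⟩,
  ⟨(.N (.N .I .F .F) (.N .O (.N (.N .O .F .F) .F .F) .F) (.N (.N .O .F .F) (.N .O .F .F) .F)), 5144130, [2, 0, 1, 0], 934, 873, 882⟩,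
  ⟨(.N (.N .I .F .F) (.N .O .F .F) (.N (.N .O .F .F) (.N .O .F .F) .F)), 5591807, [1, 1, 0, 0], 934, 868, 883⟩,
  ⟨(.N (.N .I .F .F) (.N .O .F .F) (.N (.N .O .F .F) (.N (.N .O .F .F) .F .F) .F)), 6081391, [2, 1, 0], 965, 867, 884⟩,
  ⟨(.N (.N .I .F .F) (.N .O .F .F) (.N (.N (.N .O .F .F) .F .F) (.N (.N .O .F .F) .F .F) .F)), 6524014, [2, 0, 0], 965, 866, 885⟩,
  ⟨(.N (.N .I .F .F) (.N .O .F .F) (.N (.N (.N .O .F .F) .F .F) .F .F)), 6831969, [2, 1, 0, 0], 934, 865, 886⟩,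
  ⟨(.N (.N .I .F .F) (.N .O .F .F) .F), 7106061, [2, 0, 0, 0], 934, 862, 887⟩,
  ⟨(.N .I (.N .O .F .F) (.N (.N (.N .I .F .F) .F .F) .F .F)), 4860551, [2], 968, 0, 138⟩,
  ⟨(.N .I (.N .O .F .F) (.N (.N (.N .O .F .F) .F .F) (.N (.N .I .F .F) .F .F) .F)), 4764501, [2], 1186, 0, 138⟩,
  ⟨(.N .I (.N .O .F .F) (.N (.N .I .F .F) (.N (.N .O .F .F) .F .F) .F)), 4258973, [2], 1013, 0, 138⟩,
  ⟨(.N .I (.N .O .F .F) (.N (.N .O .F .F) (.N .I .F .F) .F)), 4109507, [2], 131, 0, 138⟩,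
  ⟨(.N .I (.N .O (.N (.N .I .F .F) .F .F) .F) (.N (.N .O .F .F) (.N .O .F .F) .F)), 4109682, [1], 962, 0, 99⟩,
  ⟨(.N .I (.N .O (.N (.N .O .F .F) .F .F) .F) (.N .I (.N .O .F .F) .F)), 2896701, [2], 907, 0, 591⟩,
  ⟨(.N .I (.N .O (.N (.N .O .F .F) .F .F) .F) (.N .O (.N .O .F .F) .F)), 3136151, [1], 963, 0, 107⟩,
  ⟨(.N .I (.N .O (.N (.N .O .F .F) .F .F) .F) (.N (.N .O (.N .I .F .F) .F) (.N .O .F .F) .F)), 3920668, [2, 0], 52, 894, 895⟩,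
  ⟨(.N .I (.N .O (.N .I .F .F) .F) (.N (.N .O (.N .O .F .F) .F) (.N .O .F .F) .F)), 3436712, [1], 52, 0, 112⟩,
  ⟨(.N .I (.N .O (.N .O .F .F) .F) (.N (.N .O (.N .O .F .F) .F) .I .F)), 2556199, [2], 1055, 0, 278⟩,
  ⟨(.N .I (.N .O (.N .O .F .F) .F) (.N (.N .O (.N .O .F .F) .F) .O .F)), 2086547, [1], 908, 0, 120⟩,
  ⟨(.N .I (.N .O (.N .O .F .F) .F) (.N (.N .O (.N .O .F .F) .F) (.N .O .F .F) .F)), 3195261, [2, 1], 965, 898, 899⟩,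
  ⟨(.N .I (.N .O (.N (.N .O .F .F) .F .F) .F) (.N (.N .O (.N .O .F .F) .F) (.N .O .F .F) .F)), 3658971, [1, 1, 0], 965, 897, 900⟩,
  ⟨(.N .I (.N .O (.N (.N .O .F .F) .F .F) .F) (.N (.N .O .F .F) (.N .O .F .F) .F)), 4063908, [2, 0, 1, 0], 934, 896, 901⟩,
  ⟨(.N .I (.N .O .F .F) (.N (.N .O .F .F) (.N .O .F .F) .F)), 4360884, [1, 1, 0, 0], 934, 893, 902⟩,
  ⟨(.N .I (.N .O .F .F) (.N (.N .O .F .F) (.N (.N .O .F .F) .F .F) .F)), 4701388, [2, 1, 0], 965, 892, 903⟩,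
  ⟨(.N .I (.N .O .F .F) (.N (.N (.N .O .F .F) .F .F) (.N (.N .O .F .F) .F .F) .F)), 4994133, [2, 0, 0], 965, 891, 904⟩,
  ⟨(.N .I (.N .O .F .F) (.N (.N (.N .O .F .F) .F .F) .F .F)), 5153406, [2, 1, 0, 0], 934, 890, 905⟩,
  ⟨(.N .I (.N .O .F .F) .F), 5281069, [2, 0, 0, 0], 934, 889, 906⟩,
  ⟨(.N .O (.N .O .F .F) .F), 3453528, [1], 965, 0, 0⟩,
  ⟨(.N (.N .O (.N (.N .I .F .F) .F .F) .F) (.N .O .F .F) .F), 6360863, [0], 962, 907, 908⟩,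
  ⟨(.N (.N .O (.N (.N .O .F .F) .F .F) .F) .I (.N (.N (.N .I .F .F) .F .F) .F .F)), 4667228, [2], 968, 0, 433⟩,
  ⟨(.N (.N .O (.N (.N .O .F .F) .F .F) .F) .I (.N (.N (.N .O .F .F) .F .F) (.N (.N .I .F .F) .F .F) .F)), 4543560, [2], 1186, 0, 433⟩,
  ⟨(.N (.N .O (.N (.N .O .F .F) .F .F) .F) .I (.N (.N .I .F .F) (.N (.N .O .F .F) .F .F) .F)), 4065650, [2], 1013, 0, 433⟩,
  ⟨(.N (.N .O (.N (.N .O .F .F) .F .F) .F) .I (.N (.N .O .F .F) (.N .I .F .F) .F)), 3888567, [2], 131, 0, 433⟩,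
  ⟨(.N (.N .O (.N (.N .O .F .F) .F .F) .F) .I (.N .I (.N .O .F .F) .F)), 2896701, [2], 907, 0, 433⟩,
  ⟨(.N (.N .O (.N (.N .O .F .F) .F .F) .F) .I (.N .O (.N .O .F .F) .F)), 3136151, [0], 963, 0, 202⟩,
  ⟨(.N (.N .O (.N (.N .O .F .F) .F .F) .F) .I (.N (.N .O (.N .I .F .F) .F) (.N .O .F .F) .F)), 3920668, [2, 0], 52, 914, 915⟩,
  ⟨(.N (.N .O (.N .I .F .F) .F) .I (.N (.N .O (.N .O .F .F) .F) (.N .O .F .F) .F)), 3436712, [0], 52, 0, 207⟩,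
  ⟨(.N (.N .O (.N .O .F .F) .F) .I (.N (.N .O (.N .O .F .F) .F) .I .F)), 2556199, [2], 1055, 0, 444⟩,
  ⟨(.N (.N .O (.N .O .F .F) .F) .I (.N (.N .O (.N .O .F .F) .F) .O .F)), 2086547, [0], 908, 0, 215⟩,
  ⟨(.N (.N .O (.N .O .F .F) .F) .I (.N (.N .O (.N .O .F .F) .F) (.N .O .F .F) .F)), 3195261, [2, 1], 965, 918, 919⟩,
  ⟨(.N (.N .O (.N (.N .O .F .F) .F .F) .F) .I (.N (.N .O (.N .O .F .F) .F) (.N .O .F .F) .F)), 3658971, [0, 1, 0], 965, 917, 920⟩,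
  ⟨(.N (.N .O (.N (.N .O .F .F) .F .F) .F) .I (.N (.N .O .F .F) (.N .O .F .F) .F)), 4063908, [2, 0, 1, 0], 934, 916, 921⟩,
  ⟨(.N (.N .O (.N (.N .O .F .F) .F .F) .F) .I (.N (.N .O .F .F) (.N (.N .O .F .F) .F .F) .F)), 4423421, [2, 1, 0], 965, 913, 922⟩,
  ⟨(.N (.N .O (.N (.N .O .F .F) .F .F) .F) .I (.N (.N (.N .O .F .F) .F .F) (.N (.N .O .F .F) .F .F) .F)), 4737326, [2, 0, 0], 965, 912, 923⟩,
  ⟨(.N (.N .O (.N (.N .O .F .F) .F .F) .F) .I (.N (.N (.N .O .F .F) .F .F) .F .F)), 4914533, [2, 1, 0, 0], 934, 911, 924⟩,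
  ⟨(.N (.N .O (.N (.N .O .F .F) .F .F) .F) .I .F), 5064970, [2, 0, 0, 0], 934, 910, 925⟩,
  ⟨(.N (.N .O (.N (.N .O .F .F) .F .F) .F) .O .F), 2757344, [0], 963, 25, 0⟩,
  ⟨(.N (.N .O (.N (.N .O .F .F) .F .F) .F) (.N .O .F .F) .F), 5770569, [1], 965, 926, 927⟩,
  ⟨(.N (.N .O .F .F) (.N .O .F .F) .F), 6339807, [0, 1, 0, 0], 934, 909, 928⟩,
  ⟨(.N (.N (.N .O .F .F) .F .F) (.N .O .F .F) .F), 7522676, [0, 0], 965, 888, 929⟩,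
  ⟨(.N (.N (.N .O .F .F) .F .F) (.N (.N (.N .O .F .F) .F .F) .F .F) .F), 9027490, [1, 0], 1138, 835, 930⟩,
  ⟨(.N (.N (.N (.N .O .F .F) .F .F) .F .F) (.N (.N (.N .O .F .F) .F .F) .F .F) .F), 9443117, [0, 0, 0], 965, 799, 931⟩,
  ⟨(.N (.N (.N (.N .O .F .F) .F .F) .F .F) .F .F), 9725154, [1, 0, 0, 0], 934, 703, 932⟩,
  ⟨.F, 10000000, [0, 0, 0, 0], 934, 553, 933⟩,
  ⟨(.N .O (.N (.N .I .F .F) (.N .I .F .F) .F) (.N (.N .O .F .F) (.N .I .F .F) .F)), 4181136, [2], 131, 312, 0⟩,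
  ⟨(.N .O (.N (.N .I .F .F) (.N .I .F .F) .F) (.N (.N (.N .I .F .F) .F .F) (.N .I .F .F) .F)), 4816164, [2, 0, 0], 1054, 752, 935⟩,
  ⟨(.N .O (.N (.N .I .F .F) (.N .O .F .F) .F) (.N (.N (.N .I .F .F) .F .F) (.N .I .F .F) .F)), 4421782, [1], 888, 163, 0⟩,
  ⟨(.N .O (.N (.N .I .F .F) (.N (.N .I .F .F) .F .F) .F) (.N (.N (.N .I .F .F) .F .F) (.N .I .F .F) .F)), 5120918, [1, 1, 0], 1054, 936, 937⟩,
  ⟨(.N .O (.N (.N .O .F .F) (.N (.N .I .F .F) .F .F) .F) (.N (.N (.N .I .F .F) .F .F) (.N .I .F .F) .F)), 4532213, [1], 1127, 163, 0⟩,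
  ⟨(.N .O (.N (.N (.N .I .F .F) .F .F) (.N (.N .I .F .F) .F .F) .F) (.N (.N (.N .I .F .F) .F .F) (.N .I .F .F) .F)), 5377090, [1, 0, 0], 1054, 938, 939⟩,
  ⟨(.N .O (.N (.N (.N .I .F .F) .F .F) (.N (.N .I .F .F) .F .F) .F) .I), 3497266, [1], 1188, 0, 0⟩,
  ⟨(.N .O (.N (.N (.N .I .F .F) .F .F) (.N (.N .I .F .F) .F .F) .F) (.N (.N (.N .I .F .F) .F .F) (.N .O .F .F) .F)), 4723139, [2], 226, 941, 0⟩,
  ⟨(.N .O (.N (.N (.N .I .F .F) .F .F) (.N (.N .I .F .F) .F .F) .F) (.N (.N (.N .I .F .F) .F .F) .F .F)), 5723738, [2, 1, 0], 934, 940, 942⟩,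
  ⟨(.N .O (.N (.N .O .F .F) (.N .I .F .F) .F) (.N (.N (.N .I .F .F) .F .F) (.N .I .F .F) .F)), 4421782, [1], 131, 163, 0⟩,
  ⟨(.N .O (.N (.N (.N .I .F .F) .F .F) (.N .I .F .F) .F) (.N (.N (.N .I .F .F) .F .F) (.N .I .F .F) .F)), 5120918, [1, 0, 0], 1054, 936, 944⟩,
  ⟨(.N .O (.N (.N (.N .I .F .F) .F .F) (.N .I .F .F) .F) .I), 3060863, [1], 132, 0, 0⟩,
  ⟨(.N .O (.N (.N (.N .I .F .F) .F .F) (.N .I .F .F) .F) (.N (.N (.N .I .F .F) .F .F) (.N .O .F .F) .F)), 4532213, [2], 226, 946, 0⟩,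
  ⟨(.N .O (.N (.N (.N .I .F .F) .F .F) (.N .I .F .F) .F) (.N (.N (.N .I .F .F) .F .F) .F .F)), 5500188, [2, 1, 0], 934, 945, 947⟩,
  ⟨(.N .O .I (.N (.N (.N .I .F .F) .F .F) .F .F)), 3794662, [2], 968, 0, 0⟩,
  ⟨(.N .O (.N (.N (.N .I .F .F) .F .F) (.N .O .F .F) .F) (.N (.N (.N .I .F .F) .F .F) .F .F)), 4853250, [1], 226, 949, 0⟩,
  ⟨(.N .O (.N (.N (.N .I .F .F) .F .F) (.N (.N .O .F .F) .F .F) .F) (.N (.N (.N .I .F .F) .F .F) .F .F)), 5418334, [1, 1, 0], 965, 948, 950⟩,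
  ⟨(.N .O (.N (.N (.N .I .F .F) .F .F) .F .F) (.N (.N (.N .I .F .F) .F .F) .F .F)), 5845126, [1, 1, 0, 0], 934, 943, 951⟩,
  ⟨(.N .O (.N (.N (.N .I .F .F) .F .F) .F .F) (.N (.N (.N .O .F .F) .F .F) .F .F)), 5431092, [2, 0], 1138, 321, 323⟩,
  ⟨(.N .O (.N (.N (.N .I .F .F) .F .F) .F .F) .F), 5912200, [2, 0, 0, 0], 934, 952, 953⟩,
  ⟨(.N .O (.N (.N .I .F .F) (.N (.N .O .F .F) .F .F) .F) (.N (.N (.N .I .F .F) .F .F) (.N .I .F .F) .F)), 4914821, [1], 1013, 163, 0⟩,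
  ⟨(.N .O (.N (.N .I .F .F) .F .F) (.N (.N (.N .I .F .F) .F .F) (.N .I .F .F) .F)), 5291959, [1, 1, 0, 0], 934, 938, 955⟩,
  ⟨(.N .O (.N (.N .I .F .F) .F .F) .I), 3398870, [1], 1024, 0, 0⟩,
  ⟨(.N .O (.N (.N .I .F .F) .F .F) (.N (.N (.N .I .F .F) .F .F) (.N .O .F .F) .F)), 4680091, [2], 226, 957, 0⟩,
  ⟨(.N .O (.N (.N .I .F .F) .F .F) (.N (.N (.N .I .F .F) .F .F) .F .F)), 5659648, [2, 1, 0], 934, 956, 958⟩,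
  ⟨(.N .O (.N (.N .I .F .F) .F .F) (.N (.N .O .F .F) .F .F)), 4673447, [2], 1138, 957, 0⟩,
  ⟨(.N .O (.N (.N .I .F .F) .F .F) (.N (.N (.N .O .F .F) .F .F) .F .F)), 5275638, [2, 0, 0], 965, 764, 960⟩,
  ⟨(.N .O (.N (.N .I .F .F) .F .F) .F), 5741733, [2, 0, 0, 0], 934, 959, 961⟩,
  ⟨(.N .O (.N (.N .O .F .F) .F .F) .F), 4901716, [1, 0], 965, 52, 908⟩,
  ⟨(.N .O (.N (.N (.N .O .F .F) .F .F) .F .F) .F), 5515069, [1, 0, 0], 965, 962, 963⟩,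
  ⟨(.N .O .F .F), 5987725, [1, 0, 0, 0], 934, 954, 964⟩,
  ⟨(.N (.N (.N .O .F .F) .F .F) .F .F), 9326132, [1, 0, 0, 0], 934, 363, 931⟩,
  ⟨(.N (.N .O (.N .O .F .F) .F) .O .F), 1913795, [0], 908, 25, 0⟩,
  ⟨(.N (.N (.N .I .F .F) .F .F) .F .F), 9326132, [1, 0, 0, 0], 934, 227, 799⟩,
  ⟨(.N (.N .I .F .F) (.N (.N .I .F .F) .F .F) .F), 7522676, [1, 0], 1054, 54, 888⟩,
  ⟨(.N .I (.N (.N .O .F .F) .F .F) .O), 3398870, [1], 1138, 0, 0⟩,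
  ⟨(.N .I (.N (.N .O .F .F) .F .F) (.N (.N .I (.N .I .F .F) .F) .I .F)), 991124, [2], 1139, 0, 970⟩,
  ⟨(.N .O (.N (.N .O .F .F) .F .F) (.N (.N .I (.N .I .F .F) .F) .I .F)), 3690880, [1], 1138, 27, 0⟩,
  ⟨(.N (.N .I (.N .I .F .F) .F) (.N (.N .O .F .F) .F .F) (.N (.N .I (.N .I .F .F) .F) .I .F)), 2733783, [0], 26, 971, 972⟩,
  ⟨(.N .O (.N (.N .O .F .F) .F .F) .I), 3398870, [1], 1138, 0, 0⟩,
  ⟨(.N (.N .I (.N .I .F .F) .F) (.N (.N .O .F .F) .F .F) .I), 1830048, [0], 26, 0, 974⟩,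
  ⟨(.N (.N .I (.N .I .F .F) .F) (.N (.N .O .F .F) .F .F) .O), 3925816, [1], 1138, 149, 0⟩,
  ⟨(.N (.N .I (.N .I .F .F) .F) (.N (.N .O .F .F) .F .F) (.N (.N .I (.N .I .F .F) .F) .O .F)), 4950349, [2], 1140, 975, 976⟩,
  ⟨(.N (.N .I (.N .I .F .F) .F) (.N (.N .O .F .F) .F .F) (.N (.N .I (.N .I .F .F) .F) (.N .I .F .F) .F)), 4279227, [2, 1], 1054, 973, 977⟩,
  ⟨(.N .I (.N (.N .O .F .F) .F .F) (.N (.N .I (.N .I .F .F) .F) (.N .I .F .F) .F)), 2697967, [2], 1141, 0, 970⟩,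
  ⟨(.N .O (.N (.N .O .F .F) .F .F) (.N (.N .I (.N .I .F .F) .F) (.N .I .F .F) .F)), 4171625, [1], 1138, 32, 0⟩,
  ⟨(.N (.N .I (.N .O .F .F) .F) (.N (.N .O .F .F) .F .F) (.N (.N .I (.N .I .F .F) .F) (.N .I .F .F) .F)), 5399379, [0], 907, 979, 980⟩,
  ⟨(.N (.N .I (.N (.N .I .F .F) .F .F) .F) (.N (.N .O .F .F) .F .F) (.N (.N .I (.N .I .F .F) .F) (.N .I .F .F) .F)), 4962613, [0, 1, 0], 1054, 978, 981⟩,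
  ⟨(.N .I (.N (.N .O .F .F) .F .F) (.N .I (.N .I .F .F) .F)), 1830048, [2], 26, 0, 970⟩,
  ⟨(.N .O (.N (.N .O .F .F) .F .F) (.N .I (.N .I .F .F) .F)), 3925816, [1], 1138, 35, 0⟩,
  ⟨(.N (.N .I (.N (.N .I .F .F) .F .F) .F) (.N (.N .O .F .F) .F .F) (.N .I (.N .I .F .F) .F)), 4217440, [0], 1025, 983, 984⟩,
  ⟨(.N (.N .I (.N (.N .I .F .F) .F .F) .F) (.N (.N .O .F .F) .F .F) .I), 2631723, [0], 1025, 0, 974⟩,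
  ⟨(.N (.N .I (.N (.N .I .F .F) .F .F) .F) (.N (.N .O .F .F) .F .F) .O), 4146783, [1], 1138, 382, 0⟩,
  ⟨(.N (.N .I (.N (.N .I .F .F) .F .F) .F) (.N (.N .O .F .F) .F .F) (.N .O (.N .I .F .F) .F)), 5727426, [2], 52, 986, 987⟩,
  ⟨(.N (.N .I (.N (.N .I .F .F) .F .F) .F) (.N (.N .O .F .F) .F .F) (.N (.N .I (.N .O .F .F) .F) (.N .I .F .F) .F)), 5657998, [2, 0], 907, 985, 988⟩,
  ⟨(.N (.N .I (.N (.N .I .F .F) .F .F) .F) (.N (.N .O .F .F) .F .F) (.N (.N .I .F .F) (.N .I .F .F) .F)), 5584396, [2, 0, 1, 0], 934, 982, 989⟩,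
  ⟨(.N .I (.N (.N .O .F .F) .F .F) (.N (.N .I .F .F) (.N .I .F .F) .F)), 3429290, [2], 54, 0, 970⟩,
  ⟨(.N .O (.N (.N .O .F .F) .F .F) (.N (.N .I .F .F) (.N .I .F .F) .F)), 4366210, [1], 1138, 41, 0⟩,
  ⟨(.N (.N .I (.N (.N .O .F .F) .F .F) .F) (.N (.N .O .F .F) .F .F) (.N (.N .I .F .F) (.N .I .F .F) .F)), 6058306, [0], 1036, 991, 992⟩,
  ⟨(.N (.N .I .F .F) (.N (.N .O .F .F) .F .F) (.N (.N .I .F .F) (.N .I .F .F) .F)), 6095441, [0, 1, 0, 0], 934, 990, 993⟩,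
  ⟨(.N (.N .I .F .F) (.N (.N .O .F .F) .F .F) .I), 3286033, [0], 1054, 0, 974⟩,
  ⟨(.N (.N .I .F .F) (.N (.N .O .F .F) .F .F) .O), 4312489, [1], 1138, 392, 0⟩,
  ⟨(.N (.N .I .F .F) (.N (.N .O .F .F) .F .F) (.N (.N .I .F .F) (.N .O .F .F) .F)), 6690614, [2], 888, 995, 996⟩,
  ⟨(.N (.N .I .F .F) (.N (.N .O .F .F) .F .F) (.N (.N .I .F .F) (.N (.N .I .F .F) .F .F) .F)), 6647585, [2, 1, 0], 1054, 994, 997⟩,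
  ⟨(.N (.N .I .F .F) (.N (.N .O .F .F) .F .F) (.N (.N .I .F .F) (.N (.N .O .F .F) .F .F) .F)), 6928195, [2], 1013, 995, 996⟩,
  ⟨(.N (.N .I .F .F) (.N (.N .O .F .F) .F .F) (.N (.N .I .F .F) .F .F)), 7061981, [2, 1, 0, 0], 934, 998, 999⟩,
  ⟨(.N (.N .I .F .F) (.N (.N .O .F .F) .F .F) (.N (.N (.N .I .F .F) .F .F) .F .F)), 7522211, [2, 0, 0], 1054, 1000, 677⟩,
  ⟨(.N (.N .I .F .F) (.N (.N .O .F .F) .F .F) (.N (.N (.N .O .F .F) .F .F) (.N .I .F .F) .F)), 6928195, [2], 835, 995, 996⟩,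
  ⟨(.N .O .I (.N (.N (.N .O .F .F) .F .F) (.N .O .F .F) .F)), 3060863, [2], 930, 0, 0⟩,
  ⟨(.N (.N .I .F .F) .I (.N (.N (.N .O .F .F) .F .F) (.N .O .F .F) .F)), 3201531, [0], 1054, 0, 1003⟩,
  ⟨(.N (.N .I .F .F) .O (.N (.N (.N .O .F .F) .F .F) (.N .O .F .F) .F)), 3822212, [2], 930, 634, 0⟩,
  ⟨(.N (.N .I .F .F) (.N (.N .O .F .F) (.N (.N .I .F .F) .F .F) .F) (.N (.N (.N .O .F .F) .F .F) (.N .O .F .F) .F)), 6743752, [1], 1127, 1004, 1005⟩,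
  ⟨(.N (.N .I .F .F) (.N (.N .O .F .F) (.N .I .F .F) .F) (.N (.N (.N .O .F .F) .F .F) (.N .O .F .F) .F)), 6403224, [1], 131, 1004, 1005⟩,
  ⟨(.N (.N .I .F .F) (.N (.N .O .F .F) (.N .O .F .F) .F) (.N (.N .I .F .F) (.N .O .F .F) .F)), 6026282, [2], 888, 650, 651⟩,
  ⟨(.N (.N .I .F .F) (.N (.N .O .F .F) (.N .O .F .F) .F) (.N (.N (.N .O .F .F) .F .F) (.N .O .F .F) .F)), 6203348, [2, 0, 0], 965, 1008, 673⟩,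
  ⟨(.N (.N .I .F .F) (.N (.N .O .F .F) (.N (.N .O .F .F) .F .F) .F) (.N (.N (.N .O .F .F) .F .F) (.N .O .F .F) .F)), 6656667, [1, 1, 0], 965, 1007, 1009⟩,
  ⟨(.N (.N .I .F .F) (.N (.N .O .F .F) .F .F) (.N (.N (.N .O .F .F) .F .F) (.N .O .F .F) .F)), 6974301, [1, 1, 0, 0], 934, 1006, 1010⟩,
  ⟨(.N (.N .I .F .F) (.N (.N .O .F .F) .F .F) (.N (.N (.N .O .F .F) .F .F) .F .F)), 7624873, [2, 1, 0], 934, 1002, 1011⟩,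
  ⟨(.N (.N .I .F .F) (.N (.N .O .F .F) .F .F) .F), 7847634, [2, 0, 0, 0], 934, 1001, 1012⟩,
  ⟨(.N (.N .I .F .F) (.N (.N (.N .I .F .F) .F .F) .F .F) .F), 8007267, [1, 0, 0], 1054, 969, 1013⟩,
  ⟨(.N (.N .I .F .F) (.N (.N (.N .O .F .F) .F .F) (.N .I .F .F) .F) (.N (.N .O .F .F) .F .F)), 6928195, [1], 835, 633, 635⟩,
  ⟨(.N (.N .I .F .F) (.N (.N (.N .O .F .F) .F .F) (.N .O .F .F) .F) .I), 3201531, [0], 1054, 0, 772⟩,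
  ⟨(.N (.N .I .F .F) (.N (.N (.N .O .F .F) .F .F) (.N .O .F .F) .F) .O), 3822212, [1], 930, 392, 0⟩,
  ⟨(.N (.N .I .F .F) (.N (.N (.N .O .F .F) .F .F) (.N .O .F .F) .F) (.N (.N .O .F .F) (.N (.N .I .F .F) .F .F) .F)), 6743752, [2], 1127, 1016, 1017⟩,
  ⟨(.N (.N .I .F .F) (.N (.N .I .F .F) (.N .O .F .F) .F) (.N (.N .O .F .F) (.N (.N .O .F .F) .F .F) .F)), 6403224, [1], 888, 646, 647⟩,
  ⟨(.N (.N .I .F .F) (.N (.N (.N .O .F .F) .F .F) (.N .O .F .F) .F) (.N (.N .O .F .F) (.N (.N .O .F .F) .F .F) .F)), 6656667, [1, 0, 0], 965, 1019, 674⟩,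
  ⟨(.N (.N .I .F .F) (.N (.N (.N .O .F .F) .F .F) (.N .O .F .F) .F) (.N (.N .O .F .F) .F .F)), 6974301, [2, 1, 0, 0], 934, 1018, 1020⟩,
  ⟨(.N (.N .I .F .F) (.N (.N (.N .O .F .F) .F .F) .F .F) (.N (.N .O .F .F) .F .F)), 7624873, [1, 1, 0], 934, 1015, 1021⟩,
  ⟨(.N (.N .I .F .F) (.N (.N (.N .O .F .F) .F .F) .F .F) .F), 8151335, [2, 0, 0], 934, 397, 1022⟩,
  ⟨(.N (.N .I .F .F) .F .F), 8353394, [1, 0, 0, 0], 934, 1014, 1023⟩,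
  ⟨(.N .I (.N (.N .I .F .F) .F .F) .F), 4901716, [1, 0], 1054, 26, 907⟩,
  ⟨(.N .I (.N (.N .O .F .F) .F .F) (.N (.N .I .F .F) .F .F)), 4673447, [2], 1024, 0, 970⟩,
  ⟨(.N .I (.N (.N .O .F .F) .F .F) (.N (.N (.N .I .F .F) .F .F) .F .F)), 5275638, [2, 0, 0], 1054, 1026, 298⟩,
  ⟨(.N .I (.N (.N .O .F .F) .F .F) (.N (.N (.N .O .F .F) .F .F) (.N .I .F .F) .F)), 4680091, [2], 835, 0, 970⟩,
  ⟨(.N .I (.N (.N .O .F .F) (.N (.N .I .F .F) .F .F) .F) (.N (.N (.N .O .F .F) .F .F) (.N .O .F .F) .F)), 4914821, [1], 1127, 0, 825⟩,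
  ⟨(.N .I (.N (.N .O .F .F) (.N .I .F .F) .F) (.N (.N (.N .O .F .F) .F .F) (.N .O .F .F) .F)), 4421782, [1], 131, 0, 825⟩,
  ⟨(.N .I (.N (.N .O .F .F) (.N .O .F .F) .F) (.N (.N .I .F .F) (.N .O .F .F) .F)), 4181136, [2], 888, 0, 274⟩,
  ⟨(.N .I (.N (.N .O .F .F) (.N .O .F .F) .F) (.N (.N (.N .O .F .F) .F .F) (.N .O .F .F) .F)), 4816164, [2, 0, 0], 965, 1031, 288⟩,
  ⟨(.N .I (.N (.N .O .F .F) (.N (.N .O .F .F) .F .F) .F) (.N (.N (.N .O .F .F) .F .F) (.N .O .F .F) .F)), 5120918, [1, 1, 0], 965, 1030, 1032⟩,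
  ⟨(.N .I (.N (.N .O .F .F) .F .F) (.N (.N (.N .O .F .F) .F .F) (.N .O .F .F) .F)), 5291959, [1, 1, 0, 0], 934, 1029, 1033⟩,
  ⟨(.N .I (.N (.N .O .F .F) .F .F) (.N (.N (.N .O .F .F) .F .F) .F .F)), 5659648, [2, 1, 0], 934, 1028, 1034⟩,
  ⟨(.N .I (.N (.N .O .F .F) .F .F) .F), 5741733, [2, 0, 0, 0], 934, 1027, 1035⟩,
  ⟨(.N .I (.N (.N (.N .I .F .F) .F .F) .F .F) .F), 5515069, [1, 0, 0], 1054, 1025, 1036⟩,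
  ⟨(.N .I (.N (.N (.N .O .F .F) .F .F) .F .F) (.N (.N (.N .I .F .F) .F .F) .F .F)), 5431092, [2, 0], 1024, 729, 745⟩,
  ⟨(.N .I .O (.N (.N (.N .O .F .F) .F .F) .F .F)), 3794662, [2], 966, 0, 0⟩,
  ⟨(.N .I (.N (.N (.N .O .F .F) .F .F) (.N .I .F .F) .F) (.N (.N (.N .O .F .F) .F .F) .F .F)), 4853250, [1], 835, 0, 1039⟩,
  ⟨(.N .I (.N (.N (.N .O .F .F) .F .F) (.N .O .F .F) .F) .O), 3060863, [1], 930, 0, 0⟩,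
  ⟨(.N .I (.N (.N (.N .O .F .F) .F .F) (.N .O .F .F) .F) (.N (.N (.N .O .F .F) .F .F) (.N .I .F .F) .F)), 4532213, [2], 835, 0, 1041⟩,
  ⟨(.N .I (.N (.N .I .F .F) (.N .O .F .F) .F) (.N (.N (.N .O .F .F) .F .F) (.N .O .F .F) .F)), 4421782, [1], 888, 0, 825⟩,
  ⟨(.N .I (.N (.N (.N .O .F .F) .F .F) (.N .O .F .F) .F) (.N (.N (.N .O .F .F) .F .F) (.N .O .F .F) .F)), 5120918, [1, 0, 0], 965, 1043, 1032⟩,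
  ⟨(.N .I (.N (.N (.N .O .F .F) .F .F) (.N .O .F .F) .F) (.N (.N (.N .O .F .F) .F .F) .F .F)), 5500188, [2, 1, 0], 934, 1042, 1044⟩,
  ⟨(.N .I (.N (.N (.N .O .F .F) .F .F) (.N (.N .I .F .F) .F .F) .F) (.N (.N (.N .O .F .F) .F .F) .F .F)), 5418334, [1, 1, 0], 1054, 1040, 1045⟩,
  ⟨(.N .I (.N (.N (.N .O .F .F) .F .F) (.N (.N .O .F .F) .F .F) .F) .O), 3497266, [1], 1187, 0, 0⟩,
  ⟨(.N .I (.N (.N (.N .O .F .F) .F .F) (.N (.N .O .F .F) .F .F) .F) (.N (.N (.N .O .F .F) .F .F) (.N .I .F .F) .F)), 4723139, [2], 835, 0, 1047⟩,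
  ⟨(.N .I (.N (.N .I .F .F) (.N (.N .O .F .F) .F .F) .F) (.N (.N (.N .O .F .F) .F .F) (.N .O .F .F) .F)), 4532213, [1], 1013, 0, 825⟩,
  ⟨(.N .I (.N (.N (.N .O .F .F) .F .F) (.N (.N .O .F .F) .F .F) .F) (.N (.N (.N .O .F .F) .F .F) (.N .O .F .F) .F)), 5377090, [1, 0, 0], 965, 1049, 1033⟩,
  ⟨(.N .I (.N (.N (.N .O .F .F) .F .F) (.N (.N .O .F .F) .F .F) .F) (.N (.N (.N .O .F .F) .F .F) .F .F)), 5723738, [2, 1, 0], 934, 1048, 1050⟩,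
  ⟨(.N .I (.N (.N (.N .O .F .F) .F .F) .F .F) (.N (.N (.N .O .F .F) .F .F) .F .F)), 5845126, [1, 1, 0, 0], 934, 1046, 1051⟩,
  ⟨(.N .I (.N (.N (.N .O .F .F) .F .F) .F .F) .F), 5912200, [2, 0, 0, 0], 934, 1038, 1052⟩,
  ⟨(.N .I .F .F), 5987725, [1, 0, 0, 0], 934, 1037, 1053⟩,
  ⟨(.N (.N .O (.N .O .F .F) .F) .I .F), 4771444, [2], 934, 0, 444⟩,
  ⟨(.N (.N .O (.N .O .F .F) .F) (.N .O .F .F) .F), 5064525, [1], 965, 1055, 967⟩,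
  ⟨(.N (.N (.N .O .F .F) (.N (.N .I .F .F) .F .F) .F) (.N (.N .I .F .F) .F .F) (.N (.N .O .F .F) .F .F)), 7866536, [0], 1127, 272, 960⟩,
  ⟨(.N (.N (.N .O .F .F) (.N (.N .O .F .F) .F .F) .F) (.N (.N .I .F .F) .F .F) .I), 4546694, [1], 1024, 0, 326⟩,
  ⟨(.N .I (.N (.N .I .F .F) .F .F) .O), 3398870, [1], 1024, 0, 0⟩,
  ⟨(.N (.N (.N .O .F .F) (.N (.N .O .F .F) .F .F) .F) (.N (.N .I .F .F) .F .F) .O), 4123011, [0], 1091, 1059, 0⟩,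
  ⟨(.N (.N (.N .O .F .F) (.N (.N .O .F .F) .F .F) .F) (.N (.N .I .F .F) .F .F) (.N (.N .O .F .F) (.N (.N .I .F .F) .F .F) .F)), 7501461, [2], 1127, 1058, 1060⟩,
  ⟨(.N .I (.N (.N .I .F .F) .F .F) (.N (.N .O .F .F) (.N (.N .O .F .F) .F .F) .F)), 4546694, [1], 1024, 0, 294⟩,
  ⟨(.N .O (.N (.N .I .F .F) .F .F) (.N (.N .O .F .F) (.N (.N .O .F .F) .F .F) .F)), 4123011, [2], 1091, 957, 0⟩,
  ⟨(.N (.N (.N .O .F .F) (.N .I .F .F) .F) (.N (.N .I .F .F) .F .F) (.N (.N .O .F .F) (.N (.N .O .F .F) .F .F) .F)), 7226206, [0], 131, 1062, 1063⟩,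
  ⟨(.N (.N (.N .O .F .F) (.N .O .F .F) .F) (.N (.N .I .F .F) .F .F) .I), 4366210, [1], 1024, 0, 334⟩,
  ⟨(.N (.N (.N .O .F .F) (.N .O .F .F) .F) (.N (.N .I .F .F) .F .F) .O), 3429290, [0], 929, 1059, 0⟩,
  ⟨(.N (.N (.N .O .F .F) (.N .O .F .F) .F) (.N (.N .I .F .F) .F .F) (.N (.N .O .F .F) (.N .I .F .F) .F)), 6789103, [2], 131, 1065, 1066⟩,
  ⟨(.N .I (.N (.N .I .F .F) .F .F) (.N (.N .O .F .F) (.N .O .F .F) .F)), 4366210, [1], 1024, 0, 99⟩,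
  ⟨(.N .O (.N (.N .I .F .F) .F .F) (.N (.N .O .F .F) (.N .O .F .F) .F)), 3429290, [2], 929, 957, 0⟩,
  ⟨(.N (.N .I (.N .O .F .F) .F) (.N (.N .I .F .F) .F .F) (.N (.N .O .F .F) (.N .O .F .F) .F)), 6163656, [0], 907, 1068, 1069⟩,
  ⟨(.N (.N .O (.N .O .F .F) .F) (.N (.N .I .F .F) .F .F) .I), 3925816, [1], 1024, 0, 116⟩,
  ⟨(.N (.N .O (.N .O .F .F) .F) (.N (.N .I .F .F) .F .F) .O), 1830048, [0], 908, 1059, 0⟩,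
  ⟨(.N (.N .O (.N .O .F .F) .F) (.N (.N .I .F .F) .F .F) (.N (.N .O .F .F) (.N .O .F .F) .F)), 4933564, [2], 929, 1071, 1072⟩,
  ⟨(.N (.N (.N .O (.N .I .F .F) .F) (.N .O .F .F) .F) (.N (.N .I .F .F) .F .F) (.N (.N .O .F .F) (.N .O .F .F) .F)), 6269162, [0, 0], 52, 1070, 1073⟩,
  ⟨(.N (.N (.N .O (.N .O .F .F) .F) (.N .O .F .F) .F) (.N (.N .I .F .F) .F .F) .I), 4171625, [1], 1024, 0, 345⟩,
  ⟨(.N (.N (.N .O (.N .O .F .F) .F) (.N .O .F .F) .F) (.N (.N .I .F .F) .F .F) .O), 2697967, [0], 1056, 1059, 0⟩,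
  ⟨(.N (.N (.N .O (.N .O .F .F) .F) (.N .O .F .F) .F) (.N (.N .I .F .F) .F .F) (.N .I (.N .O .F .F) .F)), 5767794, [2], 907, 1075, 1076⟩,
  ⟨(.N .I (.N (.N .I .F .F) .F .F) (.N .O (.N .O .F .F) .F)), 3925816, [1], 1024, 0, 107⟩,
  ⟨(.N .O (.N (.N .I .F .F) .F .F) (.N .O (.N .O .F .F) .F)), 1830048, [2], 908, 957, 0⟩,
  ⟨(.N (.N (.N .O (.N .O .F .F) .F) .I .F) (.N (.N .I .F .F) .F .F) (.N .O (.N .O .F .F) .F)), 4950349, [0], 1055, 1078, 1079⟩,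
  ⟨(.N (.N (.N .O (.N .O .F .F) .F) .O .F) (.N (.N .I .F .F) .F .F) .I), 3690880, [1], 1024, 0, 352⟩,
  ⟨(.N (.N (.N .O (.N .O .F .F) .F) .O .F) (.N (.N .I .F .F) .F .F) .O), 991124, [0], 967, 1059, 0⟩,
  ⟨(.N (.N (.N .O (.N .O .F .F) .F) .O .F) (.N (.N .I .F .F) .F .F) (.N .O (.N .O .F .F) .F)), 2733783, [2], 908, 1081, 1082⟩,
  ⟨(.N (.N (.N .O (.N .O .F .F) .F) (.N .O .F .F) .F) (.N (.N .I .F .F) .F .F) (.N .O (.N .O .F .F) .F)), 4279227, [0, 1], 965, 1080, 1083⟩,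
  ⟨(.N (.N (.N .O (.N .O .F .F) .F) (.N .O .F .F) .F) (.N (.N .I .F .F) .F .F) (.N (.N .O .F .F) (.N .O .F .F) .F)), 5642672, [2, 0], 965, 1077, 1084⟩,
  ⟨(.N (.N (.N .O .F .F) (.N .O .F .F) .F) (.N (.N .I .F .F) .F .F) (.N (.N .O .F .F) (.N .O .F .F) .F)), 6230008, [0, 0, 1, 0], 934, 1074, 1085⟩,
  ⟨(.N (.N (.N .O .F .F) (.N .O .F .F) .F) (.N (.N .I .F .F) .F .F) (.N (.N .O .F .F) (.N (.N .O .F .F) .F .F) .F)), 6773132, [2, 1, 0], 965, 1067, 1086⟩,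
  ⟨(.N (.N (.N .O .F .F) (.N (.N .O .F .F) .F .F) .F) (.N (.N .I .F .F) .F .F) (.N (.N .O .F .F) (.N (.N .O .F .F) .F .F) .F)), 7289751, [0, 1, 0], 965, 1064, 1087⟩,
  ⟨(.N (.N (.N .O .F .F) (.N (.N .O .F .F) .F .F) .F) (.N (.N .I .F .F) .F .F) (.N (.N .O .F .F) .F .F)), 7669698, [2, 1, 0, 0], 934, 1061, 1088⟩,
  ⟨(.N (.N (.N .O .F .F) .F .F) (.N (.N .I .F .F) .F .F) (.N (.N .O .F .F) .F .F)), 8042209, [0, 1, 0, 0], 934, 1057, 1089⟩,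
  ⟨(.N (.N .O .F .F) (.N (.N .O .F .F) .F .F) .F), 7522676, [1, 0], 965, 131, 929⟩,
  ⟨(.N (.N .O .F .F) (.N (.N .I .F .F) (.N .I .F .F) .F) (.N (.N .O .F .F) (.N .I .F .F) .F)), 6026282, [2], 131, 411, 412⟩,
  ⟨(.N (.N .O .F .F) (.N (.N .I .F .F) (.N .I .F .F) .F) (.N (.N (.N .I .F .F) .F .F) (.N .I .F .F) .F)), 6203348, [2, 0, 0], 1054, 410, 1092⟩,
  ⟨(.N (.N .O .F .F) .I (.N (.N (.N .I .F .F) .F .F) (.N .I .F .F) .F)), 3822212, [2], 132, 0, 55⟩,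
  ⟨(.N .I .O (.N (.N (.N .I .F .F) .F .F) (.N .I .F .F) .F)), 3060863, [2], 132, 0, 0⟩,
  ⟨(.N (.N .O .F .F) .O (.N (.N (.N .I .F .F) .F .F) (.N .I .F .F) .F)), 3201531, [0], 965, 1095, 0⟩,
  ⟨(.N (.N .O .F .F) (.N (.N .I .F .F) (.N .O .F .F) .F) (.N (.N (.N .I .F .F) .F .F) (.N .I .F .F) .F)), 6403224, [1], 888, 1094, 1096⟩,
  ⟨(.N (.N .O .F .F) (.N (.N .I .F .F) (.N (.N .I .F .F) .F .F) .F) (.N (.N (.N .I .F .F) .F .F) (.N .I .F .F) .F)), 6656667, [1, 1, 0], 1054, 1093, 1097⟩,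
  ⟨(.N (.N .O .F .F) (.N (.N .I .F .F) (.N (.N .O .F .F) .F .F) .F) (.N (.N (.N .I .F .F) .F .F) (.N .I .F .F) .F)), 6743752, [1], 1013, 1094, 1096⟩,
  ⟨(.N (.N .O .F .F) (.N (.N .I .F .F) .F .F) (.N (.N (.N .I .F .F) .F .F) (.N .I .F .F) .F)), 6974301, [1, 1, 0, 0], 934, 1098, 1099⟩,
  ⟨(.N (.N .O .F .F) (.N (.N .I .F .F) .F .F) .I), 4312489, [1], 1024, 0, 59⟩,
  ⟨(.N (.N .O .F .F) (.N (.N .I .F .F) .F .F) .O), 3286033, [0], 965, 1059, 0⟩,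
  ⟨(.N (.N .O .F .F) (.N (.N .I .F .F) .F .F) (.N (.N (.N .I .F .F) .F .F) (.N .O .F .F) .F)), 6928195, [2], 226, 1101, 1102⟩,
  ⟨(.N (.N .O .F .F) (.N (.N .I .F .F) .F .F) (.N (.N (.N .I .F .F) .F .F) .F .F)), 7624873, [2, 1, 0], 934, 1100, 1103⟩,
  ⟨(.N (.N .O .F .F) (.N (.N .I .F .F) .F .F) (.N (.N .O .F .F) (.N (.N .I .F .F) .F .F) .F)), 6928195, [2], 1127, 1101, 1102⟩,
  ⟨(.N (.N .O .F .F) (.N (.N .I .F .F) .F .F) (.N (.N .O .F .F) (.N .I .F .F) .F)), 6690614, [2], 131, 1101, 1102⟩,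
  ⟨(.N (.N .O (.N (.N .I .F .F) .F .F) .F) (.N (.N .I .F .F) .F .F) (.N (.N .O .F .F) (.N .O .F .F) .F)), 6058306, [0], 962, 1068, 1069⟩,
  ⟨(.N (.N .O (.N (.N .O .F .F) .F .F) .F) (.N (.N .I .F .F) .F .F) .I), 4146783, [1], 1024, 0, 103⟩,
  ⟨(.N (.N .O (.N (.N .O .F .F) .F .F) .F) (.N (.N .I .F .F) .F .F) .O), 2631723, [0], 963, 1059, 0⟩,
  ⟨(.N (.N .O (.N (.N .O .F .F) .F .F) .F) (.N (.N .I .F .F) .F .F) (.N .I (.N .O .F .F) .F)), 5727426, [2], 907, 1108, 1109⟩,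
  ⟨(.N (.N .O (.N (.N .O .F .F) .F .F) .F) (.N (.N .I .F .F) .F .F) (.N .O (.N .O .F .F) .F)), 4217440, [0], 963, 1078, 1079⟩,
  ⟨(.N (.N .O (.N (.N .O .F .F) .F .F) .F) (.N (.N .I .F .F) .F .F) (.N (.N .O (.N .I .F .F) .F) (.N .O .F .F) .F)), 5657998, [2, 0], 52, 1110, 1111⟩,
  ⟨(.N .I (.N (.N .I .F .F) .F .F) (.N (.N .O (.N .O .F .F) .F) (.N .O .F .F) .F)), 4171625, [1], 1024, 0, 112⟩,
  ⟨(.N .O (.N (.N .I .F .F) .F .F) (.N (.N .O (.N .O .F .F) .F) (.N .O .F .F) .F)), 2697967, [2], 1056, 957, 0⟩,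
  ⟨(.N (.N .O (.N .I .F .F) .F) (.N (.N .I .F .F) .F .F) (.N (.N .O (.N .O .F .F) .F) (.N .O .F .F) .F)), 5399379, [0], 52, 1113, 1114⟩,
  ⟨(.N (.N .O (.N .O .F .F) .F) (.N (.N .I .F .F) .F .F) (.N (.N .O (.N .O .F .F) .F) .I .F)), 4950349, [2], 1055, 1071, 1072⟩,
  ⟨(.N .I (.N (.N .I .F .F) .F .F) (.N (.N .O (.N .O .F .F) .F) .O .F)), 3690880, [1], 1024, 0, 120⟩,
  ⟨(.N .O (.N (.N .I .F .F) .F .F) (.N (.N .O (.N .O .F .F) .F) .O .F)), 991124, [2], 967, 957, 0⟩,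
  ⟨(.N (.N .O (.N .O .F .F) .F) (.N (.N .I .F .F) .F .F) (.N (.N .O (.N .O .F .F) .F) .O .F)), 2733783, [0], 908, 1117, 1118⟩,
  ⟨(.N (.N .O (.N .O .F .F) .F) (.N (.N .I .F .F) .F .F) (.N (.N .O (.N .O .F .F) .F) (.N .O .F .F) .F)), 4279227, [2, 1], 965, 1116, 1119⟩,
  ⟨(.N (.N .O (.N (.N .O .F .F) .F .F) .F) (.N (.N .I .F .F) .F .F) (.N (.N .O (.N .O .F .F) .F) (.N .O .F .F) .F)), 4962613, [0, 1, 0], 965, 1115, 1120⟩,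
  ⟨(.N (.N .O (.N (.N .O .F .F) .F .F) .F) (.N (.N .I .F .F) .F .F) (.N (.N .O .F .F) (.N .O .F .F) .F)), 5584396, [2, 0, 1, 0], 934, 1112, 1121⟩,
  ⟨(.N (.N .O .F .F) (.N (.N .I .F .F) .F .F) (.N (.N .O .F .F) (.N .O .F .F) .F)), 6095441, [0, 1, 0, 0], 934, 1107, 1122⟩,
  ⟨(.N (.N .O .F .F) (.N (.N .I .F .F) .F .F) (.N (.N .O .F .F) (.N (.N .O .F .F) .F .F) .F)), 6647585, [2, 1, 0], 965, 1106, 1123⟩,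
  ⟨(.N (.N .O .F .F) (.N (.N .I .F .F) .F .F) (.N (.N .O .F .F) .F .F)), 7061981, [2, 1, 0, 0], 934, 1105, 1124⟩,
  ⟨(.N (.N .O .F .F) (.N (.N .I .F .F) .F .F) (.N (.N (.N .O .F .F) .F .F) .F .F)), 7522211, [2, 0, 0], 965, 427, 1125⟩,
  ⟨(.N (.N .O .F .F) (.N (.N .I .F .F) .F .F) .F), 7847634, [2, 0, 0, 0], 934, 1104, 1126⟩,
  ⟨(.N (.N .O .F .F) (.N (.N .O .F .F) (.N .I .F .F) .F) (.N (.N .I .F .F) (.N (.N .I .F .F) .F .F) .F)), 6403224, [1], 131, 415, 416⟩,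
  ⟨(.N (.N .O .F .F) (.N (.N (.N .I .F .F) .F .F) (.N .I .F .F) .F) (.N (.N .I .F .F) (.N (.N .I .F .F) .F .F) .F)), 6656667, [1, 0, 0], 1054, 414, 1128⟩,
  ⟨(.N (.N .O .F .F) (.N (.N (.N .I .F .F) .F .F) (.N .I .F .F) .F) .I), 3822212, [1], 132, 0, 59⟩,
  ⟨(.N (.N .O .F .F) (.N (.N (.N .I .F .F) .F .F) (.N .I .F .F) .F) .O), 3201531, [0], 965, 262, 0⟩,
  ⟨(.N (.N .O .F .F) (.N (.N (.N .I .F .F) .F .F) (.N .I .F .F) .F) (.N (.N .I .F .F) (.N (.N .O .F .F) .F .F) .F)), 6743752, [2], 1013, 1130, 1131⟩,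
  ⟨(.N (.N .O .F .F) (.N (.N (.N .I .F .F) .F .F) (.N .I .F .F) .F) (.N (.N .I .F .F) .F .F)), 6974301, [2, 1, 0, 0], 934, 1129, 1132⟩,
  ⟨(.N (.N .O .F .F) (.N (.N (.N .I .F .F) .F .F) (.N .O .F .F) .F) (.N (.N .I .F .F) .F .F)), 6928195, [1], 226, 424, 425⟩,
  ⟨(.N (.N .O .F .F) (.N (.N (.N .I .F .F) .F .F) .F .F) (.N (.N .I .F .F) .F .F)), 7624873, [1, 1, 0], 934, 1133, 1134⟩,
  ⟨(.N (.N .O .F .F) (.N (.N (.N .I .F .F) .F .F) .F .F) .F), 8151335, [2, 0, 0], 934, 1135, 701⟩,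
  ⟨(.N (.N .O .F .F) (.N (.N (.N .O .F .F) .F .F) .F .F) .F), 8007267, [1, 0, 0], 965, 1127, 1091⟩,
  ⟨(.N (.N .O .F .F) .F .F), 8353394, [1, 0, 0, 0], 934, 1136, 1137⟩,
  ⟨(.N (.N .I (.N .I .F .F) .F) .I .F), 1913795, [0], 26, 0, 0⟩,
  ⟨(.N (.N .I (.N .I .F .F) .F) .O .F), 4771444, [2], 934, 4, 0⟩,
  ⟨(.N (.N .I (.N .I .F .F) .F) (.N .I .F .F) .F), 5064525, [1], 1054, 1139, 1140⟩,
  ⟨(.N (.N (.N .I (.N .I .F .F) .F) .I .F) (.N (.N .O .F .F) .F .F) .I), 991124, [0], 1139, 0, 974⟩,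
  ⟨(.N (.N (.N .I (.N .I .F .F) .F) .I .F) (.N (.N .O .F .F) .F .F) .O), 3690880, [1], 1138, 135, 0⟩,
  ⟨(.N (.N (.N .I (.N .I .F .F) .F) .I .F) (.N (.N .O .F .F) .F .F) (.N .I (.N .I .F .F) .F)), 2733783, [2], 26, 1142, 1143⟩,
  ⟨(.N (.N (.N .I (.N .I .F .F) .F) .O .F) (.N (.N .O .F .F) .F .F) (.N .I (.N .I .F .F) .F)), 4950349, [0], 1140, 983, 984⟩,
  ⟨(.N (.N (.N .I (.N .I .F .F) .F) (.N .I .F .F) .F) (.N (.N .O .F .F) .F .F) (.N .I (.N .I .F .F) .F)), 4279227, [0, 1], 1054, 1144, 1145⟩,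
  ⟨(.N (.N (.N .I (.N .I .F .F) .F) (.N .I .F .F) .F) (.N (.N .O .F .F) .F .F) .I), 2697967, [0], 1141, 0, 974⟩,
  ⟨(.N (.N (.N .I (.N .I .F .F) .F) (.N .I .F .F) .F) (.N (.N .O .F .F) .F .F) .O), 4171625, [1], 1138, 144, 0⟩,
  ⟨(.N (.N (.N .I (.N .I .F .F) .F) (.N .I .F .F) .F) (.N (.N .O .F .F) .F .F) (.N .O (.N .I .F .F) .F)), 5767794, [2], 52, 1147, 1148⟩,
  ⟨(.N (.N (.N .I (.N .I .F .F) .F) (.N .I .F .F) .F) (.N (.N .O .F .F) .F .F) (.N (.N .I .F .F) (.N .I .F .F) .F)), 5642672, [2, 0], 1054, 1146, 1149⟩,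
  ⟨(.N (.N .I (.N .I .F .F) .F) (.N (.N .O .F .F) .F .F) (.N (.N .I .F .F) (.N .I .F .F) .F)), 4933564, [2], 54, 975, 976⟩,
  ⟨(.N (.N .O (.N .I .F .F) .F) (.N (.N .O .F .F) .F .F) (.N (.N .I .F .F) (.N .I .F .F) .F)), 6163656, [0], 52, 991, 992⟩,
  ⟨(.N (.N (.N .I (.N .O .F .F) .F) (.N .I .F .F) .F) (.N (.N .O .F .F) .F .F) (.N (.N .I .F .F) (.N .I .F .F) .F)), 6269162, [0, 0], 907, 1151, 1152⟩,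
  ⟨(.N (.N (.N .I .F .F) (.N .I .F .F) .F) (.N (.N .O .F .F) .F .F) (.N (.N .I .F .F) (.N .I .F .F) .F)), 6230008, [0, 0, 1, 0], 934, 1150, 1153⟩,
  ⟨(.N (.N (.N .I .F .F) (.N .I .F .F) .F) (.N (.N .O .F .F) .F .F) .I), 3429290, [0], 54, 0, 974⟩,
  ⟨(.N (.N (.N .I .F .F) (.N .I .F .F) .F) (.N (.N .O .F .F) .F .F) .O), 4366210, [1], 1138, 158, 0⟩,
  ⟨(.N (.N (.N .I .F .F) (.N .I .F .F) .F) (.N (.N .O .F .F) .F .F) (.N (.N .I .F .F) (.N .O .F .F) .F)), 6789103, [2], 888, 1155, 1156⟩,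
  ⟨(.N (.N (.N .I .F .F) (.N .I .F .F) .F) (.N (.N .O .F .F) .F .F) (.N (.N .I .F .F) (.N (.N .I .F .F) .F .F) .F)), 6773132, [2, 1, 0], 1054, 1154, 1157⟩,
  ⟨(.N .I (.N (.N .O .F .F) .F .F) (.N (.N .I .F .F) (.N (.N .I .F .F) .F .F) .F)), 4123011, [2], 969, 0, 970⟩,
  ⟨(.N .O (.N (.N .O .F .F) .F .F) (.N (.N .I .F .F) (.N (.N .I .F .F) .F .F) .F)), 4546694, [1], 1138, 177, 0⟩,
  ⟨(.N (.N (.N .I .F .F) (.N .O .F .F) .F) (.N (.N .O .F .F) .F .F) (.N (.N .I .F .F) (.N (.N .I .F .F) .F .F) .F)), 7226206, [0], 888, 1159, 1160⟩,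
  ⟨(.N (.N (.N .I .F .F) (.N (.N .I .F .F) .F .F) .F) (.N (.N .O .F .F) .F .F) (.N (.N .I .F .F) (.N (.N .I .F .F) .F .F) .F)), 7289751, [0, 1, 0], 1054, 1158, 1161⟩,
  ⟨(.N (.N (.N .I .F .F) (.N (.N .I .F .F) .F .F) .F) (.N (.N .O .F .F) .F .F) .I), 4123011, [0], 969, 0, 974⟩,
  ⟨(.N (.N (.N .I .F .F) (.N (.N .I .F .F) .F .F) .F) (.N (.N .O .F .F) .F .F) .O), 4546694, [1], 1138, 182, 0⟩,
  ⟨(.N (.N (.N .I .F .F) (.N (.N .I .F .F) .F .F) .F) (.N (.N .O .F .F) .F .F) (.N (.N .I .F .F) (.N (.N .O .F .F) .F .F) .F)), 7501461, [2], 1013, 1163, 1164⟩,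
  ⟨(.N (.N (.N .I .F .F) (.N (.N .I .F .F) .F .F) .F) (.N (.N .O .F .F) .F .F) (.N (.N .I .F .F) .F .F)), 7669698, [2, 1, 0, 0], 934, 1162, 1165⟩,
  ⟨(.N (.N (.N .I .F .F) (.N (.N .O .F .F) .F .F) .F) (.N (.N .O .F .F) .F .F) (.N (.N .I .F .F) .F .F)), 7866536, [0], 1013, 1026, 765⟩,
  ⟨(.N (.N (.N .I .F .F) .F .F) (.N (.N .O .F .F) .F .F) (.N (.N .I .F .F) .F .F)), 8042209, [0, 1, 0, 0], 934, 1166, 1167⟩,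
  ⟨(.N (.N (.N .I .F .F) .F .F) (.N (.N .O .F .F) (.N (.N .I .F .F) .F .F) .F) (.N (.N .O .F .F) .F .F)), 7866536, [1], 1127, 769, 770⟩,
  ⟨(.N (.N (.N .I .F .F) .F .F) (.N (.N .O .F .F) (.N (.N .O .F .F) .F .F) .F) .I), 4546694, [0], 1024, 0, 641⟩,
  ⟨(.N (.N (.N .I .F .F) .F .F) (.N (.N .O .F .F) (.N (.N .O .F .F) .F .F) .F) .O), 4123011, [1], 1091, 170, 0⟩,
  ⟨(.N (.N (.N .I .F .F) .F .F) (.N (.N .O .F .F) (.N (.N .O .F .F) .F .F) .F) (.N (.N .O .F .F) (.N (.N .I .F .F) .F .F) .F)), 7501461, [2], 1127, 1170, 1171⟩,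
  ⟨(.N (.N (.N .I .F .F) .F .F) (.N (.N .O .F .F) (.N .I .F .F) .F) (.N (.N .O .F .F) (.N (.N .O .F .F) .F .F) .F)), 7226206, [1], 131, 776, 777⟩,
  ⟨(.N (.N (.N .I .F .F) .F .F) (.N (.N .O .F .F) (.N (.N .O .F .F) .F .F) .F) (.N (.N .O .F .F) (.N (.N .O .F .F) .F .F) .F)), 7289751, [1, 1, 0], 965, 1173, 795⟩,
  ⟨(.N (.N (.N .I .F .F) .F .F) (.N (.N .O .F .F) (.N (.N .O .F .F) .F .F) .F) (.N (.N .O .F .F) .F .F)), 7669698, [2, 1, 0, 0], 934, 1172, 1174⟩,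
  ⟨(.N (.N (.N .I .F .F) .F .F) (.N (.N .O .F .F) .F .F) (.N (.N .O .F .F) .F .F)), 8042209, [1, 1, 0, 0], 934, 1169, 1175⟩,
  ⟨(.N (.N (.N .I .F .F) .F .F) (.N (.N .O .F .F) .F .F) .F), 8715836, [2, 0, 0], 934, 1168, 1176⟩,
  ⟨(.N (.N (.N .O .F .F) .F .F) (.N (.N .I .F .F) (.N .O .F .F) .F) (.N (.N .I .F .F) (.N (.N .I .F .F) .F .F) .F)), 7226206, [1], 888, 256, 258⟩,
  ⟨(.N (.N (.N .O .F .F) .F .F) (.N (.N .I .F .F) (.N (.N .I .F .F) .F .F) .F) (.N (.N .I .F .F) (.N (.N .I .F .F) .F .F) .F)), 7289751, [1, 1, 0], 1054, 255, 1178⟩,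
  ⟨(.N (.N (.N .O .F .F) .F .F) (.N (.N .I .F .F) (.N (.N .I .F .F) .F .F) .F) .I), 4123011, [1], 969, 0, 228⟩,
  ⟨(.N (.N (.N .O .F .F) .F .F) (.N (.N .I .F .F) (.N (.N .I .F .F) .F .F) .F) .O), 4546694, [0], 1138, 420, 0⟩,
  ⟨(.N (.N (.N .O .F .F) .F .F) (.N (.N .I .F .F) (.N (.N .I .F .F) .F .F) .F) (.N (.N .I .F .F) (.N (.N .O .F .F) .F .F) .F)), 7501461, [2], 1013, 1180, 1181⟩,
  ⟨(.N (.N (.N .O .F .F) .F .F) (.N (.N .I .F .F) (.N (.N .I .F .F) .F .F) .F) (.N (.N .I .F .F) .F .F)), 7669698, [2, 1, 0, 0], 934, 1179, 1182⟩,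
  ⟨(.N (.N (.N .O .F .F) .F .F) (.N (.N .I .F .F) (.N (.N .O .F .F) .F .F) .F) (.N (.N .I .F .F) .F .F)), 7866536, [1], 1013, 266, 268⟩,
  ⟨(.N (.N (.N .O .F .F) .F .F) (.N (.N .I .F .F) .F .F) (.N (.N .I .F .F) .F .F)), 8042209, [1, 1, 0, 0], 934, 1183, 1184⟩,
  ⟨(.N (.N (.N .O .F .F) .F .F) (.N (.N .I .F .F) .F .F) .F), 8715836, [2, 0, 0], 934, 1185, 1090⟩,
  ⟨(.N (.N (.N .O .F .F) .F .F) (.N (.N .O .F .F) .F .F) .F), 8595222, [0, 0], 965, 1013, 1091⟩,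
  ⟨(.N (.N (.N .I .F .F) .F .F) (.N (.N .I .F .F) .F .F) .F), 8595222, [0, 0], 1054, 969, 1127⟩]

theorem tabB_ok : tabOk tabB 4 (24577 / 10000) = true := by
  decide +kernel

theorem tabB_emp (k : ℕ) : Can k (emp k) (3 ^ 4 * ((24577 / 10000 : ℚ) : ℝ) ^ k * 10000000) := by
  have h := table_can tabB 4 (24577 / 10000) (by norm_num) tabB_ok k 934 (by decide +kernel) (emp k)
    (show Has _ k (emp k) from (rfl : emp k = emp k))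
  exact h

end Pool.Agent.H384R2.RM
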