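import Mathlib
import Pool.Agent.H306R2.RZ.Defs2

set_option autoImplicit false

namespace Pool.Agent.H384R2.RZ2_C2b

open Finset Filter Topology MeasureTheory Pool.Agent.H306R2.RZ

lemma abs_js_le (k : ℤ) (n : ℕ) : |js k n| ≤ 1 := by
  unfold js
  rcases jacobiSym.trichotomy k n with h | h | h <;> rw [h] <;> simp

lemma term_le (d : ℕ) (hd : d ≠ 0) (y y0 : ℝ) (hy0 : 0 < y0) (hy : y0 ≤ y) (n : ℕ) :
    |js (8 * (d : ℤ)) (n + 1) * Real.exp (-(Real.pi * ((n : ℝ) + 1) ^ 2 * y / (8 * d)))|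
      ≤ Real.exp (-(Real.pi / (8 * d) * y)) * Real.exp (-(Real.pi / (8 * d) * y0)) ^ n := by
  have hdR : (0 : ℝ) < d := by positivity
  have ha : 0 < Real.pi / (8 * d) := by positivity
  rw [abs_mul, abs_of_pos (Real.exp_pos _)]
  calc |js (8 * (d : ℤ)) (n + 1)| * Real.exp (-(Real.pi * ((n : ℝ) + 1) ^ 2 * y / (8 * d)))
      ≤ 1 * Real.exp (-(Real.pi * ((n : ℝ) + 1) ^ 2 * y / (8 * d))) :=
        mul_le_mul_of_nonneg_right (abs_js_le _ _) (Real.exp_pos _).le
    _ ≤ Real.exp (-(Real.pi / (8 * d) * y)) * Real.exp (-(Real.pi / (8 * d) * y0)) ^ n := by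
        rw [one_mul, ← Real.exp_nat_mul, ← Real.exp_add]
        apply Real.exp_le_exp.mpr
        have hn : (0 : ℝ) ≤ n := Nat.cast_nonneg n
        have e1 : Real.pi * ((n : ℝ) + 1) ^ 2 * y / (8 * d)
            = Real.pi / (8 * d) * (((n : ℝ) + 1) ^ 2 * y) := by ring
        rw [e1]
        have h1 : y + n * y0 ≤ ((n : ℝ) + 1) ^ 2 * y := by
          have h2 : (n : ℝ) * y0 ≤ n * y := mul_le_mul_of_nonneg_left hy hn
          nlinarith [mul_nonneg hn (hy0.le.trans hy), mul_nonneg (mul_nonneg hn hn) (hy0.le.trans hy)]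
        have h3 := mul_le_mul_of_nonneg_left h1 ha.le
        have e2 : Real.pi / (8 * d) * (y + n * y0)
          = Real.pi / (8 * d) * y + n * (Real.pi / (8 * d) * y0) := by ring
        linarith

lemma summable_geo (d : ℕ) (hd : d ≠ 0) (y0 : ℝ) (hy0 : 0 < y0) :
    Summable fun n : ℕ => Real.exp (-(Real.pi / (8 * d) * y0)) ^ n := by
  have hdR : (0 : ℝ) < d := by positivity
  refine summable_geometric_of_lt_one (Real.exp_pos _).le ?_
  rw [Real.exp_lt_one_iff]
  have : 0 < Real.pi / (8 * d) * y0 := by positivity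
  linarith

theorem C2b (d : ℕ) (hd : d ≠ 0) : ContinuousOn (th d) (Set.Ioi 0) ∧
    ∃ C c : ℝ, 0 < C ∧ 0 < c ∧ ∀ y : ℝ, 1 ≤ y → |th d y| ≤ C * Real.exp (-(c * y)) := by
  have hdR : (0 : ℝ) < d := by positivity
  have ha : 0 < Real.pi / (8 * d) := by positivity
  constructor
  · intro y hy
    have hy' : (0 : ℝ) < y := hy
    have hcont : ContinuousOn (th d) (Set.Ioi (y / 2)) := by
      unfold th
      refine continuousOn_tsum (u := fun n : ℕ => Real.exp (-(Real.pi / (8 * d) * (y / 2))) ^ n)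
        (fun n => by fun_prop) (summable_geo d hd (y / 2) (by positivity)) ?_
      intro n x hx
      have hx' : y / 2 ≤ x := le_of_lt hx
      rw [Real.norm_eq_abs]
      refine (term_le d hd x (y / 2) (by positivity) hx' n).trans ?_
      have h1 : Real.exp (-(Real.pi / (8 * d) * x)) ≤ 1 := by
        rw [Real.exp_le_one_iff]
        have : 0 < Real.pi / (8 * d) * x := mul_pos ha (by linarith)
        linarith
      calc Real.exp (-(Real.pi / (8 * d) * x)) * Real.exp (-(Real.pi / (8 * d) * (y / 2))) ^ n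
          ≤ 1 * Real.exp (-(Real.pi / (8 * d) * (y / 2))) ^ n :=
            mul_le_mul_of_nonneg_right h1 (by positivity)
        _ = _ := one_mul _
    exact (hcont.continuousAt (Ioi_mem_nhds (by linarith))).continuousWithinAt
  · refine ⟨∑' n : ℕ, Real.exp (-(Real.pi / (8 * d) * 1)) ^ n, Real.pi / (8 * d), ?_, ha, ?_⟩
    · exact (summable_geo d hd 1 one_pos).tsum_pos (fun n => by positivity) 0 (by simp)
    · intro y hy
      have hs := summable_geo d hd 1 one_pos
      have hb := fun n => term_le d hd y 1 one_pos hy n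
      have hs2 : Summable fun n : ℕ =>
          Real.exp (-(Real.pi / (8 * d) * y)) * Real.exp (-(Real.pi / (8 * d) * 1)) ^ n :=
        hs.mul_left _
      have hs3 : Summable fun n : ℕ => |js (8 * (d : ℤ)) (n + 1)
          * Real.exp (-(Real.pi * ((n : ℝ) + 1) ^ 2 * y / (8 * d)))| :=
        Summable.of_nonneg_of_le (fun n => abs_nonneg _) hb hs2
      unfold th
      calc |∑' n : ℕ, js (8 * (d : ℤ)) (n + 1)
              * Real.exp (-(Real.pi * ((n : ℝ) + 1) ^ 2 * y / (8 * d)))|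
          ≤ ∑' n : ℕ, |js (8 * (d : ℤ)) (n + 1)
              * Real.exp (-(Real.pi * ((n : ℝ) + 1) ^ 2 * y / (8 * d)))| := by
            have := norm_tsum_le_tsum_norm (f := fun n : ℕ => js (8 * (d : ℤ)) (n + 1)
              * Real.exp (-(Real.pi * ((n : ℝ) + 1) ^ 2 * y / (8 * d)))) (by
                simpa [Real.norm_eq_abs] using hs3)
            simpa [Real.norm_eq_abs] using this
        _ ≤ ∑' n : ℕ, Real.exp (-(Real.pi / (8 * d) * y))
              * Real.exp (-(Real.pi / (8 * d) * 1)) ^ n := hs3.tsum_le_tsum hb hs2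
        _ = (∑' n : ℕ, Real.exp (-(Real.pi / (8 * d) * 1)) ^ n)
              * Real.exp (-(Real.pi / (8 * d) * y)) := by rw [tsum_mul_left, mul_comm]

end Pool.Agent.H384R2.RZ2_C2b
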