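import Mathlib

set_option autoImplicit false

open Finset

namespace Pool.Agent.H384R2.RuzsaEq

/-- `A` is admissible: it contains no pairwise distinct `x, y, z, w` with `x + 3y = 2z + 2w`. -/
def Admissible (A : Finset ℕ) : Prop :=
  ¬ ∃ x ∈ A, ∃ y ∈ A, ∃ z ∈ A, ∃ w ∈ A,
    x ≠ y ∧ x ≠ z ∧ x ≠ w ∧ y ≠ z ∧ y ≠ w ∧ z ≠ w ∧ x + 3 * y = 2 * z + 2 * w

/-- `f N` is the maximum of `|A|` over all admissible `A ⊆ {1, …, N}`. -/
noncomputable def f (N : ℕ) : ℕ :=
  sSup {k : ℕ | ∃ A : Finset ℕ, A ⊆ Finset.Icc 1 N ∧ Admissible A ∧ A.card = k}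

lemma f_bdd (N : ℕ) :
    BddAbove {k : ℕ | ∃ A : Finset ℕ, A ⊆ Finset.Icc 1 N ∧ Admissible A ∧ A.card = k} := by
  refine ⟨N, ?_⟩
  rintro k ⟨A, hA, -, rfl⟩
  simpa using Finset.card_le_card hA

lemma le_f {N : ℕ} {A : Finset ℕ} (hA : A ⊆ Finset.Icc 1 N) (hadm : Admissible A) :
    A.card ≤ f N :=
  le_csSup (f_bdd N) ⟨A, hA, hadm, rfl⟩

/-! ### digit sums -/

lemma digits_zero (b : ℤ) : ∀ (D : ℕ) (u : Fin D → ℤ), (∀ i, |u i| < b) →
    ∑ i, u i * b ^ (i : ℕ) = 0 → ∀ i, u i = 0 := by
  intro D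
  induction D with
  | zero => intro u _ _ i; exact i.elim0
  | succ D ih =>
    intro u hu hs
    rw [Fin.sum_univ_succ] at hs
    have h1 : ∑ i : Fin D, u i.succ * b ^ ((i.succ : Fin (D+1)) : ℕ)
        = b * ∑ i : Fin D, u i.succ * b ^ (i : ℕ) := by
      rw [Finset.mul_sum]
      refine Finset.sum_congr rfl fun i _ => ?_
      rw [Fin.val_succ, pow_succ]; ring
    rw [h1] at hs
    have h0 : u 0 = 0 := by
      have hd : b ∣ u 0 := by
        refine ⟨-∑ i : Fin D, u i.succ * b ^ (i : ℕ), ?_⟩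
        simp only [Fin.val_zero, pow_zero, mul_one] at hs
        linarith
      exact Int.eq_zero_of_abs_lt_dvd hd (hu 0)
    have hb : b ≠ 0 := by
      have := hu 0
      have h2 := abs_nonneg (u 0)
      omega
    have h2 : ∑ i : Fin D, u i.succ * b ^ (i : ℕ) = 0 := by
      rw [h0] at hs
      simp only [zero_mul, zero_add] at hs
      exact (mul_eq_zero.mp hs).resolve_left hb
    have h3 := ih (fun i => u i.succ) (fun i => hu i.succ) h2
    intro i
    refine Fin.cases h0 h3 i

lemma digits_lt (b : ℕ) : ∀ (D : ℕ) (u : Fin D → ℕ), (∀ i, u i < b) →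
    ∑ i, u i * b ^ (i : ℕ) < b ^ D := by
  intro D
  induction D with
  | zero => intro u _; simp
  | succ D ih =>
    intro u hu
    rw [Fin.sum_univ_succ]
    have h1 : ∑ i : Fin D, u i.succ * b ^ ((i.succ : Fin (D+1)) : ℕ)
        = b * ∑ i : Fin D, u i.succ * b ^ (i : ℕ) := by
      rw [Finset.mul_sum]
      refine Finset.sum_congr rfl fun i _ => ?_
      rw [Fin.val_succ, pow_succ]; ring
    rw [h1]
    have h3 := ih (fun i => u i.succ) (fun i => hu i.succ)
    have h0 := hu 0
    simp only [Fin.val_zero, pow_zero, mul_one]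
    calc u 0 + b * ∑ i : Fin D, u i.succ * b ^ (i : ℕ)
        < b + b * ∑ i : Fin D, u i.succ * b ^ (i : ℕ) := by omega
      _ = b * (∑ i : Fin D, u i.succ * b ^ (i : ℕ) + 1) := by ring
      _ ≤ b * b ^ D := Nat.mul_le_mul_left _ h3
      _ = b ^ (D + 1) := by rw [pow_succ]; ring

/-! ### lifting along the digits in base `m` -/

section lift

variable {W ι : Type*} (m : ℕ) (v : W → ι → ℕ)

/-- vector with base-`m` digit vectors `v (t 0), v (t 1), …` -/
def vec (r : ℕ) (t : Fin r → W) (i : ι) : ℕ := ∑ e : Fin r, v (t e) i * m ^ (e : ℕ)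

lemma vec_succ (r : ℕ) (t : Fin (r+1) → W) (i : ι) :
    vec m v (r+1) t i = v (t 0) i + m * vec m v r (fun e => t e.succ) i := by
  unfold vec
  rw [Fin.sum_univ_succ, Finset.mul_sum]
  simp only [Fin.val_zero, pow_zero, mul_one]
  congr 1
  refine Finset.sum_congr rfl fun e _ => ?_
  rw [Fin.val_succ, pow_succ]; ring

lemma lift_SA (hm : 0 < m)
    (hSA : ∀ x y z w : W, (∀ i, (v x i + 3 * v y i) % m = (2 * v z i + 2 * v w i) % m) →
      x = y ∧ y = z ∧ z = w) :
    ∀ (r : ℕ) (x y z w : Fin r → W),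
      (∀ i, vec m v r x i + 3 * vec m v r y i = 2 * vec m v r z i + 2 * vec m v r w i) →
      x = y ∧ y = z ∧ z = w := by
  intro r
  induction r with
  | zero =>
    intro x y z w _
    refine ⟨?_, ?_, ?_⟩ <;> · funext e; exact e.elim0
  | succ r ih =>
    intro x y z w h
    have h0 : x 0 = y 0 ∧ y 0 = z 0 ∧ z 0 = w 0 := by
      refine hSA _ _ _ _ fun i => ?_
      have hi := h i
      rw [vec_succ, vec_succ, vec_succ, vec_succ] at hi
      have e1 : (v (x 0) i + 3 * v (y 0) i + m * (vec m v r (fun e => x e.succ) i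
          + 3 * vec m v r (fun e => y e.succ) i)) % m
          = (v (x 0) i + 3 * v (y 0) i) % m := Nat.add_mul_mod_self_left _ _ _
      have e2 : (2 * v (z 0) i + 2 * v (w 0) i + m * (2 * vec m v r (fun e => z e.succ) i
          + 2 * vec m v r (fun e => w e.succ) i)) % m
          = (2 * v (z 0) i + 2 * v (w 0) i) % m := Nat.add_mul_mod_self_left _ _ _
      rw [← e1, ← e2]
      congr 1
      linarith
    have h1 := ih (fun e => x e.succ) (fun e => y e.succ) (fun e => z e.succ)
      (fun e => w e.succ) (by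
        intro i
        have hi := h i
        rw [vec_succ, vec_succ, vec_succ, vec_succ, h0.1, h0.2.1, h0.2.2] at hi
        have : m * (vec m v r (fun e => x e.succ) i + 3 * vec m v r (fun e => y e.succ) i)
            = m * (2 * vec m v r (fun e => z e.succ) i + 2 * vec m v r (fun e => w e.succ) i) := by
          linarith
        exact Nat.eq_of_mul_eq_mul_left hm this)
    refine ⟨?_, ?_, ?_⟩
    · funext e; exact Fin.cases h0.1 (fun e => congrFun h1.1 e) e
    · funext e; exact Fin.cases h0.2.1 (fun e => congrFun h1.2.1 e) e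
    · funext e; exact Fin.cases h0.2.2 (fun e => congrFun h1.2.2 e) e

end lift

/-! ### from strongly admissible families in `(ℤ/m)^ι` to `[N]` -/

theorem f_ge_of_SA {W ι : Type*} [Fintype W] [DecidableEq W] [Fintype ι] (m : ℕ) (hm : 0 < m)
    (v : W → ι → ℕ) (hv : ∀ x i, v x i < m)
    (hSA : ∀ x y z w : W, (∀ i, (v x i + 3 * v y i) % m = (2 * v z i + 2 * v w i) % m) →
      x = y ∧ y = z ∧ z = w) (r : ℕ) :
    Fintype.card W ^ r ≤ f ((4 * m ^ r) ^ Fintype.card ι) := by
  classical
  set D := Fintype.card ι with hD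
  set e : ι ≃ Fin D := Fintype.equivFin ι with he
  set b : ℕ := 4 * m ^ r with hb
  have hmr : 0 < m ^ r := pow_pos hm r
  let X : (Fin r → W) → ℕ := fun t => 1 + ∑ j : Fin D, vec m v r t (e.symm j) * b ^ (j : ℕ)
  have hvec : ∀ t i, vec m v r t i < m ^ r := fun t i => digits_lt m r _ fun k => hv _ _
  have key : ∀ x y z w : Fin r → W, X x + 3 * X y = 2 * X z + 2 * X w →
      x = y ∧ y = z ∧ z = w := by
    intro x y z w h
    refine lift_SA m v hm hSA r x y z w ?_
    have hz := digits_zero (b : ℤ) D (fun j => (vec m v r x (e.symm j) : ℤ)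
      + 3 * vec m v r y (e.symm j) - 2 * vec m v r z (e.symm j) - 2 * vec m v r w (e.symm j))
      (by
        intro j
        have h1 := hvec x (e.symm j)
        have h2 := hvec y (e.symm j)
        have h3 := hvec z (e.symm j)
        have h4 := hvec w (e.symm j)
        rw [abs_lt]
        constructor
        · push_cast [hb]; zify at h1 h2 h3 h4; linarith
        · push_cast [hb]; zify at h1 h2 h3 h4; linarith)
      (by
        have h' : ((X x : ℕ) : ℤ) + 3 * (X y : ℕ) = 2 * (X z : ℕ) + 2 * (X w : ℕ) := by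
          exact_mod_cast h
        simp only [X] at h'
        push_cast at h'
        have : ∑ j : Fin D, ((vec m v r x (e.symm j) : ℤ)
            + 3 * vec m v r y (e.symm j) - 2 * vec m v r z (e.symm j)
            - 2 * vec m v r w (e.symm j)) * (b : ℤ) ^ (j : ℕ)
          = ∑ j : Fin D, (vec m v r x (e.symm j) : ℤ) * (b : ℤ) ^ (j : ℕ)
            + 3 * ∑ j : Fin D, (vec m v r y (e.symm j) : ℤ) * (b : ℤ) ^ (j : ℕ)
            - 2 * ∑ j : Fin D, (vec m v r z (e.symm j) : ℤ) * (b : ℤ) ^ (j : ℕ)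
            - 2 * ∑ j : Fin D, (vec m v r w (e.symm j) : ℤ) * (b : ℤ) ^ (j : ℕ) := by
          simp only [Finset.mul_sum, ← Finset.sum_add_distrib, ← Finset.sum_sub_distrib]
          refine Finset.sum_congr rfl fun j _ => ?_
          ring
        rw [this]
        linarith)
    intro i
    have := hz (e i)
    simp only [Equiv.symm_apply_apply] at this
    zify
    linarith
  have hinj : Function.Injective X := by
    intro x y hxy
    exact (key x y x x (by rw [← hxy]; ring)).1
  let A : Finset ℕ := Finset.univ.image X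
  have hcard : A.card = Fintype.card W ^ r := by
    rw [Finset.card_image_of_injective _ hinj, Finset.card_univ, Fintype.card_fun,
      Fintype.card_fin]
  rw [← hcard]
  refine le_f ?_ ?_
  · intro a ha
    obtain ⟨t, -, rfl⟩ := Finset.mem_image.mp ha
    rw [Finset.mem_Icc]
    refine ⟨Nat.le_add_right _ _, ?_⟩
    have h1 : ∑ j : Fin D, vec m v r t (e.symm j) * b ^ (j : ℕ) < b ^ D := by
      refine digits_lt b D _ fun j => ?_
      have := hvec t (e.symm j)
      omega
    simp only [X]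
    omega
  · rintro ⟨x, hx, y, hy, z, hz, w, hw, hxy, -, -, -, -, -, h⟩
    obtain ⟨tx, -, rfl⟩ := Finset.mem_image.mp hx
    obtain ⟨ty, -, rfl⟩ := Finset.mem_image.mp hy
    obtain ⟨tz, -, rfl⟩ := Finset.mem_image.mp hz
    obtain ⟨tw, -, rfl⟩ := Finset.mem_image.mp hw
    exact hxy (by rw [(key tx ty tz tw h).1])

end Pool.Agent.H384R2.RuzsaEq
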