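import Mathlib
import Pool.Agent.H384R2.RuzsaEq

set_option autoImplicit false

open Finset

namespace Pool.Agent.H384R2.RuzsaEq

section words

variable {K k n : ℕ}

/-- composition of a word -/
def cnt (w : Fin n → Fin K) (s : Fin K) : Fin (n + 1) :=
  ⟨(Finset.univ.filter fun j => w j = s).card, by
    have := Finset.card_filter_le (Finset.univ : Finset (Fin n)) (fun j => w j = s)
    simp at this
    omega⟩

lemma sum_cnt (w : Fin n → Fin K) (p : Fin K → ℤ) :
    ∑ j, p (w j) = ∑ s, ((cnt w s : ℕ) : ℤ) * p s := by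
  rw [← Finset.sum_fiberwise (s := Finset.univ) (g := w) (f := fun j => p (w j))]
  refine Finset.sum_congr rfl fun s _ => ?_
  rw [Finset.sum_congr rfl (g := fun _ => p s)]
  · simp [cnt]
  · intro j hj
    rw [(Finset.mem_filter.mp hj).2]

lemma exists_type (hK : 0 < K) :
    ∃ μ : Fin K → Fin (n + 1),
      K ^ n ≤ (n + 1) ^ K * Fintype.card {w : Fin n → Fin K // cnt w = μ} := by
  classical
  by_contra hcon
  push Not at hcon
  have h1 : Fintype.card (Fin n → Fin K) = ∑ μ : Fin K → Fin (n + 1),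
      Fintype.card {w : Fin n → Fin K // cnt w = μ} := by
    rw [← Fintype.card_sigma]
    exact Fintype.card_congr (Equiv.sigmaFiberEquiv _).symm
  have h2 : (n + 1) ^ K * Fintype.card (Fin n → Fin K) < (n + 1) ^ K * K ^ n := by
    rw [h1, Finset.mul_sum]
    calc ∑ μ : Fin K → Fin (n + 1), (n + 1) ^ K * Fintype.card {w : Fin n → Fin K // cnt w = μ}
        < ∑ _μ : Fin K → Fin (n + 1), K ^ n := by
          refine Finset.sum_lt_sum_of_nonempty ?_ fun μ _ => hcon μ
          exact Finset.univ_nonempty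
      _ = (n + 1) ^ K * K ^ n := by simp
  rw [Fintype.card_fun, Fintype.card_fin, Fintype.card_fin] at h2
  exact lt_irrefl _ h2

variable (m : ℕ) (S : Fin K → Fin k → ℕ)

lemma words_SA (p q h : Fin K → ℤ) (hz : ∀ a, p a + q a + 2 * h a = 0)
    (cert : ∀ a b c d : Fin K, (∀ l, (S a l + 3 * S b l) % m = (2 * S c l + 2 * S d l) % m) →
      (a = b ∧ b = c ∧ c = d) ∨ 0 < p a + q b + h c + h d)
    (μ : Fin K → Fin (n + 1)) (x y z w : {w : Fin n → Fin K // cnt w = μ})
    (H : ∀ i : Fin n × Fin k, (S (x.1 i.1) i.2 + 3 * S (y.1 i.1) i.2) % m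
      = (2 * S (z.1 i.1) i.2 + 2 * S (w.1 i.1) i.2) % m) :
    x = y ∧ y = z ∧ z = w := by
  have hj : ∀ j, (x.1 j = y.1 j ∧ y.1 j = z.1 j ∧ z.1 j = w.1 j) ∨
      0 < p (x.1 j) + q (y.1 j) + h (z.1 j) + h (w.1 j) := fun j =>
    cert _ _ _ _ fun l => H (j, l)
  have hnn : ∀ j, 0 ≤ p (x.1 j) + q (y.1 j) + h (z.1 j) + h (w.1 j) := by
    intro j
    rcases hj j with ⟨h1, h2, h3⟩ | h1
    · rw [h1, h2, h3]
      have := hz (w.1 j)
      linarith
    · exact h1.le
  have hsum : ∑ j, (p (x.1 j) + q (y.1 j) + h (z.1 j) + h (w.1 j)) = 0 := by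
    rw [Finset.sum_add_distrib, Finset.sum_add_distrib, Finset.sum_add_distrib,
      sum_cnt x.1 p, sum_cnt y.1 q, sum_cnt z.1 h, sum_cnt w.1 h, x.2, y.2, z.2, w.2,
      ← Finset.sum_add_distrib, ← Finset.sum_add_distrib, ← Finset.sum_add_distrib]
    refine Finset.sum_eq_zero fun s _ => ?_
    have := hz s
    have e : ((μ s : ℕ) : ℤ) * p s + (μ s : ℕ) * q s + (μ s : ℕ) * h s + (μ s : ℕ) * h s
      = (μ s : ℕ) * (p s + q s + 2 * h s) := by ring
    rw [e, this, mul_zero]
  have hall := (Finset.sum_eq_zero_iff_of_nonneg fun j _ => hnn j).mp hsum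
  have htriv : ∀ j, x.1 j = y.1 j ∧ y.1 j = z.1 j ∧ z.1 j = w.1 j := by
    intro j
    rcases hj j with h1 | h1
    · exact h1
    · have := hall j (Finset.mem_univ j)
      omega
  refine ⟨?_, ?_, ?_⟩
  · exact Subtype.ext (funext fun j => (htriv j).1)
  · exact Subtype.ext (funext fun j => (htriv j).2.1)
  · exact Subtype.ext (funext fun j => (htriv j).2.2)

/-- the finite bound from a certificate -/
theorem f_ge_cert (hm : 0 < m) (hK : 0 < K) (hS : ∀ a l, S a l < m)
    (p q h : Fin K → ℤ) (hz : ∀ a, p a + q a + 2 * h a = 0)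
    (cert : ∀ a b c d : Fin K, (∀ l, (S a l + 3 * S b l) % m = (2 * S c l + 2 * S d l) % m) →
      (a = b ∧ b = c ∧ c = d) ∨ 0 < p a + q b + h c + h d) (n : ℕ) :
    ∃ M : ℕ, K ^ n ≤ (n + 1) ^ K * M ∧ ∀ r, M ^ r ≤ f ((4 * m ^ r) ^ (n * k)) := by
  classical
  obtain ⟨μ, hμ⟩ := exists_type (K := K) (n := n) hK
  refine ⟨_, hμ, fun r => ?_⟩
  have := f_ge_of_SA (W := {w : Fin n → Fin K // cnt w = μ}) (ι := Fin n × Fin k) m hm
    (fun w i => S (w.1 i.1) i.2) (fun w i => hS _ _)
    (fun x y z w H => words_SA m S p q h hz cert μ x y z w H) r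
  simpa using this

end words

/-! ### asymptotics -/

lemma f_mono {N N' : ℕ} (h : N ≤ N') : f N ≤ f N' := by
  refine csSup_le_csSup (f_bdd N') ⟨0, ∅, by simp, ?_, by simp⟩ ?_
  · rintro ⟨x, hx, -⟩; simp at hx
  · rintro k ⟨A, hA, hadm, rfl⟩
    exact ⟨A, hA.trans (Finset.Icc_subset_Icc_right h), hadm, rfl⟩

theorem f_ge_rpow {K k : ℕ} (m : ℕ) (S : Fin K → Fin k → ℕ) (hm : 2 ≤ m) (hK : 2 ≤ K) (hk : 0 < k)
    (hS : ∀ a l, S a l < m)
    (p q h : Fin K → ℤ) (hz : ∀ a, p a + q a + 2 * h a = 0)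
    (cert : ∀ a b c d : Fin K, (∀ l, (S a l + 3 * S b l) % m = (2 * S c l + 2 * S d l) % m) →
      (a = b ∧ b = c ∧ c = d) ∨ 0 < p a + q b + h c + h d)
    (c : ℝ) (hc0 : 0 ≤ c) (hc : c < Real.log K / (k * Real.log m)) :
    ∃ N₀ : ℕ, ∀ N ≥ N₀, (N : ℝ) ^ c ≤ f N := by
  have hlm : 0 < Real.log m := Real.log_pos (by exact_mod_cast hm)
  have hkR : (0 : ℝ) < k := by exact_mod_cast hk
  have hkm : 0 < (k : ℝ) * Real.log m := mul_pos hkR hlm
  have hδ : 0 < Real.log K - c * (k * Real.log m) := by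
    rw [lt_div_iff₀ hkm] at hc
    linarith
  set δ := Real.log K - c * (k * Real.log m) with hδdef
  -- choose n
  obtain ⟨n, hn1, hn⟩ : ∃ n : ℕ, 1 ≤ n ∧ (K : ℝ) * Real.log (n + 1) < n * δ := by
    have hlo := Real.isLittleO_log_id_atTop
    have h1 := hlo.def (show (0 : ℝ) < δ / (2 * (K : ℝ)) / 2 by
      have : (0 : ℝ) < K := by positivity
      positivity)
    have h2 := (tendsto_natCast_atTop_atTop (R := ℝ)).eventually h1
    obtain ⟨n, hn⟩ := (h2.and (Filter.eventually_ge_atTop 2)).exists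
    obtain ⟨ha, hb⟩ := hn
    refine ⟨n - 1, by omega, ?_⟩
    have hKpos : (0 : ℝ) < K := by positivity
    have hcast : ((n - 1 : ℕ) : ℝ) = (n : ℝ) - 1 := by
      rw [Nat.cast_sub (by omega)]; simp
    rw [hcast]
    have hn2 : (2 : ℝ) ≤ n := by exact_mod_cast hb
    simp only [id] at ha
    rw [Real.norm_of_nonneg (Real.log_nonneg (by linarith)),
      Real.norm_of_nonneg (by linarith)] at ha
    have e1 : (n : ℝ) - 1 + 1 = n := by ring
    rw [e1]
    have h3 : (K : ℝ) * Real.log n ≤ K * (δ / (2 * (K : ℝ)) / 2 * n) :=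
      mul_le_mul_of_nonneg_left ha hKpos.le
    have h4 : K * (δ / (2 * (K : ℝ)) / 2 * n) = δ * n / 4 := by
      field_simp
      ring
    rw [h4] at h3
    nlinarith
  obtain ⟨M, hM1, hM2⟩ := f_ge_cert m S (by omega) (by omega) hS p q h hz cert n
  have hM0 : 0 < M := by
    by_contra h0
    have : M = 0 := by omega
    rw [this] at hM1
    have : 0 < K ^ n := pow_pos (by omega) n
    omega
  have hMR : (0 : ℝ) < M := by exact_mod_cast hM0
  -- log M ≥ n log K - K log (n+1)
  have hlogM : (n : ℝ) * Real.log K - K * Real.log (n + 1) ≤ Real.log M := by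
    have h1 : ((K : ℝ) ^ n) ≤ ((n : ℝ) + 1) ^ K * M := by exact_mod_cast hM1
    have hKpos : (0 : ℝ) < K := by positivity
    have h2 := Real.log_le_log (by positivity) h1
    rw [Real.log_mul (by positivity) (by positivity), Real.log_pow, Real.log_pow] at h2
    linarith
  have hgap : 0 < Real.log M - c * (n * k * Real.log m) := by
    have : (n : ℝ) * δ = n * Real.log K - c * (n * k * Real.log m) := by
      rw [hδdef]; ring
    linarith
  set g := Real.log M - c * (n * k * Real.log m) with hg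
  -- r large
  obtain ⟨r₀, hr₀⟩ := exists_nat_gt ((c * (n * k * (Real.log 4 + Real.log m))) / g)
  have hmR : (0 : ℝ) < m := by positivity
  have hnk : 0 < n * k := Nat.mul_pos (by omega) hk
  refine ⟨(4 * m ^ r₀) ^ (n * k), fun N hN => ?_⟩
  -- largest r with (4 m^r)^(nk) ≤ N
  have hex : ∃ r, r₀ ≤ r ∧ (4 * m ^ r) ^ (n * k) ≤ N ∧ N < (4 * m ^ (r + 1)) ^ (n * k) := by
    have hunb : ∃ r, N < (4 * m ^ r) ^ (n * k) := by
      refine ⟨N, ?_⟩
      calc N < 2 ^ N := Nat.lt_two_pow_self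
        _ ≤ m ^ N := Nat.pow_le_pow_left hm N
        _ ≤ 4 * m ^ N := Nat.le_mul_of_pos_left _ (by norm_num)
        _ = (4 * m ^ N) ^ 1 := (pow_one _).symm
        _ ≤ (4 * m ^ N) ^ (n * k) := Nat.pow_le_pow_right (by
            have : 0 < m ^ N := pow_pos (by omega) N
            omega) hnk
    classical
    have hspec := Nat.find_spec hunb
    have hmin : ∀ t, t < Nat.find hunb → (4 * m ^ t) ^ (n * k) ≤ N := fun t ht => by
      have := Nat.find_min hunb ht
      omega
    have hpos : r₀ < Nat.find hunb := by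
      by_contra hle
      push Not at hle
      have : (4 * m ^ (Nat.find hunb)) ^ (n * k) ≤ (4 * m ^ r₀) ^ (n * k) :=
        Nat.pow_le_pow_left (Nat.mul_le_mul_left _ (Nat.pow_le_pow_right (by omega) hle)) _
      omega
    refine ⟨Nat.find hunb - 1, by omega, hmin _ (by omega), ?_⟩
    have e : Nat.find hunb - 1 + 1 = Nat.find hunb := by omega
    rw [e]
    exact hspec
  obtain ⟨r, hr, hrN, hNr⟩ := hex
  have h1 : (M : ℝ) ^ r ≤ f N := by
    have := (hM2 r).trans (f_mono hrN)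
    exact_mod_cast this
  have hNpos : 0 < N := by
    have : 0 < (4 * m ^ r) ^ (n * k) := pow_pos (by
      have : 0 < m ^ r := pow_pos (by omega) r
      omega) _
    omega
  have hNR : (0 : ℝ) < N := by exact_mod_cast hNpos
  refine le_trans ?_ h1
  rw [← Real.log_le_log_iff (Real.rpow_pos_of_pos hNR c) (by positivity), Real.log_rpow hNR,
    Real.log_pow]
  have hlogN : Real.log N ≤ n * k * (Real.log 4 + (r + 1) * Real.log m) := by
    have h2 : (N : ℝ) ≤ ((4 : ℝ) * (m : ℝ) ^ (r + 1)) ^ (n * k) := by exact_mod_cast hNr.le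
    have h3 := Real.log_le_log hNR h2
    rw [Real.log_pow, Real.log_mul (by norm_num) (by positivity), Real.log_pow] at h3
    push_cast at h3
    exact h3
  have h5 : c * Real.log N ≤ c * (n * k * (Real.log 4 + (r + 1) * Real.log m)) :=
    mul_le_mul_of_nonneg_left hlogN hc0
  have h6 : c * (n * k * (Real.log 4 + Real.log m)) ≤ r * g := by
    have hrr : (r₀ : ℝ) ≤ r := by exact_mod_cast hr
    rw [div_lt_iff₀ hgap] at hr₀
    calc c * (n * k * (Real.log 4 + Real.log m)) ≤ r₀ * g := hr₀.le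
      _ ≤ r * g := mul_le_mul_of_nonneg_right hrr hgap.le
  have h7 : c * (n * k * (Real.log 4 + (r + 1) * Real.log m))
      = c * (n * k * (Real.log 4 + Real.log m)) + r * (c * (n * k * Real.log m)) := by ring
  have h8 : (r : ℝ) * g = r * Real.log M - r * (c * (n * k * Real.log m)) := by rw [hg]; ring
  linarith

end Pool.Agent.H384R2.RuzsaEq
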